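import Pool.Agent.SPN.Defs

set_option autoImplicit false

namespace Pool.Agent.SPN

open Finset Pointwise Pool.Agent.MP_8507d5_co

universe u

theorem Adm.dvd {n h d : ℕ} (ha : Adm n h) (hd : d ∣ n) : Adm d h :=
  fun e he => ha e (he.trans hd)

theorem Adm.odd {n h : ℕ} (hh : 3 ≤ h) (ha : Adm n h) : ¬ 2 ∣ n := by
  intro h2
  rcases ha 2 h2 with h1 | h1 <;> rw [Nat.mod_eq_of_lt (by omega)] at h1 <;> omega

theorem Adm.pos {n h : ℕ} (hh : 3 ≤ h) (ha : Adm n h) : 0 < n := by
  rcases Nat.eq_zero_or_pos n with h0 | h0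
  · subst h0; exact absurd (dvd_zero 2) (ha.odd hh)
  · exact h0

theorem Adm.cases {n h d : ℕ} (ha : Adm n h) (hd : d ∣ n) :
    d = h * (d / h) ∨ d = h * (d / h) + 1 := by
  have h0 := Nat.div_add_mod d h
  rcases ha d hd with h1 | h1
  · left; omega
  · right; omega

theorem Adm.prime {n h : ℕ} (hh : 3 ≤ h) (ha : Adm n h) (hn : h ∣ n) : h.Prime := by
  rw [Nat.prime_def_minFac]
  refine ⟨by omega, ?_⟩
  have h1 : h.minFac ∣ n := (Nat.minFac_dvd h).trans hn
  have h2 : h.minFac ≤ h := Nat.minFac_le (by omega)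
  have h3 : h.minFac ≠ 1 := by rw [Ne, Nat.minFac_eq_one_iff]; omega
  rcases Nat.lt_or_ge h.minFac h with h4 | h4
  · exfalso
    rcases ha _ h1 with h5 | h5 <;> rw [Nat.mod_eq_of_lt h4] at h5
    · have := Nat.minFac_pos h; omega
    · exact h3 h5
  · omega

theorem kk_adm {h d : ℕ} (hh : 3 ≤ h) (hd : d = h * (d / h) ∨ d = h * (d / h) + 1) :
    kk d h = d / h := by
  unfold kk
  rw [Nat.div_eq_iff (by omega)]
  generalize d / h = e at hd
  have h1 : h * e = e * h := by ring
  have h2 : (e + 1) * h = e * h + h := by ring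
  rcases hd with hd | hd
  · constructor
    · omega
    · omega
  · constructor
    · omega
    · omega

theorem vv_adm {n h : ℕ} (hh : 3 ≤ h) (ha : Adm n h) : vv n h = n / h := by
  have hn := ha.pos hh
  apply le_antisymm
  · obtain ⟨d, hd, h1⟩ := exists_vv n h hn
    rw [h1, kk_adm hh (ha.cases hd), Nat.le_div_iff_mul_le (by omega)]
    have h2 : d / h * h ≤ d := Nat.div_mul_le_self d h
    calc d / h * (n / d) * h = (d / h * h) * (n / d) := by ring
      _ ≤ d * (n / d) := Nat.mul_le_mul_right _ h2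
      _ = n := Nat.mul_div_cancel' hd
  · have h1 := le_vv n h n hn (dvd_refl n)
    rwa [kk_adm hh (ha.cases (dvd_refl n)), Nat.div_self hn, mul_one] at h1

/-- Admissible `n = hk + 1` with `1 ≤ k ≤ 4` is prime. -/
theorem Adm.prime_of_small {n h k : ℕ} (hh : 3 ≤ h) (ha : Adm n h) (hn : n = h * k + 1)
    (hk1 : 1 ≤ k) (hk : k ≤ 4) : n.Prime := by
  rw [Nat.prime_def_minFac]
  have hn2 : 2 ≤ n := by
    have : h * 1 ≤ h * k := Nat.mul_le_mul_left _ hk1
    omega
  refine ⟨hn2, ?_⟩
  set d := n.minFac with hd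
  have hdn : d ∣ n := Nat.minFac_dvd n
  have hd1 : d ≠ 1 := by rw [hd, Ne, Nat.minFac_eq_one_iff]; omega
  have hnoth : ∀ e, e ∣ n → e = h * (e / h) + 1 := by
    intro e he
    rcases ha.cases he with h1 | h1
    · exfalso
      have h2 : h ∣ n := (Dvd.intro _ h1.symm).trans he
      rw [hn] at h2
      have h3 : h ∣ 1 := (Nat.dvd_add_right (Dvd.intro _ rfl)).mp h2
      have := Nat.le_of_dvd one_pos h3
      omega
    · exact h1
  obtain ⟨e, he⟩ := hdn
  have he2 : e ∣ n := ⟨d, by rw [he]; ring⟩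
  have h1 := hnoth d ⟨e, he⟩
  have h2 := hnoth e he2
  by_contra hne
  have he1 : e ≠ 1 := by
    intro h3; rw [h3, mul_one] at he; exact hne he.symm
  generalize d / h = s at h1
  generalize e / h = t at h2
  have hs : 1 ≤ s := by
    rcases Nat.eq_zero_or_pos s with h0 | h0
    · exfalso; rw [h0] at h1; omega
    · exact h0
  have ht : 1 ≤ t := by
    rcases Nat.eq_zero_or_pos t with h0 | h0
    · exfalso; rw [h0] at h2; omega
    · exact h0
  have h5 : h * k = h * (h * (s * t) + s + t) := by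
    have : h * k + 1 = (h * s + 1) * (h * t + 1) := by
      rw [← hn]; conv_lhs => rw [he]
      rw [← h1, ← h2]
    have h6 : (h * s + 1) * (h * t + 1) = h * (h * (s * t) + s + t) + 1 := by ring
    omega
  have h6 : k = h * (s * t) + s + t := Nat.eq_of_mul_eq_mul_left (by omega) h5
  have h7 : 1 ≤ s * t := Nat.mul_pos hs ht
  have h8 : 3 * 1 ≤ h * (s * t) := Nat.mul_le_mul hh h7
  omega

variable {G : Type u} [AddCommGroup G] [Fintype G] [DecidableEq G]

theorem Thick.mono {A : Finset G} {c c' : ℕ} (hT : Thick A c) (hc : c' ≤ c) : Thick A c' := by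
  intro N F hF h2 hn
  have := hT N F hF h2 hn
  omega

theorem Thick.translate {A : Finset G} {c : ℕ} (hT : Thick A c) (g : G) : Thick (g +ᵥ A) c := by
  intro N F hF h2 hn
  have h1 := hT N F hF h2 hn
  have h3 : (F + (g +ᵥ A)).card = (F + A).card := by
    rw [add_comm F, vadd_add_assoc, Finset.card_vadd_finset, add_comm A]
  rw [h3, Finset.card_vadd_finset]
  exact h1

/-- `nf` of a translate. -/
theorem nf_translate_ne {A : Finset G} {h : ℕ} (hA : nf A h ≠ univ) (g : G) :
    nf (g +ᵥ A) h ≠ univ := by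
  intro hcon
  apply hA
  rw [nf_translate] at hcon
  have h1 : (-(h • g)) +ᵥ ((h • g) +ᵥ nf A h) = (-(h • g)) +ᵥ (univ : Finset G) := by rw [hcon]
  rw [vadd_vadd, neg_add_cancel, zero_vadd] at h1
  rw [h1]
  exact Finset.vadd_finset_univ

theorem Ext.translate {A : Finset G} {h : ℕ} (hA : Ext h A) (g : G) : Ext h (g +ᵥ A) := by
  refine ⟨hA.hh, hA.adm, ?_, nf_translate_ne hA.ne g⟩
  rw [Finset.card_vadd_finset]; exact hA.card

theorem Ext.card_eq {A : Finset G} {h : ℕ} (hA : Ext h A) :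
    A.card = Fintype.card G / h := by
  have h3 := hA.hh
  rcases hA.card with h1 | h1
  · rw [h1, Nat.mul_div_cancel_left _ (by omega)]
  · rw [h1, Nat.mul_add_div (by omega), Nat.div_eq_of_lt (by omega), add_zero]

/-- The size theorem: more than `⌊|G|/h⌋` elements span. -/
theorem span_of_card {h : ℕ} (hh : 3 ≤ h) (ha : Adm (Fintype.card G) h) (A : Finset G)
    (hc : Fintype.card G / h < A.card) : nf A h = univ := by
  by_contra hne
  have h1 := (main_theorem h (by omega) (Fintype.card G) G rfl A hne).1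
  rw [vv_adm hh ha] at h1
  omega

theorem card_le_of_ne {h : ℕ} (hh : 3 ≤ h) (ha : Adm (Fintype.card G) h) (A : Finset G)
    (hne : nf A h ≠ univ) : A.card ≤ Fintype.card G / h := by
  by_contra hcon
  exact hne (span_of_card hh ha A (by omega))

omit [Fintype G] in
theorem IsAP.cont {A : Finset G} (hA : IsAP A) : Cont A := by
  obtain ⟨x, g, hg, h1⟩ := hA
  refine ⟨x, g, hg, fun a ha => ?_⟩
  rw [h1, Finset.mem_image] at ha
  obtain ⟨i, hi, rfl⟩ := ha
  rw [Finset.mem_range] at hi
  exact ⟨i, by omega, rfl⟩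

end Pool.Agent.SPN
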