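import Pool.Agent.SPN.Arith

set_option autoImplicit false

namespace Pool.Agent.SPN

open Finset Pointwise Pool.Agent.MP_8507d5_co

universe u

variable {G : Type u} [AddCommGroup G] [Fintype G] [DecidableEq G]

theorem k1 {A : Finset G} (hT : Thick A 0) (hA : A.Nonempty) (X : Finset G) (hX : X.Nonempty)
    (hXA : X + A ≠ univ) : X.card + A.card ≤ (X + A).card + 1 := by
  have hXpos : 1 ≤ X.card := Finset.card_pos.mpr hX
  have hlt : (X + A).card < Fintype.card G := by
    rw [← Finset.card_univ]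
    exact Finset.card_lt_card (Finset.ssubset_univ_iff.mpr hXA)
  obtain ⟨N, F, hF, hat⟩ := exists_subgroup_atom A ⟨X, hXpos, by omega⟩
  have h1 := hat.min X ⟨hXpos, by omega⟩
  have h2 := hat.feas.2
  have h3 : F.card ≤ (F + A).card := Finset.card_le_card_add_right hA
  rcases Nat.lt_or_ge F.card 2 with h4 | h4
  · have h5 := hat.feas.1
    have h6 : A.card ≤ (F + A).card :=
      Finset.card_le_card_add_left (Finset.card_pos.mp h5)
    omega
  · have := hT N F hF h4 (by omega)
    omega

theorem k2 {A : Finset G} (hT : Thick A 0) (hA : 2 ≤ A.card) (hnap : ¬ IsAP A) (X : Finset G)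
    (hX : Feas A 2 X) : X.card + A.card ≤ (X + A).card := by
  by_contra hcon
  push Not at hcon
  rcases tight_structure A hA X hX (by omega) with h1 | ⟨N, F, hF, h2, h3, h4⟩
  · exact hnap h1
  · have := hT N F hF h2 h3
    omega

omit [Fintype G] in
theorem nf_card_mono {A : Finset G} (hA : A.Nonempty) {i j : ℕ} (hij : i ≤ j) :
    (nf A i).card ≤ (nf A j).card := by
  induction hij with
  | refl => exact le_refl _
  | step _ ih => exact ih.trans (Finset.card_le_card_add_right hA)

omit [Fintype G] in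
theorem nf_nonempty {A : Finset G} (hA : A.Nonempty) (j : ℕ) : (nf A j).Nonempty := by
  rw [← Finset.card_pos]
  have := nf_card_mono hA (Nat.zero_le j)
  have h0 : (nf A 0).card = 1 := by simp [nf]
  omega

/-- `g ∉ hA` gives `|(h-1)A| + |A| ≤ n`. -/
theorem top_bound {h : ℕ} {A : Finset G} (hh : 1 ≤ h) (hne : nf A h ≠ univ) :
    (nf A (h - 1)).card + A.card ≤ Fintype.card G := by
  obtain ⟨j, rfl⟩ : ∃ j, h = j + 1 := ⟨h - 1, by omega⟩
  obtain ⟨g, hg⟩ : ∃ g, g ∉ nf A (j + 1) := by
    by_contra hcon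
    push Not at hcon
    exact hne (Finset.eq_univ_iff_forall.mpr hcon)
  have h1 : Disjoint (nf A j) (A.image (fun a => g - a)) := by
    rw [Finset.disjoint_left]
    intro x hx hx2
    rw [Finset.mem_image] at hx2
    obtain ⟨a, ha, rfl⟩ := hx2
    apply hg
    rw [nf, Finset.mem_add]
    exact ⟨g - a, hx, a, ha, by simp⟩
  have h2 := Finset.card_union_of_disjoint h1
  have h3 : (A.image (fun a => g - a)).card = A.card :=
    Finset.card_image_of_injective _ (fun a b hab => by simpa using hab)
  have h4 := card_le_univ (nf A j ∪ A.image (fun a => g - a))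
  simp only [Nat.add_sub_cancel]
  omega

theorem growth {h : ℕ} {A : Finset G} (hE : Ext h A) (hT : Thick A 0) (hk : 2 ≤ A.card)
    (hnap : ¬ IsAP A) (j : ℕ) (hj : 1 ≤ j) (hj2 : j + 2 ≤ h) :
    (nf A j).card + A.card ≤ (nf A (j + 1)).card := by
  have hAne : A.Nonempty := Finset.card_pos.mp (by omega)
  have h3 := hE.hh
  have h1 := top_bound (by omega) hE.ne
  have h4 := nf_card_mono hAne (show j + 1 ≤ h - 1 by omega)
  have h5 := nf_card_mono hAne hj
  rw [nf_one] at h5
  exact k2 hT hk hnap (nf A j) ⟨by omega, by rw [show nf A j + A = nf A (j + 1) from rfl]; omega⟩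

theorem fold_lower {h : ℕ} {A : Finset G} (hE : Ext h A) (hT : Thick A 0) (hk : 2 ≤ A.card)
    (hnap : ¬ IsAP A) (j : ℕ) (hj : 1 ≤ j) (hj2 : j + 1 ≤ h) :
    j * A.card ≤ (nf A j).card := by
  induction j with
  | zero => omega
  | succ j ih =>
    rcases Nat.eq_zero_or_pos j with h0 | h0
    · subst h0; rw [nf_one]; simp
    · have h1 := ih h0 (by omega)
      have h2 := growth hE hT hk hnap j h0 (by omega)
      have h3 : (j + 1) * A.card = j * A.card + A.card := by ring
      omega

theorem fold_upper {h : ℕ} {A : Finset G} (hE : Ext h A) (hT : Thick A 0) (hk : 2 ≤ A.card)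
    (hnap : ¬ IsAP A) (i j : ℕ) (hj : 1 ≤ j) (hj2 : j + i + 1 = h) :
    (nf A j).card + (i + 1) * A.card ≤ Fintype.card G := by
  induction i generalizing j with
  | zero =>
    have h1 := top_bound (by omega) hE.ne
    have h2 : h - 1 = j := by omega
    rw [h2] at h1; omega
  | succ i ih =>
    have h1 := ih (j + 1) (by omega) (by omega)
    have h2 := growth hE hT hk hnap j hj (by omega)
    have h3 : (i + 1 + 1) * A.card = (i + 1) * A.card + A.card := by ring
    omega

/-- All the folds `jA`, `1 ≤ j < h`, have size `j k` or `j k + 1` (`j k` when `n = h k`). -/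
theorem fold_card {h : ℕ} {A : Finset G} (hE : Ext h A) (hT : Thick A 0) (hk : 2 ≤ A.card)
    (hnap : ¬ IsAP A) (j : ℕ) (hj : 1 ≤ j) (hj2 : j + 1 ≤ h) :
    j * A.card ≤ (nf A j).card ∧
      (nf A j).card + h * A.card ≤ j * A.card + Fintype.card G := by
  refine ⟨fold_lower hE hT hk hnap j hj hj2, ?_⟩
  have h1 := fold_upper hE hT hk hnap (h - 1 - j) j hj (by omega)
  have h2 : h * A.card = j * A.card + (h - 1 - j + 1) * A.card := by
    rw [← add_mul]; congr 1; omega
  omega

/-- Either some feasible `X` has `|X + A| = |X| + |A|`, or `h = 3`, `n = 3k+1`, `|2A| = 2k+1`. -/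
theorem alpha_or_beta {h : ℕ} {A : Finset G} (hE : Ext h A) (hT : Thick A 0) (hk : 2 ≤ A.card)
    (hnap : ¬ IsAP A) : (∃ X, Feas A 2 X ∧ (X + A).card = X.card + A.card) ∨
      (h = 3 ∧ Fintype.card G = 3 * A.card + 1 ∧ (A + A).card = 2 * A.card + 1) := by
  have h3 := hE.hh
  have hAne : A.Nonempty := Finset.card_pos.mp (by omega)
  have h1 := top_bound (by omega) hE.ne
  have feas : ∀ j, 1 ≤ j → j + 2 ≤ h → Feas A 2 (nf A j) := by
    intro j hj hj2
    have h4 := nf_card_mono hAne (show j + 1 ≤ h - 1 by omega)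
    have h5 := nf_card_mono hAne hj
    rw [nf_one] at h5
    exact ⟨by omega, by rw [show nf A j + A = nf A (j + 1) from rfl]; omega⟩
  have e2 : nf A 2 = A + A := by rw [show nf A 2 = nf A 1 + A from rfl, nf_one]
  obtain ⟨l2, u2⟩ := fold_card hE hT hk hnap 2 (by omega) (by omega)
  have hc := hE.card
  rcases Nat.lt_or_ge (2 * A.card) (nf A 2).card with h5 | h5
  · rcases Nat.lt_or_ge 3 h with h4 | h4
    · left
      obtain ⟨l3, u3⟩ := fold_card hE hT hk hnap 3 (by omega) (by omega)
      have g3 : (nf A 2).card + A.card ≤ (nf A 3).card :=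
        growth hE hT hk hnap 2 (by omega) (by omega)
      refine ⟨nf A 2, feas 2 (by omega) (by omega), ?_⟩
      rw [show nf A 2 + A = nf A 3 from rfl]
      omega
    · right
      have hh3 : h = 3 := by omega
      subst hh3
      rw [← e2]
      refine ⟨rfl, ?_, ?_⟩ <;> omega
  · left
    refine ⟨nf A 1, feas 1 (by omega) (by omega), ?_⟩
    rw [show nf A 1 + A = nf A 2 from rfl, nf_one]
    omega

theorem two_fold_le {h : ℕ} {A : Finset G} (hE : Ext h A) (hT : Thick A 0) (hk : 2 ≤ A.card)
    (hnap : ¬ IsAP A) : (A + A).card ≤ 2 * A.card + 1 := by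
  have h3 := hE.hh
  have e2 : nf A 2 = A + A := by rw [show nf A 2 = nf A 1 + A from rfl, nf_one]
  obtain ⟨l2, u2⟩ := fold_card hE hT hk hnap 2 (by omega) (by omega)
  have hc := hE.card
  rw [← e2]
  omega

end Pool.Agent.SPN
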