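import Pool.Agent.SPN.B1

set_option autoImplicit false

namespace Pool.Agent.SPN

open Finset Pointwise Pool.Agent.MP_8507d5_co

universe u

variable {G : Type u} [AddCommGroup G] [Fintype G] [DecidableEq G]

/-- A `2`-atom containing `0` is a subgroup or a Sidon set. -/
theorem atom_dich {B X : Finset G} (hX : IsAtom B 2 X) (h0 : (0 : G) ∈ X) :
    (∃ N : AddSubgroup G, ∀ x, x ∈ X ↔ x ∈ N) ∨ Sidon X := by
  by_cases hper : ∃ g : G, g ≠ 0 ∧ g +ᵥ X = X
  · left
    obtain ⟨g, hg, hgD⟩ := hper
    have hgmem : ∀ d ∈ X, g + d ∈ X := by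
      intro d hd
      rw [← hgD, Finset.mem_vadd_finset]; exact ⟨d, hd, rfl⟩
    have key : ∀ x ∈ X, (-x) +ᵥ X = X := by
      intro x hx
      apply hX.inter
      have h1 : ({0, g} : Finset G) ⊆ X ∩ ((-x) +ᵥ X) := by
        intro y hy
        rw [Finset.mem_insert, Finset.mem_singleton] at hy
        rw [Finset.mem_inter, Finset.mem_vadd_finset]
        rcases hy with rfl | rfl
        · exact ⟨h0, x, hx, by simp⟩
        · refine ⟨by simpa using hgmem 0 h0, y + x, hgmem x hx, ?_⟩
          simp only [vadd_eq_add]; abel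
      have h2 := Finset.card_le_card h1
      rwa [Finset.card_pair (Ne.symm hg)] at h2
    have hneg : ∀ x ∈ X, -x ∈ X := by
      intro x hx
      rw [← key x hx, Finset.mem_vadd_finset]
      exact ⟨0, h0, by simp⟩
    have hadd : ∀ x ∈ X, ∀ y ∈ X, x + y ∈ X := by
      intro x hx y hy
      have h1 := key (-x) (hneg x hx)
      rw [neg_neg] at h1
      rw [← h1, Finset.mem_vadd_finset]
      exact ⟨y, hy, rfl⟩
    exact ⟨{ carrier := {x | x ∈ X}
             zero_mem' := h0
             add_mem' := fun {x y} hx hy => hadd x hx y hy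
             neg_mem' := fun {x} hx => hneg x hx }, fun x => Iff.rfl⟩
  · right
    intro g hg
    by_contra hcon
    push Not at hcon
    exact hper ⟨g, hg, hX.inter g hcon⟩

/-- There is a `2`-atom containing `0`. -/
theorem exists_atom_zero {B : Finset G} (hB : ∃ X, Feas B 2 X) :
    ∃ X, IsAtom B 2 X ∧ (0 : G) ∈ X := by
  obtain ⟨A₀, hA₀⟩ := exists_atom B 2 hB
  obtain ⟨a₀, ha₀⟩ : A₀.Nonempty := Finset.card_pos.mp (lt_of_lt_of_le two_pos hA₀.feas.1)
  exact ⟨(-a₀) +ᵥ A₀, hA₀.translate _, by
    rw [Finset.mem_vadd_finset]; exact ⟨a₀, ha₀, by simp⟩⟩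

omit [Fintype G] in
/-- A two-element set containing `0`. -/
theorem eq_pair_of_card {M : Finset G} (hM : M.card = 2) (h0 : (0 : G) ∈ M) :
    ∃ g : G, g ≠ 0 ∧ M = {0, g} := by
  obtain ⟨u, v, huv, hA'⟩ := Finset.card_eq_two.mp hM
  rw [hA'] at h0
  rw [Finset.mem_insert, Finset.mem_singleton] at h0
  rcases h0 with h | h
  · subst h; exact ⟨v, Ne.symm huv, hA'⟩
  · subst h; exact ⟨u, huv, by rw [hA', Finset.pair_comm]⟩

omit [Fintype G] in
theorem closure_pair (g : G) :
    AddSubgroup.closure ((({0, g} : Finset G) : Finset G) : Set G) = AddSubgroup.zmultiples g := by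
  apply le_antisymm
  · rw [AddSubgroup.closure_le]
    intro a ha
    simp only [Finset.coe_insert, Finset.coe_singleton, Set.mem_insert_iff,
      Set.mem_singleton_iff] at ha
    rcases ha with rfl | rfl
    · exact AddSubgroup.zero_mem _
    · exact AddSubgroup.mem_zmultiples _
  · rw [AddSubgroup.zmultiples_le]
    exact AddSubgroup.subset_closure (by simp)

omit [Fintype G] in
theorem pair_add (g : G) (A : Finset G) : (({0, g} : Finset G) + A) = A ∪ (g +ᵥ A) := by
  rw [Finset.insert_eq, Finset.union_add, Finset.singleton_add, Finset.singleton_add, zero_vadd]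

end Pool.Agent.SPN
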