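import Pool.Agent.SPN.C1

set_option autoImplicit false

namespace Pool.Agent.SPN

open Finset Pointwise Pool.Agent.MP_8507d5_co

universe u

variable {G : Type u} [AddCommGroup G] [Fintype G] [DecidableEq G]

/-- **Row C2a (1).** If `0 ∈ M` and `|M + X| ≤ |X|` then `X` is stable under `closure M`.
PROOF: `X ⊆ M + X` (as `0 ∈ M`) and the cardinalities force `M + X = X`, so `x + m ∈ X` for `m ∈ M`.
Then `AddSubgroup.closure_induction`, exactly as `hstab` inside `coset_lemma`
(Pool/Agent/MP_8507d5_co/Structure.lean): the case `neg` uses that translation by `f` is injective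
on the finite set `X`, hence surjective. -/
theorem stable_of_card {M X : Finset G} (h0 : (0 : G) ∈ M) (hc : (M + X).card ≤ X.card) :
    ∀ f ∈ AddSubgroup.closure (M : Set G), ∀ x ∈ X, x + f ∈ X := by
  have hsub : X ⊆ M + X := by
    intro b hb
    rw [Finset.mem_add]
    exact ⟨0, h0, b, hb, by simp⟩
  have h4 : M + X = X := (Finset.eq_of_subset_of_card_le hsub hc).symm
  intro m hm
  induction hm using AddSubgroup.closure_induction with
  | mem a ha =>
    intro b hb
    have h5 : a + b ∈ M + X := Finset.add_mem_add (Finset.mem_coe.1 ha) hb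
    rw [h4, add_comm] at h5
    exact h5
  | zero => intro b hb; simpa using hb
  | add x y _ _ hx hy => intro b hb; rw [← add_assoc]; exact hy _ (hx _ hb)
  | neg x _ hx =>
    intro b hb
    have hmap : X.image (fun b => b + x) = X := by
      apply Finset.eq_of_subset_of_card_le
      · intro y hy
        rw [Finset.mem_image] at hy
        obtain ⟨c, hc, rfl⟩ := hy
        exact hx c hc
      · rw [Finset.card_image_of_injective _ (add_left_injective x)]
    rw [← hmap, Finset.mem_image] at hb
    obtain ⟨c, hc, rfl⟩ := hb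
    simpa using hc

/-- **Row C2a (2).** `M` Sidon, `0 ∈ M`, `N = closure M` (finset `F`), `z ∈ (F + A) \ (M + A)`.
Split `A = A1 ∪ A2` with `A1 = {a ∈ A : a - z ∈ N}`.
PROOF: `A1` is nonempty: `z = f + a`, `f ∈ F`, `a ∈ A`, so `a - z = -f ∈ N`.
`z ∉ A1 + M` since `z ∉ M + A` (use `add_comm`). `rel_atom M hS h0 N hN A1 _ z _ _`
(Pool.Agent.MP_8507d5_co.rel_atom, argument `A := M`, `X := A1`) gives
`|A1| + |M| ≤ |A1 + M| + 1`. The sets `M + A1` and `M + A2` are disjoint subsets of `M + A`
(elements `y` of the first have `y - z ∈ N`, since `M ⊆ N`, elements of the second do not), so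
`|M + A1| + |M + A2| ≤ |M + A|`. Finally `F + A ⊆ (z +ᵥ F) ∪ (F + A2)`: for `a ∈ A1`, `f ∈ F`:
`f + a = z + (f + (a - z))`. -/
theorem CC_step {A M : Finset G} (hS : Sidon M) (h0 : (0 : G) ∈ M) (N : AddSubgroup G)
    (hN : N = AddSubgroup.closure (M : Set G)) (F : Finset G) (hF : ∀ x, x ∈ F ↔ x ∈ N)
    (z : G) (hz : z ∈ F + A) (hz' : z ∉ M + A) :
    ∃ A1 A2 : Finset G, A1 ∪ A2 = A ∧ (∀ a ∈ A1, a - z ∈ N) ∧ (∀ a ∈ A2, a - z ∉ N) ∧
      1 ≤ A1.card ∧ A1.card + A2.card = A.card ∧
      A1.card + M.card + (M + A2).card ≤ (M + A).card + 1 ∧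
      (F + A).card ≤ F.card + (F + A2).card := by
  classical
  have hMN : ∀ a ∈ M, a ∈ N := fun a ha => hN ▸ AddSubgroup.subset_closure ha
  set A1 := A.filter (fun b => b - z ∈ N) with hA1
  set A2 := A.filter (fun b => ¬ (b - z ∈ N)) with hA2
  have hcard : A1.card + A2.card = A.card := Finset.card_filter_add_card_filter_not _
  have hne : A1.Nonempty := by
    rw [Finset.mem_add] at hz
    obtain ⟨m, hm, b, hb, hmb⟩ := hz
    refine ⟨b, ?_⟩
    rw [hA1, Finset.mem_filter]
    refine ⟨hb, ?_⟩
    have : b - z = -m := by rw [← hmb]; abel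
    rw [this]
    exact N.neg_mem ((hF m).mp hm)
  have hm1 : ∀ a ∈ A1, a - z ∈ N := fun x hx => (Finset.mem_filter.mp hx).2
  have hm2 : ∀ a ∈ A2, a - z ∉ N := fun x hx => (Finset.mem_filter.mp hx).2
  have h1 := rel_atom M hS h0 N hN A1 hne z hm1 (by
    intro h
    apply hz'
    rw [add_comm]
    exact Finset.add_subset_add_right (Finset.filter_subset _ _) h)
  have hdis : Disjoint (M + A1) (M + A2) := by
    rw [Finset.disjoint_left]
    intro x hx hy
    rw [Finset.mem_add] at hx hy
    obtain ⟨a, ha, b, hb, rfl⟩ := hx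
    obtain ⟨a', ha', b', hb', he⟩ := hy
    apply hm2 b' hb'
    have e1 := hm1 b hb
    have : b' - z = (b - z) + (a - a') := by
      have : b' = a + b - a' := by rw [← he]; abel
      rw [this]; abel
    rw [this]
    exact N.add_mem e1 (N.sub_mem (hMN a ha) (hMN a' ha'))
  have hun : (M + A1) ∪ (M + A2) ⊆ M + A := by
    apply Finset.union_subset
    · exact Finset.add_subset_add_left (Finset.filter_subset _ _)
    · exact Finset.add_subset_add_left (Finset.filter_subset _ _)
  have h2 := Finset.card_le_card hun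
  rw [Finset.card_union_of_disjoint hdis] at h2
  rw [add_comm A1 M] at h1
  have hFB : F + A ⊆ (z +ᵥ F) ∪ (F + A2) := by
    intro x hx
    rw [Finset.mem_add] at hx
    obtain ⟨m, hm, b, hb, rfl⟩ := hx
    rw [Finset.mem_union]
    by_cases hbz : b - z ∈ N
    · left
      rw [Finset.mem_vadd_finset]
      refine ⟨m + (b - z), (hF _).mpr (N.add_mem ((hF m).mp hm) hbz), ?_⟩
      simp only [vadd_eq_add]
      abel
    · right
      exact Finset.add_mem_add hm (by rw [hA2, Finset.mem_filter]; exact ⟨hb, hbz⟩)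
  have h5 := Finset.card_le_card hFB
  have h6 := Finset.card_union_le (z +ᵥ F) (F + A2)
  rw [Finset.card_vadd_finset] at h6
  exact ⟨A1, A2, Finset.filter_union_filter_not_eq _ _, hm1, hm2, Finset.card_pos.mpr hne, hcard,
    by omega, by omega⟩

end Pool.Agent.SPN
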