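import Pool.Agent.SPN.C2a

set_option autoImplicit false

namespace Pool.Agent.SPN

open Finset Pointwise Pool.Agent.MP_8507d5_co

universe u

variable {G : Type u} [AddCommGroup G] [Fintype G] [DecidableEq G]

/-- **Row C2b.** `M` Sidon, `0 ∈ M`, `|M| ≥ 3`, `N = closure M` (finset `F`),
`|M + A| ≤ |M| + |A| + c` with `c ≤ 1`. Then `|F + A| ≤ |F| + |A| + c`, or `A` is a union of full
`N`-cosets outside two cosets.
PROOF: note `M ⊆ F` so `|M| ≤ |F|`.
(1) If `F + A ⊆ M + A`: `|F + A| ≤ |M| + |A| + c ≤ |F| + |A| + c`: left.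
(2) Otherwise take `z ∈ (F + A) \ (M + A)` and `A1, A2` from `CC_step`:
`|M + A2| ≤ |M + A| + 1 - |A1| - |M| ≤ |A2| + c + 1`.
(2a) If `F + A2 ⊆ M + A2`: `|F + A| ≤ |F| + |F + A2| ≤ |F| + |A2| + c + 1 = |F| + |A| - |A1| + c + 1
≤ |F| + |A| + c`: left.
(2b) Otherwise take `z' ∈ (F + A2) \ (M + A2)` and `A3, A4` from `CC_step` applied to `A2`
(`A2 = A3 ∪ A4`): `|M + A4| ≤ |M + A2| + 1 - |A3| - |M| ≤ |A4| + c + 2 - |M| ≤ |A4|`.
By `stable_of_card` (with `X := A4`) every `a ∈ A4` has `a + f ∈ A4 ⊆ A` for all `f ∈ F`.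
Right with `s = z`, `t = z'`. -/
theorem CC {A M : Finset G} (hS : Sidon M) (h0 : (0 : G) ∈ M) (hm : 3 ≤ M.card)
    (N : AddSubgroup G) (hN : N = AddSubgroup.closure (M : Set G)) (F : Finset G)
    (hF : ∀ x, x ∈ F ↔ x ∈ N) (c : ℕ) (hc : c ≤ 1)
    (hcard : (M + A).card ≤ M.card + A.card + c) :
    (F + A).card ≤ F.card + A.card + c ∨
      ∃ s t : G, ∀ a ∈ A, a - s ∈ N ∨ a - t ∈ N ∨ ∀ f ∈ F, a + f ∈ A := by
  have hMF : M ⊆ F := fun x hx => (hF x).2 (by
    rw [hN]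
    exact AddSubgroup.subset_closure hx)
  have hMc : M.card ≤ F.card := Finset.card_le_card hMF
  by_cases h1 : F + A ⊆ M + A
  · left
    have h2 := Finset.card_le_card h1
    omega
  obtain ⟨z, hz, hz'⟩ := Finset.not_subset.1 h1
  obtain ⟨A1, A2, hu, ha1, ha2, hc1, hcs, hcm, hcF⟩ := CC_step hS h0 N hN F hF z hz hz'
  by_cases h2 : F + A2 ⊆ M + A2
  · left
    have h3 := Finset.card_le_card h2
    omega
  obtain ⟨z', hw, hw'⟩ := Finset.not_subset.1 h2
  obtain ⟨A3, A4, hu', ha3, ha4, hc1', hcs', hcm', hcF'⟩ := CC_step hS h0 N hN F hF z' hw hw'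
  have hst := stable_of_card (M := M) (X := A4) h0 (by omega)
  right
  refine ⟨z, z', fun a ha => ?_⟩
  rw [← hu, Finset.mem_union] at ha
  rcases ha with ha | ha
  · exact Or.inl (ha1 a ha)
  · rw [← hu', Finset.mem_union] at ha
    rcases ha with ha | ha
    · exact Or.inr (Or.inl (ha3 a ha))
    · refine Or.inr (Or.inr fun f hf => ?_)
      rw [← hu, ← hu']
      refine Finset.mem_union_right _ (Finset.mem_union_right _ (hst f ?_ a ha))
      rw [← hN]
      exact (hF f).1 hf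

end Pool.Agent.SPN
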