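import Pool.Agent.SPN.C1

set_option autoImplicit false

namespace Pool.Agent.SPN

open Finset Pointwise Pool.Agent.MP_8507d5_co

universe u

variable {G : Type u} [AddCommGroup G] [Fintype G] [DecidableEq G]

omit [Fintype G] in
/-- **Row C3a (1).** A full coset absorbs: if `a i ∈ A`, the coset `a i₀ + N` is contained in `A`
and `g - ∑ a i ∈ N` then `g ∈ hA`.
PROOF: `Function.update a i₀ (a i₀ + (g - ∑ i, a i))`, `mem_nf`, `Finset.sum_update_of_mem`
(compare `adjust` in Pool/Agent/MP_8507d5_co/Main.lean). -/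
theorem absorb {h : ℕ} (A : Finset G) (N : AddSubgroup G) (a : Fin h → G) (ha : ∀ i, a i ∈ A)
    (i₀ : Fin h) (hfull : ∀ f ∈ N, a i₀ + f ∈ A) (g : G) (hg : g - ∑ i, a i ∈ N) :
    g ∈ nf A h := by
  classical
  rw [mem_nf]
  refine ⟨Function.update a i₀ (a i₀ + (g - ∑ i, a i)), ?_, ?_⟩
  · intro i
    by_cases hi : i = i₀
    · subst hi
      rw [Function.update_self]
      exact hfull _ hg
    · rw [Function.update_of_ne hi]
      exact ha i
  · rw [Finset.sum_update_of_mem (Finset.mem_univ _), Finset.sdiff_singleton_eq_erase]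
    have h1 := Finset.add_sum_erase Finset.univ a (Finset.mem_univ i₀)
    rw [← h1]
    abel

omit [Fintype G] [DecidableEq G] in
/-- **Row C3a (2).** Equality in the quotient.
PROOF: `QuotientAddGroup.eq` (see `hφN` inside `quot_case` in Main.lean). -/
theorem mk_eq_iff (N : AddSubgroup G) (x y : G) :
    ((x : G ⧸ N) = (y : G ⧸ N)) ↔ x - y ∈ N := by
  rw [QuotientAddGroup.eq]
  constructor
  · intro h
    have h1 : x - y = -(-x + y) := by abel
    rw [h1]
    exact N.neg_mem h
  · intro h
    have h1 : -x + y = -(x - y) := by abel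
    rw [h1]
    exact N.neg_mem h

/-- **Row C3a (3).** Counting with a subgroup `N` (finset `F`): `|G| = |G/N| |F|`.
PROOF: see `hn`, `hlN` inside `quot_case` in Main.lean
(`AddSubgroup.card_eq_card_quotient_mul_card_addSubgroup`, `Nat.subtype_card`). -/
theorem card_quot (N : AddSubgroup G) (F : Finset G) (hF : ∀ x, x ∈ F ↔ x ∈ N) :
    Fintype.card G = Nat.card (G ⧸ N) * F.card ∧ Nat.card N = F.card := by
  have h1 : Nat.card N = F.card := Nat.subtype_card F hF
  refine ⟨?_, h1⟩
  rw [← h1, ← Nat.card_eq_fintype_card]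
  exact AddSubgroup.card_eq_card_quotient_mul_card_addSubgroup N

/-- **Row C3a (4).** If `R` is a union of full `N`-cosets then `|R| = |image of R in G/N| |F|`.
PROOF: `R` is the disjoint union over `q` in the image of the fibres `{x : mk x = q}`, each being
`r +ᵥ F` for any `r ∈ R` with `mk r = q`, contained in `R`. (See `hfibG`, `hFAcard` in
`quot_case`.) -/
theorem card_full (N : AddSubgroup G) [DecidableEq (G ⧸ N)] (F : Finset G)
    (hF : ∀ x, x ∈ F ↔ x ∈ N) (R : Finset G) (hR : ∀ a ∈ R, ∀ f ∈ F, a + f ∈ R) :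
    R.card = (R.image (fun a : G => (a : G ⧸ N))).card * F.card := by
  have h1 : R.card = ∑ q ∈ R.image (fun a : G => (a : G ⧸ N)),
      (R.filter (fun a : G => (a : G ⧸ N) = q)).card := Finset.card_eq_sum_card_image _ R
  rw [h1, ← smul_eq_mul, ← Finset.sum_const]
  apply Finset.sum_congr rfl
  intro q hq
  obtain ⟨r, hr, rfl⟩ := Finset.mem_image.1 hq
  have h2 : R.filter (fun a : G => (a : G ⧸ N) = (r : G ⧸ N)) = r +ᵥ F := by
    ext x
    rw [Finset.mem_filter, Finset.mem_vadd_finset, mk_eq_iff]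
    constructor
    · rintro ⟨_, hx⟩
      exact ⟨x - r, (hF _).2 hx, by rw [vadd_eq_add]; abel⟩
    · rintro ⟨y, hy, rfl⟩
      refine ⟨hR r hr y hy, ?_⟩
      rw [vadd_eq_add, add_sub_cancel_left]
      exact (hF y).1 hy
  rw [h2, Finset.card_vadd_finset]

end Pool.Agent.SPN
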