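import Pool.Agent.SPN.C3a

set_option autoImplicit false

namespace Pool.Agent.SPN

open Finset Pointwise Pool.Agent.MP_8507d5_co

universe u

variable {G : Type u} [AddCommGroup G] [Fintype G] [DecidableEq G]

/-- **Row C3b (1), pure arithmetic.** `n = q l`, `l ≥ 2`, `k = |A|`, `k = r l + m` with
`2 ≤ m`, `m + 1 ≤ l` (that is `r l + 2 ≤ k ≤ (r+1) l - 1`), `n = h k` or `h k + 1`, and `q` is
`h t` or `h t + 1`. Then `q = h t + 1` and `r = t`.
PROOF. If `q = h t`: `n = h (t l)`; `n = h k + 1` would give `h ∣ 1`; `n = h k` gives `k = t l`,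
impossible strictly between `r l` and `(r+1) l`. If `q = h t + 1`: `n = h t l + l`.
`h (r l + 2) ≤ h k ≤ h t l + l < (h t + 1) l + 1` gives `h r l < (h t + 1) l`, so `h r < h t + 1`,
`r ≤ t`; and `h k + 1 ≥ h t l + l` with `k ≤ (r+1) l - 1` gives
`h (r+1) l ≥ h t l + l + h - 1 > h t l`, so `r + 1 > t`. -/
theorem twocos_arith {h n q l k r t : ℕ} (hh : 3 ≤ h) (hl : 2 ≤ l) (hn : n = q * l)
    (hk : n = h * k ∨ n = h * k + 1) (h1 : r * l + 2 ≤ k) (h2 : k + 1 ≤ (r + 1) * l)
    (hq : q = h * t ∨ q = h * t + 1) : q = h * t + 1 ∧ r = t := by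
  have hkn : h * k ≤ n := by rcases hk with h3 | h3 <;> omega
  have hnk : n ≤ h * k + 1 := by rcases hk with h3 | h3 <;> omega
  rcases hq with hq | hq
  · exfalso
    rcases hk with h3 | h3
    · have h4 : h * k = h * (t * l) := by
        rw [← h3, hn, hq]
        ring
      have h5 : k = t * l := Nat.eq_of_mul_eq_mul_left (by omega) h4
      have h6 : r * l < t * l := by omega
      have h7 : t * l < (r + 1) * l := by omega
      have h8 := Nat.lt_of_mul_lt_mul_right h6
      have h9 := Nat.lt_of_mul_lt_mul_right h7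
      omega
    · have h4 : h * k + 1 = h * (t * l) := by
        rw [← h3, hn, hq]
        ring
      have h5 : h ∣ 1 := (Nat.dvd_add_right (Dvd.intro k rfl)).mp (Dvd.intro (t * l) h4.symm)
      have h6 := Nat.le_of_dvd one_pos h5
      omega
  · refine ⟨hq, ?_⟩
    have h3 : n = h * (t * l) + l := by
      rw [hn, hq]
      ring
    apply le_antisymm
    · have h4 : h * (r * l + 2) ≤ h * k := Nat.mul_le_mul_left _ h1
      have h5 : h * (r * l + 2) = (h * r) * l + 2 * h := by ring
      have h6 : (h * t + 1) * l = h * (t * l) + l := by ring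
      have h7 : (h * r) * l < (h * t + 1) * l := by omega
      have h8 := Nat.lt_of_mul_lt_mul_right h7
      have h9 : h * r ≤ h * t := by omega
      exact Nat.le_of_mul_le_mul_left h9 (by omega)
    · have h4 : h * (k + 1) ≤ h * ((r + 1) * l) := Nat.mul_le_mul_left _ h2
      have h5 : h * (k + 1) = h * k + h := by ring
      have h7 : h * (t * l) < h * ((r + 1) * l) := by omega
      have h8 := Nat.lt_of_mul_lt_mul_left h7
      have h9 := Nat.lt_of_mul_lt_mul_right h8
      omega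

/-- **Row C3b (2).** Let `R ⊆ A` be a union of full `N`-cosets and `s ∈ A` with
`|image of R| = t`, the coset of `s` not in the image of `R`, `|G/N| = h t + 1`, and let
`g ∉ hA`. Then `h • s ≡ g` modulo `N`.
PROOF: let `Q := insert (s : G/N) (image of R)`, with `t + 1 > (h t + 1) / h = t` elements.
`Adm (Fintype.card (G/N)) h` holds by `Adm.dvd` (`|G/N|` divides `|G|`). By `span_of_card`
`nf Q h = univ`, so by `mem_nf` there is `f : Fin h → G/N` with `f i ∈ Q`, `∑ f i = mk g`.
Choose lifts `a i ∈ A`: `a i ∈ R` with `mk (a i) = f i` if `f i` is in the image of `R`,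
`a i = s` otherwise. `g - ∑ a i ∈ N` (`mk_eq_iff`, `map_sum` for `QuotientAddGroup.mk' N`).
If some `f i` is in the image of `R` then `absorb` gives `g ∈ hA`, contradiction.
So all `f i = mk s` and `mk g = h • mk s`. -/
theorem twocos_rep {h : ℕ} {A : Finset G} (hE : Ext h A) (N : AddSubgroup G) (F : Finset G)
    (hF : ∀ x, x ∈ F ↔ x ∈ N) (R : Finset G) (hRA : R ⊆ A) (hR : ∀ a ∈ R, ∀ f ∈ F, a + f ∈ R)
    (t : ℕ) (hq : Nat.card (G ⧸ N) = h * t + 1) (hRc : R.card = t * F.card)
    (s : G) (hs : s ∈ A) (hsR : ∀ a ∈ R, a - s ∉ N) (g : G) (hg : g ∉ nf A h) :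
    g - h • s ∈ N := by
  classical
  have hfin : Fintype (G ⧸ N) := Fintype.ofFinite _
  have hh := hE.hh
  obtain ⟨hcard, -⟩ := card_quot N F hF
  have hcq : Fintype.card (G ⧸ N) = h * t + 1 := by rw [← Nat.card_eq_fintype_card, hq]
  have hadm : Adm (Fintype.card (G ⧸ N)) h := by
    refine hE.adm.dvd ⟨F.card, ?_⟩
    rw [hcard, Nat.card_eq_fintype_card]
  have hF0 : 0 < F.card := Finset.card_pos.2 ⟨0, (hF 0).2 N.zero_mem⟩
  have himg : (R.image (fun a : G => (a : G ⧸ N))).card = t := by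
    have h1 := card_full N F hF R hR
    rw [hRc] at h1
    exact (Nat.eq_of_mul_eq_mul_right hF0 h1).symm
  have hs' : (s : G ⧸ N) ∉ R.image (fun a : G => (a : G ⧸ N)) := by
    intro h1
    rw [Finset.mem_image] at h1
    obtain ⟨a, ha, h2⟩ := h1
    exact hsR a ha ((mk_eq_iff N a s).1 h2)
  have hQ : (insert (s : G ⧸ N) (R.image (fun a : G => (a : G ⧸ N)))).card = t + 1 := by
    rw [Finset.card_insert_of_notMem hs', himg]
  have hspan := span_of_card hh hadm (insert (s : G ⧸ N) (R.image (fun a : G => (a : G ⧸ N)))) (by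
    rw [hQ, hcq, Nat.mul_add_div (by omega), Nat.div_eq_of_lt (by omega)]
    omega)
  have hg' : (g : G ⧸ N) ∈ nf (insert (s : G ⧸ N) (R.image (fun a : G => (a : G ⧸ N)))) h := by
    rw [hspan]
    exact Finset.mem_univ _
  obtain ⟨f, hf, hsum⟩ := (mem_nf _ _ _).1 hg'
  have hlift : ∀ i, ∃ a : G, a ∈ A ∧ (a : G ⧸ N) = f i ∧ (f i ≠ (s : G ⧸ N) → a ∈ R) := by
    intro i
    rcases Finset.mem_insert.1 (hf i) with h1 | h1
    · exact ⟨s, hs, h1.symm, fun h2 => absurd h1 h2⟩
    · rw [Finset.mem_image] at h1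
      obtain ⟨a, ha, h2⟩ := h1
      exact ⟨a, hRA ha, h2, fun _ => ha⟩
  choose a haA haf haR using hlift
  have hmk : ((∑ i, a i : G) : G ⧸ N) = (g : G ⧸ N) := by
    have h1 := map_sum (QuotientAddGroup.mk' N) a Finset.univ
    have h2 : ((∑ i, a i : G) : G ⧸ N) = ∑ i, (a i : G ⧸ N) := h1
    rw [h2, ← hsum]
    exact Finset.sum_congr rfl fun i _ => haf i
  have hgN : g - ∑ i, a i ∈ N := (mk_eq_iff N g _).1 hmk.symm
  have hall : ∀ i, f i = (s : G ⧸ N) := by
    intro i
    by_contra hne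
    have hmem := haR i hne
    exact hg (absorb A N a haA i (fun x hx => hRA (hR _ hmem x ((hF x).2 hx))) g hgN)
  apply (mk_eq_iff N g (h • s)).1
  rw [← hsum, Finset.sum_congr rfl fun i _ => hall i, Finset.sum_const, Finset.card_univ,
    Fintype.card_fin]
  rfl

end Pool.Agent.SPN
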