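import Pool.Agent.SPN.C3b

set_option autoImplicit false

namespace Pool.Agent.SPN

open Finset Pointwise Pool.Agent.MP_8507d5_co

universe u

variable {G : Type u} [AddCommGroup G] [Fintype G] [DecidableEq G]

/-- **Row C3c (TwoCos).** A thick extremal set is not a union of full cosets of a proper
nontrivial subgroup `N` outside two cosets.
PROOF. `l := |F|`, `n = q l` (`card_quot`), `q := Nat.card (G/N)`, `k := |A|`.
`As := {a ∈ A : a - s ∈ N}`, `At := {a ∈ A : a - t ∈ N}`, `R := {a ∈ A : a - s ∉ N ∧ a - t ∉ N}`.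
For `a ∈ R`, `f ∈ F`: `a + f ∈ A` by `hst`, and `a + f - s ∉ N`, so `a + f ∈ R`.
`F + A ⊆ (s +ᵥ F) ∪ (t +ᵥ F) ∪ R`.
(1) If `As = ∅`, or `At = ∅`, or `s - t ∈ N`, then `F + A` is inside ONE coset union `R`:
`|F + A| ≤ l + |R| ≤ l + k`, contradicting `hT` (`l + k + 1 ≤ |F + A|`).
(2) Otherwise `|F + A| ≤ 2 l + |R|`, `As, At, R` are disjoint with union `A`, so
`|R| + 2 ≤ |R| + |As| + |At| = k`, and `hT` gives `l + k + 1 ≤ 2 l + |R|`, `k + 1 ≤ |R| + l`.
`|R| = r l` with `r` the number of cosets (`card_full`). `q` divides `n`, so by `Adm.cases`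
`q = h t' ∨ q = h t' + 1` with `t' = q / h`; `twocos_arith` gives `q = h t' + 1`, `r = t'`.
Take `g ∉ hA` (from `hE.ne`), `s' ∈ As`, `t'' ∈ At`. `twocos_rep` gives `g - h • s' ∈ N` and
`g - h • t'' ∈ N`, so `h • (s' - t'') ∈ N`. In `G/N` (of order `q = h t' + 1`, coprime to `h`):
`h • (s' - t'') = 0` and `q • (s' - t'') = 0`, so `s' - t'' = q • _ - t' • (h • _) = 0`, i.e.
`s' - t'' ∈ N`, hence `s - t ∈ N`, contradiction with (1). -/
theorem TwoCos {h : ℕ} {A : Finset G} (hE : Ext h A) (hT : Thick A 1) (N : AddSubgroup G)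
    (F : Finset G) (hF : ∀ x, x ∈ F ↔ x ∈ N) (hF2 : 2 ≤ F.card) (hFn : F.card < Fintype.card G)
    (s t : G) (hst : ∀ a ∈ A, a - s ∈ N ∨ a - t ∈ N ∨ ∀ f ∈ F, a + f ∈ A) : False := by
  classical
  have hTT := hT N F hF hF2 hFn
  set R : Finset G := A.filter (fun a => a - s ∉ N ∧ a - t ∉ N) with hRdef
  have hmemR : ∀ a, a ∈ R ↔ a ∈ A ∧ a - s ∉ N ∧ a - t ∉ N := fun a => by
    rw [hRdef, Finset.mem_filter]
  have hRA : R ⊆ A := Finset.filter_subset _ _
  have hR : ∀ a ∈ R, ∀ f ∈ F, a + f ∈ R := by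
    intro a ha f hf
    obtain ⟨haA, h1, h2⟩ := (hmemR a).1 ha
    have hfN := (hF f).1 hf
    refine (hmemR _).2 ⟨?_, ?_, ?_⟩
    · rcases hst a haA with h3 | h3 | h3
      · exact absurd h3 h1
      · exact absurd h3 h2
      · exact h3 f hf
    · intro h3
      apply h1
      have : a - s = (a + f - s) - f := by abel
      rw [this]
      exact N.sub_mem h3 hfN
    · intro h3
      apply h2
      have : a - t = (a + f - t) - f := by abel
      rw [this]
      exact N.sub_mem h3 hfN
  have hcos : ∀ (u a f : G), a - u ∈ N → f ∈ F → f + a ∈ u +ᵥ F := by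
    intro u a f ha hf
    rw [Finset.mem_vadd_finset]
    refine ⟨f + (a - u), (hF _).2 (N.add_mem ((hF f).1 hf) ha), ?_⟩
    rw [vadd_eq_add]
    abel
  have hFR : ∀ a ∈ R, ∀ f ∈ F, f + a ∈ R := by
    intro a ha f hf
    rw [add_comm]
    exact hR a ha f hf
  -- one coset is impossible
  have hone : ∀ u, ¬ ∀ a ∈ A, (a - s ∈ N ∨ a - t ∈ N) → a - u ∈ N := by
    intro u hu
    have hsub : F + A ⊆ (u +ᵥ F) ∪ R := by
      intro x hx
      obtain ⟨f, hf, a, ha, rfl⟩ := Finset.mem_add.1 hx
      rw [Finset.mem_union]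
      by_cases haR : a ∈ R
      · exact Or.inr (hFR a haR f hf)
      · left
        apply hcos u a f _ hf
        apply hu a ha
        by_contra hcon
        rw [not_or] at hcon
        exact haR ((hmemR a).2 ⟨ha, hcon⟩)
    have h1 := Finset.card_le_card hsub
    have h2 := Finset.card_union_le (u +ᵥ F) R
    rw [Finset.card_vadd_finset] at h2
    have h3 := Finset.card_le_card hRA
    omega
  have h1 := hone t
  have h2 := hone s
  push Not at h1 h2
  obtain ⟨s', hs'A, hs', hs't⟩ := h1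
  obtain ⟨t', ht'A, ht', ht's⟩ := h2
  have hs's : s' - s ∈ N := hs'.resolve_right hs't
  have ht't : t' - t ∈ N := ht'.resolve_left ht's
  have hnst : s - t ∉ N := by
    intro h3
    apply hs't
    have : s' - t = (s' - s) + (s - t) := by abel
    rw [this]
    exact N.add_mem hs's h3
  have hne : s' ≠ t' := by
    rintro rfl
    exact hs't ht't
  have hcard2 : (F + A).card ≤ 2 * F.card + R.card := by
    have hsub : F + A ⊆ ((s +ᵥ F) ∪ (t +ᵥ F)) ∪ R := by
      intro x hx
      obtain ⟨f, hf, a, ha, rfl⟩ := Finset.mem_add.1 hx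
      rw [Finset.mem_union, Finset.mem_union]
      by_cases h3 : a - s ∈ N
      · exact Or.inl (Or.inl (hcos s a f h3 hf))
      by_cases h4 : a - t ∈ N
      · exact Or.inl (Or.inr (hcos t a f h4 hf))
      · exact Or.inr (hFR a ((hmemR a).2 ⟨ha, h3, h4⟩) f hf)
    have h1 := Finset.card_le_card hsub
    have h2 := Finset.card_union_le ((s +ᵥ F) ∪ (t +ᵥ F)) R
    have h3 := Finset.card_union_le (s +ᵥ F) (t +ᵥ F)
    rw [Finset.card_vadd_finset, Finset.card_vadd_finset] at h3
    omega
  have hRk : R.card + 2 ≤ A.card := by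
    have hsub : R ∪ {s', t'} ⊆ A := by
      intro x hx
      rw [Finset.mem_union, Finset.mem_insert, Finset.mem_singleton] at hx
      rcases hx with hx | rfl | rfl
      · exact hRA hx
      · exact hs'A
      · exact ht'A
    have hdis : Disjoint R {s', t'} := by
      rw [Finset.disjoint_right]
      intro x hx hxR
      rw [Finset.mem_insert, Finset.mem_singleton] at hx
      rcases hx with rfl | rfl
      · exact ((hmemR _).1 hxR).2.1 hs's
      · exact ((hmemR _).1 hxR).2.2 ht't
    have h1 := Finset.card_le_card hsub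
    rw [Finset.card_union_of_disjoint hdis, Finset.card_pair hne] at h1
    exact h1
  obtain ⟨hn, -⟩ := card_quot N F hF
  have hRc := card_full N F hF R hR
  set r : ℕ := (R.image (fun a : G => (a : G ⧸ N))).card with hr
  obtain ⟨hq, hrt⟩ := twocos_arith (n := Fintype.card G) (q := Nat.card (G ⧸ N)) (l := F.card)
    (k := A.card) (r := r) (t := Nat.card (G ⧸ N) / h) hE.hh hF2 hn hE.card (by omega)
    (by
      have h3 : (r + 1) * F.card = r * F.card + F.card := by ring
      omega)
    (hE.adm.cases ⟨F.card, hn⟩)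
  rw [hrt] at hRc
  obtain ⟨g, hg⟩ : ∃ g, g ∉ nf A h := by
    by_contra hcon
    push Not at hcon
    exact hE.ne (Finset.eq_univ_iff_forall.2 hcon)
  have g1 := twocos_rep hE N F hF R hRA hR _ hq hRc s' hs'A (fun a ha h3 => by
    apply ((hmemR a).1 ha).2.1
    have : a - s = (a - s') + (s' - s) := by abel
    rw [this]
    exact N.add_mem h3 hs's) g hg
  have g2 := twocos_rep hE N F hF R hRA hR _ hq hRc t' ht'A (fun a ha h3 => by
    apply ((hmemR a).1 ha).2.2
    have : a - t = (a - t') + (t' - t) := by abel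
    rw [this]
    exact N.add_mem h3 ht't) g hg
  have g3 : h • (s' - t') ∈ N := by
    have : h • (s' - t') = (g - h • t') - (g - h • s') := by rw [nsmul_sub]; abel
    rw [this]
    exact N.sub_mem g2 g1
  have g4 : Nat.card (G ⧸ N) • (s' - t') ∈ N := by
    rw [← QuotientAddGroup.eq_zero_iff, QuotientAddGroup.mk_nsmul]
    exact card_nsmul_eq_zero'
  have g5 : s' - t' ∈ N := by
    have e1 : s' - t' = Nat.card (G ⧸ N) • (s' - t') -
        (Nat.card (G ⧸ N) / h) • (h • (s' - t')) := by
      generalize Nat.card (G ⧸ N) / h = c at hq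
      rw [hq, smul_smul, add_smul, one_smul, mul_comm h, add_sub_cancel_left]
    rw [e1]
    exact N.sub_mem g4 (N.nsmul_mem g3 _)
  apply hnst
  have : s - t = (s' - t') - (s' - s) + (t' - t) := by abel
  rw [this]
  exact N.add_mem (N.sub_mem g5 hs's) ht't

end Pool.Agent.SPN
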