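import Pool.Agent.SPN.C3c

set_option autoImplicit false

namespace Pool.Agent.SPN

open Finset Pointwise Pool.Agent.MP_8507d5_co

universe u

variable {G : Type u} [AddCommGroup G] [Fintype G] [DecidableEq G]

/-- **Row C4 (1).** If `|{0,g} + A| ≤ |A| + c`, then outside `c` cosets of `⟨g⟩` the set `A` is a
union of full cosets.
PROOF: `S := A \ (g +ᵥ A)`. `{0,g} + A = A ∪ (g +ᵥ A)` (`pair_add`) and
`|A ∪ (g +ᵥ A)| = |g +ᵥ A| + |A \ (g +ᵥ A)| = |A| + |S|`, so `|S| ≤ c`.
Let `a ∈ A`. If `a - i • g ∈ A` for all `i : ℕ`, then `a + f ∈ A` for all `f ∈ zmultiples g`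
(`-f` is a natural multiple of `g`: `mem_multiples_iff_mem_zmultiples`, finite group).
Otherwise let `i` be least (`Nat.find`) with `a - i • g ∉ A`; `i ≥ 1`, and
`b := a - (i-1) • g` is in `A`, `b - g ∉ A`, so `b ∈ S`, and `a - b ∈ zmultiples g`
(compare `hback` in `ap_of_pair`, Pool/Agent/MP_8507d5_co/Structure.lean). -/
theorem pair_cosets {A : Finset G} (g : G) (c : ℕ)
    (hc : (({0, g} : Finset G) + A).card ≤ A.card + c) :
    ∃ S : Finset G, S.card ≤ c ∧ S ⊆ A ∧ ∀ a ∈ A, (∃ s ∈ S, a - s ∈ AddSubgroup.zmultiples g) ∨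
      ∀ f ∈ AddSubgroup.zmultiples g, a + f ∈ A := by
  have hcard : (A \ (g +ᵥ A)).card ≤ c := by
    rw [pair_add] at hc
    have h1 := Finset.card_sdiff_add_card A (g +ᵥ A)
    rw [Finset.card_vadd_finset] at h1
    omega
  refine ⟨A \ (g +ᵥ A), hcard, Finset.sdiff_subset, fun a ha => ?_⟩
  by_cases H : ∀ i : ℕ, a - i • g ∈ A
  · right
    intro f hf
    have h1 : -f ∈ AddSubmonoid.multiples g :=
      mem_multiples_iff_mem_zmultiples.2 (neg_mem hf)
    obtain ⟨n, hn⟩ := h1
    have hn' : n • g = -f := hn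
    have h2 := H n
    rw [hn', sub_neg_eq_add] at h2
    exact h2
  · left
    push Not at H
    classical
    have h1 := Nat.find_spec H
    have h2 : ∀ j, j < Nat.find H → a - j • g ∈ A := fun j hj => by
      by_contra hcon
      exact Nat.find_min H hj hcon
    obtain ⟨i, hi⟩ : ∃ i, i = Nat.find H := ⟨_, rfl⟩
    rw [← hi] at h1 h2
    cases i with
    | zero =>
      exfalso
      apply h1
      rw [zero_smul, sub_zero]
      exact ha
    | succ j =>
      refine ⟨a - j • g, ?_, ?_⟩
      · rw [Finset.mem_sdiff]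
        refine ⟨h2 j (Nat.lt_succ_self j), fun hmem => ?_⟩
        rw [Finset.mem_vadd_finset] at hmem
        obtain ⟨y, hy, hy2⟩ := hmem
        apply h1
        have h3 : a - (j + 1) • g = y := by
          rw [vadd_eq_add] at hy2
          rw [add_smul, one_smul, ← sub_sub, ← hy2]
          abel
        rw [h3]
        exact hy
      · rw [sub_sub_cancel]
        exact AddSubgroup.nsmul_mem _ (AddSubgroup.mem_zmultiples g) j

/-- **Row C4 (2).** PROOF: `pair_cosets` with `c = 2` gives `S` with at most two elements, so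
`∃ s t, S ⊆ {s, t}`; apply `TwoCos` with `N := zmultiples g` and `F := univ.filter (· ∈ N)`
(classical): `2 ≤ |F|` since `0 ≠ g` are in it, `|F| < |G|` since `N ≠ ⊤`. -/
theorem pair_proper {h : ℕ} {A : Finset G} (hE : Ext h A) (hT : Thick A 1) (g : G) (hg : g ≠ 0)
    (hgt : AddSubgroup.zmultiples g ≠ ⊤)
    (hc : (({0, g} : Finset G) + A).card ≤ A.card + 2) : False := by
  classical
  obtain ⟨S, hS, -, hS2⟩ := pair_cosets g 2 hc
  obtain ⟨s, t, hst⟩ : ∃ s t : G, ∀ x ∈ S, x = s ∨ x = t := by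
    have h3 : S.card = 0 ∨ S.card = 1 ∨ S.card = 2 := by omega
    rcases h3 with h | h | h
    · rw [Finset.card_eq_zero] at h
      exact ⟨0, 0, fun x hx => by rw [h] at hx; exact absurd hx (Finset.notMem_empty x)⟩
    · obtain ⟨s, hs⟩ := Finset.card_eq_one.1 h
      exact ⟨s, s, fun x hx => by rw [hs, Finset.mem_singleton] at hx; exact Or.inl hx⟩
    · obtain ⟨s, t, -, hs⟩ := Finset.card_eq_two.1 h
      exact ⟨s, t, fun x hx => by
        rw [hs, Finset.mem_insert, Finset.mem_singleton] at hx; exact hx⟩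
  have hF : ∀ x, x ∈ univ.filter (fun x => x ∈ AddSubgroup.zmultiples g) ↔
      x ∈ AddSubgroup.zmultiples g := fun x => by
    rw [Finset.mem_filter]
    exact ⟨fun h => h.2, fun h => ⟨Finset.mem_univ x, h⟩⟩
  refine TwoCos hE hT (AddSubgroup.zmultiples g)
    (univ.filter (fun x => x ∈ AddSubgroup.zmultiples g)) hF ?_ ?_ s t ?_
  · have h1 : ({0, g} : Finset G) ⊆ univ.filter (fun x => x ∈ AddSubgroup.zmultiples g) := by
      intro x hx
      rw [hF]
      rw [Finset.mem_insert, Finset.mem_singleton] at hx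
      rcases hx with rfl | rfl
      · exact AddSubgroup.zero_mem _
      · exact AddSubgroup.mem_zmultiples _
    have h2 := Finset.card_le_card h1
    rwa [Finset.card_pair hg.symm] at h2
  · have h1 : ∃ x, x ∉ AddSubgroup.zmultiples g := by
      by_contra hcon
      push Not at hcon
      exact hgt ((AddSubgroup.eq_top_iff' _).2 hcon)
    obtain ⟨x, hx⟩ := h1
    exact Finset.card_lt_univ_of_notMem (x := x) (fun h => hx ((hF x).1 h))
  · intro a ha
    rcases hS2 a ha with ⟨x, hx, hx2⟩ | h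
    · rcases hst x hx with h3 | h3
      · rw [h3] at hx2
        exact Or.inl hx2
      · rw [h3] at hx2
        exact Or.inr (Or.inl hx2)
    · exact Or.inr (Or.inr fun f hf => h f ((hF f).1 hf))

end Pool.Agent.SPN
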