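import Pool.Agent.SPN.C3a

set_option autoImplicit false

namespace Pool.Agent.SPN

open Finset Pointwise Pool.Agent.MP_8507d5_co

universe u

variable {G : Type u} [AddCommGroup G] [Fintype G] [DecidableEq G]

/-- **Row C5 (1).** A Sidon set `M` meeting `c₀` cosets of `N` (finset `F`):
`2 |M| + 1 ≤ |F| + 2 c₀` where `c₀ |F| = |F + M|`.
PROOF: let `m_q` be the size of the fibre of `M` over `q ∈ G/N`, `c₀` the number of `q` with
`m_q ≥ 1` (image of `M`). `card_full` (applied to `R := F + M`, whose image equals the image of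
`M`) gives `|F + M| = c₀ |F|`. The pairs `(u, v)`, `u ≠ v ∈ M`, `u - v ∈ N` inject into
`F.erase 0` by `(u, v) ↦ u - v` because `M` is Sidon (see the `hpairs` part of the proof of
`sidon_subset`, Pool/Agent/MP_8507d5_co/Tight.lean). Their number is `∑_q m_q (m_q - 1)`, which is
`≥ ∑_q (2 m_q - 2) = 2 |M| - 2 c₀` since `m (m - 1) ≥ 2 m - 2` for `m ≥ 1`.
So `2 |M| - 2 c₀ ≤ |F| - 1`. (`|M| = ∑_q m_q` is `Finset.card_eq_sum_card_image`.)
If `M` meets at least two cosets (`hab`) then `c₀ ≥ 2`. -/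
theorem sidon_sub {M : Finset G} (hS : Sidon M) (N : AddSubgroup G) (F : Finset G)
    (hF : ∀ x, x ∈ F ↔ x ∈ N) (hab : ∃ a ∈ M, ∃ b ∈ M, a - b ∉ N) :
    ∃ c₀ : ℕ, (F + M).card = c₀ * F.card ∧ 2 ≤ c₀ ∧ 2 * M.card + 1 ≤ F.card + 2 * c₀ := by
  classical
  have h0F : (0 : G) ∈ F := (hF 0).2 N.zero_mem
  have himg : (F + M).image (fun a : G => (a : G ⧸ N)) = M.image (fun a : G => (a : G ⧸ N)) := by
    ext q
    simp only [Finset.mem_image, Finset.mem_add]
    constructor
    · rintro ⟨a, ⟨f, hf, m, hm, rfl⟩, rfl⟩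
      refine ⟨m, hm, ?_⟩
      rw [mk_eq_iff]
      have : m - (f + m) = - f := by abel
      rw [this]
      exact N.neg_mem ((hF f).1 hf)
    · rintro ⟨m, hm, rfl⟩
      exact ⟨m, ⟨0, h0F, m, hm, zero_add m⟩, rfl⟩
  refine ⟨(M.image (fun a : G => (a : G ⧸ N))).card, ?_, ?_, ?_⟩
  · rw [card_full N F hF (F + M) ?_, himg]
    intro a ha f hf
    obtain ⟨f', hf', m, hm, rfl⟩ := Finset.mem_add.1 ha
    refine Finset.mem_add.2 ⟨f' + f, (hF _).2 (N.add_mem ((hF _).1 hf') ((hF _).1 hf)), m, hm, ?_⟩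
    abel
  · obtain ⟨a, ha, b, hb, hab⟩ := hab
    have : 1 < (M.image (fun a : G => (a : G ⧸ N))).card := by
      rw [Finset.one_lt_card]
      exact ⟨_, Finset.mem_image_of_mem _ ha, _, Finset.mem_image_of_mem _ hb,
        fun h => hab ((mk_eq_iff N a b).1 h)⟩
    exact this
  · have hinj : ((M ×ˢ M).filter (fun p => p.1 ≠ p.2 ∧ p.1 - p.2 ∈ N)).card ≤
        (F.erase 0).card := by
      apply Finset.card_le_card_of_injOn (fun p => p.1 - p.2)
      · rintro ⟨u, v⟩ hp
        rw [Finset.mem_coe, Finset.mem_filter] at hp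
        simp only [Finset.coe_erase, Set.mem_sdiff, Finset.mem_coe, Set.mem_singleton_iff]
        exact ⟨(hF _).2 hp.2.2, fun h => hp.2.1 (sub_eq_zero.1 h)⟩
      · rintro ⟨u, v⟩ hp ⟨u', v'⟩ hp' heq
        simp only at heq
        rw [Finset.mem_coe, Finset.mem_filter, Finset.mem_product] at hp hp'
        obtain ⟨⟨hu, hv⟩, hne, -⟩ := hp
        obtain ⟨⟨hu', hv'⟩, hne', -⟩ := hp'
        simp only at hu hv hne hu' hv' hne'
        have h1 := hS (u - v) (sub_ne_zero.2 hne)
        rw [Finset.card_le_one] at h1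
        have m1 : u ∈ M ∩ ((u - v) +ᵥ M) :=
          Finset.mem_inter.2 ⟨hu, Finset.mem_vadd_finset.2 ⟨v, hv, by simp⟩⟩
        have m2 : u' ∈ M ∩ ((u - v) +ᵥ M) :=
          Finset.mem_inter.2 ⟨hu', Finset.mem_vadd_finset.2 ⟨v', hv', by rw [heq]; simp⟩⟩
        have e1 := h1 u m1 u' m2
        subst e1
        have e2 : v = v' := by
          have := heq
          simpa using this
        rw [e2]
    have hP : ((M ×ˢ M).filter (fun p => p.1 ≠ p.2 ∧ p.1 - p.2 ∈ N)).card =
        ∑ q ∈ M.image (fun a : G => (a : G ⧸ N)),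
          ((M.filter (fun a : G => (a : G ⧸ N) = q)).offDiag).card := by
      rw [Finset.card_eq_sum_card_fiberwise (f := fun p : G × G => (p.1 : G ⧸ N))
        (t := M.image (fun a : G => (a : G ⧸ N)))]
      · refine Finset.sum_congr rfl fun q _ => ?_
        apply congrArg
        ext ⟨u, v⟩
        simp only [Finset.mem_filter, Finset.mem_product, Finset.mem_offDiag]
        constructor
        · rintro ⟨⟨⟨hu, hv⟩, hne, hN⟩, hq⟩
          refine ⟨⟨hu, hq⟩, ⟨hv, ?_⟩, hne⟩
          rw [← hq]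
          exact ((mk_eq_iff N u v).2 hN).symm
        · rintro ⟨⟨hu, hq⟩, ⟨hv, hq'⟩, hne⟩
          exact ⟨⟨⟨hu, hv⟩, hne, (mk_eq_iff N u v).1 (hq.trans hq'.symm)⟩, hq⟩
      · intro p hp
        have hp' := Finset.mem_filter.1 (Finset.mem_coe.1 hp)
        exact Finset.mem_coe.2 (Finset.mem_image_of_mem _ (Finset.mem_product.1 hp'.1).1)
    have hM : M.card = ∑ q ∈ M.image (fun a : G => (a : G ⧸ N)),
        (M.filter (fun a : G => (a : G ⧸ N) = q)).card :=
      Finset.card_eq_sum_card_image _ _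
    have hle : ∑ q ∈ M.image (fun a : G => (a : G ⧸ N)),
        2 * (M.filter (fun a : G => (a : G ⧸ N) = q)).card ≤
        ∑ q ∈ M.image (fun a : G => (a : G ⧸ N)),
          (((M.filter (fun a : G => (a : G ⧸ N) = q)).offDiag).card + 2) := by
      refine Finset.sum_le_sum fun q _ => ?_
      rw [Finset.offDiag_card]
      generalize (M.filter (fun a : G => (a : G ⧸ N) = q)).card = m
      rcases Nat.eq_zero_or_pos m with rfl | hm
      · simp
      · obtain ⟨k, rfl⟩ : ∃ k, m = k + 1 := ⟨m - 1, by omega⟩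
        have h2 : (k + 1) * (k + 1) - (k + 1) = (k + 1) * k := by
          rw [Nat.mul_add, Nat.mul_one, Nat.add_sub_cancel]
        rw [h2]
        nlinarith [Nat.zero_le (k * k), sq_nonneg ((k : ℤ) - 1), Nat.le_mul_self k]
    rw [← Finset.mul_sum, ← hM, Finset.sum_add_distrib, ← hP, Finset.sum_const, smul_eq_mul] at hle
    have hF1 : (F.erase 0).card = F.card - 1 := Finset.card_erase_of_mem h0F
    have hF2 : 1 ≤ F.card := Finset.card_pos.2 ⟨0, h0F⟩
    omega

end Pool.Agent.SPN
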