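import Pool.Agent.SPN.C1

set_option autoImplicit false

namespace Pool.Agent.SPN

/-- **Row C5 (2), arithmetic.** `c = 0`: `c₀ p ≤ p + m`, `2m + 1 ≤ p + 2c₀`, `c₀ ≥ 2`, `p ≥ 3`
give `m ≤ 3`: `2 (c₀ - 1) p ≤ 2 m ≤ p + 2 c₀ - 1`, so `(2 c₀ - 3) p ≤ 2 c₀ - 1`; with `p ≥ 3`:
`6 c₀ - 9 ≤ 2 c₀ - 1`, `c₀ ≤ 2`, so `c₀ = 2`, `p ≤ 3`, `2 m ≤ 6`. -/
theorem sidon_sub_arith0 {c₀ p m : ℕ} (h1 : c₀ * p ≤ p + m) (h2 : 2 * m + 1 ≤ p + 2 * c₀)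
    (h3 : 2 ≤ c₀) (h4 : 3 ≤ p) : m ≤ 3 := by
  obtain ⟨x, rfl⟩ := Nat.exists_eq_add_of_le' h3
  obtain ⟨y, rfl⟩ := Nat.exists_eq_add_of_le' h4
  have e : (x + 2) * (y + 3) = x * y + 3 * x + 2 * y + 6 := by ring
  rw [e] at h1
  have h5 : 0 ≤ x * y := Nat.zero_le _
  omega

/-- **Row C5 (3), arithmetic.** `c = 1`: `c₀ p ≤ p + m + 1`, `2m + 1 ≤ p + 2c₀`, `c₀ ≥ 2`,
`p ≥ 7` are contradictory: `2 (c₀ - 1) p ≤ 2 m + 2 ≤ p + 2 c₀ + 1`, `(2 c₀ - 3) p ≤ 2 c₀ + 1`,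
`14 c₀ - 21 ≤ 2 c₀ + 1`, `c₀ ≤ 1`. -/
theorem sidon_sub_arith1 {c₀ p m : ℕ} (h1 : c₀ * p ≤ p + m + 1) (h2 : 2 * m + 1 ≤ p + 2 * c₀)
    (h3 : 2 ≤ c₀) (h4 : 7 ≤ p) : False := by
  obtain ⟨x, rfl⟩ := Nat.exists_eq_add_of_le' h3
  obtain ⟨y, rfl⟩ := Nat.exists_eq_add_of_le' h4
  have e : (x + 2) * (y + 7) = x * y + 7 * x + 2 * y + 14 := by ring
  rw [e] at h1
  have h5 : 0 ≤ x * y := Nat.zero_le _
  omega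

/-- **Row C5 (4), arithmetic for two Sidon sets.** `m, m' ≥ 2`, `c ≤ 1`, `S := |M + M'|` with
`S ≤ m + m' + c` and the two inequalities of `sidon_card`; then `m ≤ 3 + c`.
PROOF. If `m' ≤ m`: `2 m' m ≤ 2 S + m' (m'-1) ≤ 2 m + 2 m' + 2 c + m'(m'-1)`, i.e.
`2 m (m'-1) ≤ m'^2 + m' + 2 c`. `m' = 2`: `2 m ≤ 6 + 2 c`. `m' = 3`: `4 m ≤ 12 + 2c`.
`m' ≥ 4`: `2 m' (m'-1) ≤ m'^2 + m' + 2`, `m'^2 ≤ 3 m' + 2`, impossible for `m' ≥ 4`.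
If `m < m'`: `2 m' (m - 1) ≤ m^2 + m + 2 c`, and `m' ≥ m + 1`: `2 (m+1)(m-1) ≤ m^2 + m + 2`,
`m^2 ≤ m + 4`, `m ≤ 2`. -/
theorem two_sidon_arith {m m' c S : ℕ} (hm : 2 ≤ m) (hm' : 2 ≤ m') (hc : c ≤ 1)
    (hS : S ≤ m + m' + c) (h1 : 2 * m' * m ≤ 2 * S + m' * (m' - 1))
    (h2 : 2 * m * m' ≤ 2 * S + m * (m - 1)) : m ≤ 3 + c := by
  obtain ⟨x, rfl⟩ := Nat.exists_eq_add_of_le' hm
  obtain ⟨y, rfl⟩ := Nat.exists_eq_add_of_le' hm'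
  have e1 : y + 2 - 1 = y + 1 := by omega
  have e2 : x + 2 - 1 = x + 1 := by omega
  rw [e1] at h1
  rw [e2] at h2
  rcases Nat.lt_or_ge x y with hxy | hxy
  · obtain ⟨d, rfl⟩ := Nat.exists_eq_add_of_lt hxy
    have h3 : x ≤ 1 := by
      by_contra hcon
      have h4 : 2 ≤ x := by omega
      obtain ⟨z, rfl⟩ := Nat.exists_eq_add_of_le' h4
      nlinarith [Nat.zero_le (z * d), Nat.zero_le (z * z), Nat.zero_le z, Nat.zero_le d]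
    omega
  · obtain ⟨d, rfl⟩ := Nat.exists_eq_add_of_le hxy
    have h3 : y ≤ 1 := by
      by_contra hcon
      have h4 : 2 ≤ y := by omega
      obtain ⟨z, rfl⟩ := Nat.exists_eq_add_of_le' h4
      nlinarith [Nat.zero_le (z * d), Nat.zero_le (z * z), Nat.zero_le z, Nat.zero_le d]
    have h4 : y = 0 ∨ y = 1 := by omega
    rcases h4 with rfl | rfl
    · omega
    · omega

end Pool.Agent.SPN
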