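import Pool.Agent.SPN.C5
import Pool.Agent.SPN.C5b

set_option autoImplicit false

namespace Pool.Agent.SPN

open Finset Pointwise Pool.Agent.MP_8507d5_co

universe u

variable {G : Type u} [AddCommGroup G] [Fintype G] [DecidableEq G]

/-- **Row C6.** Size of a generating Sidon set `M` with `|A + M| ≤ |A| + |M| + c`.
PROOF. `A` is feasible for `M` (`Feas M 2 A`), so by `exists_atom_zero` there is a `2`-atom `M'`
of `M` with `0 ∈ M'`, and `hM'.min A hA : |M' + M| + |A| ≤ |A + M| + |M'|`, so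
`|M' + M| ≤ |M'| + |M| + c`. `|M'| ≥ 2`, `|M' + M| + 2 ≤ |G|`. By `atom_dich`:
(a) `M'` is the finset of a subgroup `N'`. It is proper (`M'` has fewer than `|G|` elements since
`|M'| ≤ |M' + M| < |G|`), so `M ⊄ N'` (else `⊤ = closure M ≤ N'`), and as `0 ∈ M` there are
`a, 0 ∈ M` with `a - 0 ∉ N'`: `sidon_sub` applies with `F := M'`. `|M'|` divides `|G|`
(`card_quot`), `|M'| ≥ 2`, so `|M'| ≥ 3` (if `c = 0`), `≥ 7` (if `c = 1`) by `hdiv`. Conclude by
`sidon_sub_arith0`, `sidon_sub_arith1`.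
(b) `M'` is Sidon: `sidon_card M hS M'`, `sidon_card M' _ M` (Pool.Agent.MP_8507d5_co.sidon_card)
and `two_sidon_arith`. -/
theorem atom_size {M : Finset G} (hS : Sidon M) (h0 : (0 : G) ∈ M) (hM2 : 2 ≤ M.card)
    (hM : AddSubgroup.closure (M : Set G) = ⊤) (A : Finset G) (hA : Feas M 2 A) (c : ℕ)
    (hc : c ≤ 1) (hcard : (A + M).card ≤ A.card + M.card + c)
    (hdiv : ∀ d, d ∣ Fintype.card G → 2 ≤ d → 3 + 4 * c ≤ d) : M.card ≤ 3 + c := by
  obtain ⟨M', hM', h0'⟩ := exists_atom_zero ⟨A, hA⟩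
  have h1 := hM'.min A hA
  have h2 := hM'.feas.1
  have h3 := hM'.feas.2
  rcases atom_dich hM' h0' with ⟨N', hN'⟩ | hSid
  · have hex : ∃ a ∈ M, ∃ b ∈ M, a - b ∉ N' := by
      by_contra hcon
      push Not at hcon
      have h4 : (M : Set G) ⊆ N' := by
        intro a ha
        have h5 := hcon a ha 0 h0
        rwa [sub_zero] at h5
      have h6 : (⊤ : AddSubgroup G) ≤ N' := by
        rw [← hM]
        exact (AddSubgroup.closure_le N').2 h4
      have h7 : M' = Finset.univ := Finset.eq_univ_iff_forall.2 fun x =>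
        (hN' x).2 (h6 (AddSubgroup.mem_top x))
      have h8 : M'.card ≤ (M' + M).card :=
        Finset.card_le_card_add_right ⟨0, h0⟩
      rw [h7, Finset.card_univ] at h8
      rw [h7] at h3
      omega
    obtain ⟨c₀, h4, h5, h6⟩ := sidon_sub hS N' M' hN' hex
    have h7 : M'.card ∣ Fintype.card G := ⟨_, (card_quot N' M' hN').1.trans (mul_comm _ _)⟩
    have h8 := hdiv _ h7 h2
    rw [h4] at h1
    have hc' : c = 0 ∨ c = 1 := by omega
    rcases hc' with rfl | rfl
    · exact sidon_sub_arith0 (by omega) h6 h5 (by omega)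
    · exact (sidon_sub_arith1 (by omega) h6 h5 (by omega)).elim
  · have h4 := sidon_card M hS M'
    have h5 := sidon_card M' hSid M
    rw [add_comm M M'] at h4
    exact two_sidon_arith hM2 h2 hc (by omega) h4 h5

end Pool.Agent.SPN
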