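import Pool.Agent.SPN.C7a

set_option autoImplicit false

namespace Pool.Agent.SPN

open Finset Pointwise Pool.Agent.MP_8507d5_co

universe u

variable {G : Type u} [AddCommGroup G] [Fintype G] [DecidableEq G]

/-- **Row C7 (1).** A run of `C` in direction `a` of length `L`: `s ∈ C`, `s - a ∉ C`,
`s + i a ∈ C` for `i < L`, `s + L a ∉ C`. Under the triangle rule the run starting at `s` gives
the run `s + (a - b), ...` of length `L - 1`.
PROOF: put `s' := s + a - b`. `s + a, s ∈ C` (as `2 ≤ L`), so rule 1 at `x = s + a` gives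
`s + a - b ∈ C`. `s' - a = s - b`: if it were in `C`, rule 2 at `x = s` (`s ∈ C`, `s - b ∈ C`)
would give `s - a ∈ C`. For `i < L - 1`: `s' + i a = (s + (i+1) a) - b`, rule 1 at
`x = s + (i+1) a`. `s' + (L-1) a = (s + L a) - b`: if it were in `C`, rule 3 at `x = s + L a`
(`x - a = s + (L-1) a ∈ C`, `x - b ∈ C`) would give `s + L a ∈ C`. -/
theorem run_shift {C : Finset G} {a b : G}
    (h1 : ∀ x, x ∈ C → x - a ∈ C → x - b ∈ C) (h2 : ∀ x, x ∈ C → x - b ∈ C → x - a ∈ C)
    (h3 : ∀ x, x - a ∈ C → x - b ∈ C → x ∈ C) (s : G) (L : ℕ) (hL : 2 ≤ L)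
    (hs : s - a ∉ C) (hrun : ∀ i < L, s + i • a ∈ C) (hend : s + L • a ∉ C) :
    (s + (a - b)) - a ∉ C ∧ (∀ i < L - 1, (s + (a - b)) + i • a ∈ C) ∧
      (s + (a - b)) + (L - 1) • a ∉ C := by
  refine ⟨?_, ?_, ?_⟩
  · intro hc
    have e1 : (s + (a - b)) - a = s - b := by abel
    rw [e1] at hc
    have h0 : s ∈ C := by
      have h4 := hrun 0 (by omega)
      rwa [zero_nsmul, add_zero] at h4
    exact hs (h2 s h0 hc)
  · intro i hi
    have e1 : (s + (a - b)) + i • a = (s + (i + 1) • a) - b := by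
      rw [succ_nsmul]
      abel
    rw [e1]
    apply h1 _ (hrun (i + 1) (by omega))
    have e2 : s + (i + 1) • a - a = s + i • a := by
      rw [succ_nsmul]
      abel
    rw [e2]
    exact hrun i (by omega)
  · intro hc
    obtain ⟨l, rfl⟩ : ∃ l, L = l + 1 := ⟨L - 1, by omega⟩
    rw [Nat.add_sub_cancel] at hc
    have e1 : (s + (a - b)) + l • a = (s + (l + 1) • a) - b := by
      rw [succ_nsmul]
      abel
    rw [e1] at hc
    apply hend
    apply h3 _ _ hc
    have e2 : s + (l + 1) • a - a = s + l • a := by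
      rw [succ_nsmul]
      abel
    rw [e2]
    exact hrun l (by omega)

theorem c7_iter {C : Finset G} {a b : G}
    (h1 : ∀ x, x ∈ C → x - a ∈ C → x - b ∈ C) (h2 : ∀ x, x ∈ C → x - b ∈ C → x - a ∈ C)
    (h3 : ∀ x, x - a ∈ C → x - b ∈ C → x ∈ C) (s : G) (L : ℕ)
    (hs : s - a ∉ C) (hrun : ∀ i < L, s + i • a ∈ C) (hend : s + L • a ∉ C) (j : ℕ)
    (hj : j < L) : (s + j • (a - b)) - a ∉ C ∧ (∀ i < L - j, (s + j • (a - b)) + i • a ∈ C) ∧
      (s + j • (a - b)) + (L - j) • a ∉ C := by
  induction j with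
  | zero =>
    rw [zero_nsmul, add_zero, Nat.sub_zero]
    exact ⟨hs, hrun, hend⟩
  | succ j ih =>
    obtain ⟨i1, i2, i3⟩ := ih (by omega)
    have h4 := run_shift h1 h2 h3 (s + j • (a - b)) (L - j) (by omega) i1 i2 i3
    have e1 : s + j • (a - b) + (a - b) = s + (j + 1) • (a - b) := by
      rw [succ_nsmul, add_assoc]
    have e2 : L - j - 1 = L - (j + 1) := by omega
    rw [e1, e2] at h4
    exact h4

/-- **Row C7 (2).** Every run has length at most `ρ := |C \ (a +ᵥ C)|`.
PROOF: by `run_shift` (induction on `j`) the elements `s_j := s + j • (a - b)`, `j < L`, are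
starts of runs of length exactly `L - j`; they are in `C` and `s_j - a ∉ C`, so they are in
`C \ (a +ᵥ C)`. They are pairwise distinct: the length of the run starting at a given element is
determined (if `s_i = s_j` with `i < j` then `s_i + (L - j) a ∈ C` since `L - j < L - i`, but
`s_j + (L - j) a ∉ C`). So `L ≤ ρ` (`Finset.card_le_card_of_injOn` from `range L`). -/
theorem run_le {C : Finset G} {a b : G}
    (h1 : ∀ x, x ∈ C → x - a ∈ C → x - b ∈ C) (h2 : ∀ x, x ∈ C → x - b ∈ C → x - a ∈ C)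
    (h3 : ∀ x, x - a ∈ C → x - b ∈ C → x ∈ C) (s : G) (L : ℕ) (hL : 1 ≤ L)
    (hs : s - a ∉ C) (hrun : ∀ i < L, s + i • a ∈ C) (hend : s + L • a ∉ C) :
    L ≤ (C \ (a +ᵥ C)).card := by
  have key := c7_iter h1 h2 h3 s L hs hrun hend
  have h4 : (Finset.range L).card ≤ (C \ (a +ᵥ C)).card := by
    refine Finset.card_le_card_of_injOn (fun j => s + j • (a - b)) ?_ ?_
    · intro j hj
      rw [Finset.mem_coe, Finset.mem_range] at hj
      obtain ⟨i1, i2, i3⟩ := key j hj
      rw [Finset.mem_coe, Finset.mem_sdiff]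
      refine ⟨?_, ?_⟩
      · have h5 := i2 0 (by omega)
        rwa [zero_nsmul, add_zero] at h5
      · intro h5
        rw [Finset.mem_vadd_finset] at h5
        obtain ⟨c, hc, hc'⟩ := h5
        apply i1
        have h6 : s + j • (a - b) = a + c := hc'.symm
        rw [h6, add_sub_cancel_left]
        exact hc
    · have hlt : ∀ i j, i < j → j < L → s + i • (a - b) ≠ s + j • (a - b) := by
        intro i j hij hjL he
        obtain ⟨_, i2, _⟩ := key i (by omega)
        obtain ⟨_, _, j3⟩ := key j hjL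
        apply j3
        rw [← he]
        exact i2 (L - j) (by omega)
      intro i hi j hj he
      rw [Finset.mem_coe, Finset.mem_range] at hi hj
      rcases Nat.lt_trichotomy i j with h5 | h5 | h5
      · exact absurd he (hlt i j h5 hj)
      · exact h5
      · exact absurd he.symm (hlt j i h5 hi)
  rwa [Finset.card_range] at h4

end Pool.Agent.SPN
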