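import Pool.Agent.SPN.C1

set_option autoImplicit false

namespace Pool.Agent.SPN

open Finset Pointwise Pool.Agent.MP_8507d5_co

universe u

variable {G : Type u} [AddCommGroup G] [Fintype G] [DecidableEq G]

omit [DecidableEq G] in
theorem c7a_neg (a : G) : ∃ k : ℕ, k • a = -a := by
  refine ⟨addOrderOf a - 1, ?_⟩
  apply eq_neg_of_add_eq_zero_left
  rw [← succ_nsmul, Nat.sub_add_cancel (addOrderOf_pos a), addOrderOf_nsmul_eq_zero]

/-- **Row C7a.** No full coset of `⟨a⟩` inside `C`.
PROOF. Suppose `z + i • a ∈ C` for all `i : ℕ`. Let `D := {w : G | ∀ i : ℕ, w + i • a ∈ C}`; `z ∈ D`.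
`D` is closed under `+ μ` for `μ ∈ T`: for `w ∈ D`, `(w + i • a) ∈ C`, `(w + i • a) + a =
w + (i+1) • a ∈ C`, so `w + i • a + μ ∈ C` (`hT`). `D` is finite (subset of a finite type), and
translation by `μ` is injective, so `D` is closed under `- μ` too. By
`AddSubgroup.closure_induction` `D` is closed under `+ u` for all `u ∈ closure T = ⊤`, so
`D = univ`, and `C = univ` (take `i = 0`), contradiction. -/
theorem no_full_gen {C : Finset G} (a : G) (T : Set G)
    (hT : ∀ μ ∈ T, ∀ x, x ∈ C → x + a ∈ C → x + μ ∈ C)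
    (hgen : AddSubgroup.closure T = ⊤) (hC : C ≠ univ) (z : G) : ∃ i : ℕ, z + i • a ∉ C := by
  by_contra hcon
  push Not at hcon
  have hadd : ∀ μ ∈ T, ∀ w, (∀ i : ℕ, w + i • a ∈ C) → ∀ i : ℕ, (w + μ) + i • a ∈ C := by
    intro μ hμ w hw i
    have h1 := hT μ hμ (w + i • a) (hw i) (by
      have h2 := hw (i + 1)
      rw [succ_nsmul, ← add_assoc] at h2
      exact h2)
    have h3 : w + μ + i • a = w + i • a + μ := by abel
    rw [h3]
    exact h1
  have hmul : ∀ μ ∈ T, ∀ k : ℕ, ∀ w, (∀ i : ℕ, w + i • a ∈ C) → ∀ i : ℕ, (w + k • μ) + i • a ∈ C := by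
    intro μ hμ k
    induction k with
    | zero =>
      intro w hw i
      rw [zero_nsmul, add_zero]
      exact hw i
    | succ k ih =>
      intro w hw
      rw [succ_nsmul, ← add_assoc]
      exact hadd μ hμ _ (ih w hw)
  have hall : ∀ u ∈ AddSubgroup.closure T, ∀ w, (∀ i : ℕ, w + i • a ∈ C) →
      (∀ i : ℕ, (w + u) + i • a ∈ C) ∧ ∀ i : ℕ, (w + -u) + i • a ∈ C := by
    intro u hu
    induction hu using AddSubgroup.closure_induction with
    | mem μ hμ =>
      intro w hw
      refine ⟨hadd μ hμ w hw, ?_⟩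
      obtain ⟨k, hk⟩ := c7a_neg μ
      rw [← hk]
      exact hmul μ hμ k w hw
    | zero =>
      intro w hw
      rw [neg_zero, add_zero]
      exact ⟨hw, hw⟩
    | add u v _ _ ihu ihv =>
      intro w hw
      refine ⟨?_, ?_⟩
      · rw [← add_assoc]
        exact (ihv _ (ihu w hw).1).1
      · rw [neg_add, ← add_assoc]
        exact (ihv _ (ihu w hw).2).2
    | neg u _ ihu =>
      intro w hw
      rw [neg_neg]
      exact ⟨(ihu w hw).2, (ihu w hw).1⟩
  apply hC
  rw [Finset.eq_univ_iff_forall]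
  intro x
  have h1 := (hall (x - z) (by rw [hgen]; exact AddSubgroup.mem_top _) z hcon).1 0
  rw [zero_nsmul, add_zero, add_sub_cancel] at h1
  exact h1

/-- In a finite group natural multiples of `-a` are natural multiples of `a`.
PROOF: `i • (-a) = (m * i - i) • a`-style identity with `m = addOrderOf a > 0`, or
`mem_multiples_iff_mem_zmultiples`. -/
theorem nsmul_neg_exists (a : G) (i : ℕ) : ∃ j : ℕ, i • (-a) = j • a := by
  obtain ⟨k, hk⟩ := c7a_neg a
  exact ⟨i * k, by rw [← hk, mul_nsmul']⟩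

end Pool.Agent.SPN
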