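import Pool.Agent.SPN.C7

set_option autoImplicit false

namespace Pool.Agent.SPN

open Finset Pointwise Pool.Agent.MP_8507d5_co

universe u

variable {G : Type u} [AddCommGroup G] [Fintype G] [DecidableEq G]

/-- **Row C7 (3).** If `{0, a, b}` generates and `C ≠ G`, no coset of `⟨a⟩` is contained in `C`.
PROOF: `no_full_gen` (C7a.lean, you may cite it) with `a := -a`, `T := {0, -a, -b}` : its closure
is `⊤` since `closure {0, a, b} = ⊤` (each of `0, a, b` is in it), gives `i` with
`z + i • (-a) ∉ C`; then `nsmul_neg_exists`. The rule for `μ = 0, -a` is trivial, for `μ = -b`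
it is `h1`. -/
theorem no_full_coset {C : Finset G} {a b : G}
    (h1 : ∀ x, x ∈ C → x - a ∈ C → x - b ∈ C)
    (hgen : AddSubgroup.closure ({0, a, b} : Set G) = ⊤) (hC : C ≠ univ) (z : G) :
    (∃ i : ℕ, z + i • a ∉ C) ∧ ∃ i : ℕ, z - i • a ∉ C := by
  have hcl : AddSubgroup.closure ({0, -a, -b} : Set G) = ⊤ := by
    rw [eq_top_iff, ← hgen, AddSubgroup.closure_le]
    intro x hx
    simp only [Set.mem_insert_iff, Set.mem_singleton_iff] at hx
    rcases hx with rfl | rfl | rfl
    · exact AddSubgroup.zero_mem _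
    · have h4 := AddSubgroup.neg_mem _ (AddSubgroup.subset_closure
        (show -x ∈ ({0, -x, -b} : Set G) by simp))
      rw [neg_neg] at h4
      exact h4
    · have h4 := AddSubgroup.neg_mem _ (AddSubgroup.subset_closure
        (show -x ∈ ({0, -a, -x} : Set G) by simp))
      rw [neg_neg] at h4
      exact h4
  obtain ⟨i, hi⟩ := no_full_gen (C := C) (-a) {0, -a, -b} (by
    intro μ hμ x hx hxa
    simp only [Set.mem_insert_iff, Set.mem_singleton_iff] at hμ
    rcases hμ with rfl | rfl | rfl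
    · rw [add_zero]; exact hx
    · exact hxa
    · rw [← sub_eq_add_neg] at hxa ⊢
      exact h1 x hx hxa) hcl hC z
  constructor
  · obtain ⟨j, hj⟩ := nsmul_neg_exists a i
    exact ⟨j, by rw [← hj]; exact hi⟩
  · refine ⟨i, ?_⟩
    rw [smul_neg, ← sub_eq_add_neg] at hi
    exact hi

/-- **Row C7 (4).** `|C| ≤ ρ²`, `ρ = |C \ (a +ᵥ C)|`.
PROOF: let `c ∈ C`. By `no_full_coset` there is a least `i ≥ 1`
with `c - i • a ∉ C`; `s := c - (i-1) • a ∈ C \ (a +ᵥ C)`. Let `L ≥ 1` be least with
`s + L • a ∉ C` (`no_full_coset`, `Nat.find`); `i - 1 < L`, and `L ≤ ρ` by `run_le`. So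
`C ⊆ (C \ (a +ᵥ C)).biUnion (fun s => (range ρ).image (fun i => s + i • a))`, of cardinality at
most `ρ * ρ`. -/
theorem triangle_card {C : Finset G} {a b : G}
    (h1 : ∀ x, x ∈ C → x - a ∈ C → x - b ∈ C) (h2 : ∀ x, x ∈ C → x - b ∈ C → x - a ∈ C)
    (h3 : ∀ x, x - a ∈ C → x - b ∈ C → x ∈ C)
    (hgen : AddSubgroup.closure ({0, a, b} : Set G) = ⊤) (hC : C ≠ univ) :
    C.card ≤ (C \ (a +ᵥ C)).card * (C \ (a +ᵥ C)).card := by
  classical
  set ρ := (C \ (a +ᵥ C)).card with hρ
  have hmem : ∀ x, x ∈ C \ (a +ᵥ C) ↔ x ∈ C ∧ x - a ∉ C := by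
    intro x
    rw [Finset.mem_sdiff]
    refine and_congr_right fun _ => not_congr ?_
    rw [Finset.mem_vadd_finset]
    constructor
    · rintro ⟨y, hy, rfl⟩
      rw [vadd_eq_add, add_sub_cancel_left]
      exact hy
    · intro h
      exact ⟨x - a, h, by rw [vadd_eq_add]; abel⟩
  have hsub : C ⊆ (C \ (a +ᵥ C)).biUnion (fun s => (Finset.range ρ).image (fun i => s + i • a)) := by
    intro c hc
    obtain ⟨-, hex⟩ := no_full_coset h1 hgen hC c
    set i := Nat.find hex with hi
    have hi1 : c - i • a ∉ C := Nat.find_spec hex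
    have hi2 : ∀ j < i, c - j • a ∈ C := fun j hj => not_not.1 (Nat.find_min hex hj)
    have hi0 : 1 ≤ i := by
      rcases Nat.eq_zero_or_pos i with h0 | h0
      · rw [h0, zero_smul, sub_zero] at hi1
        exact absurd hc hi1
      · exact h0
    set s := c - (i - 1) • a with hs
    have hsC : s ∈ C := hi2 _ (by omega)
    have hsa : s - a ∉ C := by
      have : s - a = c - i • a := by
        have h4 : i • a = (i - 1) • a + a := by
          rw [← succ_nsmul, Nat.sub_add_cancel hi0]
        rw [hs, h4]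
        abel
      rw [this]
      exact hi1
    obtain ⟨hex2, -⟩ := no_full_coset h1 hgen hC s
    set L := Nat.find hex2 with hL
    have hL1 : s + L • a ∉ C := Nat.find_spec hex2
    have hL2 : ∀ j < L, s + j • a ∈ C := fun j hj => not_not.1 (Nat.find_min hex2 hj)
    have hL0 : 1 ≤ L := by
      rcases Nat.eq_zero_or_pos L with h0 | h0
      · rw [h0, zero_smul, add_zero] at hL1
        exact absurd hsC hL1
      · exact h0
    have hLρ : L ≤ ρ := run_le h1 h2 h3 s L hL0 hsa hL2 hL1
    have hiL : i - 1 < L := by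
      by_contra hcon
      push Not at hcon
      apply hL1
      have : s + L • a = c - (i - 1 - L) • a := by
        have h4 : (i - 1) • a = (i - 1 - L) • a + L • a := by
          rw [← add_smul, Nat.sub_add_cancel hcon]
        rw [hs, h4]
        abel
      rw [this]
      exact hi2 _ (by omega)
    rw [Finset.mem_biUnion]
    refine ⟨s, (hmem s).2 ⟨hsC, hsa⟩, ?_⟩
    rw [Finset.mem_image]
    refine ⟨i - 1, Finset.mem_range.2 (by omega), ?_⟩
    rw [hs]
    abel
  refine (Finset.card_le_card hsub).trans (Finset.card_biUnion_le_card_mul _ _ _ fun s _ => ?_)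
  exact Finset.card_image_le.trans (le_of_eq (Finset.card_range ρ))

end Pool.Agent.SPN
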