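import Pool.Agent.SPN.C7b

set_option autoImplicit false

namespace Pool.Agent.SPN

open Finset Pointwise Pool.Agent.MP_8507d5_co

universe u

variable {G : Type u} [AddCommGroup G] [Fintype G] [DecidableEq G]

theorem c8_vadd {A : Finset G} {a x : G} : x ∈ a +ᵥ A ↔ x - a ∈ A := by
  rw [Finset.mem_vadd_finset]
  constructor
  · rintro ⟨y, hy, rfl⟩
    rw [vadd_eq_add, add_sub_cancel_left]
    exact hy
  · intro h
    exact ⟨x - a, h, by rw [vadd_eq_add, add_sub_cancel]⟩

theorem c8_mem0 {A : Finset G} {a x : G} : x ∈ ({0, a} : Finset G) + A ↔ x ∈ A ∨ x - a ∈ A := by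
  rw [Finset.mem_add]
  constructor
  · rintro ⟨y, hy, z, hz, rfl⟩
    rw [Finset.mem_insert, Finset.mem_singleton] at hy
    rcases hy with rfl | rfl
    · left
      rwa [zero_add]
    · right
      rwa [add_sub_cancel_left]
  · rintro (h | h)
    · exact ⟨0, Finset.mem_insert_self _ _, x, h, zero_add x⟩
    · exact ⟨a, Finset.mem_insert_of_mem (Finset.mem_singleton_self a), x - a, h, add_sub_cancel a x⟩

theorem c8_mem2 {A : Finset G} {a b x : G} : x ∈ ({a, b} : Finset G) + A ↔ x - a ∈ A ∨ x - b ∈ A := by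
  rw [Finset.mem_add]
  constructor
  · rintro ⟨y, hy, z, hz, rfl⟩
    rw [Finset.mem_insert, Finset.mem_singleton] at hy
    rcases hy with rfl | rfl
    · left
      rwa [add_sub_cancel_left]
    · right
      rwa [add_sub_cancel_left]
  · rintro (h | h)
    · exact ⟨a, Finset.mem_insert_self _ _, x - a, h, add_sub_cancel a x⟩
    · exact ⟨b, Finset.mem_insert_of_mem (Finset.mem_singleton_self b), x - b, h, add_sub_cancel b x⟩

theorem c8_mem {A : Finset G} {a b x : G} :
    x ∈ ({0, a, b} : Finset G) + A ↔ x ∈ A ∨ x - a ∈ A ∨ x - b ∈ A := by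
  rw [Finset.mem_add]
  constructor
  · rintro ⟨y, hy, z, hz, rfl⟩
    rw [Finset.mem_insert, Finset.mem_insert, Finset.mem_singleton] at hy
    rcases hy with rfl | rfl | rfl
    · left
      rwa [zero_add]
    · right
      left
      rwa [add_sub_cancel_left]
    · right
      right
      rwa [add_sub_cancel_left]
  · rintro (h | h | h)
    · exact ⟨0, Finset.mem_insert_self _ _, x, h, zero_add x⟩
    · exact ⟨a, Finset.mem_insert_of_mem (Finset.mem_insert_self _ _), x - a, h, add_sub_cancel a x⟩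
    · exact ⟨b, Finset.mem_insert_of_mem (Finset.mem_insert_of_mem (Finset.mem_singleton_self b)), x - b, h,
        add_sub_cancel b x⟩

/-- **Row C8.** Three-element atoms are impossible.
PROOF. `W := {0,a,b} + A`, `k := |A|`; `x ∈ W ↔ x ∈ A ∨ x - a ∈ A ∨ x - b ∈ A`.
`{0,a} + A ⊆ W` has at least `|W|` elements (`p1`, `hW`), so `{0,a} + A = W`; likewise
`{0,b} + A = W`, `{a,b} + A = W`. So every `x ∈ W` satisfies `(x ∈ A ∨ x - a ∈ A)`,
`(x ∈ A ∨ x - b ∈ A)`, `(x - a ∈ A ∨ x - b ∈ A)`: at least two of `x, x-a, x-b` are in `A`.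
Counting: `|A| + |a +ᵥ A| + |b +ᵥ A| = 3 k = ∑_{x ∈ W} (number of the three sets containing x)
≥ 2 |W| = 2 k + 6 + 2 c`, so `k ≥ 6 + 2 c`.
(In Lean: `|A| + |a+A| = |A ∪ (a+A)| + |A ∩ (a+A)|` with `A ∪ (a+A) = W`, and
`W = (b+A) ∪ (A ∩ (a+A))` because `x ∉ b+A` forces `x ∈ A` and `x ∈ a+A`; so
`|W| ≤ k + |A ∩ (a+A)| = k + 2k - |W|`, i.e. `2 |W| ≤ 3 k`.)
Let `C := univ \ A`, `C ≠ univ`. If two of `x, x-a, x-b` are in `C` then `x ∉ W`, so all three are
in `C`: these are the three rules of `triangle_card`, so `|C| ≤ ρ²` with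
`ρ = |C \ (a +ᵥ C)| = |(a +ᵥ A) \ A| = |A ∪ (a+A)| - k ≤ |W| - k ≤ 3 + c`.
So `n - k ≤ (3 + c)²`. With `n ≥ 3 k + c`: `2 k + c ≤ (3+c)²`, but `2 k + c ≥ 12 > 9` (`c = 0`) and
`2 k + 1 ≥ 17 > 16` (`c = 1`). -/
theorem triangle_excl {A : Finset G} {a b : G} (c : ℕ) (hc : c ≤ 1) (hA : A.Nonempty)
    (hW : (({0, a, b} : Finset G) + A).card ≤ A.card + 3 + c)
    (p1 : A.card + 3 + c ≤ (({0, a} : Finset G) + A).card)
    (p2 : A.card + 3 + c ≤ (({0, b} : Finset G) + A).card)
    (p3 : A.card + 3 + c ≤ (({a, b} : Finset G) + A).card)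
    (hgen : AddSubgroup.closure ({0, a, b} : Set G) = ⊤)
    (hn : 3 * A.card + c ≤ Fintype.card G) : False := by
  have hW1 : (({0, a} : Finset G) + A) = (({0, a, b} : Finset G) + A) := by
    apply Finset.eq_of_subset_of_card_le
    · intro x hx
      rw [c8_mem0] at hx
      rw [c8_mem]
      rcases hx with h | h
      · exact Or.inl h
      · exact Or.inr (Or.inl h)
    · exact hW.trans p1
  have hW2 : (({0, b} : Finset G) + A) = (({0, a, b} : Finset G) + A) := by
    apply Finset.eq_of_subset_of_card_le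
    · intro x hx
      rw [c8_mem0] at hx
      rw [c8_mem]
      rcases hx with h | h
      · exact Or.inl h
      · exact Or.inr (Or.inr h)
    · exact hW.trans p2
  have hW3 : (({a, b} : Finset G) + A) = (({0, a, b} : Finset G) + A) := by
    apply Finset.eq_of_subset_of_card_le
    · intro x hx
      rw [c8_mem2] at hx
      rw [c8_mem]
      exact Or.inr hx
    · exact hW.trans p3
  have q1 : ∀ x, (x ∈ A ∨ x - a ∈ A ∨ x - b ∈ A) → (x ∈ A ∨ x - a ∈ A) := by
    intro x hx
    rw [← c8_mem0, hW1, c8_mem]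
    exact hx
  have q2 : ∀ x, (x ∈ A ∨ x - a ∈ A ∨ x - b ∈ A) → (x ∈ A ∨ x - b ∈ A) := by
    intro x hx
    rw [← c8_mem0, hW2, c8_mem]
    exact hx
  have q3 : ∀ x, (x ∈ A ∨ x - a ∈ A ∨ x - b ∈ A) → (x - a ∈ A ∨ x - b ∈ A) := by
    intro x hx
    rw [← c8_mem2, hW3, c8_mem]
    exact hx
  -- counting
  have hU : A ∪ (a +ᵥ A) = ({0, a, b} : Finset G) + A := by
    rw [← hW1]
    ext x
    rw [Finset.mem_union, c8_vadd, c8_mem0]
  have hcu : (A ∪ (a +ᵥ A)).card + (A ∩ (a +ᵥ A)).card = A.card + A.card := by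
    rw [Finset.card_union_add_card_inter, Finset.card_vadd_finset]
  have hsub : ({0, a, b} : Finset G) + A ⊆ (b +ᵥ A) ∪ (A ∩ (a +ᵥ A)) := by
    intro x hx
    rw [c8_mem] at hx
    rw [Finset.mem_union, Finset.mem_inter, c8_vadd, c8_vadd]
    by_cases hb : x - b ∈ A
    · exact Or.inl hb
    · refine Or.inr ⟨?_, ?_⟩
      · rcases q2 x hx with h | h
        · exact h
        · exact absurd h hb
      · rcases q3 x hx with h | h
        · exact h
        · exact absurd h hb
  have hle : (({0, a, b} : Finset G) + A).card ≤ A.card + (A ∩ (a +ᵥ A)).card := by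
    refine (Finset.card_le_card hsub).trans ?_
    refine (Finset.card_union_le _ _).trans ?_
    rw [Finset.card_vadd_finset]
  rw [hU] at hcu
  have hk : 6 + 2 * c ≤ A.card := by
    rw [hW1] at p1
    omega
  -- the complement
  have hmC : ∀ x, x ∈ (univ \ A : Finset G) ↔ x ∉ A := by
    intro x
    rw [Finset.mem_sdiff]
    exact ⟨fun h => h.2, fun h => ⟨Finset.mem_univ x, h⟩⟩
  have hCne : (univ \ A : Finset G) ≠ univ := by
    intro h
    obtain ⟨x, hx⟩ := hA
    have h1 : x ∈ (univ \ A : Finset G) := by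
      rw [h]
      exact Finset.mem_univ x
    exact (hmC x).1 h1 hx
  have ht := triangle_card (C := univ \ A) (a := a) (b := b)
    (by
      intro x h1 h2
      rw [hmC] at h1 h2 ⊢
      intro h3
      rcases q1 x (Or.inr (Or.inr h3)) with h | h
      · exact h1 h
      · exact h2 h)
    (by
      intro x h1 h2
      rw [hmC] at h1 h2 ⊢
      intro h3
      rcases q2 x (Or.inr (Or.inl h3)) with h | h
      · exact h1 h
      · exact h2 h)
    (by
      intro x h1 h2
      rw [hmC] at h1 h2 ⊢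
      intro h3
      rcases q3 x (Or.inl h3) with h | h
      · exact h1 h
      · exact h2 h) hgen hCne
  have hrho : ((univ \ A : Finset G) \ (a +ᵥ (univ \ A))).card ≤ 3 + c := by
    have h1 : (univ \ A : Finset G) \ (a +ᵥ (univ \ A)) = (A ∪ (a +ᵥ A)) \ A := by
      ext x
      rw [Finset.mem_sdiff, hmC, c8_vadd, hmC, Finset.mem_sdiff, Finset.mem_union, c8_vadd]
      tauto
    rw [h1, Finset.card_sdiff_of_subset Finset.subset_union_left, hU]
    omega
  have hcard : (univ \ A : Finset G).card + A.card = Fintype.card G := by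
    rw [Finset.card_sdiff_add_card_eq_card (Finset.subset_univ A), Finset.card_univ]
  have hfin : (univ \ A : Finset G).card ≤ (3 + c) * (3 + c) := ht.trans (Nat.mul_le_mul hrho hrho)
  interval_cases c
  · omega
  · omega

end Pool.Agent.SPN
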