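import Pool.Agent.SPN.C2b
import Pool.Agent.SPN.C4
import Pool.Agent.SPN.C6
import Pool.Agent.SPN.C8

set_option autoImplicit false

namespace Pool.Agent.SPN

open Finset Pointwise Pool.Agent.MP_8507d5_co

universe u

variable {G : Type u} [AddCommGroup G] [Fintype G] [DecidableEq G]

omit [Fintype G] in
theorem eq_triple_of_card {M : Finset G} (hM : M.card = 3) (h0 : (0 : G) ∈ M) :
    ∃ a b : G, a ≠ 0 ∧ b ≠ 0 ∧ a ≠ b ∧ M = {0, a, b} := by
  have h1 : (M.erase 0).card = 2 := by rw [Finset.card_erase_of_mem h0, hM]
  obtain ⟨a, b, hab, h2⟩ := Finset.card_eq_two.mp h1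
  have ha : a ∈ M.erase 0 := by rw [h2]; simp
  have hb : b ∈ M.erase 0 := by rw [h2]; simp
  refine ⟨a, b, (Finset.mem_erase.mp ha).1, (Finset.mem_erase.mp hb).1, hab, ?_⟩
  rw [← h2, Finset.insert_erase h0]

/-- The three-element 2-atom, both cases. -/
theorem atom_three {A M : Finset G} (c : ℕ) (hc : c ≤ 1) (hA : A.Nonempty)
    (hM : IsAtom A 2 M) (h0 : (0 : G) ∈ M) (hM3 : M.card = 3)
    (hMA : (M + A).card = M.card + A.card + c)
    (hgen : AddSubgroup.closure (M : Set G) = ⊤)
    (hn : 3 * A.card + c ≤ Fintype.card G) : False := by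
  obtain ⟨a, b, ha, hb, hab, hMe⟩ := eq_triple_of_card hM3 h0
  have hfeas := hM.feas.2
  have hpair : ∀ P : Finset G, P.card = 2 → P ⊆ M → A.card + 3 + c ≤ (P + A).card := by
    intro P hP hPM
    by_contra hcon
    push Not at hcon
    have h1 : (P + A).card ≤ (M + A).card := Finset.card_le_card (Finset.add_subset_add_right hPM)
    have h2 := hM.small P ⟨by omega, by omega⟩ (by omega)
    omega
  apply triangle_excl (A := A) (a := a) (b := b) c hc hA
  · rw [← hMe]; omega
  · apply hpair
    · exact Finset.card_pair (Ne.symm ha)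
    · rw [hMe]; intro x hx; simp only [Finset.mem_insert, Finset.mem_singleton] at hx ⊢; tauto
  · apply hpair
    · exact Finset.card_pair (Ne.symm hb)
    · rw [hMe]; intro x hx; simp only [Finset.mem_insert, Finset.mem_singleton] at hx ⊢; tauto
  · apply hpair
    · exact Finset.card_pair hab
    · rw [hMe]; intro x hx; simp only [Finset.mem_insert, Finset.mem_singleton] at hx ⊢; tauto
  · rw [hMe] at hgen
    rw [← hgen]; congr 1; simp
  · exact hn

/-- **alphaPrim**: if some feasible `X` has `|X + A| = |X| + |A|` then `A` is made of two arcs in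
direction of a generator. -/
theorem alphaPrim {h : ℕ} {A : Finset G} (hE : Ext h A) (hT : Thick A 1) (hk : 2 ≤ A.card)
    (hK : ∀ X, Feas A 2 X → X.card + A.card ≤ (X + A).card)
    (hX : ∃ X, Feas A 2 X ∧ (X + A).card = X.card + A.card) :
    ∃ g : G, AddSubgroup.zmultiples g = ⊤ ∧ (({0, g} : Finset G) + A).card = A.card + 2 := by
  classical
  obtain ⟨X, hX1, hX2⟩ := hX
  obtain ⟨M, hM, h0⟩ := exists_atom_zero ⟨X, hX1⟩
  have hA : A.Nonempty := Finset.card_pos.mp (by omega)
  have hmin := hM.min X hX1
  have hge := hK M hM.feas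
  have hMA : (M + A).card = M.card + A.card := by omega
  have hf1 := hM.feas.1
  have hf2 := hM.feas.2
  have hMlt : M.card < Fintype.card G := by omega
  rcases atom_dich hM h0 with ⟨N, hN⟩ | hS
  · exfalso
    have := hT N M hN hf1 hMlt
    omega
  · set N := AddSubgroup.closure (M : Set G) with hN
    set F : Finset G := univ.filter (fun x => x ∈ N) with hFdef
    have hF : ∀ x, x ∈ F ↔ x ∈ N := fun x => by simp [hFdef]
    have hMF : M ⊆ F := fun a ha => (hF a).mpr (AddSubgroup.subset_closure ha)
    have hMFc := Finset.card_le_card hMF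
    by_cases hFn : F.card < Fintype.card G
    · exfalso
      rcases Nat.lt_or_ge M.card 3 with hm | hm
      · obtain ⟨g, hg, hMg⟩ := eq_pair_of_card (by omega) h0
        apply pair_proper hE hT g hg
        · intro htop
          have h1 : F = univ := by
            rw [Finset.eq_univ_iff_forall]; intro x
            rw [hF, hN, hMg, closure_pair, htop]; trivial
          rw [h1, Finset.card_univ] at hFn
          exact lt_irrefl _ hFn
        · rw [← hMg]; omega
      · rcases CC (A := A) hS h0 hm N hN F hF 0 (by omega) (by omega) with h1 | ⟨s, t, hst⟩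
        · have := hT N F hF (by omega) hFn
          omega
        · exact TwoCos hE hT N F hF (by omega) hFn s t hst
    · have hFuniv : F = univ := by
        apply Finset.eq_univ_of_card
        have := card_le_univ F
        omega
      have hNtop : AddSubgroup.closure (M : Set G) = ⊤ := by
        rw [eq_top_iff]; intro x _
        rw [← hN, ← hF, hFuniv]; exact Finset.mem_univ _
      have h3h := hE.hh
      have hsize := atom_size hS h0 hf1 hNtop A ⟨hk, by rw [add_comm A M]; exact hf2⟩ 0 (by omega)
        (by rw [add_comm A M]; omega) (by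
          intro d hd hd2
          by_contra hcon
          have : d = 2 := by omega
          subst this
          exact hE.adm.odd h3h hd)
      have hcard := hE.card
      have h3k : 3 * A.card ≤ h * A.card := Nat.mul_le_mul_right _ h3h
      rcases Nat.lt_or_ge M.card 3 with hm | hm
      · obtain ⟨g, hg, hMg⟩ := eq_pair_of_card (by omega) h0
        refine ⟨g, ?_, ?_⟩
        · rw [← closure_pair, ← hMg]; exact hNtop
        · rw [← hMg]; omega
      · exfalso
        exact atom_three 0 (by omega) hA hM h0 (by omega) (by omega) hNtop (by omega)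

end Pool.Agent.SPN
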