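import Pool.Agent.SPN.C1

set_option autoImplicit false

namespace Pool.Agent.SPN

open Finset Pointwise Pool.Agent.MP_8507d5_co

universe u

variable {G : Type u} [AddCommGroup G] [Fintype G] [DecidableEq G]

omit [Fintype G] in
/-- `X` is a small fragment of `A` (in the case `κ₂(A) = |A| + 1`). -/
def Frag (A X : Finset G) : Prop :=
  2 ≤ X.card ∧ X.card ≤ A.card ∧ (X + A).card = X.card + A.card + 1

/-- **Row D1 (1).** Fragments are closed under intersections with at least two elements.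
PROOF. `k := |A|`, `n = 3k+1`. `X ∩ Y` is feasible (`Feas A 2`): `|(X ∩ Y) + A| ≤ |X + A| =
|X| + k + 1 ≤ 2k+1 ≤ n - 2` as `k ≥ 2`. So `|(X∩Y) + A| ≥ |X∩Y| + k + 1` by `hK`.
Submodularity (see `IsAtom.inter` in Pool/Agent/MP_8507d5_co/Atoms.lean): `(X∩Y) + A ⊆ (X+A) ∩
(Y+A)` and `(X∪Y) + A = (X+A) ∪ (Y+A)`, so
`|(X∩Y)+A| + |(X∪Y)+A| ≤ |X+A| + |Y+A| = |X| + |Y| + 2k + 2`. Hence
`|(X∪Y)+A| ≤ |X| + |Y| - |X∩Y| + k + 1 = |X∪Y| + k + 1 ≤ 2k - 2 + k + 1 = n - 2`, so `X∪Y` is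
feasible and `|(X∪Y)+A| ≥ |X∪Y| + k + 1` by `hK`; therefore `|(X∩Y)+A| ≤ |X∩Y| + k + 1`.
`|X∩Y| ≤ |X| ≤ k`. -/
theorem Frag.inter {A X Y : Finset G} (hn : Fintype.card G = 3 * A.card + 1)
    (hK : ∀ X, Feas A 2 X → X.card + A.card + 1 ≤ (X + A).card)
    (hX : Frag A X) (hY : Frag A Y) (h2 : 2 ≤ (X ∩ Y).card) : Frag A (X ∩ Y) := by
  obtain ⟨hX1, hX2, hX3⟩ := hX
  obtain ⟨hY1, hY2, hY3⟩ := hY
  have h1 : ((X ∩ Y) + A).card ≤ (X + A).card :=
    Finset.card_le_card (Finset.add_subset_add_right Finset.inter_subset_left)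
  have h3 : (X ∩ Y).card ≤ X.card := Finset.card_le_card Finset.inter_subset_left
  have hF1 : Feas A 2 (X ∩ Y) := ⟨h2, by omega⟩
  have h4 := hK _ hF1
  have h5 : ((X ∩ Y) + A).card + ((X ∪ Y) + A).card ≤ (X + A).card + (Y + A).card := by
    have h6 : ((X ∩ Y) + A).card ≤ ((X + A) ∩ (Y + A)).card :=
      Finset.card_le_card Finset.inter_add_subset
    have h7 := Finset.card_union_add_card_inter (X + A) (Y + A)
    rw [Finset.union_add]
    omega
  have h8 := Finset.card_union_add_card_inter X Y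
  have h9 : X.card ≤ (X ∪ Y).card := Finset.card_le_card Finset.subset_union_left
  have hF2 : Feas A 2 (X ∪ Y) := ⟨by omega, by omega⟩
  have h10 := hK _ hF2
  exact ⟨h2, by omega, by omega⟩

omit [Fintype G] in
/-- **Row D1 (2).** PROOF: `vadd_add_assoc`, `Finset.card_vadd_finset`. -/
theorem Frag.translate {A X : Finset G} (hX : Frag A X) (g : G) : Frag A (g +ᵥ X) := by
  obtain ⟨hX1, hX2, hX3⟩ := hX
  refine ⟨?_, ?_, ?_⟩
  · rw [Finset.card_vadd_finset]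
    exact hX1
  · rw [Finset.card_vadd_finset]
    exact hX2
  · rw [vadd_add_assoc, Finset.card_vadd_finset, Finset.card_vadd_finset]
    exact hX3

/-- **Row D1 (3).** Translates of a `2`-atom meeting `A` in two elements are inside `A`.
PROOF. `A` is feasible (`|A+A| = 2k+1 ≤ n - 2`), so `hM.small A` (with `hM.min`) gives
`|M| ≤ |A|` : precisely `|M + A| = |M| + k + 1` (`hMA`), so
`hM.small A hAfeas : (A + A).card + M.card ≤ (M + A).card + A.card → M.card ≤ A.card`.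
So `M` and `x +ᵥ M` are fragments (`Frag.translate`), `A` is a fragment, and by `Frag.inter`
`(x +ᵥ M) ∩ A` is a fragment `Z`. `hM.small Z` gives `|M| ≤ |Z|`, and `Z ⊆ x +ᵥ M`,
`|x +ᵥ M| = |M|`, so `Z = x +ᵥ M`, hence `x +ᵥ M ⊆ A`. -/
theorem atom_closed {A M : Finset G} (hn : Fintype.card G = 3 * A.card + 1) (hk : 2 ≤ A.card)
    (hK : ∀ X, Feas A 2 X → X.card + A.card + 1 ≤ (X + A).card)
    (hAA : (A + A).card = 2 * A.card + 1) (hM : IsAtom A 2 M)
    (hMA : (M + A).card = M.card + A.card + 1) (x : G) (h2 : 2 ≤ ((x +ᵥ M) ∩ A).card) :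
    x +ᵥ M ⊆ A := by
  have hFA : Feas A 2 A := ⟨hk, by omega⟩
  have h3 : M.card ≤ A.card := hM.small A hFA (by omega)
  have hFM : Frag A M := ⟨hM.feas.1, h3, hMA⟩
  have hFr : Frag A A := ⟨hk, le_rfl, by omega⟩
  obtain ⟨hZ1, hZ2, hZ3⟩ := Frag.inter hn hK (hFM.translate x) hFr h2
  have hFZ : Feas A 2 ((x +ᵥ M) ∩ A) := ⟨hZ1, by omega⟩
  have h4 : M.card ≤ ((x +ᵥ M) ∩ A).card := hM.small _ hFZ (by omega)
  have h5 : (x +ᵥ M) ∩ A = x +ᵥ M := by
    apply Finset.eq_of_subset_of_card_le Finset.inter_subset_left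
    rw [Finset.card_vadd_finset]
    exact h4
  rw [← h5]
  exact Finset.inter_subset_right

end Pool.Agent.SPN
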