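import Pool.Agent.SPN.D1
import Pool.Agent.SPN.C3a

set_option autoImplicit false

namespace Pool.Agent.SPN

open Finset Pointwise Pool.Agent.MP_8507d5_co

universe u

variable {G : Type u} [AddCommGroup G] [Fintype G] [DecidableEq G]

/-- **Row D1 (4).** If a coset of `⟨g⟩` (`g ≠ 0`) is contained in `A` there is a contradiction.
PROOF. `N := zmultiples g`, `l := |N| ≥ 2` (`0, g ∈ N`). Among all fragments `X` with `z + f ∈ X` for all
`f ∈ N` (`A` is one, `Frag A A` by `hAA`) take one of minimal cardinality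
(`Finset.exists_min_image` over `univ.filter`, or strong induction). `g +ᵥ X` is a fragment also
containing `z + N`, and `X ∩ (g +ᵥ X) ⊇ z + N` has at least `l ≥ 2` elements, so it is a fragment
(`Frag.inter`) containing `z + N`; by minimality its cardinality is `|X|`, so `g +ᵥ X = X`.
So `X` is stable under `N`, and `X + A` too. Hence `l ∣ |X|`, `l ∣ |X + A|`
(a finset stable under a finite subgroup `N` is a disjoint union of cosets; for instance
`card_full` in C3a.lean, or `AddSubgroup` acting freely), so `l ∣ k + 1`; and `l ∣ n = 3 k + 1`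
(`AddSubgroup.card_addSubgroup_dvd_card`). So `l ∣ 3 (k+1) - (3k+1) = 2`, `l ∣ 2`, `l ≥ 2` so
`l = 2` divides `n`, contradicting `hodd`. -/
theorem no_full_coset_beta {A : Finset G} (hn : Fintype.card G = 3 * A.card + 1)
    (hk : 2 ≤ A.card) (hodd : ¬ 2 ∣ Fintype.card G)
    (hK : ∀ X, Feas A 2 X → X.card + A.card + 1 ≤ (X + A).card)
    (hAA : (A + A).card = 2 * A.card + 1) (g : G) (hg : g ≠ 0) (z : G)
    (hz : ∀ f ∈ AddSubgroup.zmultiples g, z + f ∈ A) : False := by
  classical
  set N := AddSubgroup.zmultiples g with hN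
  set F : Finset G := Finset.univ.filter (fun x => x ∈ N) with hFdef
  have hF : ∀ x, x ∈ F ↔ x ∈ N := by
    intro x
    rw [hFdef, Finset.mem_filter]
    exact and_iff_right (Finset.mem_univ x)
  have hgN : g ∈ N := AddSubgroup.mem_zmultiples g
  have hl : 2 ≤ F.card := by
    have h1 : ({0, g} : Finset G) ⊆ F := by
      intro x hx
      rw [Finset.mem_insert, Finset.mem_singleton] at hx
      rcases hx with rfl | rfl
      · exact (hF 0).2 N.zero_mem
      · exact (hF _).2 hgN
    have h2 := Finset.card_le_card h1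
    rwa [Finset.card_pair (Ne.symm hg)] at h2
  set S : Finset (Finset G) := Finset.univ.filter
    (fun X => Frag A X ∧ ∀ f ∈ N, z + f ∈ X) with hS
  have hmS : ∀ X, X ∈ S ↔ Frag A X ∧ ∀ f ∈ N, z + f ∈ X := by
    intro X
    rw [hS, Finset.mem_filter]
    exact and_iff_right (Finset.mem_univ X)
  have hAS : A ∈ S := (hmS A).2 ⟨⟨hk, le_refl _, by omega⟩, hz⟩
  obtain ⟨X, hXS, hmin⟩ := Finset.exists_min_image S Finset.card ⟨A, hAS⟩
  obtain ⟨hXF, hXz⟩ := (hmS X).1 hXS
  have hYF := hXF.translate g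
  have hYz : ∀ f ∈ N, z + f ∈ g +ᵥ X := by
    intro f hf
    rw [Finset.mem_vadd_finset]
    refine ⟨z + (f - g), hXz _ (N.sub_mem hf hgN), ?_⟩
    rw [vadd_eq_add]
    abel
  have hcap : 2 ≤ (X ∩ (g +ᵥ X)).card := by
    have h1 : F.image (fun f => z + f) ⊆ X ∩ (g +ᵥ X) := by
      intro y hy
      obtain ⟨f, hf, rfl⟩ := Finset.mem_image.1 hy
      rw [Finset.mem_inter]
      exact ⟨hXz f ((hF f).1 hf), hYz f ((hF f).1 hf)⟩
    have h2 := Finset.card_le_card h1
    rw [Finset.card_image_of_injective _ (add_right_injective z)] at h2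
    omega
  have hIF := Frag.inter hn hK hXF hYF hcap
  have hIS : X ∩ (g +ᵥ X) ∈ S := (hmS _).2 ⟨hIF, fun f hf =>
    Finset.mem_inter.2 ⟨hXz f hf, hYz f hf⟩⟩
  have hle := hmin _ hIS
  have h1 : X ∩ (g +ᵥ X) = X := Finset.eq_of_subset_of_card_le Finset.inter_subset_left hle
  have h2 : X ⊆ g +ᵥ X := Finset.inter_eq_left.1 h1
  have h3 : X = g +ᵥ X :=
    Finset.eq_of_subset_of_card_le h2 (by rw [Finset.card_vadd_finset])
  have hstab : N ≤ AddAction.stabilizer G X := by
    rw [hN, AddSubgroup.zmultiples_le, AddAction.mem_stabilizer_iff]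
    exact h3.symm
  have hst : ∀ a ∈ X, ∀ f ∈ F, a + f ∈ X := by
    intro a ha f hf
    have h4 := AddAction.mem_stabilizer_iff.1 (hstab ((hF f).1 hf))
    rw [← h4, Finset.mem_vadd_finset]
    exact ⟨a, ha, by rw [vadd_eq_add, add_comm]⟩
  have hst2 : ∀ a ∈ X + A, ∀ f ∈ F, a + f ∈ X + A := by
    intro a ha f hf
    obtain ⟨x, hx, y, hy, rfl⟩ := Finset.mem_add.1 ha
    exact Finset.mem_add.2 ⟨x + f, hst x hx f hf, y, hy, by abel⟩
  have d1 : F.card ∣ X.card := ⟨_, (card_full N F hF X hst).trans (mul_comm _ _)⟩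
  have d2 : F.card ∣ (X + A).card := ⟨_, (card_full N F hF (X + A) hst2).trans (mul_comm _ _)⟩
  have d3 : F.card ∣ Fintype.card G := ⟨_, (card_quot N F hF).1.trans (mul_comm _ _)⟩
  have hXA := hXF.2.2
  have d4 : F.card ∣ A.card + 1 := by
    rw [hXA, add_assoc] at d2
    exact (Nat.dvd_add_right d1).1 d2
  have d5 : F.card ∣ 2 := by
    have h5 : F.card ∣ 3 * (A.card + 1) := Dvd.dvd.mul_left d4 3
    have h6 : 3 * (A.card + 1) = Fintype.card G + 2 := by omega
    rw [h6] at h5
    exact (Nat.dvd_add_right d3).1 h5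
  have h7 : F.card = 2 := le_antisymm (Nat.le_of_dvd (by norm_num) d5) hl
  rw [h7] at d3
  exact hodd d3

end Pool.Agent.SPN
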