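import Pool.Agent.SPN.C1

set_option autoImplicit false

namespace Pool.Agent.SPN

open Finset Pointwise Pool.Agent.MP_8507d5_co

universe u

variable {G : Type u} [AddCommGroup G] [Fintype G] [DecidableEq G]

/-- **Row D2 (1).** Four-element atoms: lower bound for `|A|`.
PROOF. `W := M + A`, `k := |A|`, `|W| ≤ k + 5`. For `w ∈ W` let `S w := M.filter (fun μ => w - μ ∈ A)`.
Double counting: `∑_{w ∈ W} |S w| = |M| |A| = 4 k` (the pairs `(μ, a) ↦ (μ + a)`;
`Finset.sum_card_bipartiteAbove_eq_sum_card_bipartiteBelow` or `Finset.card_sigma`).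
* `|S w| ≥ 2` for `w ∈ W`: for `μ ∈ M`, `T := M.erase μ` has `|T + A| ≥ k + 5 ≥ |W|` (`h3`), so
  `T + A = W`, hence `S w \ {μ} ≠ ∅` for each `μ ∈ M`; so `|S w| ≥ 2`.
* If `|S w| = 2` let `P := M \ S w`, `|P| = 2`, and `w ∉ P + A`. For each `P ⊆ M` with `|P| = 2`:
  `|W \ (P + A)| ≤ |W| - (k + 4) ≤ 1` (`h2`). So the number of `w ∈ W` with `|S w| = 2` is at most
  `∑_{P ∈ M.powersetCard 2} |W \ (P + A)| ≤ 6` (`Finset.card_powersetCard`, `Nat.choose 4 2 = 6`,
  `Finset.card_biUnion_le`).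
So `4 k = ∑ |S w| ≥ 3 |W| - 6`. Also `|W| ≥ k + 5` (a triple `T ⊆ M` has `|T + A| ≥ k + 5`).
`4 k ≥ 3 k + 15 - 6`, `k ≥ 9`. -/
theorem four_lower {A M : Finset G} (hM : M.card = 4)
    (hW : (M + A).card ≤ A.card + 5)
    (h3 : ∀ T ⊆ M, T.card = 3 → A.card + 5 ≤ (T + A).card)
    (h2 : ∀ P ⊆ M, P.card = 2 → A.card + 4 ≤ (P + A).card) : 9 ≤ A.card := by
  classical
  set W := M + A with hWdef
  have hMne : M.Nonempty := by
    rw [← Finset.card_pos]
    omega
  -- |W| is at least k + 5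
  obtain ⟨μ0, hμ0⟩ := hMne
  have herase : ∀ μ ∈ M, (M.erase μ).card = 3 := by
    intro μ hμ
    rw [Finset.card_erase_of_mem hμ, hM]
  have hWge : A.card + 5 ≤ W.card := by
    refine (h3 _ (Finset.erase_subset μ0 M) (herase μ0 hμ0)).trans ?_
    exact Finset.card_le_card (Finset.add_subset_add_right (Finset.erase_subset μ0 M))
  have hTW : ∀ μ ∈ M, M.erase μ + A = W := by
    intro μ hμ
    refine Finset.eq_of_subset_of_card_le
      (Finset.add_subset_add_right (Finset.erase_subset μ M)) ?_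
    exact hW.trans (h3 _ (Finset.erase_subset μ M) (herase μ hμ))
  let S : G → Finset G := fun w => M.filter (fun μ => w - μ ∈ A)
  have hmemS : ∀ w μ, μ ∈ S w ↔ μ ∈ M ∧ w - μ ∈ A := fun w μ => Finset.mem_filter
  have hother : ∀ w ∈ W, ∀ μ ∈ M, ∃ μ' ∈ S w, μ' ≠ μ := by
    intro w hw μ hμ
    rw [← hTW μ hμ] at hw
    obtain ⟨μ', hμ', a, ha, rfl⟩ := Finset.mem_add.1 hw
    obtain ⟨h4, h5⟩ := Finset.mem_erase.1 hμ'
    refine ⟨μ', (hmemS _ _).2 ⟨h5, ?_⟩, h4⟩
    rw [add_sub_cancel_left]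
    exact ha
  have hS2 : ∀ w ∈ W, 2 ≤ (S w).card := by
    intro w hw
    obtain ⟨μ1, h1, -⟩ := hother w hw μ0 hμ0
    obtain ⟨μ2, h4, h5⟩ := hother w hw μ1 ((hmemS _ _).1 h1).1
    exact Finset.one_lt_card.2 ⟨μ2, h4, μ1, h1, h5⟩
  -- double counting
  have hsum : ∑ w ∈ W, (S w).card = 4 * A.card := by
    have h4 := Finset.sum_card_bipartiteAbove_eq_sum_card_bipartiteBelow
      (s := W) (t := M) (fun w μ => w - μ ∈ A)
    have h5 : ∑ w ∈ W, (S w).card = ∑ w ∈ W, (M.bipartiteAbove (fun w μ => w - μ ∈ A) w).card :=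
      rfl
    rw [h5, h4]
    have h6 : ∀ μ ∈ M, (W.bipartiteBelow (fun w μ => w - μ ∈ A) μ).card = A.card := by
      intro μ hμ
      have h7 : W.bipartiteBelow (fun w μ => w - μ ∈ A) μ = A.image (fun a => μ + a) := by
        ext w
        rw [Finset.mem_bipartiteBelow, Finset.mem_image]
        constructor
        · rintro ⟨-, h8⟩
          exact ⟨w - μ, h8, add_sub_cancel μ w⟩
        · rintro ⟨a, ha, rfl⟩
          refine ⟨Finset.add_mem_add hμ ha, ?_⟩
          rw [add_sub_cancel_left]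
          exact ha
      rw [h7, Finset.card_image_of_injective _ (add_right_injective μ)]
    rw [Finset.sum_congr rfl h6, Finset.sum_const, hM, smul_eq_mul]
  -- the elements with exactly two representations
  set W2 := W.filter (fun w => (S w).card = 2) with hW2
  have hW2c : W2.card ≤ 6 := by
    have h4 : W2 ⊆ (M.powersetCard 2).biUnion (fun P => W \ (P + A)) := by
      intro w hw
      obtain ⟨hw1, hw2⟩ := Finset.mem_filter.1 hw
      rw [Finset.mem_biUnion]
      refine ⟨M \ S w, Finset.mem_powersetCard.2 ⟨Finset.sdiff_subset, ?_⟩, ?_⟩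
      · rw [Finset.card_sdiff_of_subset (Finset.filter_subset _ _), hM, hw2]
      · refine Finset.mem_sdiff.2 ⟨hw1, fun hcon => ?_⟩
        obtain ⟨μ, hμ, a, ha, he⟩ := Finset.mem_add.1 hcon
        obtain ⟨h5, h6⟩ := Finset.mem_sdiff.1 hμ
        apply h6
        refine (hmemS _ _).2 ⟨h5, ?_⟩
        rw [← he, add_sub_cancel_left]
        exact ha
    refine (Finset.card_le_card h4).trans (Finset.card_biUnion_le.trans ?_)
    have h5 : ∀ P ∈ M.powersetCard 2, (W \ (P + A)).card ≤ 1 := by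
      intro P hP
      obtain ⟨hP1, hP2⟩ := Finset.mem_powersetCard.1 hP
      have h6 := h2 P hP1 hP2
      have h7 : P + A ⊆ W := Finset.add_subset_add_right hP1
      rw [Finset.card_sdiff_of_subset h7]
      omega
    refine (Finset.sum_le_sum h5).trans ?_
    rw [Finset.sum_const, Finset.card_powersetCard, hM, smul_eq_mul]
    decide
  have hlow : 3 * W.card ≤ (∑ w ∈ W, (S w).card) + W2.card := by
    rw [hW2, Finset.card_filter, ← Finset.sum_add_distrib]
    calc 3 * W.card = ∑ _w ∈ W, 3 := by rw [Finset.sum_const, smul_eq_mul, mul_comm]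
      _ ≤ _ := by
        refine Finset.sum_le_sum (fun w hw => ?_)
        have h4 := hS2 w hw
        split_ifs with h5
        · omega
        · omega
  omega

end Pool.Agent.SPN
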