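import Pool.Agent.SPN.C7a

set_option autoImplicit false

namespace Pool.Agent.SPN

open Finset Pointwise Pool.Agent.MP_8507d5_co

universe u

variable {G : Type u} [AddCommGroup G] [Fintype G] [DecidableEq G]

omit [Fintype G] in
theorem d2b_card3 {M : Finset G} {x y z : G} (hM : M.card = 4) (h : M ⊆ {x, y, z}) : False := by
  have h1 := (card_le_card h).trans card_le_three
  omega

omit [Fintype G] in
theorem d2b_dist {a b c : G} (hM : ({0, a, b, c} : Finset G).card = 4) :
    (a ≠ 0 ∧ b ≠ 0 ∧ c ≠ 0) ∧ a ≠ b ∧ a ≠ c ∧ b ≠ c := by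
  refine ⟨⟨?_, ?_, ?_⟩, ?_, ?_, ?_⟩
  · rintro rfl
    exact d2b_card3 (x := 0) (y := b) (z := c) hM (by intro t; simp)
  · rintro rfl
    exact d2b_card3 (x := 0) (y := a) (z := c) hM (by intro t; simp; tauto)
  · rintro rfl
    exact d2b_card3 (x := 0) (y := a) (z := b) hM (by intro t; simp; tauto)
  · rintro rfl
    exact d2b_card3 (x := 0) (y := a) (z := c) hM (by intro t; simp)
  · rintro rfl
    exact d2b_card3 (x := 0) (y := a) (z := b) hM (by intro t; simp; tauto)
  · rintro rfl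
    exact d2b_card3 (x := 0) (y := a) (z := b) hM (by intro t; simp)

omit [Fintype G] in
theorem d2b_cl {A M : Finset G} (hcl : ∀ x : G, 2 ≤ ((x +ᵥ M) ∩ A).card → x +ᵥ M ⊆ A)
    {x u v w : G} (hu : u ∈ M) (hv : v ∈ M) (huv : u ≠ v) (hw : w ∈ M) (h1 : x + u ∈ A)
    (h2 : x + v ∈ A) : x + w ∈ A := by
  refine hcl x ?_ (Finset.vadd_mem_vadd_finset hw)
  have h3 : ({x + u, x + v} : Finset G) ⊆ (x +ᵥ M) ∩ A := by
    intro t ht
    rw [Finset.mem_insert, Finset.mem_singleton] at ht
    rcases ht with rfl | rfl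
    · exact Finset.mem_inter.2 ⟨Finset.vadd_mem_vadd_finset hu, h1⟩
    · exact Finset.mem_inter.2 ⟨Finset.vadd_mem_vadd_finset hv, h2⟩
  have h4 := card_le_card h3
  rw [Finset.card_pair (fun h => huv (add_left_cancel h))] at h4
  exact h4

omit [Fintype G] in
theorem d2b_sid {M : Finset G} (hS : Sidon M) {u v u' v' : G} (hu : u ∈ M) (hv : v ∈ M)
    (hu' : u' ∈ M) (hv' : v' ∈ M) (huv : u ≠ v) (huu : u ≠ u') (h : u' - u = v' - v) : False := by
  have h1 := hS (u' - u) (fun h2 => huu (sub_eq_zero.1 h2).symm)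
  have h3 : ({u', v'} : Finset G) ⊆ M ∩ ((u' - u) +ᵥ M) := by
    intro t ht
    rw [Finset.mem_insert, Finset.mem_singleton] at ht
    rcases ht with rfl | rfl
    · refine Finset.mem_inter.2 ⟨hu', Finset.mem_vadd_finset.2 ⟨u, hu, ?_⟩⟩
      rw [vadd_eq_add, sub_add_cancel]
    · refine Finset.mem_inter.2 ⟨hv', Finset.mem_vadd_finset.2 ⟨v, hv, ?_⟩⟩
      rw [vadd_eq_add, h, sub_add_cancel]
  have h4 := card_le_card h3
  rw [Finset.card_pair (fun h5 => by
    rw [h5] at h
    exact huv (sub_right_injective h))] at h4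
  omega

theorem d2b_two {b : G} (hodd : ¬ 2 ∣ Fintype.card G) (h : b + b = 0) : b = 0 := by
  by_contra hb
  have h1 : addOrderOf b = 2 := by
    have : Fact (Nat.Prime 2) := ⟨Nat.prime_two⟩
    refine addOrderOf_eq_prime ?_ hb
    rw [two_nsmul]
    exact h
  exact hodd (h1 ▸ addOrderOf_dvd_card)

omit [Fintype G] in
theorem d2b_start {A : Finset G} {a y : G} : y ∈ A \ (a +ᵥ A) ↔ y ∈ A ∧ y - a ∉ A := by
  rw [Finset.mem_sdiff, Finset.mem_vadd_finset]
  constructor
  · rintro ⟨h1, h2⟩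
    refine ⟨h1, fun h3 => h2 ⟨y - a, h3, ?_⟩⟩
    rw [vadd_eq_add]
    abel
  · rintro ⟨h1, h2⟩
    refine ⟨h1, ?_⟩
    rintro ⟨w, hw, rfl⟩
    apply h2
    rw [vadd_eq_add]
    have h3 : a + w - a = w := by abel
    rwa [h3]

omit [Fintype G] [DecidableEq G] in
theorem d2b_c {x y u v : G} (h : x = y) (e : x - y = u - v) : u = v := by
  rw [sub_eq_zero.2 h] at e
  exact sub_eq_zero.1 e.symm

omit [Fintype G] in
/-- the step -/
theorem d2b_step {A : Finset G} {a b c : G} (hM : ({0, a, b, c} : Finset G).card = 4)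
    (hcl : ∀ x : G, 2 ≤ ((x +ᵥ ({0, a, b, c} : Finset G)) ∩ A).card →
      x +ᵥ ({0, a, b, c} : Finset G) ⊆ A) {y d : G} (hd : d = b ∨ d = c) (hy : y ∈ A)
    (hy1 : y - a ∉ A) (hy2 : y + a ∈ A) : y + d ∈ A ∧ y + d - a ∉ A := by
  obtain ⟨⟨ha0, hb0, hc0⟩, hab, hac, hbc⟩ := d2b_dist hM
  have m0 : (0 : G) ∈ ({0, a, b, c} : Finset G) := by simp
  have ma : a ∈ ({0, a, b, c} : Finset G) := by simp
  have md : d ∈ ({0, a, b, c} : Finset G) := by rcases hd with rfl | rfl <;> simp
  have had : a ≠ d := by rcases hd with rfl | rfl <;> assumption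
  refine ⟨d2b_cl hcl m0 ma ha0.symm md (by rwa [add_zero]) hy2, fun h => hy1 ?_⟩
  have h1 : y - a + 0 ∈ A := by
    refine d2b_cl hcl ma md had m0 ?_ ?_
    · have e : y - a + a = y := by abel
      rwa [e]
    · have e : y - a + d = y + d - a := by abel
      rwa [e]
  rwa [add_zero] at h1

/-- **Row D2 (2).** Runs in direction `a` have length at most two.
HYPOTHESES: `hcl`: two elements of a translate `x + {0,a,b,c}` in `A` give the whole translate.
`hSid` : `M = {0,a,b,c}` is Sidon. `hρ`: at most five starts `A \ (a +ᵥ A)`.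
PROOF. Suppose `z ∈ A`, `z - a ∉ A`, `z + a ∈ A`, `z + a + a ∈ A`.
General step: if `y - a ∉ A`, `y, y + a ∈ A` and `d ∈ {b, c}`: then `y + d ∈ A` (closure at
`x = y`), `y + d - a ∉ A` (else closure at `x = y - a`: `(y - a) + a = y ∈ A` and
`(y - a) + d ∈ A` give `y - a ∈ A`), and if moreover `y + 2a ∈ A` then `y + d + a ∈ A` (closure at
`x = y + a`).
So `z, z + b, z + c` are starts (elements of `A \ (a +ᵥ A)`), and `z + b + a, z + c + a ∈ A`;
applying the step to `y = z + b` and `y = z + c` : `z + b + b, z + b + c, z + c + c` are starts.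
The six elements `z, z+b, z+c, z+2b, z+b+c, z+2c` are distinct: each coincidence is one of
`b = 0`, `c = 0`, `b = c` (excluded since `|M| = 4`), `2b = 0`, `2c = 0` or `2b = 2c`
(excluded: `|G|` odd), `b + c = 0` (then `b - 0 = 0 - c`: `M ∩ (b +ᵥ M) ∋ b, b + c = 0`, two
elements, against Sidon), `b = 2c` (`M ∩ (c +ᵥ M) ∋ c, 2c = b`), `c = 2b` (same).
So there are six starts, contradiction with `hρ`. -/
theorem four_run {A : Finset G} {a b c : G} (hodd : ¬ 2 ∣ Fintype.card G)
    (hM : ({0, a, b, c} : Finset G).card = 4) (hSid : Sidon ({0, a, b, c} : Finset G))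
    (hcl : ∀ x : G, 2 ≤ ((x +ᵥ ({0, a, b, c} : Finset G)) ∩ A).card →
      x +ᵥ ({0, a, b, c} : Finset G) ⊆ A)
    (hρ : (A \ (a +ᵥ A)).card ≤ 5) (z : G) (hz : z ∈ A) (hz1 : z - a ∉ A) (hz2 : z + a ∈ A) :
    z + a + a ∉ A := by
  intro hz3
  obtain ⟨⟨ha0, hb0, hc0⟩, hab, hac, hbc⟩ := d2b_dist hM
  have m0 : (0 : G) ∈ ({0, a, b, c} : Finset G) := by simp
  have ma : a ∈ ({0, a, b, c} : Finset G) := by simp
  have mb : b ∈ ({0, a, b, c} : Finset G) := by simp
  have mc : c ∈ ({0, a, b, c} : Finset G) := by simp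
  obtain ⟨b1, b2⟩ := d2b_step hM hcl (Or.inl rfl) hz hz1 hz2
  obtain ⟨c1, c2⟩ := d2b_step hM hcl (Or.inr rfl) hz hz1 hz2
  have b3 : z + b + a ∈ A := by
    have h1 : z + a + b ∈ A := d2b_cl hcl m0 ma ha0.symm mb (by rwa [add_zero]) hz3
    have e : z + b + a = z + a + b := by abel
    rwa [e]
  have c3 : z + c + a ∈ A := by
    have h1 : z + a + c ∈ A := d2b_cl hcl m0 ma ha0.symm mc (by rwa [add_zero]) hz3
    have e : z + c + a = z + a + c := by abel
    rwa [e]
  obtain ⟨bb1, bb2⟩ := d2b_step hM hcl (Or.inl rfl) b1 b2 b3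
  obtain ⟨bc1, bc2⟩ := d2b_step hM hcl (Or.inr rfl) b1 b2 b3
  obtain ⟨cc1, cc2⟩ := d2b_step hM hcl (Or.inr rfl) c1 c2 c3
  have hbb : b + b ≠ 0 := fun h => hb0 (d2b_two hodd h)
  have hcc : c + c ≠ 0 := fun h => hc0 (d2b_two hodd h)
  have hbbcc : b + b ≠ c + c := by
    intro h
    apply hbc
    have h1 : (b - c) + (b - c) = 0 := d2b_c h (by abel)
    exact sub_eq_zero.1 (d2b_two hodd h1)
  have hbpc : b + c ≠ 0 := by
    intro h
    refine d2b_sid hSid m0 mc mb m0 hc0.symm hb0.symm ?_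
    exact d2b_c h (by abel)
  have hb2c : b ≠ c + c := by
    intro h
    refine d2b_sid hSid m0 mc mc mb hc0.symm hc0.symm ?_
    exact (d2b_c h (by abel)).symm
  have hc2b : c ≠ b + b := by
    intro h
    refine d2b_sid hSid m0 mb mb mc hb0.symm hb0.symm ?_
    exact (d2b_c h (by abel)).symm
  have h6 : ({z, z + b, z + c, z + b + b, z + b + c, z + c + c} : Finset G).card = 6 := by
    rw [Finset.card_insert_of_notMem, Finset.card_insert_of_notMem, Finset.card_insert_of_notMem,
      Finset.card_insert_of_notMem, Finset.card_insert_of_notMem, Finset.card_singleton]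
    · simp only [Finset.mem_singleton]
      exact fun h => hbc (d2b_c h (by abel))
    · simp only [Finset.mem_insert, Finset.mem_singleton, not_or]
      exact ⟨fun h => hbc (d2b_c h (by abel)), fun h => hbbcc (d2b_c h (by abel))⟩
    · simp only [Finset.mem_insert, Finset.mem_singleton, not_or]
      exact ⟨fun h => hc2b (d2b_c h (by abel)), fun h => hb0.symm (d2b_c h (by abel)),
        fun h => hc0.symm (d2b_c h (by abel))⟩
    · simp only [Finset.mem_insert, Finset.mem_singleton, not_or]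
      exact ⟨fun h => hbc (d2b_c h (by abel)), fun h => hb0.symm (d2b_c h (by abel)),
        fun h => hc0.symm (d2b_c h (by abel)), fun h => hb2c (d2b_c h (by abel))⟩
    · simp only [Finset.mem_insert, Finset.mem_singleton, not_or]
      exact ⟨fun h => hb0.symm (d2b_c h (by abel)), fun h => hc0.symm (d2b_c h (by abel)),
        fun h => hbb.symm (d2b_c h (by abel)), fun h => hbpc.symm (d2b_c h (by abel)),
        fun h => hcc.symm (d2b_c h (by abel))⟩
  have hsub : ({z, z + b, z + c, z + b + b, z + b + c, z + c + c} : Finset G) ⊆ A \ (a +ᵥ A) := by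
    intro t ht
    simp only [Finset.mem_insert, Finset.mem_singleton] at ht
    rw [d2b_start]
    rcases ht with rfl | rfl | rfl | rfl | rfl | rfl
    · exact ⟨hz, hz1⟩
    · exact ⟨b1, b2⟩
    · exact ⟨c1, c2⟩
    · exact ⟨bb1, bb2⟩
    · exact ⟨bc1, bc2⟩
    · exact ⟨cc1, cc2⟩
  have h7 := card_le_card hsub
  omega

/-- **Row D2 (3).** Upper bound `|A| ≤ 7` (contradiction with `four_lower`).
PROOF. `St := A \ (a +ᵥ A)` (starts), `|St| ≤ 5`. Every `y ∈ A` is a start or `y = z + a` for a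
start `z`: by `no_full_gen` (C7a.lean, with `T := {0,a,b,c}`; the rule
`x ∈ A, x + a ∈ A → x + μ ∈ A` holds by `hcl`) and `nsmul_neg_exists` some `y - i • a ∉ A`, so going
back from `y` one reaches a start `z = y - (i-1) • a`, and by `four_run` a run has at most two
elements. So `|A| = |St| + |T|` with `T := {z ∈ St : z + a ∈ A}`. For `z ∈ T`: `z + b ∈ St`
(step in `four_run`) and `z + b + a ∉ A`: otherwise closure at `x = z + a`
(`x = z + a ∈ A`, `x + b ∈ A`) gives `z + a + a ∈ A`, against `four_run`. So `z ↦ z + b` injects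
`T` into `St \ T`: `2 |T| ≤ |St| ≤ 5`, `|T| ≤ 2`, `|A| ≤ 7`. -/
theorem four_upper {A : Finset G} {a b c : G} (hodd : ¬ 2 ∣ Fintype.card G)
    (hM : ({0, a, b, c} : Finset G).card = 4) (hSid : Sidon ({0, a, b, c} : Finset G))
    (hcl : ∀ x : G, 2 ≤ ((x +ᵥ ({0, a, b, c} : Finset G)) ∩ A).card →
      x +ᵥ ({0, a, b, c} : Finset G) ⊆ A)
    (hρ : (A \ (a +ᵥ A)).card ≤ 5) (hA : A ≠ univ)
    (hgen : AddSubgroup.closure ({0, a, b, c} : Set G) = ⊤) : A.card ≤ 7 := by
  obtain ⟨⟨ha0, hb0, hc0⟩, hab, hac, hbc⟩ := d2b_dist hM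
  have m0 : (0 : G) ∈ ({0, a, b, c} : Finset G) := by simp
  have ma : a ∈ ({0, a, b, c} : Finset G) := by simp
  have mb : b ∈ ({0, a, b, c} : Finset G) := by simp
  have hrun := four_run hodd hM hSid hcl hρ
  -- back steps
  have hback : ∀ y : G, ∃ i : ℕ, y + i • (-a) ∉ A := by
    intro y
    obtain ⟨j, hj⟩ := no_full_gen (C := A) a ({0, a, b, c} : Set G) (by
      intro μ hμ x hx hxa
      have hμ' : μ ∈ ({0, a, b, c} : Finset G) := by
        simpa using hμ
      exact d2b_cl hcl m0 ma ha0.symm hμ' (by rwa [add_zero]) hxa) hgen hA y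
    obtain ⟨j', hj'⟩ := nsmul_neg_exists (-a) j
    rw [neg_neg] at hj'
    rw [hj'] at hj
    exact ⟨j', hj⟩
  obtain ⟨St, hSt⟩ : ∃ S : Finset G, S = A \ (a +ᵥ A) := ⟨_, rfl⟩
  have hStm : ∀ y, y ∈ St ↔ y ∈ A ∧ y - a ∉ A := fun y => by rw [hSt]; exact d2b_start
  rw [← hSt] at hρ
  obtain ⟨T, hT⟩ : ∃ T : Finset G, T = St.filter (fun z => z + a ∈ A) := ⟨_, rfl⟩
  have hTm : ∀ y, y ∈ T ↔ (y ∈ A ∧ y - a ∉ A) ∧ y + a ∈ A := fun y => by
    rw [hT, Finset.mem_filter, hStm]
  have hcov : A ⊆ St ∪ T.image (fun z => z + a) := by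
    intro y hy
    have hex := hback y
    obtain ⟨i, hi, hmin⟩ : ∃ i, y + i • (-a) ∉ A ∧ ∀ k < i, y + k • (-a) ∈ A := by
      classical
      refine ⟨Nat.find hex, Nat.find_spec hex, fun k hk => ?_⟩
      exact not_not.1 (Nat.find_min hex hk)
    rcases i with _ | i
    · rw [zero_smul, add_zero] at hi
      exact absurd hy hi
    · rcases i with _ | i
      · rw [Finset.mem_union]
        left
        rw [hStm]
        refine ⟨hy, ?_⟩
        rw [zero_add, one_smul] at hi
        rwa [sub_eq_add_neg]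
      · have h1 := hmin (i + 1) (by omega)
        have h2 := hmin i (by omega)
        have h3 : y + (i + 1) • (-a) - a ∉ A := by
          have e : y + (i + 1) • (-a) - a = y + (i + 1 + 1) • (-a) := by
            rw [succ_nsmul (-a) (i + 1)]
            abel
          rwa [e]
        have h4 : y + (i + 1) • (-a) + a = y + i • (-a) := by
          rw [succ_nsmul (-a) i]
          abel
        have h5 := hrun _ h1 h3 (by rwa [h4])
        rcases i with _ | i
        · rw [Finset.mem_union]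
          right
          rw [Finset.mem_image]
          refine ⟨y + (0 + 1) • (-a), ?_, ?_⟩
          · rw [hTm]
            exact ⟨⟨h1, h3⟩, by rwa [h4]⟩
          · rw [h4, zero_smul, add_zero]
        · exfalso
          apply h5
          have h6 := hmin i (by omega)
          have e : y + (i + 1 + 1) • (-a) + a + a = y + i • (-a) := by
            rw [succ_nsmul (-a) (i + 1), succ_nsmul (-a) i]
            abel
          rwa [e]
  have hTb : T.image (fun z => z + b) ⊆ St \ T := by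
    intro t ht
    rw [Finset.mem_image] at ht
    obtain ⟨z, hz, rfl⟩ := ht
    obtain ⟨⟨z1, z2⟩, z3⟩ := (hTm z).1 hz
    rw [Finset.mem_sdiff, hStm, hTm]
    have h1 := d2b_step hM hcl (Or.inl rfl) z1 z2 z3
    refine ⟨h1, fun h2 => hrun z z1 z2 z3 ?_⟩
    have h3 : z + a + b ∈ A := by
      have e : z + a + b = z + b + a := by abel
      rw [e]
      exact h2.2
    exact d2b_cl hcl m0 mb hb0.symm ma (by rwa [add_zero]) h3
  have c1 : T.card ≤ (St \ T).card := by
    have h1 := card_le_card hTb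
    rwa [Finset.card_image_of_injective _ (add_left_injective b)] at h1
  have c2 : (St \ T).card + T.card = St.card := by
    refine Finset.card_sdiff_add_card_eq_card ?_
    rw [hT]
    exact Finset.filter_subset _ _
  have c3 : A.card ≤ St.card + T.card := by
    refine (card_le_card hcov).trans ((Finset.card_union_le _ _).trans ?_)
    exact Nat.add_le_add_left Finset.card_image_le _
  omega

end Pool.Agent.SPN
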