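import Pool.Agent.SPN.E1
import Pool.Agent.SPN.C4
import Pool.Agent.SPN.D1b

set_option autoImplicit false

namespace Pool.Agent.SPN

open Finset Pointwise Pool.Agent.MP_8507d5_co

universe u

variable {G : Type u} [AddCommGroup G] [Fintype G] [DecidableEq G]

/-- **Row D3.** The pair `{0, g}` with `⟨g⟩ = N` proper is impossible (case `κ₂(A) = |A| + 1`).
PROOF. `k := |A|`, `N := zmultiples g`, `F := univ.filter (· ∈ N)`, `l := |F| ≥ 2`, `l ∣ n`,
`n = 3k+1`. `l % 3 = 1` (`Adm`, and `3 ∤ n`), `l` odd, so `l ≥ 7`. `n = q l`, `q = Nat.card (G/N)`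
(`card_quot`).
`pair_cosets` with `c = 3` gives `S ⊆ A`, `|S| ≤ 3`; the second alternative of its conclusion is
excluded by `no_full_coset_beta` (with `z := a`). So every `a ∈ A` has `s ∈ S` with `a - s ∈ N`.
For `s ∈ S`: `|fib N A s| ≤ l - 1`, otherwise `fib_full` and `no_full_coset_beta`. By
`card_le_sum_fib`: `k ≤ 3 (l - 1)`. So `q l = 3k + 1 ≤ 9 l - 8`, `q ≤ 8`; `q ∣ n`, `q % 3 = 1`, `q`
odd, `q ≥ 2` (`q = 1` would give `N = ⊤`): `q = 7`. So `3 k + 1 = 7 l`.
Work in `K := G/N`, `Fintype.card K = 7`, `Adm 7 3` (from `hE.adm`, `7 ∣ n`).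
`AQ := A.image mk` equals `S.image mk`, so `|AQ| ≤ 3`. If `|AQ| ≤ 2` then `A` is covered by two
fibres: `k ≤ 2 (l-1)`, contradiction with `3k + 1 = 7l`. So `|AQ| = 3 > 7/3` and
`span_of_card` gives `nf AQ 3 = univ`. Take `g₀ ∉ nf A 3` (`hE.ne`); `mem_nf` gives
`f : Fin 3 → K`, `f i ∈ AQ`, `∑ f i = mk g₀`; lifts `a i ∈ A` with `mk (a i) = f i`;
`g₀ - ∑ a i ∈ N` (`mk_eq_iff`).
(i) If `f i ≠ f j` for some `i ≠ j`: `claimR` gives `|fib (a i)| + |fib (a j)| ≤ l`, and the third
class has at most `l - 1` elements, so `k ≤ 2 l - 1` (`card_le_sum_fib` with `S` = three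
representatives), `3 k + 1 ≤ 6 l - 2 < 7 l`.
(ii) Otherwise all `f i` are equal to `mk (a 0)`: `g₀ - 3 • a 0 ∈ N`, `fib_le_div` gives
`|fib (a 0)| ≤ l / 3 = (l-1)/3`, the two other classes have at most `l - 1` elements each:
`k ≤ (l-1)/3 + 2 (l-1)`, `3 k ≤ 7 (l-1)`, contradiction. -/
theorem pair_proper_beta {A : Finset G} (hE : Ext 3 A) (hn : Fintype.card G = 3 * A.card + 1)
    (hk : 2 ≤ A.card) (hK : ∀ X, Feas A 2 X → X.card + A.card + 1 ≤ (X + A).card)
    (hAA : (A + A).card = 2 * A.card + 1) (g : G) (hg : g ≠ 0)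
    (hgt : AddSubgroup.zmultiples g ≠ ⊤)
    (hc : (({0, g} : Finset G) + A).card ≤ A.card + 3) : False := by
  classical
  set N := AddSubgroup.zmultiples g with hNdef
  set F : Finset G := univ.filter (fun x => x ∈ N) with hFdef
  have hF : ∀ x, x ∈ F ↔ x ∈ N := fun x => by
    rw [hFdef, Finset.mem_filter]
    exact ⟨fun h => h.2, fun h => ⟨Finset.mem_univ _, h⟩⟩
  obtain ⟨hq1, -⟩ := card_quot N F hF
  have hgN : g ∈ N := AddSubgroup.mem_zmultiples g
  have hodd : ¬ 2 ∣ Fintype.card G := hE.adm.odd hE.hh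
  have hl2 : 2 ≤ F.card := by
    have h1 : ({0, g} : Finset G) ⊆ F := by
      intro x hx
      rw [Finset.mem_insert, Finset.mem_singleton] at hx
      rcases hx with rfl | rfl
      · exact (hF _).2 N.zero_mem
      · exact (hF _).2 hgN
    have h2 := Finset.card_le_card h1
    rwa [Finset.card_pair (Ne.symm hg)] at h2
  have hlt : F.card < Fintype.card G := by
    rcases lt_or_ge F.card (Fintype.card G) with h | h
    · exact h
    · exfalso
      have h1 : F = univ := (Finset.card_eq_iff_eq_univ F).1 (le_antisymm (Finset.card_le_univ F) h)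
      apply hgt
      rw [eq_top_iff]
      intro x _
      exact (hF x).1 (by rw [h1]; exact Finset.mem_univ x)
  generalize hqdef : Nat.card (G ⧸ N) = q at hq1
  generalize hldef : F.card = l at hq1 hl2 hlt
  have hldvd : l ∣ Fintype.card G := Dvd.intro_left _ hq1.symm
  have hqdvd : q ∣ Fintype.card G := Dvd.intro _ hq1.symm
  have h3n : ¬ 3 ∣ Fintype.card G := by
    rw [hn]
    omega
  have hl3 : l % 3 = 1 := by
    rcases hE.adm l hldvd with h | h
    · exact absurd ((Nat.dvd_of_mod_eq_zero h).trans hldvd) h3n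
    · exact h
  have hq3 : q % 3 = 1 := by
    rcases hE.adm q hqdvd with h | h
    · exact absurd ((Nat.dvd_of_mod_eq_zero h).trans hqdvd) h3n
    · exact h
  have hlo : ¬ 2 ∣ l := fun h => hodd (h.trans hldvd)
  have hqo : ¬ 2 ∣ q := fun h => hodd (h.trans hqdvd)
  have hl7 : 7 ≤ l := by omega
  have hq7 : 7 ≤ q := by
    have h1 : q ≠ 1 := by
      intro h
      rw [h, one_mul] at hq1
      omega
    omega
  have hfull : ∀ z : G, ¬ ∀ f ∈ N, z + f ∈ A := fun z hz =>
    no_full_coset_beta hn hk hodd hK hAA g hg z hz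
  obtain ⟨S, hS3, -, hScov⟩ := pair_cosets g 3 hc
  have hcov : ∀ a ∈ A, ∃ s ∈ S, a - s ∈ N := by
    intro a ha
    rcases hScov a ha with h | h
    · exact h
    · exact absurd h (hfull a)
  have hfib : ∀ s, (fib N A s).card ≤ l - 1 := by
    intro s
    by_contra hcon
    exact hfull s (fib_full hF A s (by rw [hldef]; omega))
  have hk3 : A.card ≤ 3 * (l - 1) := by
    refine (card_le_sum_fib hcov).trans ?_
    refine (Finset.sum_le_card_nsmul S _ (l - 1) (fun s _ => hfib s)).trans ?_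
    rw [smul_eq_mul]
    exact Nat.mul_le_mul_right _ hS3
  have hq : q = 7 := by
    have h1 : q * l < 9 * l := by
      rw [← hq1, hn]
      omega
    have h2 : q < 9 := lt_of_mul_lt_mul_right h1 (Nat.zero_le l)
    omega
  rw [hq] at hq1
  -- the quotient
  have : Fintype (G ⧸ N) := Fintype.ofFinite _
  have hcardK : Fintype.card (G ⧸ N) = 7 := by rw [← Nat.card_eq_fintype_card, hqdef, hq]
  have hadm7 : Adm (Fintype.card (G ⧸ N)) 3 := by
    rw [hcardK]
    exact hE.adm.dvd (by rw [← hq]; exact hqdvd)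
  set AQ : Finset (G ⧸ N) := A.image (fun a : G => (a : G ⧸ N)) with hAQ
  set φ : G ⧸ N → ℕ := fun x => (A.filter (fun a : G => (a : G ⧸ N) = x)).card with hφ
  have hφfib : ∀ a0 : G, φ (a0 : G ⧸ N) = (fib N A a0).card := by
    intro a0
    have h1 : A.filter (fun a : G => (a : G ⧸ N) = (a0 : G ⧸ N)) = fib N A a0 := by
      ext a
      rw [Finset.mem_filter, mem_fib, mk_eq_iff]
    change (A.filter (fun a : G => (a : G ⧸ N) = (a0 : G ⧸ N))).card = _
    rw [h1]
  have hφle : ∀ x, φ x ≤ l - 1 := by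
    intro x
    obtain ⟨a0, rfl⟩ := QuotientAddGroup.mk_surjective x
    rw [hφfib]
    exact hfib a0
  have hsum : A.card = ∑ x ∈ AQ, φ x :=
    Finset.card_eq_sum_card_image (fun a : G => (a : G ⧸ N)) A
  have hAQ3 : AQ.card ≤ 3 := by
    have h1 : AQ ⊆ S.image (fun a : G => (a : G ⧸ N)) := by
      intro x hx
      obtain ⟨a, ha, rfl⟩ := Finset.mem_image.1 hx
      obtain ⟨s, hs, has⟩ := hcov a ha
      rw [Finset.mem_image]
      exact ⟨s, hs, ((mk_eq_iff N a s).2 has).symm⟩
    exact (Finset.card_le_card h1).trans (Finset.card_image_le.trans hS3)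
  have hAQ3' : 3 ≤ AQ.card := by
    by_contra hcon
    have h1 : ∑ x ∈ AQ, φ x ≤ AQ.card * (l - 1) := by
      have := Finset.sum_le_card_nsmul AQ φ (l - 1) (fun s _ => hφle s)
      rwa [smul_eq_mul] at this
    have h2 : AQ.card * (l - 1) ≤ 2 * (l - 1) := Nat.mul_le_mul_right _ (by omega)
    omega
  have hspan : nf AQ 3 = univ := by
    apply span_of_card le_rfl hadm7
    rw [hcardK]
    omega
  obtain ⟨g0, hg0⟩ : ∃ g0, g0 ∉ nf A 3 := by
    by_contra hcon
    push Not at hcon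
    exact hE.ne (Finset.eq_univ_iff_forall.2 hcon)
  have hmem : (g0 : G ⧸ N) ∈ nf AQ 3 := by rw [hspan]; exact Finset.mem_univ _
  obtain ⟨f, hf, hfsum⟩ := (mem_nf _ _ _).1 hmem
  have hlift : ∀ i, ∃ a ∈ A, (a : G ⧸ N) = f i := fun i => by
    have := hf i
    rw [hAQ, Finset.mem_image] at this
    exact this
  choose a haA haf using hlift
  by_cases hall : ∀ i, f i = f 0
  · have hb : g0 - 3 • a 0 ∈ N := by
      rw [← mk_eq_iff, ← hfsum]
      have h1 : ∑ i, f i = 3 • f 0 := by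
        rw [Finset.sum_congr rfl (fun i _ => hall i), Finset.sum_const, Finset.card_univ,
          Fintype.card_fin]
      rw [h1, ← haf 0]
      rfl
    have hadml : Adm F.card 3 := by
      rw [hldef]
      exact hE.adm.dvd hldvd
    have h1 := fib_le_div hF le_rfl hadml hg0 hb
    rw [hldef, ← hφfib, haf 0] at h1
    have h2 := Finset.add_sum_erase AQ φ (hf 0)
    have h3 : ∑ x ∈ AQ.erase (f 0), φ x ≤ (AQ.erase (f 0)).card * (l - 1) := by
      have := Finset.sum_le_card_nsmul (AQ.erase (f 0)) φ (l - 1) (fun s _ => hφle s)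
      rwa [smul_eq_mul] at this
    have h4 : (AQ.erase (f 0)).card = AQ.card - 1 := Finset.card_erase_of_mem (hf 0)
    have h5 : (AQ.erase (f 0)).card * (l - 1) ≤ 2 * (l - 1) :=
      Nat.mul_le_mul_right _ (by omega)
    omega
  · push Not at hall
    obtain ⟨i, hi⟩ := hall
    have hs : g0 - ∑ j, a j ∈ N := by
      rw [← mk_eq_iff, ← hfsum]
      have h1 : ((∑ j, a j : G) : G ⧸ N) = ∑ j, ((a j : G) : G ⧸ N) :=
        map_sum (QuotientAddGroup.mk' N) a univ
      rw [h1]
      exact Finset.sum_congr rfl (fun j _ => (haf j).symm)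
    have hi0 : i ≠ 0 := by
      rintro rfl
      exact hi rfl
    have h1 := claimR hF hg0 a haA hs i 0 hi0
    rw [hldef, ← hφfib, ← hφfib, haf, haf] at h1
    have h2 := Finset.add_sum_erase AQ φ (hf 0)
    have hmem2 : f i ∈ AQ.erase (f 0) := Finset.mem_erase.2 ⟨hi, hf i⟩
    have h3 := Finset.add_sum_erase (AQ.erase (f 0)) φ hmem2
    have h4 : ((AQ.erase (f 0)).erase (f i)).card = AQ.card - 1 - 1 := by
      rw [Finset.card_erase_of_mem hmem2, Finset.card_erase_of_mem (hf 0)]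
    have h5 : ∑ x ∈ (AQ.erase (f 0)).erase (f i), φ x ≤
        ((AQ.erase (f 0)).erase (f i)).card * (l - 1) := by
      have := Finset.sum_le_card_nsmul ((AQ.erase (f 0)).erase (f i)) φ (l - 1)
        (fun s _ => hφle s)
      rwa [smul_eq_mul] at this
    have h6 : ((AQ.erase (f 0)).erase (f i)).card * (l - 1) ≤ 1 * (l - 1) :=
      Nat.mul_le_mul_right _ (by omega)
    omega

end Pool.Agent.SPN
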