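import Pool.Agent.SPN.C9
import Pool.Agent.SPN.D2
import Pool.Agent.SPN.D2b
import Pool.Agent.SPN.D3

set_option autoImplicit false

namespace Pool.Agent.SPN

open Finset Pointwise Pool.Agent.MP_8507d5_co

universe u

variable {G : Type u} [AddCommGroup G] [Fintype G] [DecidableEq G]

omit [Fintype G] in
theorem eq_quad_of_card {M : Finset G} (hM : M.card = 4) (h0 : (0 : G) ∈ M) :
    ∃ a b c : G, M = {0, a, b, c} := by
  have h1 : (M.erase 0).card = 3 := by rw [Finset.card_erase_of_mem h0, hM]
  obtain ⟨a, b, c, _, _, _, h2⟩ := Finset.card_eq_three.mp h1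
  refine ⟨a, b, c, ?_⟩
  rw [← h2, Finset.insert_erase h0]

theorem atom_four {A M : Finset G} (hodd : ¬ 2 ∣ Fintype.card G)
    (hn : Fintype.card G = 3 * A.card + 1) (hk : 2 ≤ A.card)
    (hK : ∀ X, Feas A 2 X → X.card + A.card + 1 ≤ (X + A).card)
    (hAA : (A + A).card = 2 * A.card + 1) (hM : IsAtom A 2 M) (hS : Sidon M)
    (h0 : (0 : G) ∈ M) (hM4 : M.card = 4) (hMA : (M + A).card = M.card + A.card + 1)
    (hgen : AddSubgroup.closure (M : Set G) = ⊤) : False := by
  have hfeas := hM.feas.2
  have hsub : ∀ P : Finset G, P ⊆ M → 2 ≤ P.card → P.card < 4 →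
      A.card + P.card + 2 ≤ (P + A).card := by
    intro P hPM hP2 hP4
    by_contra hcon
    push Not at hcon
    have h1 : (P + A).card ≤ (M + A).card := Finset.card_le_card (Finset.add_subset_add_right hPM)
    have h2 := hM.small P ⟨by omega, by omega⟩ (by omega)
    omega
  have h9 := four_lower hM4 (A := A) (by omega)
    (fun T hT hT3 => by have := hsub T hT (by omega) (by omega); omega)
    (fun T hT hT3 => by have := hsub T hT (by omega) (by omega); omega)
  obtain ⟨a, b, c, hMe⟩ := eq_quad_of_card hM4 h0
  have hAne : A ≠ univ := by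
    intro h1
    rw [← Finset.card_univ, ← h1] at hn
    omega
  have h7 := four_upper (A := A) (a := a) (b := b) (c := c) hodd (by rw [← hMe]; exact hM4)
    (by rw [← hMe]; exact hS)
    (fun x hx => by
      rw [← hMe] at hx ⊢
      exact atom_closed hn hk hK hAA hM hMA x hx)
    (by
      have h1 : (({0, a} : Finset G) + A).card ≤ (M + A).card := by
        apply Finset.card_le_card
        apply Finset.add_subset_add_right
        rw [hMe]
        intro x hx
        simp only [Finset.mem_insert, Finset.mem_singleton] at hx ⊢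
        tauto
      rw [pair_add] at h1
      have h2 := Finset.card_sdiff_add_card A (a +ᵥ A)
      have h3 : (a +ᵥ A).card = A.card := Finset.card_vadd_finset _ _
      omega)
    hAne (by
      rw [hMe] at hgen
      rw [← hgen]; congr 1; simp)
  omega

/-- **betaPrim**: the case `κ₂(A) = |A| + 1`. -/
theorem betaPrim {A : Finset G} (hE : Ext 3 A) (hT : Thick A 1) (hk : 2 ≤ A.card)
    (hn : Fintype.card G = 3 * A.card + 1) (hAA : (A + A).card = 2 * A.card + 1)
    (hK : ∀ X, Feas A 2 X → X.card + A.card + 1 ≤ (X + A).card) :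
    ∃ g : G, AddSubgroup.zmultiples g = ⊤ ∧ (({0, g} : Finset G) + A).card = A.card + 3 := by
  classical
  have hodd := hE.adm.odd (by omega)
  have hAf : Feas A 2 A := ⟨hk, by omega⟩
  obtain ⟨M, hM, h0⟩ := exists_atom_zero ⟨A, hAf⟩
  have hA : A.Nonempty := Finset.card_pos.mp (by omega)
  have hmin := hM.min A hAf
  have hge := hK M hM.feas
  have hMA : (M + A).card = M.card + A.card + 1 := by omega
  have hf1 := hM.feas.1
  have hf2 := hM.feas.2
  have hMlt : M.card < Fintype.card G := by omega
  have hdiv3 : ∀ d, d ∣ Fintype.card G → 2 ≤ d → 7 ≤ d := by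
    intro d hd hd2
    by_contra hcon
    have h3 : ¬ 3 ∣ d := by
      intro h3
      have := h3.trans hd
      rw [hn] at this
      have := (Nat.dvd_add_right (Dvd.intro _ rfl)).mp this
      omega
    have h2 : ¬ 2 ∣ d := fun h2 => hodd (h2.trans hd)
    have h5 := hE.adm d hd
    have : d < 7 := by omega
    interval_cases d <;> omega
  have hcase : ∀ (N : AddSubgroup G) (F : Finset G), (∀ x, x ∈ F ↔ x ∈ N) → 2 ≤ F.card →
      F.card < Fintype.card G → (F + A).card ≤ F.card + A.card + 1 → False := by
    intro N F hF h2 hlt hle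
    have h1 := hT N F hF h2 hlt
    have h3 := card_full N F hF (F + A) (by
      intro a ha f hf
      rw [Finset.mem_add] at ha ⊢
      obtain ⟨x, hx, y, hy, rfl⟩ := ha
      exact ⟨x + f, (hF _).mpr (N.add_mem ((hF x).mp hx) ((hF f).mp hf)), y, hy, by abel⟩)
    have h4 := (card_quot N F hF).1
    have h5 : F.card ∣ A.card + 1 := by
      have h6 : F.card ∣ (F + A).card := ⟨_, by rw [h3]; ring⟩
      have h7 : (F + A).card = F.card + (A.card + 1) := by omega
      rw [h7] at h6
      exact (Nat.dvd_add_right (dvd_refl _)).mp h6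
    have h6 : F.card ∣ Fintype.card G := ⟨_, by rw [h4]; ring⟩
    have h7 : F.card ∣ 2 := by
      have h8 : F.card ∣ 3 * (A.card + 1) := h5.mul_left 3
      have h9 : 3 * (A.card + 1) = Fintype.card G + 2 := by omega
      rw [h9] at h8
      exact (Nat.dvd_add_right h6).mp h8
    have := Nat.le_of_dvd two_pos h7
    have := hdiv3 _ h6 h2
    omega
  rcases atom_dich hM h0 with ⟨N, hN⟩ | hS
  · exfalso
    exact hcase N M hN hf1 hMlt (by omega)
  · set N := AddSubgroup.closure (M : Set G) with hN
    set F : Finset G := univ.filter (fun x => x ∈ N) with hFdef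
    have hF : ∀ x, x ∈ F ↔ x ∈ N := fun x => by simp [hFdef]
    have hMF : M ⊆ F := fun a ha => (hF a).mpr (AddSubgroup.subset_closure ha)
    have hMFc := Finset.card_le_card hMF
    by_cases hFn : F.card < Fintype.card G
    · exfalso
      rcases Nat.lt_or_ge M.card 3 with hm | hm
      · obtain ⟨g, hg, hMg⟩ := eq_pair_of_card (by omega) h0
        apply pair_proper_beta hE hn hk hK hAA g hg
        · intro htop
          have h1 : F = univ := by
            rw [Finset.eq_univ_iff_forall]; intro x
            rw [hF, hN, hMg, closure_pair, htop]; trivial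
          rw [h1, Finset.card_univ] at hFn
          exact lt_irrefl _ hFn
        · rw [← hMg]; omega
      · rcases CC (A := A) hS h0 hm N hN F hF 1 (by omega) (by omega) with h1 | ⟨s, t, hst⟩
        · exact hcase N F hF (by omega) hFn (by omega)
        · exact TwoCos hE hT N F hF (by omega) hFn s t hst
    · have hFuniv : F = univ := by
        apply Finset.eq_univ_of_card
        have := card_le_univ F
        omega
      have hNtop : AddSubgroup.closure (M : Set G) = ⊤ := by
        rw [eq_top_iff]; intro x _
        rw [← hN, ← hF, hFuniv]; exact Finset.mem_univ _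
      have hsize := atom_size hS h0 hf1 hNtop A ⟨hk, by rw [add_comm A M]; exact hf2⟩ 1 (by omega)
        (by rw [add_comm A M]; omega) (by
          intro d hd hd2
          have := hdiv3 d hd hd2
          omega)
      rcases Nat.lt_or_ge M.card 3 with hm | hm
      · obtain ⟨g, hg, hMg⟩ := eq_pair_of_card (by omega) h0
        refine ⟨g, ?_, ?_⟩
        · rw [← closure_pair, ← hMg]; exact hNtop
        · rw [← hMg]; omega
      · exfalso
        rcases Nat.lt_or_ge M.card 4 with hm4 | hm4
        · exact atom_three 1 (by omega) hA hM h0 (by omega) (by omega) hNtop (by omega)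
        · exact atom_four hodd hn hk hK hAA hM hS h0 (by omega) hMA hNtop

end Pool.Agent.SPN
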