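import Pool.Agent.MP_8507d5_co.Main

set_option autoImplicit false

/-! # SPN: extremal non-`h`-spanning sets, the case where all divisors of `n` are `0` or `1` mod `h` -/

namespace Pool.Agent.SPN

open Finset Pointwise Pool.Agent.MP_8507d5_co

universe u

/-- Every divisor of `n` is `0` or `1` modulo `h`. -/
def Adm (n h : ℕ) : Prop := ∀ d, d ∣ n → d % h = 0 ∨ d % h = 1

variable {G : Type u} [AddCommGroup G] [Fintype G] [DecidableEq G]

/-- `|N + A| ≥ |N| + |A| + c` for every proper nontrivial subgroup `N`. -/
def Thick (A : Finset G) (c : ℕ) : Prop :=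
  ∀ (N : AddSubgroup G) (F : Finset G), (∀ x, x ∈ F ↔ x ∈ N) → 2 ≤ F.card →
    F.card < Fintype.card G → F.card + A.card + c ≤ (F + A).card

omit [Fintype G] in
/-- `A` is an arithmetic progression whose difference generates `G`. -/
def IsAP (A : Finset G) : Prop :=
  ∃ x g : G, AddSubgroup.zmultiples g = ⊤ ∧ A = (Finset.range A.card).image (fun i : ℕ => x + i • g)

omit [Fintype G] [DecidableEq G] in
/-- `A` lies in an arithmetic progression of length `|A| + 2` whose difference generates `G`. -/
def Cont (A : Finset G) : Prop :=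
  ∃ x g : G, AddSubgroup.zmultiples g = ⊤ ∧ ∀ a ∈ A, ∃ i : ℕ, i ≤ A.card + 1 ∧ a = x + i • g

/-- The extremal situation. -/
structure Ext (h : ℕ) (A : Finset G) : Prop where
  hh : 3 ≤ h
  adm : Adm (Fintype.card G) h
  card : Fintype.card G = h * A.card ∨ Fintype.card G = h * A.card + 1
  ne : nf A h ≠ univ

end Pool.Agent.SPN
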