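import Pool.Agent.SPN.C1

set_option autoImplicit false

/-! Toolkit: fibres of `A` over the cosets of a subgroup `N`. -/

namespace Pool.Agent.SPN

open Finset Pointwise Pool.Agent.MP_8507d5_co

universe u

variable {G : Type u} [AddCommGroup G] [Fintype G] [DecidableEq G]

omit [Fintype G] [DecidableEq G] in
open Classical in
/-- The elements of `A` in the coset `s + N`. -/
noncomputable def fib (N : AddSubgroup G) (A : Finset G) (s : G) : Finset G :=
  A.filter (fun a => a - s ∈ N)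

omit [Fintype G] [DecidableEq G] in
theorem mem_fib {N : AddSubgroup G} {A : Finset G} {s a : G} :
    a ∈ fib N A s ↔ a ∈ A ∧ a - s ∈ N := by
  classical
  simp [fib]

omit [Fintype G] in
theorem fib_subset_vadd {N : AddSubgroup G} {F : Finset G} (hF : ∀ x, x ∈ F ↔ x ∈ N)
    (A : Finset G) (s : G) : fib N A s ⊆ s +ᵥ F := by
  intro a ha
  rw [mem_fib] at ha
  rw [Finset.mem_vadd_finset]
  exact ⟨a - s, (hF _).mpr ha.2, by simp⟩

omit [Fintype G] in
theorem fib_card_le {N : AddSubgroup G} {F : Finset G} (hF : ∀ x, x ∈ F ↔ x ∈ N)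
    (A : Finset G) (s : G) : (fib N A s).card ≤ F.card := by
  have h1 := Finset.card_le_card (fib_subset_vadd hF A s)
  rwa [Finset.card_vadd_finset] at h1

omit [Fintype G] in
theorem fib_full {N : AddSubgroup G} {F : Finset G} (hF : ∀ x, x ∈ F ↔ x ∈ N)
    (A : Finset G) (s : G) (hc : F.card ≤ (fib N A s).card) : ∀ f ∈ N, s + f ∈ A := by
  have h1 : fib N A s = s +ᵥ F :=
    Finset.eq_of_subset_of_card_le (fib_subset_vadd hF A s) (by rwa [Finset.card_vadd_finset])
  intro f hf
  have h2 : s + f ∈ s +ᵥ F := by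
    rw [Finset.mem_vadd_finset]; exact ⟨f, (hF f).mpr hf, rfl⟩
  rw [← h1, mem_fib] at h2
  exact h2.1

omit [Fintype G] [DecidableEq G] in
theorem fib_congr {N : AddSubgroup G} {A : Finset G} {s s' : G} (hs : s - s' ∈ N) :
    fib N A s = fib N A s' := by
  ext a
  rw [mem_fib, mem_fib]
  constructor
  · rintro ⟨h1, h2⟩
    refine ⟨h1, ?_⟩
    have : a - s' = (a - s) + (s - s') := by abel
    rw [this]; exact N.add_mem h2 hs
  · rintro ⟨h1, h2⟩
    refine ⟨h1, ?_⟩
    have : a - s = (a - s') - (s - s') := by abel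
    rw [this]; exact N.sub_mem h2 hs

omit [Fintype G] [DecidableEq G] in
theorem self_mem_fib {N : AddSubgroup G} {A : Finset G} {a : G} (ha : a ∈ A) : a ∈ fib N A a := by
  rw [mem_fib]; exact ⟨ha, by simp⟩

omit [Fintype G] in
/-- Covering by fibres. -/
theorem card_le_sum_fib {N : AddSubgroup G} {A S : Finset G}
    (hS : ∀ a ∈ A, ∃ s ∈ S, a - s ∈ N) : A.card ≤ ∑ s ∈ S, (fib N A s).card := by
  have h1 : A ⊆ S.biUnion (fun s => fib N A s) := by
    intro a ha
    obtain ⟨s, hs, h2⟩ := hS a ha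
    rw [Finset.mem_biUnion]
    exact ⟨s, hs, mem_fib.mpr ⟨ha, h2⟩⟩
  exact (Finset.card_le_card h1).trans Finset.card_biUnion_le

omit [Fintype G] in
/-- If `g ∉ hA`, two different positions in a representation of `g` modulo `N` have small fibres. -/
theorem claimR {h : ℕ} {A : Finset G} {N : AddSubgroup G} {F : Finset G}
    (hF : ∀ x, x ∈ F ↔ x ∈ N) {g : G} (hg : g ∉ nf A h) (a : Fin h → G) (ha : ∀ i, a i ∈ A)
    (hs : g - ∑ i, a i ∈ N) (i j : Fin h) (hij : i ≠ j) :
    (fib N A (a i)).card + (fib N A (a j)).card ≤ F.card := by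
  by_contra hcon
  push Not at hcon
  obtain ⟨u, hu, v, hv, huv⟩ := coset_sum N F hF (fib N A (a i)) (fib N A (a j)) (a i) (a j)
    (fun x hx => (mem_fib.mp hx).2) (fun x hx => (mem_fib.mp hx).2) (by omega)
    (g - (∑ k, a k - a i - a j)) (by
      have : g - (∑ k, a k - a i - a j) - (a i + a j) = g - ∑ k, a k := by abel
      rw [this]; exact hs)
  apply hg
  rw [mem_nf]
  exact adjust A a ha i j hij u v g (mem_fib.mp hu).1 (mem_fib.mp hv).1 huv

omit [Fintype G] [DecidableEq G] in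
open Classical in
/-- The fibre over `a₀ + N`, as a subset of `N`. -/
noncomputable def fibN (N : AddSubgroup G) [Fintype N] (A : Finset G) (a₀ : G) : Finset N :=
  univ.filter (fun x : N => a₀ + (x : G) ∈ A)

theorem mem_fibN {N : AddSubgroup G} [Fintype N] {A : Finset G} {a₀ : G} {x : N} :
    x ∈ fibN N A a₀ ↔ a₀ + (x : G) ∈ A := by
  classical
  simp [fibN]

theorem card_fibN {N : AddSubgroup G} [Fintype N] {A : Finset G} {a₀ : G} :
    (fibN N A a₀).card = (fib N A a₀).card := by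
  apply Finset.card_bij (fun (x : N) _ => a₀ + (x : G))
  · intro x hx
    rw [mem_fib]
    exact ⟨mem_fibN.mp hx, by simp⟩
  · intro x _ y _ hxy; exact Subtype.ext (add_left_cancel hxy)
  · intro y hy
    rw [mem_fib] at hy
    exact ⟨⟨y - a₀, hy.2⟩, mem_fibN.mpr (by simpa using hy.1), by simp⟩

/-- If `g ∉ hA` and `g ≡ h a₀` then the fibre over `a₀` does not span `N`. -/
theorem fibN_ne {h : ℕ} {A : Finset G} {N : AddSubgroup G} [Fintype N] {g a₀ : G}
    (hg : g ∉ nf A h) (hb : g - h • a₀ ∈ N) : nf (fibN N A a₀) h ≠ univ := by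
  intro hun
  have h1 : (⟨g - h • a₀, hb⟩ : N) ∈ nf (fibN N A a₀) h := by rw [hun]; exact Finset.mem_univ _
  obtain ⟨f, hf, hsum⟩ := (mem_nf _ _ _).mp h1
  apply hg
  rw [mem_nf]
  refine ⟨fun k => a₀ + (f k : G), fun k => mem_fibN.mp (hf k), ?_⟩
  rw [Finset.sum_add_distrib, Finset.sum_const]
  have h2 : ∑ k, (f k : G) = g - h • a₀ := by
    have := congrArg Subtype.val hsum
    rw [AddSubgroup.val_finsetSum] at this
    exact this
  rw [h2]; simp

theorem fib_le_div {h : ℕ} {A : Finset G} {N : AddSubgroup G} {F : Finset G}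
    (hF : ∀ x, x ∈ F ↔ x ∈ N) (hh : 3 ≤ h) (ha : Adm F.card h) {g a₀ : G}
    (hg : g ∉ nf A h) (hb : g - h • a₀ ∈ N) : (fib N A a₀).card ≤ F.card / h := by
  classical
  have : Fintype N := Fintype.ofFinite _
  have hN : Fintype.card N = F.card := by
    rw [← Nat.card_eq_fintype_card]; exact Nat.subtype_card F hF
  have h1 := card_le_of_ne hh (by rw [hN]; exact ha) (fibN N A a₀) (fibN_ne hg hb)
  rwa [card_fibN, hN] at h1

end Pool.Agent.SPN
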