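import Pool.Agent.SPN.G2

set_option autoImplicit false

namespace Pool.Agent.SPN

open Finset Pointwise Pool.Agent.MP_8507d5_co

universe u

variable {G : Type u} [AddCommGroup G] [Fintype G] [DecidableEq G]

omit [DecidableEq G] in
theorem smul_bij {c : ℕ} (hc : Nat.Coprime (Fintype.card G) c) :
    Function.Bijective (fun a : G => c • a) := by
  have h := (nsmulCoprime (G := G) (n := c) (by rwa [Nat.card_eq_fintype_card])).bijective
  exact h

omit [DecidableEq G] in
/-- Dividing by `c`. -/
theorem cont_of_smul {A : Finset G} {c : ℕ} (hc : Nat.Coprime (Fintype.card G) c) {g : G}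
    (hg : AddSubgroup.zmultiples g = ⊤) (x₀ : G)
    (h : ∀ a ∈ A, ∃ i : ℕ, i ≤ A.card + 1 ∧ c • a = x₀ + i • g) : Cont A := by
  obtain ⟨y₀, hy₀⟩ := (smul_bij hc).2 x₀
  obtain ⟨g', hg'⟩ := (smul_bij hc).2 g
  simp only at hy₀ hg'
  refine ⟨y₀, g', ?_, ?_⟩
  · rw [eq_top_iff, ← hg, AddSubgroup.zmultiples_le, ← hg']
    exact AddSubgroup.nsmul_mem _ (AddSubgroup.mem_zmultiples g') c
  · intro a ha
    obtain ⟨i, hi, h1⟩ := h a ha
    refine ⟨i, hi, ?_⟩
    apply (smul_bij hc).1
    simp only
    rw [h1, nsmul_add, hy₀, ← hg', ← mul_nsmul', ← mul_nsmul', mul_comm]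

theorem TA {A : Finset G} {g : G} (hg : AddSubgroup.zmultiples g = ⊤) {x : G} {p u r w : ℕ}
    (hp : 1 ≤ p) (hu : 1 ≤ u) (hr : 1 ≤ r) (hw : 1 ≤ w) (hsum : p + u + r + w = Fintype.card G)
    (hk : p + r = A.card)
    (hA : ∀ i < Fintype.card G, (x + i • g ∈ A ↔ i < p ∨ (p + u ≤ i ∧ i < p + u + r)))
    (hrp : r ≤ p) (huw : u ≤ w) (h3 : 3 * A.card ≤ Fintype.card G) (hodd : ¬ 2 ∣ Fintype.card G)
    (h2A : (A + A).card ≤ 2 * A.card + 1) (h2A' : (A + A).card + 4 ≤ 3 * A.card) : Cont A := by
  set n := Fintype.card G with hn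
  set k := A.card with hkdef
  have hng : n • g = 0 := card_nsmul_eq_zero
  have q1 : ∀ t, t ≤ 2 * p - 2 → (x + x) + t • g ∈ A + A := by
    intro t ht
    rw [Finset.mem_add]
    refine ⟨x + (min t (p - 1)) • g, (hA _ (by omega)).mpr (Or.inl (by omega)),
      x + (t - min t (p - 1)) • g, (hA _ (by omega)).mpr (Or.inl (by omega)), ?_⟩
    have : t • g = (min t (p - 1)) • g + (t - min t (p - 1)) • g := by
      rw [← add_nsmul]; congr 1; omega
    rw [this]; abel
  have q2 : ∀ t, p + u ≤ t → t ≤ p + u + k - 2 → (x + x) + t • g ∈ A + A := by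
    intro t ht1 ht2
    rw [Finset.mem_add]
    refine ⟨x + (min (t - (p + u)) (p - 1)) • g, (hA _ (by omega)).mpr (Or.inl (by omega)),
      x + (t - min (t - (p + u)) (p - 1)) • g, (hA _ (by omega)).mpr (Or.inr (by omega)), ?_⟩
    have : t • g = (min (t - (p + u)) (p - 1)) • g + (t - min (t - (p + u)) (p - 1)) • g := by
      rw [← add_nsmul]; congr 1; omega
    rw [this]; abel
  have q3 : ∀ t, 2 * (p + u) ≤ t → t ≤ 2 * (p + u) + 2 * r - 2 → (x + x) + t • g ∈ A + A := by
    intro t ht1 ht2
    rw [Finset.mem_add]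
    refine ⟨x + (p + u + min (t - 2 * (p + u)) (r - 1)) • g,
      (hA _ (by omega)).mpr (Or.inr (by omega)),
      x + (t - (p + u + min (t - 2 * (p + u)) (r - 1))) • g,
      (hA _ (by omega)).mpr (Or.inr (by omega)), ?_⟩
    have : t • g = (p + u + min (t - 2 * (p + u)) (r - 1)) • g +
        (t - (p + u + min (t - 2 * (p + u)) (r - 1))) • g := by
      rw [← add_nsmul]; congr 1; omega
    rw [this]; abel
  have hidx : ∀ a ∈ A, ∃ i, i < n ∧ a = x + i • g ∧ (i < p ∨ (p + u ≤ i ∧ i < p + u + r)) := by
    intro a ha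
    obtain ⟨i, hi, rfl⟩ := exists_idx hg x a
    exact ⟨i, hi, rfl, (hA i hi).mp ha⟩
  rcases Nat.lt_or_ge n (2 * (k + u)) with hwrap | hwrap
  · -- wrap
    have ha : p ≤ u + 1 := by
      by_contra hcon
      push Not at hcon
      have h1 := card_ge_idx hg (x + x) (A + A) (Finset.range (min n (p + u + k - 1))) (by
        intro y hy
        rw [Finset.mem_range] at hy
        refine ⟨by omega, ?_⟩
        rcases Nat.lt_or_ge y (p + u) with h | h
        · exact q1 y (by omega)
        · exact q2 y h (by omega))
      rw [Finset.card_range] at h1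
      omega
    have hb : 2 * p ≤ k + 3 := by
      have h1 := card_ge_idx hg (x + x) (A + A)
        (Finset.range (2 * p - 1) ∪ Finset.Ico (p + u) (p + u + k - 1)) (by
        intro y hy
        rw [Finset.mem_union, Finset.mem_range, Finset.mem_Ico] at hy
        refine ⟨by omega, ?_⟩
        rcases hy with h | h
        · exact q1 y (by omega)
        · exact q2 y h.1 (by omega))
      rw [Finset.card_union_of_disjoint, Finset.card_range, Nat.card_Ico] at h1
      · omega
      · rw [Finset.disjoint_left]
        intro i hi hi'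
        rw [Finset.mem_range] at hi
        rw [Finset.mem_Ico] at hi'
        omega
    rcases Nat.lt_or_ge (2 * (p + u)) n with hs | hs
    · have hc : 2 * p - 2 + (n - 2 * (p + u)) ≤ k + 1 := by
        have h1 := card_ge_idx hg (x + x) (A + A)
          (Finset.range (2 * p - 1) ∪ (Finset.Ico (p + u) (p + u + k - 1) ∪
            Finset.Ico (2 * (p + u)) n)) (by
          intro y hy
          simp only [Finset.mem_union, Finset.mem_range, Finset.mem_Ico] at hy
          refine ⟨by omega, ?_⟩
          rcases hy with h | h | h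
          · exact q1 y (by omega)
          · exact q2 y h.1 (by omega)
          · exact q3 y h.1 (by omega))
        rw [Finset.card_union_of_disjoint, Finset.card_union_of_disjoint, Finset.card_range,
          Nat.card_Ico, Nat.card_Ico] at h1
        · omega
        · rw [Finset.disjoint_left]
          intro i hi hi'
          rw [Finset.mem_Ico] at hi hi'
          omega
        · rw [Finset.disjoint_left]
          intro i hi hi'
          simp only [Finset.mem_union, Finset.mem_range, Finset.mem_Ico] at hi hi'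
          omega
      apply cont_of_smul (c := 2) (Nat.coprime_comm.mp (Nat.prime_two.coprime_iff_not_dvd.mpr hodd))
        hg (2 • x - (n - 2 * (p + u)) • g)
      intro a ha
      obtain ⟨i, hi, rfl, h1 | h1⟩ := hidx a ha
      · refine ⟨2 * i + (n - 2 * (p + u)), by omega, ?_⟩
        rw [nsmul_add, ← mul_nsmul', add_nsmul]; abel
      · refine ⟨2 * (i - (p + u)), by omega, ?_⟩
        have e1 : (2 * i) • g = (2 * (i - (p + u))) • g + (2 * (p + u)) • g := by
          rw [← add_nsmul]; congr 1; omega
        have e2 : (n - 2 * (p + u)) • g + (2 * (p + u)) • g = 0 := by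
          rw [← add_nsmul]
          have : n - 2 * (p + u) + 2 * (p + u) = n := by omega
          rw [this, hng]
        have e3 : (n - 2 * (p + u)) • g = -((2 * (p + u)) • g) := eq_neg_of_add_eq_zero_left e2
        rw [nsmul_add, ← mul_nsmul', e1, e3]; abel
    · apply cont_of_smul (c := 2) (Nat.coprime_comm.mp (Nat.prime_two.coprime_iff_not_dvd.mpr hodd))
        hg (2 • x)
      intro a ha
      obtain ⟨i, hi, rfl, h1 | h1⟩ := hidx a ha
      · refine ⟨2 * i, by omega, ?_⟩
        rw [nsmul_add, ← mul_nsmul']
      · refine ⟨2 * i - n, by omega, ?_⟩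
        have e1 : (2 * i) • g = (2 * i - n) • g := by
          have : 2 * i = (2 * i - n) + n := by omega
          conv_lhs => rw [this]
          rw [add_nsmul, hng, add_zero]
        rw [nsmul_add, ← mul_nsmul', e1]
  · -- no wrap
    have hcase : u = 1 ∨ (r = 1 ∧ u = 2) := by
      have h1 := card_ge_idx hg (x + x) (A + A)
          (Finset.range (2 * p - 1) ∪ (Finset.Ico (max (p + u) (2 * p - 1)) (p + u + k - 1) ∪
            Finset.Ico (max (2 * (p + u)) (p + u + k - 1)) (2 * (p + u) + 2 * r - 1))) (by
          intro y hy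
          simp only [Finset.mem_union, Finset.mem_range, Finset.mem_Ico] at hy
          refine ⟨by omega, ?_⟩
          rcases hy with h | h | h
          · exact q1 y (by omega)
          · exact q2 y (by omega) (by omega)
          · exact q3 y (by omega) (by omega))
      rw [Finset.card_union_of_disjoint, Finset.card_union_of_disjoint, Finset.card_range,
          Nat.card_Ico, Nat.card_Ico] at h1
      · omega
      · rw [Finset.disjoint_left]
        intro i hi hi'
        rw [Finset.mem_Ico] at hi hi'
        omega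
      · rw [Finset.disjoint_left]
        intro i hi hi'
        simp only [Finset.mem_union, Finset.mem_range, Finset.mem_Ico] at hi hi'
        omega
    refine ⟨x, g, hg, ?_⟩
    intro a ha
    obtain ⟨i, hi, rfl, h1⟩ := hidx a ha
    exact ⟨i, by omega, rfl⟩

end Pool.Agent.SPN
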