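import Pool.Agent.SPN.Y0
import Pool.Agent.SPN.G4

set_option autoImplicit false

/-! Toolkit for the final step: sums of indices (`Rep`) and index sets (`Img`). -/

namespace Pool.Agent.SPN

open Finset Pointwise Pool.Agent.MP_8507d5_co

universe u

/-- `m` is a sum of `c` natural numbers satisfying `P`. -/
def Rep (P : ℕ → Prop) : ℕ → ℕ → Prop
  | 0, m => m = 0
  | (c + 1), m => ∃ m' s, Rep P c m' ∧ P s ∧ m = m' + s

theorem Rep.succ {P : ℕ → Prop} {c m s : ℕ} (h : Rep P c m) (hs : P s) : Rep P (c + 1) (m + s) :=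
  ⟨m, s, h, hs, rfl⟩

theorem rep_one {P : ℕ → Prop} {s : ℕ} (hs : P s) : Rep P 1 s :=
  ⟨0, s, rfl, hs, by omega⟩

theorem rep_two {P : ℕ → Prop} {s t : ℕ} (hs : P s) (ht : P t) : Rep P 2 (s + t) :=
  (rep_one hs).succ ht

theorem rep_three {P : ℕ → Prop} {s t r : ℕ} (hs : P s) (ht : P t) (hr : P r) :
    Rep P 3 (s + t + r) :=
  (rep_two hs ht).succ hr

theorem Rep.mono0 {P : ℕ → Prop} (h0 : P 0) {c c' m : ℕ} (h : Rep P c m) (hcc : c ≤ c') :
    Rep P c' m := by
  induction hcc with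
  | refl => exact h
  | step _ ih =>
    have := ih.succ h0
    rwa [add_zero] at this

theorem Rep.add {P : ℕ → Prop} {c d m m' : ℕ} (h : Rep P c m) (h' : Rep P d m') :
    Rep P (c + d) (m + m') := by
  induction d generalizing m' with
  | zero =>
    have : m' = 0 := h'
    rw [this]; exact h
  | succ d ih =>
    obtain ⟨m'', s, h1, h2, h3⟩ := h'
    have := (ih h1).succ h2
    rw [h3, ← add_assoc, ← add_assoc]
    exact this

theorem rep_const {P : ℕ → Prop} {s : ℕ} (hs : P s) (c : ℕ) : Rep P c (c * s) := by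
  induction c with
  | zero => exact by simp [Rep]
  | succ c ih =>
    have h1 := ih.succ hs
    have h2 : (c + 1) * s = c * s + s := by ring
    rw [h2]
    exact h1

theorem Rep.imp {P P' : ℕ → Prop} (hP : ∀ s, P s → P' s) {c m : ℕ} (h : Rep P c m) :
    Rep P' c m := by
  induction c generalizing m with
  | zero => exact h
  | succ c ih =>
    obtain ⟨m', s, h1, h2, h3⟩ := h
    exact ⟨m', s, ih h1, hP s h2, h3⟩

/-- Reflection. -/
theorem Rep.refl {P P' : ℕ → Prop} {M : ℕ} (hP : ∀ s, P s → s ≤ M ∧ P' (M - s)) {c m : ℕ}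
    (h : Rep P c m) : m ≤ c * M ∧ Rep P' c (c * M - m) := by
  induction c generalizing m with
  | zero =>
    have : m = 0 := h
    subst this
    exact ⟨by omega, by simp [Rep]⟩
  | succ c ih =>
    obtain ⟨m', s, h1, h2, h3⟩ := h
    obtain ⟨h4, h5⟩ := ih h1
    obtain ⟨h6, h7⟩ := hP s h2
    have h8 : (c + 1) * M = c * M + M := by ring
    refine ⟨by omega, ?_⟩
    have h9 := h5.succ h7
    have h10 : c * M - m' + (M - s) = (c + 1) * M - m := by omega
    rw [h10] at h9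
    exact h9

section

variable {G : Type u} [AddCommGroup G]

theorem rep_nf [DecidableEq G] {A : Finset G} {x g : G} {P : ℕ → Prop}
    (hA : ∀ s, P s → x + s • g ∈ A) {c m : ℕ} (h : Rep P c m) : c • x + m • g ∈ nf A c := by
  induction c generalizing m with
  | zero =>
    have : m = 0 := h
    subst this
    simp [nf]
  | succ c ih =>
    obtain ⟨m', s, h1, h2, rfl⟩ := h
    rw [nf, Finset.mem_add]
    refine ⟨_, ih h1, _, hA s h2, ?_⟩
    rw [succ_nsmul, add_nsmul]; abel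

/-- Spanning by indices. -/
theorem span_of_rep [Fintype G] [DecidableEq G] {A : Finset G} {x g : G} {P : ℕ → Prop} {h : ℕ}
    (hg : AddSubgroup.zmultiples g = ⊤) (hA : ∀ s, P s → x + s • g ∈ A)
    (hr : ∀ r < Fintype.card G, Rep P h r ∨ Rep P h (r + Fintype.card G)) : nf A h = univ := by
  rw [Finset.eq_univ_iff_forall]
  intro y
  obtain ⟨r, hr1, rfl⟩ := exists_idx hg (h • x) y
  rcases hr r hr1 with h1 | h1
  · exact rep_nf hA h1
  · have h2 := rep_nf hA h1
    rw [add_nsmul, card_nsmul_eq_zero, add_zero] at h2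
    exact h2

/-- `A = {x + s • g : P s}`. -/
def Img (A : Finset G) (x g : G) (P : ℕ → Prop) : Prop := ∀ y, y ∈ A ↔ ∃ s, P s ∧ y = x + s • g

theorem Img.congr {A : Finset G} {x g : G} {P P' : ℕ → Prop} (h : Img A x g P)
    (hP : ∀ s, P s ↔ P' s) : Img A x g P' := by
  intro y
  rw [h y]
  constructor
  · rintro ⟨s, h1, h2⟩; exact ⟨s, (hP s).mp h1, h2⟩
  · rintro ⟨s, h1, h2⟩; exact ⟨s, (hP s).mpr h1, h2⟩

/-- Shift. -/
theorem Img.shift {A : Finset G} {x g : G} {P P' : ℕ → Prop} (h : Img A x g P) (c : ℕ)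
    (h1 : ∀ s, P s → c ≤ s ∧ P' (s - c)) (h2 : ∀ s, P' s → P (s + c)) :
    Img A (x + c • g) g P' := by
  intro y
  rw [h y]
  constructor
  · rintro ⟨s, h3, rfl⟩
    obtain ⟨h4, h5⟩ := h1 s h3
    refine ⟨s - c, h5, ?_⟩
    rw [add_assoc, ← add_nsmul]
    congr 2; omega
  · rintro ⟨s, h3, rfl⟩
    refine ⟨s + c, h2 s h3, ?_⟩
    rw [add_assoc, ← add_nsmul, add_comm c s]

/-- Reflection. -/
theorem Img.refl {A : Finset G} {x g : G} {P P' : ℕ → Prop} (h : Img A x g P) (M : ℕ)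
    (h1 : ∀ s, P s → s ≤ M ∧ P' (M - s)) (h2 : ∀ s, P' s → s ≤ M ∧ P (M - s)) :
    Img A (x + M • g) (-g) P' := by
  intro y
  rw [h y]
  constructor
  · rintro ⟨s, h3, rfl⟩
    obtain ⟨h4, h5⟩ := h1 s h3
    refine ⟨M - s, h5, ?_⟩
    have : M • g = s • g + (M - s) • g := by rw [← add_nsmul]; congr 1; omega
    rw [this, neg_nsmul]; abel
  · rintro ⟨s, h3, rfl⟩
    obtain ⟨h4, h5⟩ := h2 s h3
    refine ⟨M - s, h5, ?_⟩
    have : M • g = (M - s) • g + s • g := by rw [← add_nsmul]; congr 1; omega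
    rw [this, neg_nsmul]; abel

theorem gen_neg {g : G} (hg : AddSubgroup.zmultiples g = ⊤) : AddSubgroup.zmultiples (-g) = ⊤ := by
  rw [AddSubgroup.zmultiples_neg, hg]

theorem Img.mem {A : Finset G} {x g : G} {P : ℕ → Prop} (h : Img A x g P) {s : ℕ} (hs : P s) :
    x + s • g ∈ A := (h _).mpr ⟨s, hs, rfl⟩

/-- A progression. -/
theorem Img.isAP [DecidableEq G] {A : Finset G} {x g : G} {k : ℕ}
    (hg : AddSubgroup.zmultiples g = ⊤) (hk : A.card = k) (h : Img A x g (fun s => s < k)) :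
    IsAP A := by
  refine ⟨x, g, hg, ?_⟩
  ext y
  rw [h y, Finset.mem_image]
  constructor
  · rintro ⟨s, h1, h2⟩; exact ⟨s, by rw [hk, Finset.mem_range]; exact h1, h2.symm⟩
  · rintro ⟨s, h1, h2⟩
    rw [hk, Finset.mem_range] at h1
    exact ⟨s, h1, h2.symm⟩

end

section

variable {G : Type u} [AddCommGroup G] [Fintype G] [DecidableEq G]

omit [DecidableEq G] in
theorem index_bot_card : (⊥ : AddSubgroup G).index = Fintype.card G := by
  rw [AddSubgroup.index_bot, Nat.card_eq_fintype_card]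

theorem IsAP.type {h : ℕ} {A : Finset G} (hE : Ext h A) (hA : IsAP A) :
    TypeAP h (A : Set G) := by
  obtain ⟨x, g, hg, h1⟩ := hA
  refine ⟨⊥, x, g, gen_bot_of hg, ?_⟩
  intro y
  rw [index_bot_card, kk_adm hE.hh (hE.adm.cases (dvd_refl _)), ← hE.card_eq, Finset.mem_coe]
  conv_lhs => rw [h1]
  rw [Finset.mem_image]
  constructor
  · rintro ⟨i, hi, rfl⟩
    exact ⟨i, Finset.mem_range.mp hi, by simp⟩
  · rintro ⟨i, hi, h2⟩
    rw [AddSubgroup.mem_bot, sub_eq_zero] at h2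
    exact ⟨i, Finset.mem_range.mpr hi, h2.symm⟩

/-- `{0} ∪ [2, k]`, `n = h k`: type `TWO` with trivial subgroups. -/
theorem Img.two {h k : ℕ} {A : Finset G} {x g : G} (hg : AddSubgroup.zmultiples g = ⊤)
    (hn : Fintype.card G = h * k) (hk : 1 ≤ k)
    (hA : Img A x g (fun s => s = 0 ∨ (2 ≤ s ∧ s ≤ k))) : TypeTwo h (A : Set G) := by
  refine ⟨⊥, ⊥, k, x + k • g, -g, x + k • g + (k - 1) • (-g), x + k • g + k • (-g), le_refl _, hk,
    gen_bot_of (gen_neg hg), ?_, ?_, ?_, ?_⟩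
  · rw [index_bot_card, hn]
  · rw [sub_self]; exact AddSubgroup.zero_mem _
  · rw [sub_self]; exact AddSubgroup.zero_mem _
  · intro y
    rw [Finset.mem_coe, hA y]
    constructor
    · rintro ⟨s, h1, rfl⟩
      rcases h1 with h1 | h1
      · right; right
        subst h1
        rw [AddSubgroup.mem_bot, neg_nsmul]; simp
      · left
        refine ⟨k - s, by omega, ?_⟩
        have : k • g = s • g + (k - s) • g := by rw [← add_nsmul]; congr 1; omega
        rw [AddSubgroup.mem_bot, neg_nsmul, this]; abel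
    · rintro (⟨i, hi, h1⟩ | h1 | h1)
      · rw [AddSubgroup.mem_bot, sub_eq_zero] at h1
        refine ⟨k - i, Or.inr (by omega), ?_⟩
        have : k • g = (k - i) • g + i • g := by rw [← add_nsmul]; congr 1; omega
        rw [h1, neg_nsmul, this]; abel
      · exact absurd h1.1 h1.2
      · rw [AddSubgroup.mem_bot, sub_eq_zero] at h1
        refine ⟨0, Or.inl rfl, ?_⟩
        rw [h1, neg_nsmul]; simp

omit [DecidableEq G] in
theorem Img.spor {h k : ℕ} {A : Finset G} {x g : G} (hg : AddSubgroup.zmultiples g = ⊤)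
    (hn : Fintype.card G = h * k + 1) {P : ℕ → Prop} (hA : Img A x g P) {S : Set ℕ}
    (hS : SporSet h k S) (hPS : ∀ s, P s ↔ s ∈ S) : TypeSpor h (A : Set G) := by
  refine ⟨x, g, k, S, gen_bot_of hg, by rw [Nat.card_eq_fintype_card, hn], hS, ?_⟩
  intro y
  rw [Finset.mem_coe, hA y]
  constructor
  · rintro ⟨s, h1, h2⟩; exact ⟨s, (hPS s).mp h1, h2⟩
  · rintro ⟨s, h1, h2⟩; exact ⟨s, (hPS s).mpr h1, h2⟩

end

end Pool.Agent.SPN
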