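import Pool.Agent.SPN.F0

set_option autoImplicit false

namespace Pool.Agent.SPN

private theorem f1a_pair {P : ℕ → Prop} {s t m : ℕ} (hs : P s) (ht : P t) (h : m = s + t) :
    Rep P 2 m := by
  rw [h]; exact rep_two hs ht

private theorem f1a_trip {P : ℕ → Prop} {s t r m : ℕ} (hs : P s) (ht : P t) (hr : P r)
    (h : m = s + t + r) : Rep P 3 m := by
  rw [h]; exact rep_three hs ht hr

private theorem f1a_two {k i j : ℕ} (hk : 4 ≤ k) (hi : 1 ≤ i) (hij : i < j) (hj : j ≤ k)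
    {m : ℕ} (h4 : 4 ≤ m) (hm : m + 2 ≤ 2 * k) :
    Rep (fun s => s ≤ k + 1 ∧ s ≠ i ∧ s ≠ j) 2 m := by
  rcases Nat.lt_or_ge (k + 1) m with h | h
  · have h1 : ((m - k - 1 ≠ i ∧ m - k - 1 ≠ j) ∨ (m - k ≠ i ∧ m - k ≠ j ∧ k ≠ i ∧ k ≠ j)) ∨
        (m - k + 1 ≠ i ∧ m - k + 1 ≠ j ∧ k - 1 ≠ i ∧ k - 1 ≠ j) := by omega
    rcases h1 with (h1 | h1) | h1
    · exact f1a_pair (s := m - k - 1) (t := k + 1) ⟨by omega, h1.1, h1.2⟩
        ⟨by omega, by omega, by omega⟩ (by omega)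
    · exact f1a_pair (s := m - k) (t := k) ⟨by omega, h1.1, h1.2.1⟩
        ⟨by omega, h1.2.2.1, h1.2.2.2⟩ (by omega)
    · exact f1a_pair (s := m - k + 1) (t := k - 1) ⟨by omega, h1.1, h1.2.1⟩
        ⟨by omega, h1.2.2.1, h1.2.2.2⟩ (by omega)
  · have h1 : ((m ≠ i ∧ m ≠ j) ∨ (1 ≠ i ∧ 1 ≠ j ∧ m - 1 ≠ i ∧ m - 1 ≠ j)) ∨
        (2 ≠ i ∧ 2 ≠ j ∧ m - 2 ≠ i ∧ m - 2 ≠ j) := by omega
    rcases h1 with (h1 | h1) | h1
    · exact f1a_pair (s := 0) (t := m) ⟨by omega, by omega, by omega⟩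
        ⟨by omega, h1.1, h1.2⟩ (by omega)
    · exact f1a_pair (s := 1) (t := m - 1) ⟨by omega, h1.1, h1.2.1⟩
        ⟨by omega, h1.2.2.1, h1.2.2.2⟩ (by omega)
    · exact f1a_pair (s := 2) (t := m - 2) ⟨by omega, h1.1, h1.2.1⟩
        ⟨by omega, h1.2.2.1, h1.2.2.2⟩ (by omega)

private theorem f1a_three {k i j : ℕ} (hk : 4 ≤ k) (hi : 1 ≤ i) (hij : i < j) (hj : j ≤ k)
    {m : ℕ} (h4 : 4 ≤ m) (hm : m + 1 ≤ 3 * k) :
    Rep (fun s => s ≤ k + 1 ∧ s ≠ i ∧ s ≠ j) 3 m := by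
  rcases Nat.lt_or_ge (2 * k) (m + 2) with h | h
  · rcases Nat.lt_or_ge m (k + 5) with h' | h'
    · have h1 : (k = 4 ∧ m = 7) ∨ (k = 4 ∧ m = 8) ∨ (k = 5 ∧ m = 9) := by omega
      rcases h1 with ⟨rfl, rfl⟩ | ⟨rfl, rfl⟩ | ⟨rfl, rfl⟩
      · have h2 : (2 ≠ i ∧ 2 ≠ j) ∨ (1 ≠ i ∧ 1 ≠ j) ∨ (4 ≠ i ∧ 4 ≠ j ∧ 3 ≠ i ∧ 3 ≠ j) := by omega
        rcases h2 with h2 | h2 | h2
        · exact f1a_trip (s := 5) (t := 2) (r := 0) ⟨by omega, by omega, by omega⟩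
            ⟨by omega, h2.1, h2.2⟩ ⟨by omega, by omega, by omega⟩ rfl
        · exact f1a_trip (s := 5) (t := 1) (r := 1) ⟨by omega, by omega, by omega⟩
            ⟨by omega, h2.1, h2.2⟩ ⟨by omega, h2.1, h2.2⟩ rfl
        · exact f1a_trip (s := 4) (t := 3) (r := 0) ⟨by omega, h2.1, h2.2.1⟩
            ⟨by omega, h2.2.2.1, h2.2.2.2⟩ ⟨by omega, by omega, by omega⟩ rfl
      · have h2 : (3 ≠ i ∧ 3 ≠ j) ∨ (4 ≠ i ∧ 4 ≠ j) ∨ (2 ≠ i ∧ 2 ≠ j ∧ 1 ≠ i ∧ 1 ≠ j) := by omega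
        rcases h2 with h2 | h2 | h2
        · exact f1a_trip (s := 5) (t := 3) (r := 0) ⟨by omega, by omega, by omega⟩
            ⟨by omega, h2.1, h2.2⟩ ⟨by omega, by omega, by omega⟩ rfl
        · exact f1a_trip (s := 4) (t := 4) (r := 0) ⟨by omega, h2.1, h2.2⟩
            ⟨by omega, h2.1, h2.2⟩ ⟨by omega, by omega, by omega⟩ rfl
        · exact f1a_trip (s := 5) (t := 2) (r := 1) ⟨by omega, by omega, by omega⟩
            ⟨by omega, h2.1, h2.2.1⟩ ⟨by omega, h2.2.2.1, h2.2.2.2⟩ rfl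
      · have h2 : (3 ≠ i ∧ 3 ≠ j) ∨ (5 ≠ i ∧ 5 ≠ j ∧ 4 ≠ i ∧ 4 ≠ j) ∨
            (2 ≠ i ∧ 2 ≠ j ∧ 1 ≠ i ∧ 1 ≠ j) := by omega
        rcases h2 with h2 | h2 | h2
        · exact f1a_trip (s := 6) (t := 3) (r := 0) ⟨by omega, by omega, by omega⟩
            ⟨by omega, h2.1, h2.2⟩ ⟨by omega, by omega, by omega⟩ rfl
        · exact f1a_trip (s := 5) (t := 4) (r := 0) ⟨by omega, h2.1, h2.2.1⟩
            ⟨by omega, h2.2.2.1, h2.2.2.2⟩ ⟨by omega, by omega, by omega⟩ rfl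
        · exact f1a_trip (s := 6) (t := 2) (r := 1) ⟨by omega, by omega, by omega⟩
            ⟨by omega, h2.1, h2.2.1⟩ ⟨by omega, h2.2.2.1, h2.2.2.2⟩ rfl
    · have h1 := (f1a_two hk hi hij hj (m := m - (k + 1)) (by omega) (by omega)).succ
        (s := k + 1) ⟨le_refl _, by omega, by omega⟩
      rwa [Nat.sub_add_cancel (by omega)] at h1
  · exact (f1a_two hk hi hij hj h4 h).mono0 ⟨by omega, by omega, by omega⟩ (by omega)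

/-- **Row F1a.** The middle of the `c`-fold sumset of `[0, k+1] \ {i, j}`, `1 ≤ i < j ≤ k`, `k ≥ 4`,
`c ≥ 3`. `P s` is `s ≤ k + 1 ∧ s ≠ i ∧ s ≠ j`.
PROOF.
(1) `Rep P 2 m` for `4 ≤ m ≤ 2k - 2`. If `m ≤ k + 1`: the three unordered pairs `{0, m}`,
`{1, m-1}`, `{2, m-2}` are disjoint (`m ≥ 4`; for `m = 4` the third one is `{2, 2}`) and inside
`[0, k+1]`; each of `i, j` hits at most one of them; so one of the three pairs works
(`rep_two`; `by_cases`/`omega`). If `m > k + 1`: same with the pairs `{m-k-1, k+1}`, `{m-k, k}`,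
`{m-k+1, k-1}` (`m - k + 1 ≤ k - 1`).
(2) `Rep P 3 m` for `4 ≤ m ≤ 3k - 1`. `P 0` and `P (k+1)` hold. `m ≤ 2k - 2`: (1) and `Rep.mono0`.
`m ≥ k + 5`: `m - (k+1) ≥ 4` and `≤ 2k - 2`, use (1) and `Rep.succ` with `k + 1`. If `k ≥ 6` this is
everything. `k = 4`, `m = 7, 8` (and `k = 5`, `m = 9`) remain. `k = 4`, `P = {0, a, b, 5}` with
`a < b` in `{1,..,4}`: `7 = 5+2+0` if `2 ∈ P`, `= 5+1+1` if `1 ∈ P`, else `P = {0,3,4,5}`,
`7 = 4+3+0`; `8 = 5+3+0` if `3 ∈ P`, `= 4+4+0` if `4 ∈ P`, else `P = {0,1,2,5}`, `8 = 5+2+1`.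
`k = 5`, `9`: `9 = 6+3+0` if `3 ∈ P`; otherwise `{i, j}` contains `3` and one more: `9 = 5+4+0` or
`9 = 6+2+1`.
(3) General `c ≥ 3`: induction on `c` (`Nat.le_induction`): for `c + 1`: if `m ≤ c (k+1) - 4` use the
induction hypothesis and add `0`; otherwise `m - (k+1) ≥ c (k+1) - 3 - (k+1) ≥ 4` since
`c ≥ 3, k ≥ 4`; add `k + 1`. (Treat `c * (k+1)` as an atom, `(c+1)*(k+1) = c*(k+1) + (k+1)`,
`3*(k+1) ≤ c*(k+1)`.) -/
theorem mid {k i j : ℕ} (hk : 4 ≤ k) (hi : 1 ≤ i) (hij : i < j) (hj : j ≤ k) {c : ℕ} (hc : 3 ≤ c)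
    {m : ℕ} (h4 : 4 ≤ m) (hm : m + 4 ≤ c * (k + 1)) :
    Rep (fun s => s ≤ k + 1 ∧ s ≠ i ∧ s ≠ j) c m := by
  induction c, hc using Nat.le_induction generalizing m with
  | base => exact f1a_three hk hi hij hj h4 (by omega)
  | succ c hc ih =>
    have h1 : (c + 1) * (k + 1) = c * (k + 1) + (k + 1) := by ring
    have h2 : 3 * (k + 1) ≤ c * (k + 1) := Nat.mul_le_mul_right _ hc
    rw [h1] at hm
    rcases Nat.lt_or_ge (c * (k + 1)) (m + 4) with h | h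
    · have h3 := (ih (m := m - (k + 1)) (by omega) (by omega)).succ
        (s := k + 1) ⟨le_refl _, by omega, by omega⟩
      rwa [Nat.sub_add_cancel (by omega)] at h3
    · exact (ih h4 h).mono0 ⟨by omega, by omega, by omega⟩ (by omega)

end Pool.Agent.SPN
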