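import Pool.Agent.SPN.F0

set_option autoImplicit false

namespace Pool.Agent.SPN

/-- **Row F1b (1).** The bottom. `P s` is `s ≤ k + 1 ∧ s ≠ i ∧ s ≠ j`, `P 0` holds, so by
`Rep.mono0` it is enough to have `Rep P 3 m`. PROOF: `m = 0`: zeros. If `i ≥ 2`: `P 1`;
`m = 1, 1+1, 1+1+1`. If `i = 1`: `m = 2`: `j ≠ 2`, `P 2`; `m = 3`: `j ≠ 3`, `P 3`. -/
theorem bot {k i j : ℕ} (hk : 4 ≤ k) (hi : 1 ≤ i) (hij : i < j) (hj : j ≤ k) {c : ℕ} (hc : 3 ≤ c)
    {m : ℕ} (hm : m ≤ 3) (h1 : ¬ (m = 1 ∧ i = 1)) (h2 : ¬ (m = 2 ∧ i = 1 ∧ j = 2))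
    (h3 : ¬ (m = 3 ∧ i = 1 ∧ j = 3)) :
    Rep (fun s => s ≤ k + 1 ∧ s ≠ i ∧ s ≠ j) c m := by
  obtain ⟨P, hP⟩ : ∃ P : ℕ → Prop, P = fun s => s ≤ k + 1 ∧ s ≠ i ∧ s ≠ j := ⟨_, rfl⟩
  have hP' : ∀ s, s ≤ k + 1 → s ≠ i → s ≠ j → P s := fun s a b c => by
    rw [hP]; exact ⟨a, b, c⟩
  rw [← hP]
  have p0 : P 0 := hP' 0 (Nat.zero_le _) (by omega) (by omega)
  refine Rep.mono0 p0 ?_ hc
  by_cases hi2 : 2 ≤ i
  · have p1 : P 1 := hP' 1 (by omega) (by omega) (by omega)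
    rcases (show m = 0 ∨ m = 1 ∨ m = 2 ∨ m = 3 by omega) with h | h | h | h
    · have := rep_three p0 p0 p0
      rw [h]; exact this
    · have := rep_three p1 p0 p0
      rw [h]; exact this
    · have := rep_three p1 p1 p0
      rw [h]; exact this
    · have := rep_three p1 p1 p1
      rw [h]; exact this
  · have hi1 : i = 1 := by omega
    rcases (show m = 0 ∨ m = 1 ∨ m = 2 ∨ m = 3 by omega) with h | h | h | h
    · have := rep_three p0 p0 p0
      rw [h]; exact this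
    · exact absurd ⟨h, hi1⟩ h1
    · have hj2 : j ≠ 2 := fun h' => h2 ⟨h, hi1, h'⟩
      have p2 : P 2 := hP' 2 (by omega) (by omega) (fun h' => hj2 h'.symm)
      have := rep_three p2 p0 p0
      rw [h]; exact this
    · have hj3 : j ≠ 3 := fun h' => h3 ⟨h, hi1, h'⟩
      have p3 : P 3 := hP' 3 (by omega) (by omega) (fun h' => hj3 h'.symm)
      have := rep_three p3 p0 p0
      rw [h]; exact this

/-- **Row F1b (2).** The top, by reflection. PROOF: `bot` for `i' = k + 1 - j`, `j' = k + 1 - i` gives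
`Rep P' c m`; `Rep.refl` with `M = k + 1`. -/
theorem top {k i j : ℕ} (hk : 4 ≤ k) (hi : 1 ≤ i) (hij : i < j) (hj : j ≤ k) {c : ℕ} (hc : 3 ≤ c)
    {m : ℕ} (hm : m ≤ 3) (h1 : ¬ (m = 1 ∧ j = k)) (h2 : ¬ (m = 2 ∧ j = k ∧ i + 1 = k))
    (h3 : ¬ (m = 3 ∧ j = k ∧ i + 2 = k)) :
    Rep (fun s => s ≤ k + 1 ∧ s ≠ i ∧ s ≠ j) c (c * (k + 1) - m) := by
  have h := bot (k := k) (i := k + 1 - j) (j := k + 1 - i) hk (by omega) (by omega) (by omega)
    hc hm (by omega) (by omega) (by omega)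
  exact (Rep.refl (P' := fun s => s ≤ k + 1 ∧ s ≠ i ∧ s ≠ j) (M := k + 1) (by
    intro s hs
    obtain ⟨a1, a2, a3⟩ := hs
    refine ⟨a1, ?_, ?_, ?_⟩
    · omega
    · omega
    · omega) h).2

/-- **Row F1b (3).** One hole in `[0, k]`, `2 ≤ j ≤ k - 2`: everything up to `c k`.
PROOF. `P s` is `s ≤ k ∧ s ≠ j`. `c = 2`: `m ≤ k`, `m ≠ j`: `m + 0`; `m = j`: `(j-1) + 1`;
`m > k`, `m - k ≠ j`: `(m-k) + k`; `m - k = j`: `(j+1) + (k-1)`. `c + 1`: `m ≤ c k`: add `0`;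
else `m - k ≤ c k`: add `k`. -/
theorem one_hole {k j : ℕ} (hj : 2 ≤ j) (hjk : j + 2 ≤ k) {c : ℕ} (hc : 2 ≤ c) {m : ℕ}
    (hm : m ≤ c * k) : Rep (fun s => s ≤ k ∧ s ≠ j) c m := by
  obtain ⟨P, hP⟩ : ∃ P : ℕ → Prop, P = fun s => s ≤ k ∧ s ≠ j := ⟨_, rfl⟩
  have hP' : ∀ s, s ≤ k → s ≠ j → P s := fun s a b => by
    rw [hP]; exact ⟨a, b⟩
  rw [← hP]
  have p0 : P 0 := hP' 0 (Nat.zero_le _) (by omega)
  have pk : P k := hP' k (le_refl _) (by omega)
  induction c, hc using Nat.le_induction generalizing m with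
  | base =>
    by_cases h1 : m ≤ k
    · by_cases h2 : m = j
      · have q1 : P (j - 1) := hP' _ (by omega) (by omega)
        have q2 : P 1 := hP' _ (by omega) (by omega)
        have h3 := rep_two q1 q2
        have h4 : j - 1 + 1 = m := by omega
        rwa [h4] at h3
      · have q1 : P m := hP' _ h1 h2
        have h3 := rep_two q1 p0
        rwa [add_zero] at h3
    · by_cases h2 : m - k = j
      · have q1 : P (j + 1) := hP' _ (by omega) (by omega)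
        have q2 : P (k - 1) := hP' _ (by omega) (by omega)
        have h3 := rep_two q1 q2
        have h4 : j + 1 + (k - 1) = m := by omega
        rwa [h4] at h3
      · have q1 : P (m - k) := hP' _ (by omega) h2
        have h3 := rep_two q1 pk
        have h4 : m - k + k = m := by omega
        rwa [h4] at h3
  | succ c hc ih =>
    by_cases h1 : m ≤ c * k
    · have h3 := (ih h1).succ p0
      rwa [add_zero] at h3
    · have h5 : (c + 1) * k = c * k + k := by ring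
      have h6 : k ≤ c * k := Nat.le_mul_of_pos_left k (by omega)
      have h3 := (ih (m := m - k) (by omega)).succ pk
      have h4 : m - k + k = m := by omega
      rwa [h4] at h3

/-- **Row F1b (4).** `{0, 1, 4}`: everything up to `4 c - 6`, in particular up to `3 c` for `c ≥ 6`.
PROOF. `m = 4 b + a`, `a = m % 4 ≤ 3`, `b = m / 4`. `m ≤ 3 c ≤ 4 c - 6`: `b ≤ c - 2`, and if
`b = c - 2` then `a ≤ 2`, so `a + b ≤ c`. `rep_const` for `4` (`b` times) and for `1` (`a` times),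
`Rep.add`, `Rep.mono0`. -/
theorem four_pt {c : ℕ} (hc : 6 ≤ c) {m : ℕ} (hm : m ≤ 3 * c) :
    Rep (fun s => s = 0 ∨ s = 1 ∨ s = 4) c m := by
  obtain ⟨P, hP⟩ : ∃ P : ℕ → Prop, P = fun s => s = 0 ∨ s = 1 ∨ s = 4 := ⟨_, rfl⟩
  have p0 : P 0 := by rw [hP]; exact Or.inl rfl
  have p1 : P 1 := by rw [hP]; exact Or.inr (Or.inl rfl)
  have p4 : P 4 := by rw [hP]; exact Or.inr (Or.inr rfl)
  rw [← hP]
  have h1 := (rep_const p4 (m / 4)).add (rep_const p1 (m % 4))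
  have h2 : m / 4 * 4 + m % 4 * 1 = m := by omega
  rw [h2] at h1
  exact Rep.mono0 p0 h1 (by omega)

end Pool.Agent.SPN
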