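import Pool.Agent.SPN.F1a
import Pool.Agent.SPN.F1b

set_option autoImplicit false

namespace Pool.Agent.SPN

/-- **Row F1c.** Two interior holes. `P s` is `s ≤ k + 1 ∧ s ≠ i ∧ s ≠ j`, `M := h (k+1) = h k + h`.
PROOF. Suppose we are not in the exceptional case; let `r < n`.
* `4 ≤ r ≤ M - 4`: `mid`.
* `r ≤ 3`: if `bot` applies, done. Otherwise `i = 1` and (`r = 1`, or `r = 2, j = 2`, or `r = 3,
  j = 3`). Look at `r + n ≥ 4` (as `n ≥ h k ≥ 12`). If `r + n ≤ M - 4`: `mid`. If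
  `M - 4 < r + n ≤ M`: `m := M - (r + n) ≤ 3` and `r + n = M - m`: `top` applies unless `j = k` and
  (`m = 1`, or `m = 2, i = k-1`, or `m = 3, i = k-2`); as `i = 1`, `k ≥ 4`, only `m = 1`, `j = k`
  is left; then `j = k ≥ 4` excludes `r = 2, 3`, so `r = 1`, `1 = m = h k + h - 1 - n`, so
  `h = 3, n = 3k + 1` (`h = 2` impossible): exceptional with `i = 1, j = k`. If `r + n > M`: as
  `n ≤ h k + 1`, `r ≥ h`, so `r = 3 = h`, `n = 3k + 1`, `i = 1, j = 3`: exceptional.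
* `r ≥ 4`, `r > M - 4`: `r ≤ n - 1 ≤ h k`, so `h = 3`, `n = 3k + 1`, `r = 3k = M - 3`: `top` with
  `m = 3` applies unless `j = k`, `i = k - 2`: exceptional.
(Write `h * (k + 1) = h * k + h` and generalize `h * k`.) -/
theorem interior {h k n i j : ℕ} (hh : 3 ≤ h) (hk : 4 ≤ k) (hn : n = h * k ∨ n = h * k + 1)
    (hi : 1 ≤ i) (hij : i < j) (hj : j ≤ k)
    (hex : ¬ (h = 3 ∧ n = 3 * k + 1 ∧ ((i = 1 ∧ j = 3) ∨ (i = 1 ∧ j = k) ∨ (i + 2 = k ∧ j = k)))) :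
    ∀ r < n, Rep (fun s => s ≤ k + 1 ∧ s ≠ i ∧ s ≠ j) h r ∨
      Rep (fun s => s ≤ k + 1 ∧ s ≠ i ∧ s ≠ j) h (r + n) := by
  intro r hr
  by_contra hcon
  rw [not_or] at hcon
  obtain ⟨hL, hR⟩ := hcon
  have hM : h * (k + 1) = h * k + h := by ring
  have mL : ¬ (4 ≤ r ∧ r + 4 ≤ h * k + h) := fun hx =>
    hL (mid hk hi hij hj hh hx.1 (by rw [hM]; exact hx.2))
  have mR : ¬ (4 ≤ r + n ∧ r + n + 4 ≤ h * k + h) := fun hx =>
    hR (mid hk hi hij hj hh hx.1 (by rw [hM]; exact hx.2))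
  have bL : ¬ (r ≤ 3 ∧ ¬ (r = 1 ∧ i = 1) ∧ ¬ (r = 2 ∧ i = 1 ∧ j = 2) ∧
      ¬ (r = 3 ∧ i = 1 ∧ j = 3)) := fun hx =>
    hL (bot hk hi hij hj hh hx.1 hx.2.1 hx.2.2.1 hx.2.2.2)
  have tL : ∀ m, r = h * k + h - m → m ≤ 3 → ¬ (m = 1 ∧ j = k) → ¬ (m = 2 ∧ j = k ∧ i + 1 = k) →
      ¬ (m = 3 ∧ j = k ∧ i + 2 = k) → False := by
    intro m hm h3 h4 h5 h6
    apply hL
    rw [hm, ← hM]
    exact top hk hi hij hj hh h3 h4 h5 h6
  have tR : ∀ m, r + n = h * k + h - m → m ≤ 3 → ¬ (m = 1 ∧ j = k) →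
      ¬ (m = 2 ∧ j = k ∧ i + 1 = k) → ¬ (m = 3 ∧ j = k ∧ i + 2 = k) → False := by
    intro m hm h3 h4 h5 h6
    apply hR
    rw [hm, ← hM]
    exact top hk hi hij hj hh h3 h4 h5 h6
  have hH1 : 3 * k ≤ h * k := Nat.mul_le_mul_right k hh
  have hH2 : 4 * h ≤ h * k := by rw [mul_comm 4 h]; exact Nat.mul_le_mul_left h hk
  have hH3 : h = 3 → h * k = 3 * k := fun h3 => by rw [h3]
  clear hL hR hM
  obtain ⟨H, hHd⟩ : ∃ H, h * k = H := ⟨_, rfl⟩
  simp only [hHd] at hn mL mR tL tR hH1 hH2 hH3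
  by_cases hr4 : 4 ≤ r
  · have h1 : ¬ (r + 4 ≤ H + h) := fun hx => mL ⟨hr4, hx⟩
    have h3 : h = 3 := by omega
    have h4 : r = H := by omega
    have h5 := hH3 h3
    refine tL 3 (by omega) (by omega) (by omega) (by omega) (by omega)
  · have hr3 : r ≤ 3 := by omega
    have hb : i = 1 ∧ (r = 1 ∨ (r = 2 ∧ j = 2) ∨ (r = 3 ∧ j = 3)) := by
      by_contra hb
      exact bL ⟨hr3, by omega, by omega, by omega⟩
    obtain ⟨hi1, hb⟩ := hb
    by_cases hbig : H + h < r + n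
    · have h3 : h = 3 := by omega
      have h5 := hH3 h3
      omega
    · have h1 : ¬ (r + n + 4 ≤ H + h) := fun hx => mR ⟨by omega, hx⟩
      by_cases hjk : j = k
      · by_cases hm1 : H + h - (r + n) = 1
        · have h3 : h = 3 := by omega
          have h5 := hH3 h3
          omega
        · exact tR (H + h - (r + n)) (by omega) (by omega) (by omega) (by omega) (by omega)
      · exact tR (H + h - (r + n)) (by omega) (by omega) (by omega) (by omega) (by omega)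

end Pool.Agent.SPN
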