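import Pool.Agent.SPN.F0

set_option autoImplicit false

namespace Pool.Agent.SPN

open Finset Pointwise Pool.Agent.MP_8507d5_co

universe u

variable {G : Type u} [AddCommGroup G] [Fintype G] [DecidableEq G]

/-- **Row F4.** A set with `Cont A` has exactly two holes in `[0, |A| + 1]`.
PROOF. From `hc` take `x, g`. `S := (range (|A| + 2)).filter (fun s => x + s • g ∈ A)`;
`|S| = |A|` (`card_idx`-style: `s ↦ x + s • g` is injective on `[0, |A| + 1]` as `|A| + 2 ≤ n`
(`idx_inj`), with image `A` by `hc`). So `range (|A| + 2) \ S` has two elements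
(`Finset.card_eq_two`), name them `i < j`. Then `s ∈ S ↔ s ≤ |A| + 1 ∧ s ≠ i ∧ s ≠ j`. -/
theorem cont_holes {A : Finset G} (hc : Cont A) (hn : A.card + 2 ≤ Fintype.card G) :
    ∃ (x g : G) (i j : ℕ), AddSubgroup.zmultiples g = ⊤ ∧ i < j ∧ j ≤ A.card + 1 ∧
      Img A x g (fun s => s ≤ A.card + 1 ∧ s ≠ i ∧ s ≠ j) := by
  obtain ⟨x, g, hg, hc⟩ := hc
  set S := (range (A.card + 2)).filter (fun s => x + s • g ∈ A) with hS
  have hSm : ∀ s, s ∈ S ↔ s < A.card + 2 ∧ x + s • g ∈ A := by
    intro s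
    rw [hS, mem_filter, mem_range]
  have hcard : A.card = S.card := by
    refine card_idx hg x A S (fun s hs => ?_) (fun s hs => ?_)
    · have := ((hSm s).1 hs).1
      omega
    · rw [hSm]
      constructor
      · intro h1
        obtain ⟨j, hj, hj2⟩ := hc _ h1
        have h2 : s = j := idx_inj hg hs (by omega) hj2
        exact ⟨by omega, h1⟩
      · exact fun h1 => h1.2
  have hT : (range (A.card + 2) \ S).card = 2 := by
    rw [card_sdiff_of_subset (filter_subset _ _), card_range, ← hcard]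
    omega
  have key : ∀ i j : ℕ, range (A.card + 2) \ S = {i, j} → i < j →
      ∃ (x g : G) (i j : ℕ), AddSubgroup.zmultiples g = ⊤ ∧ i < j ∧ j ≤ A.card + 1 ∧
        Img A x g (fun s => s ≤ A.card + 1 ∧ s ≠ i ∧ s ≠ j) := by
    intro i j hij hlt
    have hm : ∀ s, (s < A.card + 2 ∧ s ∉ S) ↔ (s = i ∨ s = j) := by
      intro s
      rw [← mem_range, ← mem_sdiff, hij, mem_insert, mem_singleton]
    have hj : j < A.card + 2 := ((hm j).2 (Or.inr rfl)).1
    refine ⟨x, g, i, j, hg, hlt, by omega, ?_⟩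
    intro y
    constructor
    · intro hy
      obtain ⟨s, hs, rfl⟩ := hc y hy
      have hsS : s ∈ S := (hSm s).2 ⟨by omega, hy⟩
      refine ⟨s, ⟨hs, fun h1 => ?_, fun h1 => ?_⟩, rfl⟩
      · exact ((hm s).2 (Or.inl h1)).2 hsS
      · exact ((hm s).2 (Or.inr h1)).2 hsS
    · rintro ⟨s, ⟨h1, h2, h3⟩, rfl⟩
      by_contra hy
      have h4 : s ∉ S := fun h5 => hy ((hSm s).1 h5).2
      rcases (hm s).1 ⟨by omega, h4⟩ with h5 | h5
      · exact h2 h5
      · exact h3 h5
  obtain ⟨i, j, hne, hij⟩ := card_eq_two.1 hT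
  rcases lt_or_gt_of_ne hne with h1 | h1
  · exact key i j hij h1
  · refine key j i ?_ h1
    rw [hij, pair_comm]

/-- **Row F4 (2).** `|G| = 9`, `|A| = 3`, `A` thick: no two elements of `A` differ by `3 • g`.
PROOF. `N := zmultiples (3 • g)`, `F := {0, 3 • g, 6 • g}` (or `univ.filter (· ∈ N)`), `|F| = 3`
(`order_gen`: `g` has order `9`). With `y = x + 3 • g`: `F + A` is the union of `F + x`
(which contains `F + y`) and `F + z` for the third element `z` of `A`; so `|F + A| ≤ 6`, but
`hT` gives `3 + 3 + 1 ≤ |F + A|`. -/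
theorem thick_nine {A : Finset G} (hG : Fintype.card G = 9) (hA : A.card = 3) (hT : Thick A 1)
    {g x : G} (hg : AddSubgroup.zmultiples g = ⊤) (hx : x ∈ A) (hy : x + 3 • g ∈ A) : False := by
  classical
  have hord : addOrderOf g = 9 := by rw [order_gen hg, hG]
  have hord3 : addOrderOf (3 • g) = 3 := by
    rw [addOrderOf_nsmul_of_dvd (by norm_num) (by rw [hord]; norm_num), hord]
  set F : Finset G := univ.filter (fun y => y ∈ AddSubgroup.zmultiples (3 • g)) with hF
  have hFm : ∀ y, y ∈ F ↔ y ∈ AddSubgroup.zmultiples (3 • g) := by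
    intro y
    rw [hF, mem_filter]
    exact ⟨fun h => h.2, fun h => ⟨mem_univ _, h⟩⟩
  have hFc : F.card = 3 := by
    rw [← hord3, ← Nat.card_zmultiples]
    exact (Nat.subtype_card F hFm).symm
  have h1 := hT (AddSubgroup.zmultiples (3 • g)) F hFm (by omega) (by omega)
  have h3g : (3 • g : G) ≠ 0 := by
    intro h0
    rw [h0, addOrderOf_zero] at hord3
    omega
  have hxy : x + 3 • g ≠ x := fun h0 => h3g (by simpa using h0)
  have hc1 : ((A.erase x).erase (x + 3 • g)).card = 1 := by
    rw [card_erase_of_mem (mem_erase.2 ⟨hxy, hy⟩), card_erase_of_mem hx, hA]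
  obtain ⟨z, hz⟩ := card_eq_one.1 hc1
  have hsub : F + A ⊆ F.image (fun f => f + x) ∪ F.image (fun f => f + z) := by
    intro w hw
    obtain ⟨f, hf, a, ha, rfl⟩ := mem_add.1 hw
    rw [mem_union, mem_image, mem_image]
    by_cases hax : a = x
    · left
      exact ⟨f, hf, by rw [hax]⟩
    · by_cases hay : a = x + 3 • g
      · left
        refine ⟨f + 3 • g, ?_, ?_⟩
        · rw [hFm] at hf ⊢
          exact AddSubgroup.add_mem _ hf (AddSubgroup.mem_zmultiples _)
        · rw [hay]
          abel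
      · right
        have h2 : a ∈ (A.erase x).erase (x + 3 • g) := mem_erase.2 ⟨hay, mem_erase.2 ⟨hax, ha⟩⟩
        rw [hz, mem_singleton] at h2
        exact ⟨f, hf, by rw [h2]⟩
  have h2 := card_le_card hsub
  have h3 := card_union_le (F.image (fun f => f + x)) (F.image (fun f => f + z))
  have h4 : (F.image (fun f => f + x)).card ≤ F.card := card_image_le
  have h5 : (F.image (fun f => f + z)).card ≤ F.card := card_image_le
  omega

end Pool.Agent.SPN
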