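import Mathlib

set_option autoImplicit false

/-! Binary words with two or three runs. -/

namespace Pool.Agent.SPN

theorem seg {P : ℕ → Prop} {s e : ℕ} (hse : s < e) (hs : P s) (he : ¬ P (e - 1))
    (hno : ∀ i, s < i → i < e → P i → ¬ P (i - 1) → False) :
    ∃ p, 1 ≤ p ∧ s + p + 1 ≤ e ∧ ∀ i, s ≤ i → i < e → (P i ↔ i < s + p) := by
  classical
  have hex : ∃ p, ¬ P (s + p) := ⟨e - 1 - s, by
    have : s + (e - 1 - s) = e - 1 := by omega
    rw [this]; exact he⟩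
  set p := Nat.find hex with hp
  have h1 : ¬ P (s + p) := Nat.find_spec hex
  have h2 : ∀ j < p, P (s + j) := fun j hj => by
    have := Nat.find_min hex hj
    push Not at this
    exact this
  have hp1 : 1 ≤ p := by
    rcases Nat.eq_zero_or_pos p with h0 | h0
    · rw [h0, add_zero] at h1; exact absurd hs h1
    · exact h0
  have hpe : s + p + 1 ≤ e := by
    by_contra hcon
    have h3 := h2 (e - 1 - s) (by omega)
    have : s + (e - 1 - s) = e - 1 := by omega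
    rw [this] at h3
    exact he h3
  refine ⟨p, hp1, hpe, ?_⟩
  have h4 : ∀ j, s + p + j < e → ¬ P (s + p + j) := by
    intro j
    induction j with
    | zero => intro _; simpa using h1
    | succ j ih =>
      intro hj hP
      apply hno (s + p + (j + 1)) (by omega) hj hP
      have : s + p + (j + 1) - 1 = s + p + j := by omega
      rw [this]
      exact ih (by omega)
  intro i hi1 hi2
  constructor
  · intro hP
    by_contra hcon
    apply h4 (i - (s + p)) (by omega)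
    have : s + p + (i - (s + p)) = i := by omega
    rw [this]; exact hP
  · intro hi
    have := h2 (i - s) (by omega)
    have e1 : s + (i - s) = i := by omega
    rwa [e1] at this

theorem word2 {n : ℕ} {P : ℕ → Prop} (h0 : P 0) (hl : ¬ P (n - 1)) (d : ℕ)
    (hd0 : 0 < d) (hdn : d < n) (hPd : P d) (hPd' : ¬ P (d - 1))
    (huniq : ∀ i, 0 < i → i < n → P i → ¬ P (i - 1) → i = d) :
    ∃ p u r w : ℕ, 1 ≤ p ∧ 1 ≤ u ∧ 1 ≤ r ∧ 1 ≤ w ∧ p + u + r + w = n ∧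
      ∀ i < n, (P i ↔ i < p ∨ (p + u ≤ i ∧ i < p + u + r)) := by
  obtain ⟨p, hp1, hp2, hp3⟩ := seg hd0 h0 hPd' (fun i h1 h2 h3 h4 => by
    have := huniq i h1 (by omega) h3 h4; omega)
  obtain ⟨r, hr1, hr2, hr3⟩ := seg hdn hPd hl (fun i h1 h2 h3 h4 => by
    have := huniq i (by omega) h2 h3 h4; omega)
  refine ⟨p, d - p, r, n - d - r, hp1, by omega, hr1, by omega, by omega, ?_⟩
  intro i hi
  rcases Nat.lt_or_ge i d with h | h
  · rw [hp3 i (Nat.zero_le _) h]; omega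
  · rw [hr3 i h hi]; omega

theorem word3 {n : ℕ} {P : ℕ → Prop} (h0 : P 0) (hl : ¬ P (n - 1)) (d e : ℕ)
    (hd0 : 0 < d) (hde : d < e) (hen : e < n) (hPd : P d) (hPd' : ¬ P (d - 1))
    (hPe : P e) (hPe' : ¬ P (e - 1))
    (huniq : ∀ i, 0 < i → i < n → P i → ¬ P (i - 1) → i = d ∨ i = e) :
    ∃ p₁ u₁ p₂ u₂ p₃ u₃ : ℕ, 1 ≤ p₁ ∧ 1 ≤ u₁ ∧ 1 ≤ p₂ ∧ 1 ≤ u₂ ∧ 1 ≤ p₃ ∧ 1 ≤ u₃ ∧
      p₁ + u₁ + p₂ + u₂ + p₃ + u₃ = n ∧
      ∀ i < n, (P i ↔ i < p₁ ∨ (p₁ + u₁ ≤ i ∧ i < p₁ + u₁ + p₂) ∨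
        (p₁ + u₁ + p₂ + u₂ ≤ i ∧ i < p₁ + u₁ + p₂ + u₂ + p₃)) := by
  obtain ⟨p, hp1, hp2, hp3⟩ := seg hd0 h0 hPd' (fun i h1 h2 h3 h4 => by
    rcases huniq i h1 (by omega) h3 h4 with h | h <;> omega)
  obtain ⟨r, hr1, hr2, hr3⟩ := seg hde hPd hPe' (fun i h1 h2 h3 h4 => by
    rcases huniq i (by omega) (by omega) h3 h4 with h | h <;> omega)
  obtain ⟨q, hq1, hq2, hq3⟩ := seg hen hPe hl (fun i h1 h2 h3 h4 => by
    rcases huniq i (by omega) (by omega) h3 h4 with h | h <;> omega)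
  refine ⟨p, d - p, r, e - d - r, q, n - e - q, hp1, by omega, hr1, by omega, hq1, by omega,
    by omega, ?_⟩
  intro i hi
  rcases Nat.lt_or_ge i d with h | h
  · rw [hp3 i (Nat.zero_le _) h]; omega
  · rcases Nat.lt_or_ge i e with h' | h'
    · rw [hr3 i h h']; omega
    · rw [hq3 i h' hi]; omega

end Pool.Agent.SPN
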