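import Pool.Agent.SPN.C1
import Pool.Agent.SPN.G1

set_option autoImplicit false

/-! Indexing a cyclic group by a generator. -/

namespace Pool.Agent.SPN

open Finset Pointwise Pool.Agent.MP_8507d5_co

universe u

variable {G : Type u} [AddCommGroup G] [Fintype G] [DecidableEq G]

omit [DecidableEq G] in
theorem order_gen {g : G} (hg : AddSubgroup.zmultiples g = ⊤) : addOrderOf g = Fintype.card G := by
  rw [← Nat.card_zmultiples, hg, AddSubgroup.card_top, Nat.card_eq_fintype_card]

omit [DecidableEq G] in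
theorem exists_idx {g : G} (hg : AddSubgroup.zmultiples g = ⊤) (x y : G) :
    ∃ i : ℕ, i < Fintype.card G ∧ y = x + i • g := by
  have h1 : y - x ∈ AddSubgroup.zmultiples g := by rw [hg]; trivial
  obtain ⟨i, hi⟩ := mem_multiples_iff_mem_zmultiples.mpr h1
  change i • g = y - x at hi
  refine ⟨i % Fintype.card G, Nat.mod_lt _ Fintype.card_pos, ?_⟩
  rw [← order_gen hg, mod_addOrderOf_nsmul, hi]; abel

omit [DecidableEq G] in
theorem idx_inj {g : G} (hg : AddSubgroup.zmultiples g = ⊤) {x : G} {i j : ℕ}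
    (hi : i < Fintype.card G) (hj : j < Fintype.card G) (hij : x + i • g = x + j • g) : i = j := by
  have h1 : i • g = j • g := add_left_cancel hij
  have h2 := nsmul_inj_mod.mp h1
  rw [order_gen hg, Nat.mod_eq_of_lt hi, Nat.mod_eq_of_lt hj] at h2
  exact h2

omit [DecidableEq G] in
theorem idx_zmod {g : G} (hg : AddSubgroup.zmultiples g = ⊤) {z : ℤ} :
    z • g = 0 ↔ ∃ m : ℤ, z = m * (Fintype.card G : ℤ) := by
  rw [← order_gen hg]
  constructor
  · intro h
    obtain ⟨m, hm⟩ := addOrderOf_dvd_iff_zsmul_eq_zero.mpr h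
    exact ⟨m, by rw [hm]; ring⟩
  · rintro ⟨m, hm⟩
    apply addOrderOf_dvd_iff_zsmul_eq_zero.mp
    exact ⟨m, by rw [hm]; ring⟩

/-- Counting by indices. -/
theorem card_idx {g : G} (hg : AddSubgroup.zmultiples g = ⊤) (x : G) (A : Finset G) (S : Finset ℕ)
    (hS : ∀ i ∈ S, i < Fintype.card G) (h : ∀ i < Fintype.card G, (x + i • g ∈ A ↔ i ∈ S)) :
    A.card = S.card := by
  symm
  apply Finset.card_bij (fun i _ => x + i • g)
  · intro i hi; exact (h i (hS i hi)).mpr hi
  · intro i hi j hj hij; exact idx_inj hg (hS i hi) (hS j hj) hij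
  · intro y hy
    obtain ⟨i, hi, rfl⟩ := exists_idx hg x y
    exact ⟨i, (h i hi).mp hy, rfl⟩

/-- Lower bound for the cardinality by indices. -/
theorem card_ge_idx {g : G} (hg : AddSubgroup.zmultiples g = ⊤) (x : G) (B : Finset G)
    (Y : Finset ℕ) (hY : ∀ y ∈ Y, y < Fintype.card G ∧ x + y • g ∈ B) : Y.card ≤ B.card := by
  apply Finset.card_le_card_of_injOn (fun i => x + i • g)
  · intro i hi; exact (hY i hi).2
  · intro i hi j hj hij; exact idx_inj hg (hY i hi).1 (hY j hj).1 hij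

omit [Fintype G] in
/-- The number of starts. -/
theorem starts_card (A : Finset G) (g : G) (c : ℕ)
    (hc : (({0, g} : Finset G) + A).card = A.card + c) : (A \ (g +ᵥ A)).card = c := by
  rw [pair_add] at hc
  have h2 := Finset.card_sdiff_add_card A (g +ᵥ A)
  have h3 : (g +ᵥ A).card = A.card := Finset.card_vadd_finset _ _
  omega

omit [Fintype G] in
theorem mem_starts {A : Finset G} {g a : G} : a ∈ A \ (g +ᵥ A) ↔ a ∈ A ∧ a - g ∉ A := by
  rw [Finset.mem_sdiff, Finset.mem_vadd_finset]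
  constructor
  · rintro ⟨h1, h2⟩
    exact ⟨h1, fun h3 => h2 ⟨a - g, h3, by simp⟩⟩
  · rintro ⟨h1, h2⟩
    refine ⟨h1, ?_⟩
    rintro ⟨y, hy, hya⟩
    apply h2
    have : a - g = y := by rw [← hya]; simp
    rw [this]; exact hy

theorem two_arcs {A : Finset G} {g : G} (hg : AddSubgroup.zmultiples g = ⊤)
    (hc : (({0, g} : Finset G) + A).card = A.card + 2) :
    ∃ (x : G) (p u r w : ℕ), 1 ≤ p ∧ 1 ≤ u ∧ 1 ≤ r ∧ 1 ≤ w ∧ p + u + r + w = Fintype.card G ∧
      p + r = A.card ∧
      ∀ i < Fintype.card G, (x + i • g ∈ A ↔ i < p ∨ (p + u ≤ i ∧ i < p + u + r)) := by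
  set n := Fintype.card G with hn
  have hnpos : 0 < n := Fintype.card_pos
  obtain ⟨x, y, hxy, hS⟩ := Finset.card_eq_two.mp (starts_card A g 2 hc)
  have hx : x ∈ A ∧ x - g ∉ A := by rw [← mem_starts, hS]; simp
  have hy : y ∈ A ∧ y - g ∉ A := by rw [← mem_starts, hS]; simp
  have huniq : ∀ z, z ∈ A → z - g ∉ A → z = x ∨ z = y := by
    intro z h1 h2
    have : z ∈ A \ (g +ᵥ A) := mem_starts.mpr ⟨h1, h2⟩
    rw [hS] at this
    simpa using this
  obtain ⟨d, hd, hyd⟩ := exists_idx hg x y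
  have hd0 : 0 < d := by
    rcases Nat.eq_zero_or_pos d with h0 | h0
    · exfalso; rw [h0] at hyd; simp at hyd; exact hxy hyd.symm
    · exact h0
  have hng : n • g = 0 := card_nsmul_eq_zero
  have hpred : ∀ i, 0 < i → x + (i - 1) • g = x + i • g - g := by
    intro i hi
    obtain ⟨j, rfl⟩ : ∃ j, i = j + 1 := ⟨i - 1, by omega⟩
    rw [Nat.add_sub_cancel, succ_nsmul]; abel
  have hlast : x + (n - 1) • g = x - g := by
    rw [hpred n hnpos, hng, add_zero]
  obtain ⟨p, u, r, w, h1, h2, h3, h4, h5, h6⟩ := word2 (n := n) (P := fun i => x + i • g ∈ A)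
    (by simpa using hx.1) (by rw [hlast]; exact hx.2) d hd0 hd (by rw [← hyd]; exact hy.1)
    (by rw [hpred d hd0, ← hyd]; exact hy.2) (by
      intro i hi0 hin hP hP'
      rw [hpred i hi0] at hP'
      rcases huniq _ hP hP' with h | h
      · exfalso
        have : i = 0 := idx_inj hg (x := x) hin hnpos (by rw [h]; simp)
        omega
      · exact idx_inj hg (x := x) hin hd (by rw [h, hyd]))
  refine ⟨x, p, u, r, w, h1, h2, h3, h4, h5, ?_, h6⟩
  have hcard := card_idx hg x A (Finset.range p ∪ Finset.Ico (p + u) (p + u + r)) (by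
    intro i hi
    rw [Finset.mem_union, Finset.mem_range, Finset.mem_Ico] at hi
    omega) (by
    intro i hi
    rw [h6 i hi, Finset.mem_union, Finset.mem_range, Finset.mem_Ico])
  rw [hcard, Finset.card_union_of_disjoint, Finset.card_range, Nat.card_Ico]
  · omega
  · rw [Finset.disjoint_left]
    intro i hi hi'
    rw [Finset.mem_range] at hi
    rw [Finset.mem_Ico] at hi'
    omega

end Pool.Agent.SPN
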