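import Pool.Agent.SPN.G2

set_option autoImplicit false

namespace Pool.Agent.SPN

open Finset Pointwise Pool.Agent.MP_8507d5_co

universe u

variable {G : Type u} [AddCommGroup G] [Fintype G] [DecidableEq G]

theorem three_arcs {A : Finset G} {g : G} (hg : AddSubgroup.zmultiples g = ⊤)
    (hc : (({0, g} : Finset G) + A).card = A.card + 3) :
    ∃ (x : G) (p₁ u₁ p₂ u₂ p₃ u₃ : ℕ), 1 ≤ p₁ ∧ 1 ≤ u₁ ∧ 1 ≤ p₂ ∧ 1 ≤ u₂ ∧ 1 ≤ p₃ ∧ 1 ≤ u₃ ∧
      p₁ + u₁ + p₂ + u₂ + p₃ + u₃ = Fintype.card G ∧ p₁ + p₂ + p₃ = A.card ∧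
      ∀ i < Fintype.card G, (x + i • g ∈ A ↔ i < p₁ ∨ (p₁ + u₁ ≤ i ∧ i < p₁ + u₁ + p₂) ∨
        (p₁ + u₁ + p₂ + u₂ ≤ i ∧ i < p₁ + u₁ + p₂ + u₂ + p₃)) := by
  set n := Fintype.card G with hn
  have hnpos : 0 < n := Fintype.card_pos
  obtain ⟨x, y, z, hxy, hxz, hyz, hS⟩ := Finset.card_eq_three.mp (starts_card A g 3 hc)
  have hx : x ∈ A ∧ x - g ∉ A := by rw [← mem_starts, hS]; simp
  have hy : y ∈ A ∧ y - g ∉ A := by rw [← mem_starts, hS]; simp
  have hz : z ∈ A ∧ z - g ∉ A := by rw [← mem_starts, hS]; simp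
  have huniq : ∀ t, t ∈ A → t - g ∉ A → t = x ∨ t = y ∨ t = z := by
    intro t h1 h2
    have : t ∈ A \ (g +ᵥ A) := mem_starts.mpr ⟨h1, h2⟩
    rw [hS] at this
    simpa using this
  obtain ⟨d, hd, hyd⟩ := exists_idx hg x y
  obtain ⟨e, he, hze⟩ := exists_idx hg x z
  have hng : n • g = 0 := card_nsmul_eq_zero
  have hpred : ∀ i, 0 < i → x + (i - 1) • g = x + i • g - g := by
    intro i hi
    obtain ⟨j, rfl⟩ : ∃ j, i = j + 1 := ⟨i - 1, by omega⟩
    rw [Nat.add_sub_cancel, succ_nsmul]; abel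
  have hlast : x + (n - 1) • g = x - g := by
    rw [hpred n hnpos, hng, add_zero]
  -- the two other starts in increasing order
  obtain ⟨d', e', hd0, hde, hen, hPd, hPd', hPe, hPe', hu⟩ : ∃ d' e' : ℕ, 0 < d' ∧ d' < e' ∧ e' < n ∧
      x + d' • g ∈ A ∧ x + d' • g - g ∉ A ∧ x + e' • g ∈ A ∧ x + e' • g - g ∉ A ∧
      ∀ t, t ∈ A → t - g ∉ A → t = x ∨ t = x + d' • g ∨ t = x + e' • g := by
    have hd0 : d ≠ 0 := by
      intro h0; rw [h0] at hyd; simp at hyd; exact hxy hyd.symm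
    have he0 : e ≠ 0 := by
      intro h0; rw [h0] at hze; simp at hze; exact hxz hze.symm
    have hne : d ≠ e := by
      intro h0; rw [h0, ← hze] at hyd; exact hyz hyd
    rcases Nat.lt_or_gt_of_ne hne with h | h
    · refine ⟨d, e, by omega, h, he, ?_, ?_, ?_, ?_, ?_⟩
      · rw [← hyd]; exact hy.1
      · rw [← hyd]; exact hy.2
      · rw [← hze]; exact hz.1
      · rw [← hze]; exact hz.2
      · intro t h1 h2
        rw [← hyd, ← hze]; exact huniq t h1 h2
    · refine ⟨e, d, by omega, h, hd, ?_, ?_, ?_, ?_, ?_⟩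
      · rw [← hze]; exact hz.1
      · rw [← hze]; exact hz.2
      · rw [← hyd]; exact hy.1
      · rw [← hyd]; exact hy.2
      · intro t h1 h2
        rw [← hyd, ← hze]
        rcases huniq t h1 h2 with h | h | h
        · exact Or.inl h
        · exact Or.inr (Or.inr h)
        · exact Or.inr (Or.inl h)
  obtain ⟨p₁, u₁, p₂, u₂, p₃, u₃, h1, h2, h3, h4, h5, h6, h7, h8⟩ :=
    word3 (n := n) (P := fun i => x + i • g ∈ A)
    (by simpa using hx.1) (by rw [hlast]; exact hx.2) d' e' hd0 hde hen hPd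
    (by rw [hpred d' hd0]; exact hPd') hPe (by rw [hpred e' (by omega)]; exact hPe') (by
      intro i hi0 hin hP hP'
      rw [hpred i hi0] at hP'
      rcases hu _ hP hP' with h | h | h
      · exfalso
        have : i = 0 := idx_inj hg (x := x) hin hnpos (by rw [h]; simp)
        omega
      · exact Or.inl (idx_inj hg (x := x) hin (by omega) h)
      · exact Or.inr (idx_inj hg (x := x) hin (by omega) h))
  refine ⟨x, p₁, u₁, p₂, u₂, p₃, u₃, h1, h2, h3, h4, h5, h6, h7, ?_, h8⟩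
  have hcard := card_idx hg x A (Finset.range p₁ ∪ (Finset.Ico (p₁ + u₁) (p₁ + u₁ + p₂) ∪
      Finset.Ico (p₁ + u₁ + p₂ + u₂) (p₁ + u₁ + p₂ + u₂ + p₃))) (by
    intro i hi
    simp only [Finset.mem_union, Finset.mem_range, Finset.mem_Ico] at hi
    omega) (by
    intro i hi
    rw [h8 i hi]
    simp only [Finset.mem_union, Finset.mem_range, Finset.mem_Ico])
  rw [hcard, Finset.card_union_of_disjoint, Finset.card_union_of_disjoint, Finset.card_range,
    Nat.card_Ico, Nat.card_Ico]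
  · omega
  · rw [Finset.disjoint_left]
    intro i hi hi'
    rw [Finset.mem_Ico] at hi hi'
    omega
  · rw [Finset.disjoint_left]
    intro i hi hi'
    simp only [Finset.mem_union, Finset.mem_range, Finset.mem_Ico] at hi hi'
    omega

end Pool.Agent.SPN
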