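import Pool.Agent.SPN.G4

set_option autoImplicit false

namespace Pool.Agent.SPN

open Finset Pointwise Pool.Agent.MP_8507d5_co

universe u

variable {G : Type u} [AddCommGroup G] [Fintype G] [DecidableEq G]

/-- Two arcs data. -/
def TwoData (A : Finset G) (g x : G) (p u r w : ℕ) : Prop :=
  AddSubgroup.zmultiples g = ⊤ ∧ 1 ≤ p ∧ 1 ≤ u ∧ 1 ≤ r ∧ 1 ≤ w ∧
    p + u + r + w = Fintype.card G ∧ p + r = A.card ∧
    ∀ i < Fintype.card G, (x + i • g ∈ A ↔ i < p ∨ (p + u ≤ i ∧ i < p + u + r))

omit [DecidableEq G] in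
theorem TwoData.rot {A : Finset G} {g x : G} {p u r w : ℕ} (h : TwoData A g x p u r w) :
    TwoData A g (x + (p + u) • g) r w p u := by
  obtain ⟨hg, h1, h2, h3, h4, h5, h6, h7⟩ := h
  have hng : (Fintype.card G) • g = 0 := card_nsmul_eq_zero
  refine ⟨hg, h3, h4, h1, h2, by omega, by omega, ?_⟩
  intro i hi
  rcases Nat.lt_or_ge (p + u + i) (Fintype.card G) with h | h
  · have e : x + (p + u) • g + i • g = x + (p + u + i) • g := by
      rw [add_nsmul g (p + u) i]; abel
    rw [e, h7 _ h]; omega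
  · have e : x + (p + u) • g + i • g = x + (p + u + i - Fintype.card G) • g := by
      have e1 : (p + u) • g + i • g = (p + u + i - Fintype.card G) • g + (Fintype.card G) • g := by
        rw [← add_nsmul, ← add_nsmul]; congr 1; omega
      rw [hng, add_zero] at e1
      rw [add_assoc, e1]
    rw [e, h7 _ (by omega)]; omega

omit [DecidableEq G] in
theorem TwoData.refl {A : Finset G} {g x : G} {p u r w : ℕ} (h : TwoData A g x p u r w) :
    TwoData A (-g) (x + (p - 1) • g) p w r u := by
  obtain ⟨hg, h1, h2, h3, h4, h5, h6, h7⟩ := h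
  have hng : (Fintype.card G) • g = 0 := card_nsmul_eq_zero
  refine ⟨?_, h1, h4, h3, h2, by omega, by omega, ?_⟩
  · rw [AddSubgroup.zmultiples_neg, hg]
  intro i hi
  rcases Nat.lt_or_ge i p with h | h
  · have e : x + (p - 1) • g + i • (-g) = x + (p - 1 - i) • g := by
      have e1 : (p - 1) • g = (p - 1 - i) • g + i • g := by
        rw [← add_nsmul]; congr 1; omega
      rw [e1, smul_neg]; abel
    rw [e, h7 _ (by omega)]; omega
  · have e : x + (p - 1) • g + i • (-g) = x + (Fintype.card G + (p - 1) - i) • g := by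
      have e1 : (p - 1) • g = (Fintype.card G + (p - 1) - i) • g + i • g := by
        rw [← add_nsmul]
        have : Fintype.card G + (p - 1) - i + i = Fintype.card G + (p - 1) := by omega
        rw [this, add_nsmul, hng, zero_add]
      rw [e1, smul_neg]; abel
    rw [e, h7 _ (by omega)]; omega

/-- **Two arcs**: conclusion. -/
theorem two_main {A : Finset G} {g : G} (hg : AddSubgroup.zmultiples g = ⊤)
    (hc : (({0, g} : Finset G) + A).card = A.card + 2)
    (h3 : 3 * A.card ≤ Fintype.card G) (hodd : ¬ 2 ∣ Fintype.card G)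
    (h2A : (A + A).card ≤ 2 * A.card + 1) (h2A' : (A + A).card + 4 ≤ 3 * A.card) : Cont A := by
  obtain ⟨x, p, u, r, w, k1, k2, k3, k4, k5, k6, k7⟩ := two_arcs hg hc
  have h0 : TwoData A g x p u r w := ⟨hg, k1, k2, k3, k4, k5, k6, k7⟩
  have key : ∀ (g x : G) (p u r w : ℕ), TwoData A g x p u r w → r ≤ p → u ≤ w → Cont A := by
    rintro g x p u r w ⟨hg, k1, k2, k3, k4, k5, k6, k7⟩ hrp huw
    exact TA hg k1 k2 k3 k4 k5 k6 k7 hrp huw h3 hodd h2A h2A'
  have key2 : ∀ (g x : G) (p u r w : ℕ), TwoData A g x p u r w → r ≤ p → Cont A := by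
    intro g x p u r w h hrp
    rcases le_total u w with h1 | h1
    · exact key g x p u r w h hrp h1
    · exact key _ _ _ _ _ _ h.refl hrp h1
  rcases le_total r p with h1 | h1
  · exact key2 _ _ _ _ _ _ h0 h1
  · exact key2 _ _ _ _ _ _ h0.rot h1

end Pool.Agent.SPN
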