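import Pool.Agent.SPN.T6

set_option autoImplicit false

namespace Pool.Agent.SPN

theorem Taa0 {n k c : ℤ} {l r : Fin 3 → ℤ} (h : Dat n k c l r)
    (hr0 : 3 * r 0 = c - 1)
    (hr : (∃ m : ℤ, 2 * r 1 + r 2 = c - 1 + m * n) ∨ (∃ m : ℤ, 2 * r 2 + r 1 = c - 1 + m * n)) :
    Concl n k l r := by
  have ha0 := h.a0
  have ha1 := h.a1
  have ha2 := h.a2
  have g0 := h.g0
  have g1 := h.g1
  have g2 := h.g2
  have hk := h.hk
  have hn := h.hn
  have k6 := h.k6
  obtain ⟨α, β, γ, h12, h23, h13, ⟨m, hm⟩, h4⟩ := h.left_type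
  rcases h4 with ⟨mg, hg⟩ | h4
  · fin_cases γ
    · exfalso
      simp only [Fin.zero_eta] at hg
      exact Taa_arith0 (a0 := r 0 - l 0) (a1 := r 1 - l 1) (a2 := r 2 - l 2) (m := mg) (n := n)
        (k := k) (by omega) (by omega) (by omega) hn hk k6 (by linarith)
    · exfalso
      simp only [Fin.mk_one] at hg
      have ha : -2 * (r 0 - l 0) + (l 2 - r 0) - 2 = m * n ∨
          2 * (l 2 - r 0) - (r 0 - l 0) - 2 = m * n := by
        fin_cases α <;> fin_cases β
        · exact absurd rfl h12
        · exact absurd rfl h23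
        · left; simp only [Fin.zero_eta, Fin.reduceFinMk] at hm; linarith
        · exact absurd rfl h13
        · exact absurd rfl h12
        · exact absurd rfl h13
        · right; simp only [Fin.zero_eta, Fin.reduceFinMk] at hm; linarith
        · exact absurd rfl h23
        · exact absurd rfl h12
      rcases hr with ⟨m', hm'⟩ | ⟨m', hm'⟩
      · exact Taa_arith1 (a0 := r 0 - l 0) (a1 := r 1 - l 1) (a2 := r 2 - l 2) (n := n) (k := k)
          (p1 := l 1 - r 0) (p2 := l 2 - r 0) (m := m) (m' := m') (mg := mg) (by omega) (by omega)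
          (by omega) (by omega) (by omega) (by omega) hn hk k6 (by linarith) ha
          (Or.inl (by linarith))
      · exact Taa_arith1 (a0 := r 0 - l 0) (a1 := r 1 - l 1) (a2 := r 2 - l 2) (n := n) (k := k)
          (p1 := l 1 - r 0) (p2 := l 2 - r 0) (m := m) (m' := m') (mg := mg) (by omega) (by omega)
          (by omega) (by omega) (by omega) (by omega) hn hk k6 (by linarith) ha
          (Or.inr (by linarith))
    · simp only [Fin.reduceFinMk] at hg
      have ha : -2 * (r 0 - l 0) + (l 1 - r 0) - 2 = m * n ∨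
          2 * (l 1 - r 0) - (r 0 - l 0) - 2 = m * n := by
        fin_cases α <;> fin_cases β
        · exact absurd rfl h12
        · left; simp only [Fin.zero_eta, Fin.mk_one] at hm; linarith
        · exact absurd rfl h23
        · right; simp only [Fin.zero_eta, Fin.mk_one] at hm; linarith
        · exact absurd rfl h12
        · exact absurd rfl h23
        · exact absurd rfl h13
        · exact absurd rfl h13
        · exact absurd rfl h12
      have I221 := h.I 2 2 1 1
      have I001 := h.I 0 0 1 0
      simp only [one_mul, zero_mul, add_zero] at I221 I001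
      have hb : ∃ m' : ℤ, 2 * ((l 2 - r 0) + (r 2 - l 2)) + ((l 1 - r 0) + (r 1 - l 1)) = m' * n ∨
          2 * ((l 1 - r 0) + (r 1 - l 1)) + ((l 2 - r 0) + (r 2 - l 2)) = m' * n := by
        rcases hr with ⟨m', hm'⟩ | ⟨m', hm'⟩
        · exact ⟨m', Or.inr (by linarith)⟩
        · exact ⟨m', Or.inl (by linarith)⟩
      obtain ⟨m', hb⟩ := hb
      obtain ⟨q0, q2, q3⟩ := Taa_arith2 (a0 := r 0 - l 0) (a1 := r 1 - l 1) (a2 := r 2 - l 2)
        (n := n) (k := k) (p1 := l 1 - r 0) (p2 := l 2 - r 0) (m := m) (m' := m') (mg := mg)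
        (by omega) (by omega) (by omega) (by omega) (by omega) (by omega) hn hk k6 (by linarith) ha hb
        (by intro ⟨e1, e2⟩; exact I221 ⟨by linarith, by linarith⟩)
        (by intro ⟨e1, e2⟩; exact I001 ⟨by linarith, by linarith⟩)
      refine ⟨l 0, Or.inl ?_⟩
      intro i
      fin_cases i
      · refine ⟨0, ?_, ?_⟩ <;> simp only [Fin.zero_eta, zero_mul, add_zero] <;> omega
      · refine ⟨0, ?_, ?_⟩ <;> simp only [Fin.mk_one, zero_mul, add_zero] <;> omega
      · refine ⟨0, ?_, ?_⟩ <;> simp only [Fin.reduceFinMk, zero_mul, add_zero] <;> omega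
  · exact T2b_concl h h12 h23 h13 ⟨m, hm⟩ h4

theorem Taa0' {n k c : ℤ} {l r : Fin 3 → ℤ} (h : Dat n k c l r)
    (hr0 : ∃ m : ℤ, 3 * r 0 = c - 1 + m * n)
    (hr : (∃ m : ℤ, 2 * r 1 + r 2 = c - 1 + m * n) ∨ (∃ m : ℤ, 2 * r 2 + r 1 = c - 1 + m * n)) :
    Concl n k l r := by
  obtain ⟨m, hm⟩ := hr0
  apply Taa0 (h.shift m) (by linarith)
  rcases hr with ⟨m', hm'⟩ | ⟨m', hm'⟩
  · exact Or.inl ⟨m' - m, by linarith⟩
  · exact Or.inr ⟨m' - m, by linarith⟩

/-- **Three arcs**: the arcs, or their dilate by `3`, lie in an interval of length `k + 2`. -/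
theorem three_main {n k c : ℤ} {l r : Fin 3 → ℤ} (h : Dat n k c l r) : Concl n k l r := by
  obtain ⟨α, β, γ, h12, h23, h13, ⟨m, hm⟩, h4⟩ := h.right_type
  rcases h4 with ⟨mg, hg⟩ | h4
  · fin_cases γ
    · -- γ = 0
      apply Taa0' h ⟨mg, hg⟩
      fin_cases α <;> fin_cases β
      · exact absurd rfl h12
      · exact absurd rfl h13
      · exact absurd rfl h13
      · exact absurd rfl h23
      · exact absurd rfl h12
      · exact Or.inl ⟨m, hm⟩
      · exact absurd rfl h23
      · exact Or.inr ⟨m, hm⟩
      · exact absurd rfl h12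
    · -- γ = 1
      apply Concl.of_rot
      apply Taa0' h.rot
      · exact ⟨mg, by simpa using hg⟩
      · fin_cases α <;> fin_cases β
        · exact absurd rfl h12
        · exact absurd rfl h23
        · right; simp only [Fin.zero_eta, Fin.reduceFinMk] at hm; exact ⟨m + 2, by simp; linarith⟩
        · exact absurd rfl h13
        · exact absurd rfl h12
        · exact absurd rfl h13
        · left; simp only [Fin.zero_eta, Fin.reduceFinMk] at hm; exact ⟨m + 1, by simp; linarith⟩
        · exact absurd rfl h23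
        · exact absurd rfl h12
    · -- γ = 2
      apply Concl.of_rot
      apply Concl.of_rot
      apply Taa0' h.rot.rot
      · exact ⟨mg, by simpa using hg⟩
      · fin_cases α <;> fin_cases β
        · exact absurd rfl h12
        · left; simp only [Fin.zero_eta, Fin.mk_one] at hm; exact ⟨m + 3, by simp; linarith⟩
        · exact absurd rfl h23
        · right; simp only [Fin.zero_eta, Fin.mk_one] at hm; exact ⟨m + 3, by simp; linarith⟩
        · exact absurd rfl h12
        · exact absurd rfl h23
        · exact absurd rfl h13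
        · exact absurd rfl h13
        · exact absurd rfl h12
  · exact T2b_right_concl h h12 h23 h13 ⟨m, hm⟩ h4

end Pool.Agent.SPN
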