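import Pool.Agent.SPN.G3
import Pool.Agent.SPN.G4
import Pool.Agent.SPN.T7

set_option autoImplicit false

namespace Pool.Agent.SPN

open Finset Pointwise Pool.Agent.MP_8507d5_co

universe u

variable {G : Type u} [AddCommGroup G] [Fintype G] [DecidableEq G]

/-- In the extremal case `2A` is the complement of `g₀ - A`. -/
theorem compl_two {A : Finset G} (hn : Fintype.card G = 3 * A.card + 1)
    (hAA : (A + A).card = 2 * A.card + 1) {g₀ : G} (hg₀ : g₀ ∉ nf A 3) :
    ∀ y, y ∉ A → g₀ - y ∈ A + A := by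
  intro y hy
  by_contra hcon
  have e3 : nf A 3 = A + A + A := by
    rw [show nf A 3 = nf A 2 + A from rfl, show nf A 2 = nf A 1 + A from rfl, nf_one]
  have h1 : Disjoint (A + A) ((insert y A).image (fun a => g₀ - a)) := by
    rw [Finset.disjoint_left]
    intro z hz hz2
    rw [Finset.mem_image] at hz2
    obtain ⟨a, ha, rfl⟩ := hz2
    rw [Finset.mem_insert] at ha
    rcases ha with rfl | ha
    · exact hcon hz
    · apply hg₀
      rw [e3, Finset.mem_add]
      exact ⟨g₀ - a, hz, a, ha, by simp⟩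
  have h2 := Finset.card_union_of_disjoint h1
  have h3 : ((insert y A).image (fun a => g₀ - a)).card = A.card + 1 := by
    rw [Finset.card_image_of_injective _ (fun a b hab => by simpa using hab),
      Finset.card_insert_of_notMem hy]
  have h4 := card_le_univ ((A + A) ∪ (insert y A).image (fun a => g₀ - a))
  omega

omit [Fintype G] in
theorem sum3_mem {A : Finset G} {a b c : G} (ha : a ∈ A) (hb : b ∈ A) (hc : c ∈ A) :
    a + b + c ∈ nf A 3 := by
  have e3 : nf A 3 = A + A + A := by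
    rw [show nf A 3 = nf A 2 + A from rfl, show nf A 2 = nf A 1 + A from rfl, nf_one]
  rw [e3]
  exact Finset.add_mem_add (Finset.add_mem_add ha hb) hc

theorem split3 {a a' b b' d d' v : ℤ} (ha : a ≤ a') (hb : b ≤ b') (hd : d ≤ d')
    (h1 : a + b + d ≤ v) (h2 : v ≤ a' + b' + d') :
    ∃ x y z : ℤ, a ≤ x ∧ x ≤ a' ∧ b ≤ y ∧ y ≤ b' ∧ d ≤ z ∧ z ≤ d' ∧ x + y + z = v := by
  refine ⟨min a' (v - b - d), min b' (v - min a' (v - b - d) - d),
    v - min a' (v - b - d) - min b' (v - min a' (v - b - d) - d), ?_, ?_, ?_, ?_, ?_, ?_, ?_⟩ <;>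
    omega

theorem three_fin {A : Finset G} {g : G} (hg : AddSubgroup.zmultiples g = ⊤)
    (hc : (({0, g} : Finset G) + A).card = A.card + 3)
    (hn : Fintype.card G = 3 * A.card + 1) (hodd : ¬ 2 ∣ Fintype.card G) (hk6 : 6 ≤ A.card)
    (hAA : (A + A).card = 2 * A.card + 1) (hne : nf A 3 ≠ univ) : Cont A := by
  obtain ⟨g₀, hg₀⟩ : ∃ g₀, g₀ ∉ nf A 3 := by
    by_contra hcon
    push Not at hcon
    exact hne (Finset.eq_univ_iff_forall.mpr hcon)
  have hcompl := compl_two hn hAA hg₀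
  obtain ⟨x, p₁, u₁, p₂, u₂, p₃, u₃, k1, k2, k3, k4, k5, k6, k7, k8, k9⟩ := three_arcs hg hc
  set n := Fintype.card G with hn'
  set k := A.card with hk
  obtain ⟨c, hcn, hgc⟩ := exists_idx hg (x + x + x) g₀
  set l : Fin 3 → ℤ := ![0, (p₁ : ℤ) + u₁, (p₁ : ℤ) + u₁ + p₂ + u₂] with hl
  set r : Fin 3 → ℤ := ![(p₁ : ℤ) - 1, (p₁ : ℤ) + u₁ + p₂ - 1, (p₁ : ℤ) + u₁ + p₂ + u₂ + p₃ - 1]
    with hr
  have l0 : l 0 = 0 := rfl
  have l1 : l 1 = (p₁ : ℤ) + u₁ := rfl
  have l2 : l 2 = (p₁ : ℤ) + u₁ + p₂ + u₂ := rfl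
  have r0 : r 0 = (p₁ : ℤ) - 1 := rfl
  have r1 : r 1 = (p₁ : ℤ) + u₁ + p₂ - 1 := rfl
  have r2 : r 2 = (p₁ : ℤ) + u₁ + p₂ + u₂ + p₃ - 1 := rfl
  -- membership for integers in `[0, n)`
  have hmem : ∀ z : ℤ, 0 ≤ z → z < n → (x + z • g ∈ A ↔
      (l 0 ≤ z ∧ z ≤ r 0) ∨ (l 1 ≤ z ∧ z ≤ r 1) ∨ (l 2 ≤ z ∧ z ≤ r 2)) := by
    intro z h1 h2
    obtain ⟨i, rfl⟩ := Int.eq_ofNat_of_zero_le h1
    rw [natCast_zsmul, k9 i (by omega), l0, l1, l2, r0, r1, r2]
    omega
  have hin : ∀ (i : Fin 3) (z : ℤ), l i ≤ z → z ≤ r i → x + z • g ∈ A := by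
    intro i z h1 h2
    fin_cases i
    · simp only [Fin.zero_eta] at h1 h2
      exact (hmem z (by omega) (by omega)).mpr (Or.inl ⟨h1, h2⟩)
    · simp only [Fin.mk_one] at h1 h2
      exact (hmem z (by omega) (by omega)).mpr (Or.inr (Or.inl ⟨h1, h2⟩))
    · simp only [Fin.reduceFinMk] at h1 h2
      exact (hmem z (by omega) (by omega)).mpr (Or.inr (Or.inr ⟨h1, h2⟩))
  have hnz : ∀ m : ℤ, (m * (n : ℤ)) • g = 0 := fun m => (idx_zmod hg).mpr ⟨m, rfl⟩
  have hsum : ∀ s t z m : ℤ, x + s • g ∈ A → x + t • g ∈ A → x + z • g ∈ A →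
      s + t + z ≠ c + m * n := by
    intro s t z m hs ht hz he
    apply hg₀
    have h1 := sum3_mem hs ht hz
    have h2 : x + s • g + (x + t • g) + (x + z • g) = x + x + x + (s + t + z) • g := by
      rw [add_zsmul, add_zsmul]; abel
    rw [h2, he, add_zsmul, hnz, add_zero, natCast_zsmul, ← hgc] at h1
    exact h1
  have hrepr : ∀ z : ℤ, x + z • g ∉ A → ∃ s t : ℕ, s < n ∧ t < n ∧ x + (s : ℤ) • g ∈ A ∧
      x + (t : ℤ) • g ∈ A ∧ ∃ m : ℤ, (s : ℤ) + t + z = c + m * n := by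
    intro z hz
    have h1 := hcompl _ hz
    rw [Finset.mem_add] at h1
    obtain ⟨a, ha, b, hb, hab⟩ := h1
    obtain ⟨s, hs, rfl⟩ := exists_idx hg x a
    obtain ⟨t, ht, rfl⟩ := exists_idx hg x b
    refine ⟨s, t, hs, ht, by rwa [natCast_zsmul], by rwa [natCast_zsmul], ?_⟩
    have h2 : ((s : ℤ) + t + z - c) • g = 0 := by
      rw [sub_zsmul, add_zsmul, add_zsmul, natCast_zsmul, natCast_zsmul, natCast_zsmul]
      rw [hgc] at hab
      have h3 : s • g + t • g + z • g + -(c • g) =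
          (x + s • g + (x + t • g)) - (x + x + x + c • g - (x + z • g)) := by abel
      rw [h3, hab, sub_self]
    obtain ⟨m, hm⟩ := (idx_zmod hg).mp h2
    exact ⟨m, by linarith⟩
  have hnotl : ∀ i : Fin 3, x + (l i - 1) • g ∉ A := by
    intro i
    fin_cases i
    · simp only [Fin.zero_eta]
      intro h
      have h1 : x + (l 0 - 1) • g = x + ((n : ℤ) - 1) • g := by
        have : l 0 - 1 = ((n : ℤ) - 1) + (-1) * n := by rw [l0]; ring
        rw [this, add_zsmul, hnz, add_zero]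
      rw [h1, hmem _ (by omega) (by omega), l0, l1, l2, r0, r1, r2] at h
      omega
    · simp only [Fin.mk_one]
      rw [hmem _ (by omega) (by omega), l0, l1, l2, r0, r1, r2]
      omega
    · simp only [Fin.reduceFinMk]
      rw [hmem _ (by omega) (by omega), l0, l1, l2, r0, r1, r2]
      omega
  have hnotr : ∀ i : Fin 3, x + (r i + 1) • g ∉ A := by
    intro i
    fin_cases i
    · simp only [Fin.zero_eta]
      rw [hmem _ (by omega) (by omega), l0, l1, l2, r0, r1, r2]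
      omega
    · simp only [Fin.mk_one]
      rw [hmem _ (by omega) (by omega), l0, l1, l2, r0, r1, r2]
      omega
    · simp only [Fin.reduceFinMk]
      rw [hmem _ (by omega) (by omega), l0, l1, l2, r0, r1, r2]
      omega
  -- starts and ends
  have hstart : ∀ s : ℕ, s < n → x + (s : ℤ) • g ∈ A → x + ((s : ℤ) - 1) • g ∉ A →
      ∃ j : Fin 3, (s : ℤ) = l j := by
    intro s hs h1 h2
    rw [hmem _ (by omega) (by omega)] at h1
    by_contra hcon
    push Not at hcon
    have q0 := hcon 0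
    have q1 := hcon 1
    have q2 := hcon 2
    apply h2
    rw [hmem _ (by omega) (by omega)]
    omega
  have hend : ∀ s : ℕ, s < n → x + (s : ℤ) • g ∈ A → x + ((s : ℤ) + 1) • g ∉ A →
      ∃ j : Fin 3, (s : ℤ) = r j := by
    intro s hs h1 h2
    rw [hmem _ (by omega) (by omega)] at h1
    by_contra hcon
    push Not at hcon
    have q0 := hcon 0
    have q1 := hcon 1
    have q2 := hcon 2
    apply h2
    rw [hmem _ (by omega) (by omega)]
    omega
  have hdat : Dat n k c l r := by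
    refine ⟨by omega, by omega, by omega, by omega, by omega, by omega, by omega, by omega,
      by omega, by omega, ?_, ?_, ?_⟩
    · rintro i j t m ⟨h1, h2⟩
      have hle : ∀ i : Fin 3, l i ≤ r i := by
        intro i; fin_cases i
        · simp only [Fin.zero_eta]; omega
        · simp only [Fin.mk_one]; omega
        · simp only [Fin.reduceFinMk]; omega
      obtain ⟨a, b, d, e1, e2, e3, e4, e5, e6, e7⟩ := split3 (hle i) (hle j) (hle t) h1 h2
      exact hsum a b d m (hin i a e1 e2) (hin j b e3 e4) (hin t d e5 e6) e7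
    · intro i
      obtain ⟨s, t, hs, ht, h1, h2, m, hm⟩ := hrepr _ (hnotl i)
      have hli : x + l i • g ∈ A := hin i (l i) le_rfl (by
        fin_cases i
        · simp only [Fin.zero_eta]; omega
        · simp only [Fin.mk_one]; omega
        · simp only [Fin.reduceFinMk]; omega)
      obtain ⟨j, hj⟩ := hstart s hs h1 (fun h => hsum _ _ _ m h h2 hli (by linarith))
      obtain ⟨j', hj'⟩ := hstart t ht h2 (fun h => hsum _ _ _ m h1 h hli (by linarith))
      exact ⟨j, j', m, by linarith⟩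
    · intro i
      obtain ⟨s, t, hs, ht, h1, h2, m, hm⟩ := hrepr _ (hnotr i)
      have hli : x + r i • g ∈ A := hin i (r i) (by
        fin_cases i
        · simp only [Fin.zero_eta]; omega
        · simp only [Fin.mk_one]; omega
        · simp only [Fin.reduceFinMk]; omega) le_rfl
      obtain ⟨j, hj⟩ := hend s hs h1 (fun h => hsum _ _ _ m h h2 hli (by linarith))
      obtain ⟨j', hj'⟩ := hend t ht h2 (fun h => hsum _ _ _ m h1 h hli (by linarith))
      exact ⟨j, j', m, by linarith⟩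
  have hall : ∀ a ∈ A, ∃ (i : Fin 3) (z : ℤ), l i ≤ z ∧ z ≤ r i ∧ a = x + z • g := by
    intro a ha
    obtain ⟨s, hs, rfl⟩ := exists_idx hg x a
    rw [← natCast_zsmul, hmem _ (by omega) (by omega)] at ha
    rcases ha with h | h | h
    · exact ⟨0, s, h.1, h.2, by rw [natCast_zsmul]⟩
    · exact ⟨1, s, h.1, h.2, by rw [natCast_zsmul]⟩
    · exact ⟨2, s, h.1, h.2, by rw [natCast_zsmul]⟩
  obtain ⟨z₀, h | h⟩ := three_main hdat
  · refine ⟨x + z₀ • g, g, hg, ?_⟩
    intro a ha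
    obtain ⟨i, z, h1, h2, rfl⟩ := hall a ha
    obtain ⟨m, h3, h4⟩ := h i
    obtain ⟨j, hj⟩ := Int.eq_ofNat_of_zero_le (show 0 ≤ z + m * n - z₀ by linarith)
    refine ⟨j, by omega, ?_⟩
    rw [← natCast_zsmul, ← hj, sub_zsmul, add_zsmul, hnz]
    abel
  · apply cont_of_smul (c := 3) ?_ hg (3 • x + z₀ • g)
    · intro a ha
      obtain ⟨i, z, h1, h2, rfl⟩ := hall a ha
      obtain ⟨m, h3, h4⟩ := h i
      obtain ⟨j, hj⟩ := Int.eq_ofNat_of_zero_le (show 0 ≤ 3 * z + m * n - z₀ by linarith)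
      refine ⟨j, by omega, ?_⟩
      rw [← natCast_zsmul g j, ← hj, sub_zsmul, add_zsmul, hnz, nsmul_add]
      have : (3 : ℕ) • z • g = (3 * z) • g := by
        rw [mul_zsmul, ← natCast_zsmul]; norm_cast
      rw [this]; abel
    · rw [Nat.coprime_comm]
      apply (Nat.Prime.coprime_iff_not_dvd Nat.prime_three).mpr
      omega

end Pool.Agent.SPN
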