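import Pool.Agent.SPN.G2

set_option autoImplicit false

namespace Pool.Agent.SPN

open Finset Pointwise Pool.Agent.MP_8507d5_co

universe u

variable {G : Type u} [AddCommGroup G] [Fintype G] [DecidableEq G]

/-- differences of two elements generate -/
private theorem h1_gen {A : Finset G} (hG : Fintype.card G = 9) (hA : A.card = 3)
    (hT : Thick A 1) {a b : G} (ha : a ∈ A) (hb : b ∈ A) (hab : a ≠ b) :
    AddSubgroup.zmultiples (b - a) = ⊤ := by
  by_contra hN
  have hg0 : b - a ≠ 0 := fun h => hab (sub_eq_zero.1 h).symm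
  have hc : ((A.erase a).erase b).card = 1 := by
    rw [Finset.card_erase_of_mem (Finset.mem_erase.2 ⟨hab.symm, hb⟩), Finset.card_erase_of_mem ha, hA]
  obtain ⟨c, hc⟩ := Finset.card_eq_one.1 hc
  have hmem : ∀ x ∈ A, x = a ∨ x = b ∨ x = c := by
    intro x hx
    by_cases h1 : x = a
    · exact Or.inl h1
    · by_cases h2 : x = b
      · exact Or.inr (Or.inl h2)
      · right; right
        have : x ∈ (A.erase a).erase b := Finset.mem_erase.2 ⟨h2, Finset.mem_erase.2 ⟨h1, hx⟩⟩
        rw [hc, Finset.mem_singleton] at this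
        exact this
  classical
  set N := AddSubgroup.zmultiples (b - a) with hNd
  set F : Finset G := Finset.univ.filter (fun x => x ∈ N) with hF
  have hFm : ∀ x, x ∈ F ↔ x ∈ N := by
    intro x; rw [hF, Finset.mem_filter]; exact ⟨fun h => h.2, fun h => ⟨Finset.mem_univ _, h⟩⟩
  have hgN : b - a ∈ N := AddSubgroup.mem_zmultiples _
  have hcard : F.card = Nat.card N := (Nat.subtype_card F hFm).symm
  have hdvd : F.card ∣ 9 := by
    rw [hcard, ← hG, ← Nat.card_eq_fintype_card]
    exact AddSubgroup.card_addSubgroup_dvd_card N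
  have hne1 : 1 < F.card := by
    rw [Finset.one_lt_card]
    exact ⟨0, (hFm 0).2 N.zero_mem, b - a, (hFm _).2 hgN, hg0.symm⟩
  have hne9 : F.card ≠ 9 := by
    intro h9
    apply hN
    have h10 : F = Finset.univ := by
      rw [← Finset.card_eq_iff_eq_univ, h9, hG]
    rw [eq_top_iff]
    intro x _
    rw [← hFm, h10]
    exact Finset.mem_univ x
  have hle : F.card ≤ 9 := Nat.le_of_dvd (by norm_num) hdvd
  have h3 : F.card = 3 := by
    generalize F.card = n at hdvd hne1 hne9 hle
    interval_cases n <;> simp_all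
  have h4 := hT N F hFm (by omega) (by omega)
  have h5 : F + A ⊆ (F.image (fun x => a + x)) ∪ (F.image (fun x => c + x)) := by
    intro y hy
    obtain ⟨f, hf, z, hz, rfl⟩ := Finset.mem_add.1 hy
    rw [Finset.mem_union, Finset.mem_image, Finset.mem_image]
    rcases hmem z hz with h | h | h
    · exact Or.inl ⟨f, hf, by rw [h, add_comm]⟩
    · refine Or.inl ⟨f + (b - a), (hFm _).2 (N.add_mem ((hFm _).1 hf) hgN), ?_⟩
      rw [h]; abel
    · exact Or.inr ⟨f, hf, by rw [h, add_comm]⟩
  have h6 := Finset.card_le_card h5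
  have h7 := Finset.card_union_le (F.image (fun x => a + x)) (F.image (fun x => c + x))
  have h8 : (F.image (fun x => a + x)).card ≤ F.card := Finset.card_image_le
  have h9 : (F.image (fun x => c + x)).card ≤ F.card := Finset.card_image_le
  omega

omit [DecidableEq G] in
/-- a generator is not three times an element -/
private theorem h1_not3 (hG : Fintype.card G = 9) {g : G} {j : ℕ}
    (hg : AddSubgroup.zmultiples ((3 * j) • g) = ⊤) : False := by
  have h1 := order_gen hg
  have h2 : 3 • ((3 * j) • g) = 0 := by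
    rw [← mul_nsmul']
    have h3 : 3 * (3 * j) = j * Fintype.card G := by rw [hG]; ring
    rw [h3, mul_nsmul', card_nsmul_eq_zero, nsmul_zero]
  have h4 := addOrderOf_dvd_of_nsmul_eq_zero h2
  rw [h1, hG] at h4
  omega

/-- **Row H1.** `|G| = 9`, `|A| = 3`, `A` thick: `A` is an arithmetic progression.
PROOF. Let `a ≠ b ∈ A`, `g := b - a ≠ 0`. If `N := zmultiples g ≠ ⊤`, then `|N| = 3` (it divides 9
and is not 1 or 9), and with `F := univ.filter (· ∈ N)`: `F + A` is the union of the cosets of `a`
(which is the coset of `b`) and of the third element, so `|F + A| ≤ 6 < 3 + 3 + 1`, against `hT`.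
So every difference of two distinct elements of `A` generates `G`. Write `A = {a, b, c}`,
`g := b - a`, `c = a + i • g` with `i < 9` (`exists_idx`), `i ≠ 0, 1`. `c - a = i • g` generates,
so `3 ∤ i`: if `i = 3 j` then `3 • (c - a) = 9 • (j • g) = 0`, but a generator has order 9
(`order_gen`). Likewise `c - b = (i - 1) • g` generates, so `3 ∤ i - 1`. So `i ∈ {2, 5, 8}`.
`i = 2`: `A = {a, a + g, a + 2g}`. `i = 5`: with `g' := 5 • g` (a generator since
`2 • g' = 10 • g = g`): `A = {a, a + g', a + 2 • g'}`. `i = 8`: `c = a - g`,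
`A = {c, c + g, c + 2 • g}`. -/
theorem small3_9 {A : Finset G} (hG : Fintype.card G = 9) (hA : A.card = 3) (hT : Thick A 1) :
    Cont A := by
  obtain ⟨a, b, c, hab, hac, hbc, rfl⟩ := Finset.card_eq_three.1 hA
  have ma : a ∈ ({a, b, c} : Finset G) := by simp
  have mb : b ∈ ({a, b, c} : Finset G) := by simp
  have mc : c ∈ ({a, b, c} : Finset G) := by simp
  have g1 := h1_gen hG hA hT ma mb hab
  have g2 := h1_gen hG hA hT ma mc hac
  have g3 := h1_gen hG hA hT mb mc hbc
  obtain ⟨i, hi, hci⟩ := exists_idx g1 a c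
  rw [hG] at hi
  set g := b - a with hg
  have hb : b = a + g := by rw [hg]; abel
  have h9 : 9 • g = 0 := by rw [← hG]; exact card_nsmul_eq_zero
  have e2 : c - a = i • g := by rw [hci]; abel
  have hi0 : i ≠ 0 := by
    intro h0; rw [h0, zero_nsmul, add_zero] at hci; exact hac hci.symm
  have hi1 : i ≠ 1 := by
    intro h0; rw [h0, one_nsmul, ← hb] at hci; exact hbc hci.symm
  have e3 : c - b = (i - 1) • g := by
    obtain ⟨k, rfl⟩ : ∃ k, i = k + 1 := ⟨i - 1, by omega⟩
    rw [hci, Nat.add_sub_cancel, succ_nsmul, hb]; abel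
  have n1 : ∀ j, i ≠ 3 * j := by
    intro j hj
    rw [e2, hj] at g2
    exact h1_not3 hG g2
  have n2 : ∀ j, i - 1 ≠ 3 * j := by
    intro j hj
    rw [e3, hj] at g3
    exact h1_not3 hG g3
  have hcases : i = 2 ∨ i = 5 ∨ i = 8 := by
    have a1 := n1 1
    have a2 := n1 2
    have a3 := n2 1
    have a4 := n2 2
    omega
  rcases hcases with h | h | h
  · subst h
    refine ⟨a, g, g1, ?_⟩
    intro x hx
    rw [hA]
    rw [Finset.mem_insert, Finset.mem_insert, Finset.mem_singleton] at hx
    rcases hx with h | h | h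
    · exact ⟨0, by omega, by rw [h, zero_nsmul, add_zero]⟩
    · exact ⟨1, by omega, by rw [h, one_nsmul, hb]⟩
    · exact ⟨2, by omega, by rw [h, hci]⟩
  · subst h
    refine ⟨a, c - a, g2, ?_⟩
    intro x hx
    rw [hA]
    rw [Finset.mem_insert, Finset.mem_insert, Finset.mem_singleton] at hx
    rcases hx with h | h | h
    · exact ⟨0, by omega, by rw [h, zero_nsmul, add_zero]⟩
    · refine ⟨2, by omega, ?_⟩
      rw [h, e2, ← mul_nsmul']
      have h10 : (2 * 5) • g = g := by
        have : 2 * 5 = 9 + 1 := rfl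
        rw [this, add_nsmul, h9, zero_add, one_nsmul]
      rw [h10, hb]
    · exact ⟨1, by omega, by rw [h, one_nsmul]; abel⟩
  · subst h
    refine ⟨c, g, g1, ?_⟩
    intro x hx
    rw [hA]
    rw [Finset.mem_insert, Finset.mem_insert, Finset.mem_singleton] at hx
    rcases hx with h | h | h
    · refine ⟨1, by omega, ?_⟩
      rw [h, hci, add_assoc, ← add_nsmul, h9, add_zero]
    · refine ⟨2, by omega, ?_⟩
      have h10 : 8 • g + 2 • g = g := by
        rw [← add_nsmul]
        have : 8 + 2 = 9 + 1 := rfl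
        rw [this, add_nsmul, h9, zero_add, one_nsmul]
      rw [h, hci, add_assoc, h10, hb]
    · exact ⟨0, by omega, by rw [h, zero_nsmul, add_zero]⟩

end Pool.Agent.SPN
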