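import Pool.Agent.SPN.G4

set_option autoImplicit false

namespace Pool.Agent.SPN

open Finset Pointwise Pool.Agent.MP_8507d5_co

universe u

variable {G : Type u} [AddCommGroup G] [Fintype G] [DecidableEq G]

omit [Fintype G] in
/-- **Row H2 (1).** PROOF: induction on `j`, `add_assoc`; `nf A 0 = {0}`. -/
theorem nf_add (A : Finset G) (i j : ℕ) : nf A i + nf A j = nf A (i + j) := by
  induction j with
  | zero =>
    change nf A i + {0} = nf A i
    rw [Finset.singleton_zero, add_zero]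
  | succ j ih =>
    change nf A i + (nf A j + A) = nf A (i + j) + A
    rw [← add_assoc, ih]

omit [Fintype G] in
theorem h2_const {A : Finset G} {a : G} (ha : a ∈ A) (c : ℕ) : c • a ∈ nf A c := by
  rw [mem_nf]
  refine ⟨fun _ => a, fun _ => ha, ?_⟩
  rw [Finset.sum_const, Finset.card_univ, Fintype.card_fin]

/-- **Row H2 (2).** If the `c`-fold sumset lies in a short progression, so does `A`.
PROOF. For `a ∈ A`: `c • a ∈ nf A c` (`mem_nf` with a constant function), so
`c • a = x₀ + j a • g` with `j a < L`. Choose `a₁ ∈ A` with `j a₁` minimal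
(`Finset.exists_min_image` after `choose`; if `A = ∅` the statement is trivial). For `a ∈ A` the
element `(c - 1) • a₁ + a ∈ nf A c` is `x₀ + m • g`, `m < L`. Multiply by `c`:
`c • ((c-1) • a₁ + a) = (c-1) • (x₀ + j a₁ • g) + (x₀ + j a • g) = c • x₀ + ((c-1) j a₁ + j a) • g`
and `= c • x₀ + (c m) • g`. So `((c-1) j a₁ + j a) • g = (c m) • g`; both coefficients are
`≤ c (L-1) < n`, so `(c-1) j a₁ + j a = c m` (`idx_inj`). Hence `j a = j a₁ + c (m - j a₁)` and with
`i := m - j a₁`(natural since `j a ≥ j a₁`): `c • (a - a₁) = (c i) • g = c • (i • g)`, and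
`c • ·` is injective (`smul_bij`), so `a = a₁ + i • g`, `c i = j a - j a₁ ≤ L - 1`. Take
`x := a₁`. -/
theorem fold_ap {A : Finset G} {c L : ℕ} (hc : Nat.Coprime (Fintype.card G) c) (hc1 : 1 ≤ c)
    {g : G} (hg : AddSubgroup.zmultiples g = ⊤) (x₀ : G)
    (h : ∀ y ∈ nf A c, ∃ i : ℕ, i < L ∧ y = x₀ + i • g) (hL : c * (L - 1) < Fintype.card G) :
    ∃ x : G, ∀ a ∈ A, ∃ i : ℕ, c * i ≤ L - 1 ∧ a = x + i • g := by
  rcases A.eq_empty_or_nonempty with hA | hA
  · refine ⟨0, fun a ha => ?_⟩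
    rw [hA] at ha
    exact absurd ha (Finset.notMem_empty a)
  have h1 : ∀ a : G, ∃ i : ℕ, a ∈ A → i < L ∧ c • a = x₀ + i • g := by
    intro a
    by_cases ha : a ∈ A
    · obtain ⟨i, hi⟩ := h _ (h2_const ha c)
      exact ⟨i, fun _ => hi⟩
    · exact ⟨0, fun h => absurd h ha⟩
  choose j hj using h1
  obtain ⟨a₁, ha₁, hmin⟩ := Finset.exists_min_image A j hA
  refine ⟨a₁, fun a ha => ?_⟩
  have hle := hmin a ha
  obtain ⟨hj1, hj2⟩ := hj a ha
  obtain ⟨hk1, hk2⟩ := hj a₁ ha₁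
  have h3 : (c - 1) • a₁ + a ∈ nf A c := by
    have h4 : (c - 1) • a₁ + a ∈ nf A (c - 1) + A := Finset.add_mem_add (h2_const ha₁ _) ha
    have h5 : nf A c = nf A (c - 1) + A := by
      have h6 : c = (c - 1) + 1 := by omega
      conv_lhs => rw [h6]
      rfl
    rw [h5]
    exact h4
  obtain ⟨m, hm, h4⟩ := h _ h3
  have h5 : c • x₀ + ((c - 1) * j a₁ + j a) • g = c • x₀ + (c * m) • g := by
    have h6 : c • ((c - 1) • a₁ + a) = c • (x₀ + m • g) := by rw [h4]
    rw [nsmul_add, nsmul_add, smul_comm c (c - 1) a₁, hk2, hj2, nsmul_add, ← mul_nsmul', ← mul_nsmul'] at h6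
    rw [← h6, add_nsmul]
    have h7 : c • x₀ = (c - 1) • x₀ + x₀ := by
      have h8 : c = (c - 1) + 1 := by omega
      conv_lhs => rw [h8]
      rw [succ_nsmul]
    rw [h7]
    abel
  have hL1 : j a ≤ L - 1 := by omega
  have hL2 : j a₁ ≤ L - 1 := by omega
  have hL3 : m ≤ L - 1 := by omega
  have h6 : (c - 1) * j a₁ + j a ≤ c * (L - 1) := by
    have h7 : (c - 1) * j a₁ ≤ (c - 1) * (L - 1) := Nat.mul_le_mul_left _ hL2
    have h8 : c * (L - 1) = (c - 1) * (L - 1) + (L - 1) := by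
      have h9 : c = (c - 1) + 1 := by omega
      conv_lhs => rw [h9]
      rw [add_mul, one_mul]
    omega
  have h7 : c * m ≤ c * (L - 1) := Nat.mul_le_mul_left _ hL3
  have h8 : (c - 1) * j a₁ + j a = c * m := idx_inj hg (x := c • x₀) (by omega) (by omega) h5
  have h9 : c * j a₁ = (c - 1) * j a₁ + j a₁ := by
    have h9 : c = (c - 1) + 1 := by omega
    conv_lhs => rw [h9]
    rw [add_mul, one_mul]
  have hm1 : j a₁ ≤ m := by
    have h10 : c * j a₁ ≤ c * m := by omega
    exact Nat.le_of_mul_le_mul_left h10 (by omega)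
  have h10 : c * (m - j a₁) = j a - j a₁ := by
    rw [Nat.mul_sub]
    omega
  refine ⟨m - j a₁, by omega, ?_⟩
  apply (smul_bij hc).1
  simp only
  rw [nsmul_add, hj2, hk2, ← mul_nsmul', h10, add_assoc, ← add_nsmul]
  congr 2
  omega

end Pool.Agent.SPN
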