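import Pool.Agent.SPN.G4

set_option autoImplicit false

namespace Pool.Agent.SPN

open Finset Pointwise Pool.Agent.MP_8507d5_co

universe u

variable {G : Type u} [AddCommGroup G] [Fintype G] [DecidableEq G]

omit [Fintype G] [DecidableEq G] in
theorem h3_c {x y u v : G} (h : x = y) (e : x - y = u - v) : u = v := by
  rw [sub_eq_zero.2 h] at e
  exact sub_eq_zero.1 e.symm

omit [DecidableEq G] in
theorem h3_inj (hp : (Fintype.card G).Prime) (h5 : 5 ≤ Fintype.card G) {a b : G}
    (h : a + a + a = b + b + b) : a = b := by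
  have hc : Nat.Coprime (Fintype.card G) 3 := (Nat.coprime_primes hp Nat.prime_three).2 (by omega)
  apply (smul_bij hc).1
  change 3 • a = 3 • b
  have e : ∀ x : G, 3 • x = x + x + x := by
    intro x
    rw [show (3 : ℕ) = 2 + 1 from rfl, add_nsmul, two_nsmul, one_nsmul]
  rw [e, e, h]

theorem h3_cont (hp : (Fintype.card G).Prime) {A : Finset G} (hA : A.card = 3) {p q r : G}
    (hpq : p ≠ q) (hsub : ∀ x ∈ A, x = p ∨ x = q ∨ x = r) (h : p + p + p = q + q + r) :
    Cont A := by
  refine ⟨q, p - q, ?_, ?_⟩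
  · have : Fact (Fintype.card G).Prime := ⟨hp⟩
    exact zmultiples_eq_top_of_prime_card Nat.card_eq_fintype_card (sub_ne_zero.2 hpq)
  · intro x hx
    rw [hA]
    rcases hsub x hx with rfl | rfl | rfl
    · exact ⟨1, by norm_num, by rw [one_nsmul]; abel⟩
    · exact ⟨0, by norm_num, by rw [zero_nsmul, add_zero]⟩
    · refine ⟨3, by norm_num, ?_⟩
      rw [show (3 : ℕ) = 2 + 1 from rfl, add_nsmul, two_nsmul, one_nsmul]
      exact (h3_c h (by abel)).symm

omit [Fintype G] in
theorem h3_sub {A : Finset G} {a b c : G} (hA : A = {a, b, c}) :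
    A + A ⊆ ([a + a, a + b, a + c, b + b, b + c, c + c] : List G).toFinset := by
  intro x hx
  rw [Finset.mem_add] at hx
  obtain ⟨u, hu, v, hv, rfl⟩ := hx
  rw [hA, Finset.mem_insert, Finset.mem_insert, Finset.mem_singleton] at hu hv
  simp only [List.mem_toFinset, List.mem_cons, List.not_mem_nil, or_false]
  rcases hu with rfl | rfl | rfl <;> rcases hv with rfl | rfl | rfl
  · exact Or.inl rfl
  · exact Or.inr (Or.inl rfl)
  · exact Or.inr (Or.inr (Or.inl rfl))
  · exact Or.inr (Or.inl (add_comm _ _))
  · exact Or.inr (Or.inr (Or.inr (Or.inl rfl)))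
  · exact Or.inr (Or.inr (Or.inr (Or.inr (Or.inl rfl))))
  · exact Or.inr (Or.inr (Or.inl (add_comm _ _)))
  · exact Or.inr (Or.inr (Or.inr (Or.inr (Or.inl (add_comm _ _)))))
  · exact Or.inr (Or.inr (Or.inr (Or.inr (Or.inr rfl))))

/-- **Row H3 (1).** A three-element set in a group of prime order `≥ 5` with `|2A| = 6` and
`|3A| ≤ 9`.
PROOF. Write `A = {a, b, c}`. The elements of `A + A` are `aa, ab, ac, bb, bc, cc` (sums); since
`|A + A| = 6` they are pairwise distinct. `nf A 3 = (A + A) + A` contains the ten sums `aaa, aab,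
aac, abb, abc, acc, bbb, bbc, bcc, ccc`; as `|nf A 3| ≤ 9` two of them are equal. If the two
multisets share a letter, cancel it: two of the six sums of `A + A` coincide, contradiction. So they
have disjoint supports, i.e. (up to naming) `3p = 3q`, `3p = 2q + r` with `{p,q,r} = {a,b,c}`.
`3p = 3q` gives `p = q` (`3` is invertible: `|G| ≥ 5` prime). So `3p = 2q + r`, `r - q = 3 (p - q)`,
`g := p - q ≠ 0` generates `G` (prime order), and `A = {q, q + g, q + 3g}`: `Cont` with `x = q`.
(`zmultiples_eq_top_of_prime_card`.) -/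
theorem small3_rel {A : Finset G} (hp : (Fintype.card G).Prime) (h5 : 5 ≤ Fintype.card G)
    (hA : A.card = 3) (h2 : 6 ≤ (A + A).card) (h3 : (nf A 3).card ≤ 9) : Cont A := by
  obtain ⟨a, b, c, hab, hac, hbc, hAe⟩ := Finset.card_eq_three.1 hA
  have hsub : ∀ x ∈ A, x = a ∨ x = b ∨ x = c := by
    intro x hx
    rwa [hAe, Finset.mem_insert, Finset.mem_insert, Finset.mem_singleton] at hx
  have hss := h3_sub hAe
  have hn : ([a + a, a + b, a + c, b + b, b + c, c + c] : List G).Nodup := by
    have h6 := h2.trans (Finset.card_le_card hss)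
    have h7 := List.toFinset_card_le ([a + a, a + b, a + c, b + b, b + c, c + c] : List G)
    have h8 : ([a + a, a + b, a + c, b + b, b + c, c + c] : List G).length = 6 := rfl
    rw [h8] at h7
    have h9 : (↑([a + a, a + b, a + c, b + b, b + c, c + c] : List G) : Multiset G).Nodup := by
      rw [← Multiset.toFinset_card_eq_card_iff_nodup]
      change ([a + a, a + b, a + c, b + b, b + c, c + c] : List G).toFinset.card = 6
      omega
    exact Multiset.coe_nodup.1 h9
  simp only [List.nodup_cons, List.mem_cons, List.not_mem_nil, or_false, not_or,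
    not_false_eq_true, List.nodup_nil, and_true] at hn
  obtain ⟨⟨n1, n2, n3, n4, n5⟩, ⟨n6, n7, n8, n9⟩, ⟨n10, n11, n12⟩, ⟨n13, n14⟩, n15⟩ := hn
  have ma : a ∈ A := by rw [hAe]; simp
  have mb : b ∈ A := by rw [hAe]; simp
  have mc : c ∈ A := by rw [hAe]; simp
  have hnf : nf A 3 = (A + A) + A := by
    change nf A 2 + A = _
    change nf A 1 + A + A = _
    rw [nf_one]
  rw [hnf] at h3
  have hS6 : a +ᵥ (A + A) ⊆ (A + A) + A := by
    intro x hx
    obtain ⟨y, hy, rfl⟩ := Finset.mem_vadd_finset.1 hx
    rw [vadd_eq_add, add_comm a y]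
    exact Finset.add_mem_add hy ma
  have hS4 : ({b + b + b, b + b + c, b + c + c, c + c + c} : Finset G) ⊆ (A + A) + A := by
    intro x hx
    simp only [Finset.mem_insert, Finset.mem_singleton] at hx
    rcases hx with rfl | rfl | rfl | rfl
    · exact Finset.add_mem_add (Finset.add_mem_add mb mb) mb
    · exact Finset.add_mem_add (Finset.add_mem_add mb mb) mc
    · exact Finset.add_mem_add (Finset.add_mem_add mb mc) mc
    · exact Finset.add_mem_add (Finset.add_mem_add mc mc) mc
  have h4 : ({b + b + b, b + b + c, b + c + c, c + c + c} : Finset G).card = 4 := by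
    rw [Finset.card_insert_of_notMem, Finset.card_insert_of_notMem, Finset.card_insert_of_notMem,
      Finset.card_singleton]
    · simp only [Finset.mem_singleton]
      exact fun h => n15 (h3_c h (by abel))
    · simp only [Finset.mem_insert, Finset.mem_singleton, not_or]
      exact ⟨fun h => n15 (h3_c h (by abel)), fun h => n14 (h3_c h (by abel))⟩
    · simp only [Finset.mem_insert, Finset.mem_singleton, not_or]
      exact ⟨fun h => n13 (h3_c h (by abel)), fun h => n14 (h3_c h (by abel)),
        fun h => hbc (h3_inj hp h5 h)⟩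
  have hnd : ¬ Disjoint (a +ᵥ (A + A))
      ({b + b + b, b + b + c, b + c + c, c + c + c} : Finset G) := by
    intro hd
    have h7 := Finset.card_union_of_disjoint hd
    have h8 := Finset.card_le_card (Finset.union_subset hS6 hS4)
    rw [Finset.card_vadd_finset, h4] at h7
    omega
  rw [Finset.not_disjoint_iff] at hnd
  obtain ⟨x, hx6, hx4⟩ := hnd
  obtain ⟨y, hy, hyx⟩ := Finset.mem_vadd_finset.1 hx6
  have hy' := hss hy
  simp only [List.mem_toFinset, List.mem_cons, List.not_mem_nil, or_false] at hy'
  simp only [Finset.mem_insert, Finset.mem_singleton] at hx4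
  rw [vadd_eq_add] at hyx
  rcases hx4 with h0 | h0 | h0 | h0 <;>
    (rw [h0] at hyx; rcases hy' with h' | h' | h' | h' | h' | h' <;> rw [h'] at hyx)
  · exact absurd (h3_inj hp h5 (h3_c hyx (by abel))) hab
  · exact absurd (h3_c hyx (by abel)) n3
  · exact h3_cont hp hA (p := b) (q := a) (r := c) (hab.symm) (by intro x hx; have := hsub x hx; tauto) (h3_c hyx.symm (by abel))
  · exact absurd (h3_c hyx (by abel)) n7
  · exact absurd (h3_c hyx (by abel)) n10
  · exact h3_cont hp hA (p := b) (q := c) (r := a) (hbc) (by intro x hx; have := hsub x hx; tauto) (h3_c hyx.symm (by abel))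
  · exact h3_cont hp hA (p := a) (q := b) (r := c) (hab) (by intro x hx; have := hsub x hx; tauto) (h3_c hyx (by abel))
  · exact absurd (h3_c hyx (by abel)) n4
  · exact absurd (h3_c hyx (by abel)) n3
  · exact absurd (h3_c hyx (by abel)) n8
  · exact absurd (h3_c hyx (by abel)) n11
  · exact absurd (h3_c hyx (by abel)) n10
  · exact h3_cont hp hA (p := a) (q := c) (r := b) (hac) (by intro x hx; have := hsub x hx; tauto) (h3_c hyx (by abel))
  · exact absurd (h3_c hyx (by abel)) n5
  · exact absurd (h3_c hyx (by abel)) n4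
  · exact absurd (h3_c hyx (by abel)) n9
  · exact absurd (h3_c hyx (by abel)) n12
  · exact absurd (h3_c hyx (by abel)) n11
  · exact absurd (h3_inj hp h5 (h3_c hyx (by abel))) hac
  · exact h3_cont hp hA (p := c) (q := a) (r := b) (hac.symm) (by intro x hx; have := hsub x hx; tauto) (h3_c hyx.symm (by abel))
  · exact absurd (h3_c hyx (by abel)) n5
  · exact h3_cont hp hA (p := c) (q := b) (r := a) (hbc.symm) (by intro x hx; have := hsub x hx; tauto) (h3_c hyx.symm (by abel))
  · exact absurd (h3_c hyx (by abel)) n9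
  · exact absurd (h3_c hyx (by abel)) n12

omit [Fintype G] in
/-- **Row H3 (2).** `|2A| ≤ 6` for a three-element set. PROOF: `A + A ⊆ {2a, a+b, a+c, 2b, b+c, 2c}`,
`Finset.card_le_six` or `Finset.card_insert_le`. -/
theorem small3_two {A : Finset G} (hA : A.card = 3) : (A + A).card ≤ 6 := by
  obtain ⟨a, b, c, hab, hac, hbc, hAe⟩ := Finset.card_eq_three.1 hA
  exact (Finset.card_le_card (h3_sub hAe)).trans (List.toFinset_card_le _)

end Pool.Agent.SPN
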