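import Pool.Agent.SPN.G4

set_option autoImplicit false

namespace Pool.Agent.SPN

open Finset Pointwise Pool.Agent.MP_8507d5_co

universe u

variable {G : Type u} [AddCommGroup G] [Fintype G] [DecidableEq G]

/-- **Row H4 (0).** Normalisation in a group of prime order. PROOF: take `a ≠ b ∈ A`,
`g := b - a ≠ 0` generates (`zmultiples_eq_top_of_prime_card` or `isAddSimple`); `S` = the set of
indices `i < n` with `a + i • g ∈ A` (`exists_idx`, `idx_inj`, `card_idx`). -/
theorem normal_form {A : Finset G} (hp : (Fintype.card G).Prime) (h2 : 2 ≤ A.card) :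
    ∃ (a g : G) (S : Finset ℕ), AddSubgroup.zmultiples g = ⊤ ∧ 0 ∈ S ∧ 1 ∈ S ∧
      (∀ i ∈ S, i < Fintype.card G) ∧ S.card = A.card ∧
      ∀ y, y ∈ A ↔ ∃ i ∈ S, y = a + i • g := by
  obtain ⟨a, ha, b, hb, hab⟩ := Finset.one_lt_card.1 h2
  have hg0 : b - a ≠ 0 := sub_ne_zero.2 (Ne.symm hab)
  have hg : AddSubgroup.zmultiples (b - a) = ⊤ := by
    have : Fact (Fintype.card G).Prime := ⟨hp⟩
    exact zmultiples_eq_top_of_prime_card (p := Fintype.card G) Nat.card_eq_fintype_card hg0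
  refine ⟨a, b - a, (Finset.range (Fintype.card G)).filter (fun i => a + i • (b - a) ∈ A), hg, ?_, ?_, ?_, ?_, ?_⟩
  · rw [Finset.mem_filter, Finset.mem_range]
    exact ⟨hp.pos, by simpa using ha⟩
  · rw [Finset.mem_filter, Finset.mem_range]
    exact ⟨hp.one_lt, by simpa using hb⟩
  · intro i hi
    rw [Finset.mem_filter, Finset.mem_range] at hi
    exact hi.1
  · symm
    apply card_idx hg a A
    · intro i hi
      rw [Finset.mem_filter, Finset.mem_range] at hi
      exact hi.1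
    · intro i hi
      rw [Finset.mem_filter, Finset.mem_range]
      exact ⟨fun h => ⟨hi, h⟩, fun h => h.2⟩
  · intro y
    constructor
    · intro hy
      obtain ⟨i, hi, rfl⟩ := exists_idx hg a y
      exact ⟨i, Finset.mem_filter.2 ⟨Finset.mem_range.2 hi, hy⟩, rfl⟩
    · rintro ⟨i, hi, rfl⟩
      rw [Finset.mem_filter] at hi
      exact hi.2

/-! ## Boolean checks -/

def h4_nfL (n h y z : ℕ) : List ℕ :=
  (List.range (h + 1)).flatMap fun i => (List.range (h + 1 - i)).flatMap fun j =>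
    (List.range (h + 1 - i - j)).map fun l => (i + j * y + l * z) % n

def h4_nfB (n h y z : ℕ) : Bool := (List.range n).all fun r => (h4_nfL n h y z).contains r

def h4_cB (n K y z : ℕ) : Bool :=
  (List.range n).any fun t => decide (t ≠ 0) && (List.range n).any fun z0 =>
    [0, 1, y, z].all fun s => decide ((t * s + (n - z0)) % n ≤ K + 1)

omit [DecidableEq G] in
theorem h4_nsmul {g : G} (hg : AddSubgroup.zmultiples g = ⊤) {m m' : ℕ}
    (h : m % Fintype.card G = m' % Fintype.card G) : m • g = m' • g := by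
  apply nsmul_inj_mod.mpr
  rw [order_gen hg]; exact h

theorem h4_cont {A : Finset G} (hp : (Fintype.card G).Prime) {a g : G} {y z : ℕ}
    (hg : AddSubgroup.zmultiples g = ⊤)
    (hA : ∀ x ∈ A, ∃ i, (i = 0 ∨ i = 1 ∨ i = y ∨ i = z) ∧ x = a + i • g)
    (h : h4_cB (Fintype.card G) A.card y z = true) : Cont A := by
  simp only [h4_cB, List.any_eq_true, List.mem_range, Bool.and_eq_true, decide_eq_true_eq,
    List.all_eq_true] at h
  obtain ⟨t, ht, ht0, z0, hz0, hs⟩ := h
  have hc : Nat.Coprime (Fintype.card G) t :=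
    (Nat.Prime.coprime_iff_not_dvd hp).2
      (fun hd => absurd (Nat.le_of_dvd (Nat.pos_of_ne_zero ht0) hd) (by omega))
  refine cont_of_smul hc hg (t • a + z0 • g) ?_
  intro x hx
  obtain ⟨s, hs', rfl⟩ := hA x hx
  have hs1 := hs s (by simpa using hs')
  refine ⟨_, hs1, ?_⟩
  have : (t * s) • g = z0 • g + ((t * s + (Fintype.card G - z0)) % Fintype.card G) • g := by
    rw [← add_nsmul]
    apply h4_nsmul hg
    rw [Nat.add_mod_mod]
    have : z0 + (t * s + (Fintype.card G - z0)) = t * s + Fintype.card G := by omega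
    rw [this, Nat.add_mod_right]
  rw [nsmul_add, ← mul_nsmul', this, add_assoc]

omit [Fintype G] in
theorem h4_add {A : Finset G} {i j : ℕ} {x y : G} (hx : x ∈ nf A i) (hy : y ∈ nf A j) :
    x + y ∈ nf A (i + j) := by
  induction j generalizing y with
  | zero =>
    rw [nf, Finset.mem_singleton] at hy
    show x + y ∈ nf A i
    rw [hy, add_zero]; exact hx
  | succ j ih =>
    rw [nf, Finset.mem_add] at hy
    obtain ⟨y', hy', b, hb, rfl⟩ := hy
    show x + (y' + b) ∈ nf A (i + j) + A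
    rw [← add_assoc]
    exact Finset.add_mem_add (ih hy') hb

omit [Fintype G] in
theorem h4_mul {A : Finset G} {x : G} (hx : x ∈ A) (m : ℕ) : m • x ∈ nf A m := by
  induction m with
  | zero => rw [zero_nsmul]; exact Finset.mem_singleton_self 0
  | succ m ih =>
    rw [succ_nsmul]
    exact Finset.add_mem_add ih hx

theorem h4_full {A : Finset G} {a g : G} {h y z : ℕ} (hg : AddSubgroup.zmultiples g = ⊤)
    (h0 : a ∈ A) (h1 : a + 1 • g ∈ A) (hy : a + y • g ∈ A) (hz : a + z • g ∈ A)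
    (hB : h4_nfB (Fintype.card G) h y z = true) : nf A h = univ := by
  rw [Finset.eq_univ_iff_forall]
  intro x
  obtain ⟨r, hr, rfl⟩ := exists_idx hg (h • a) x
  simp only [h4_nfB, List.all_eq_true, List.mem_range, List.contains_iff_mem, h4_nfL,
    List.mem_flatMap, List.mem_map] at hB
  obtain ⟨i, hi, j, hj, l, hl, he⟩ := hB r hr
  have e1 : r • g = (i + j * y + l * z) • g := by
    apply h4_nsmul hg
    rw [← he, Nat.mod_mod]
  have e2 : h • a + r • g = i • (a + 1 • g) + (j • (a + y • g) + (l • (a + z • g) +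
      (h - i - j - l) • a)) := by
    rw [e1]
    have : h • a = i • a + (j • a + (l • a + (h - i - j - l) • a)) := by
      rw [← add_nsmul, ← add_nsmul, ← add_nsmul]; congr 1; omega
    rw [this, add_nsmul, add_nsmul, mul_nsmul', mul_nsmul', nsmul_add, nsmul_add, nsmul_add, one_nsmul]
    abel
  rw [e2]
  have := h4_add (h4_mul h1 i) (h4_add (h4_mul hy j) (h4_add (h4_mul hz l) (h4_mul h0 (h - i - j - l))))
  have e3 : i + (j + (l + (h - i - j - l))) = h := by omega
  rwa [e3] at this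

theorem h4_c13a : ∀ y < 13, 2 ≤ y → h4_cB 13 3 y y = true := by decide +kernel

theorem h4_c19 : ∀ y < 19, 2 ≤ y → (h4_nfB 19 6 y y || h4_cB 19 3 y y) = true := by decide +kernel

theorem h4_c13b : ∀ y < 13, 2 ≤ y → ∀ z < 13, 2 ≤ z → y ≠ z →
    (h4_nfB 13 3 y z || h4_cB 13 4 y z) = true := by decide +kernel

theorem h4_c17 : ∀ y < 17, 2 ≤ y → ∀ z < 17, 2 ≤ z → y ≠ z →
    (h4_nfB 17 4 y z || h4_cB 17 4 y z) = true := by decide +kernel

/-- three elements -/
theorem h4_three {A : Finset G} (hp : (Fintype.card G).Prime) (hA : A.card = 3) :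
    ∃ (a g : G) (y : ℕ), AddSubgroup.zmultiples g = ⊤ ∧ 2 ≤ y ∧ y < Fintype.card G ∧
      ∀ x, x ∈ A ↔ ∃ i, (i = 0 ∨ i = 1 ∨ i = y) ∧ x = a + i • g := by
  obtain ⟨a, g, S, hg, h0, h1, hlt, hc, hS⟩ := normal_form hp (show 2 ≤ A.card by omega)
  rw [hA] at hc
  have h01 : ({0, 1} : Finset ℕ) ⊆ S := by
    intro i hi
    rw [Finset.mem_insert, Finset.mem_singleton] at hi
    rcases hi with rfl | rfl
    · exact h0
    · exact h1
  have hc2 : (S \ {0, 1}).card = 1 := by
    rw [Finset.card_sdiff_of_subset h01, hc]; rfl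
  obtain ⟨y, hy⟩ := Finset.card_eq_one.1 hc2
  have hmem : ∀ i, i ∈ S ↔ (i = 0 ∨ i = 1 ∨ i = y) := by
    intro i
    have : i ∈ S \ {0, 1} ↔ i = y := by rw [hy, Finset.mem_singleton]
    rw [Finset.mem_sdiff, Finset.mem_insert, Finset.mem_singleton] at this
    constructor
    · intro hi
      by_cases h : i = 0 ∨ i = 1
      · tauto
      · exact Or.inr (Or.inr (this.1 ⟨hi, h⟩))
    · rintro (rfl | rfl | rfl)
      · exact h0
      · exact h1
      · exact (this.2 rfl).1
  have hyS : y ∈ S \ {0, 1} := by rw [hy]; exact Finset.mem_singleton_self y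
  rw [Finset.mem_sdiff, Finset.mem_insert, Finset.mem_singleton] at hyS
  refine ⟨a, g, y, hg, by omega, hlt y hyS.1, ?_⟩
  intro x
  rw [hS]
  simp only [hmem]

/-- four elements -/
theorem h4_four {A : Finset G} (hp : (Fintype.card G).Prime) (hA : A.card = 4) :
    ∃ (a g : G) (y z : ℕ), AddSubgroup.zmultiples g = ⊤ ∧ 2 ≤ y ∧ y < Fintype.card G ∧
      2 ≤ z ∧ z < Fintype.card G ∧ y ≠ z ∧
      ∀ x, x ∈ A ↔ ∃ i, (i = 0 ∨ i = 1 ∨ i = y ∨ i = z) ∧ x = a + i • g := by
  obtain ⟨a, g, S, hg, h0, h1, hlt, hc, hS⟩ := normal_form hp (show 2 ≤ A.card by omega)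
  rw [hA] at hc
  have h01 : ({0, 1} : Finset ℕ) ⊆ S := by
    intro i hi
    rw [Finset.mem_insert, Finset.mem_singleton] at hi
    rcases hi with rfl | rfl
    · exact h0
    · exact h1
  have hc2 : (S \ {0, 1}).card = 2 := by
    rw [Finset.card_sdiff_of_subset h01, hc]; rfl
  obtain ⟨y, z, hyz, hy⟩ := Finset.card_eq_two.1 hc2
  have hmem : ∀ i, i ∈ S ↔ (i = 0 ∨ i = 1 ∨ i = y ∨ i = z) := by
    intro i
    have : i ∈ S \ {0, 1} ↔ (i = y ∨ i = z) := by rw [hy, Finset.mem_insert, Finset.mem_singleton]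
    rw [Finset.mem_sdiff, Finset.mem_insert, Finset.mem_singleton] at this
    constructor
    · intro hi
      by_cases h : i = 0 ∨ i = 1
      · tauto
      · exact Or.inr (Or.inr (this.1 ⟨hi, h⟩))
    · rintro (rfl | rfl | hi)
      · exact h0
      · exact h1
      · exact (this.2 hi).1
  have hyS : y ∈ S \ {0, 1} := by rw [hy]; simp
  have hzS : z ∈ S \ {0, 1} := by rw [hy]; simp
  rw [Finset.mem_sdiff, Finset.mem_insert, Finset.mem_singleton] at hyS hzS
  refine ⟨a, g, y, z, hg, by omega, hlt y hyS.1, by omega, hlt z hzS.1, hyz, ?_⟩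
  intro x
  rw [hS]
  simp only [hmem]

/-- **Row H4 (1)-(4).** Finite checks. -/
theorem small3_13 {A : Finset G} (hG : Fintype.card G = 13) (hA : A.card = 3) : Cont A := by
  have hp : (Fintype.card G).Prime := by rw [hG]; norm_num
  obtain ⟨a, g, y, hg, h2, hy, hm⟩ := h4_three hp hA
  refine h4_cont (y := y) (z := y) (a := a) hp hg ?_ ?_
  · intro x hx
    obtain ⟨i, hi, rfl⟩ := (hm x).1 hx
    exact ⟨i, by tauto, rfl⟩
  · rw [hG] at hy ⊢
    rw [hA]
    exact h4_c13a y hy h2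

theorem small3_19 {A : Finset G} (hG : Fintype.card G = 19) (hA : A.card = 3)
    (hne : nf A 6 ≠ univ) : Cont A := by
  have hp : (Fintype.card G).Prime := by rw [hG]; norm_num
  obtain ⟨a, g, y, hg, h2, hy, hm⟩ := h4_three hp hA
  rw [hG] at hy
  have hB := h4_c19 y hy h2
  rw [Bool.or_eq_true] at hB
  rcases hB with hB | hB
  · exfalso
    apply hne
    have h0 : a ∈ A := (hm a).2 ⟨0, by tauto, by simp⟩
    have hyA : a + y • g ∈ A := (hm _).2 ⟨y, by tauto, rfl⟩
    exact h4_full (y := y) (z := y) (h := 6) hg h0 ((hm _).2 ⟨1, by tauto, rfl⟩) hyA hyA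
      (by rw [hG]; exact hB)
  · refine h4_cont (y := y) (z := y) (a := a) hp hg ?_ (by rw [hG, hA]; exact hB)
    intro x hx
    obtain ⟨i, hi, rfl⟩ := (hm x).1 hx
    exact ⟨i, by tauto, rfl⟩

theorem h4_all4 {A : Finset G} {n h : ℕ} (hn : n.Prime) (hG : Fintype.card G = n) (hA : A.card = 4)
    (hne : nf A h ≠ univ) (hB : ∀ y < n, 2 ≤ y → ∀ z < n, 2 ≤ z → y ≠ z →
      (h4_nfB n h y z || h4_cB n 4 y z) = true) : Cont A := by
  have hp : (Fintype.card G).Prime := by rw [hG]; exact hn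
  obtain ⟨a, g, y, z, hg, h2, hy, h2', hz, hyz, hm⟩ := h4_four hp hA
  rw [hG] at hy hz
  have hB := hB y hy h2 z hz h2' hyz
  rw [Bool.or_eq_true] at hB
  rcases hB with hB | hB
  · exfalso
    apply hne
    have h0 : a ∈ A := (hm a).2 ⟨0, by tauto, by simp⟩
    exact h4_full (y := y) (z := z) (h := h) hg h0 ((hm _).2 ⟨1, by tauto, rfl⟩)
      ((hm _).2 ⟨y, by tauto, rfl⟩) ((hm _).2 ⟨z, by tauto, rfl⟩) (by rw [hG]; exact hB)
  · refine h4_cont (y := y) (z := z) (a := a) hp hg ?_ (by rw [hG, hA]; exact hB)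
    intro x hx
    obtain ⟨i, hi, rfl⟩ := (hm x).1 hx
    exact ⟨i, hi, rfl⟩

theorem small4_13 {A : Finset G} (hG : Fintype.card G = 13) (hA : A.card = 4)
    (hne : nf A 3 ≠ univ) : Cont A :=
  h4_all4 (by norm_num) hG hA hne h4_c13b

theorem small4_17 {A : Finset G} (hG : Fintype.card G = 17) (hA : A.card = 4)
    (hne : nf A 4 ≠ univ) : Cont A :=
  h4_all4 (by norm_num) hG hA hne h4_c17

end Pool.Agent.SPN
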