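import Pool.Agent.MP_8507d5_co.Main

set_option autoImplicit false

namespace Pool.Agent.SPN

open Pool.Agent.MP_8507d5_co Finset Pointwise

/-- `v₁(n,h)`, the maximum over the divisors `d` of `n` of `(⌊(d-2)/h⌋ + 1) · n/d`
(integer floor division). -/
def v₁ (n h : ℕ) : ℕ :=
  n.divisors.sup (fun d => (((d : ℤ) - 2) / (h : ℤ) + 1).toNat * (n / d))

/-- The `h`-fold sumset `hA`. -/
def hFold {G : Type*} [AddCommGroup G] (h : ℕ) (A : Set G) : Set G :=
  {x | ∃ f : Fin h → G, (∀ i, f i ∈ A) ∧ ∑ i, f i = x}

theorem kk_eq' (d h : ℕ) (hh : 2 ≤ h) : ((d : ℤ) - 2) / (h : ℤ) + 1 = (kk d h : ℤ) := by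
  have hh0 : (h : ℤ) ≠ 0 := by omega
  have h2 : ((d + h - 2 : ℕ) : ℤ) = ((d : ℤ) - 2) + (h : ℤ) := by
    rw [Nat.cast_sub (by omega)]; push_cast; ring
  unfold kk
  rw [Int.natCast_ediv, h2, Int.add_ediv_of_dvd_right (dvd_refl _), Int.ediv_self hh0]

theorem kk_eq (d h : ℕ) (hh : 2 ≤ h) : (((d : ℤ) - 2) / (h : ℤ) + 1).toNat = kk d h := by
  rw [kk_eq' d h hh, Int.toNat_natCast]

theorem v₁_eq (n h : ℕ) (hh : 2 ≤ h) : v₁ n h = vv n h := by
  unfold v₁ vv
  apply Finset.sup_congr rfl
  intro d _
  rw [kk_eq d h hh]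

theorem nf_univ_iff {G : Type*} [AddCommGroup G] [Fintype G] [DecidableEq G] (h : ℕ)
    (A : Finset G) : nf A h = univ ↔ hFold h (A : Set G) = Set.univ := by
  rw [Finset.eq_univ_iff_forall, Set.eq_univ_iff_forall]
  constructor
  · intro h1 x; exact (mem_nf A h x).mp (h1 x)
  · intro h1 x; exact (mem_nf A h x).mpr (h1 x)

/-- Main case of the inverse problem. -/
theorem main_case {G : Type*} [AddCommGroup G] [Finite G] (h : ℕ) (hh : 2 ≤ h)
    (hd : ∃ d, d ∣ Nat.card G ∧ ¬ d ≡ 0 [MOD h] ∧ ¬ d ≡ 1 [MOD h]) (A : Set G) :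
    (A.ncard = v₁ (Nat.card G) h ∧ hFold h A ≠ Set.univ) ↔
      ∃ (H : AddSubgroup G) (x g : G) (k : ℕ),
        AddSubgroup.zmultiples (g : G ⧸ H) = ⊤ ∧
        (k : ℤ) = ((Nat.card (G ⧸ H) : ℤ) - 2) / (h : ℤ) + 1 ∧
        k * Nat.card H = v₁ (Nat.card G) h ∧
        A = {y | ∃ i < k, y - (x + i • g) ∈ H} := by
  classical
  have : Fintype G := Fintype.ofFinite G
  have hnpos : 0 < Nat.card G := Nat.card_pos
  have hbig : Nat.card G < h * vv (Nat.card G) h := by
    obtain ⟨d, hdn, h0, h1⟩ := hd
    have k1 := le_vv (Nat.card G) h d hnpos hdn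
    have k2 := kk_lower d h hh
    have hd0 : 0 < d := Nat.pos_of_dvd_of_pos hdn hnpos
    have k3 : d < h * kk d h := by
      by_contra hcon
      push Not at hcon
      rcases Nat.lt_or_ge (h * kk d h) d with hc | hc
      · apply h1
        have : d = 1 + h * kk d h := by omega
        rw [this]
        exact Nat.ModEq.symm (Nat.modEq_of_dvd (by push_cast; exact ⟨(kk d h : ℤ), by ring⟩))
      · apply h0
        have : d = h * kk d h := by omega
        exact (Nat.modEq_zero_iff_dvd).mpr ⟨kk d h, this⟩
    have k4 : 0 < Nat.card G / d := Nat.div_pos (Nat.le_of_dvd hnpos hdn) hd0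
    calc Nat.card G = d * (Nat.card G / d) := (Nat.mul_div_cancel' hdn).symm
      _ < (h * kk d h) * (Nat.card G / d) := Nat.mul_lt_mul_of_pos_right k3 k4
      _ = h * (kk d h * (Nat.card G / d)) := by ring
      _ ≤ _ := Nat.mul_le_mul_left _ k1
  rw [v₁_eq _ h hh]
  constructor
  · rintro ⟨hcard, hne⟩
    have hAf : (A.toFinset : Set G) = A := Set.coe_toFinset A
    have hnf : nf A.toFinset h ≠ univ := by
      intro hcon
      apply hne
      have := (nf_univ_iff h A.toFinset).mp hcon
      rwa [hAf] at this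
    obtain ⟨_, g2⟩ := main_theorem h hh (Fintype.card G) G rfl A.toFinset hnf
    rw [← Nat.card_eq_fintype_card] at g2
    have hc : A.toFinset.card = vv (Nat.card G) h := by
      rw [← hcard, Set.ncard_eq_toFinset_card']
    obtain ⟨H, x, g, k1, k2, k3⟩ := g2 hc hbig
    refine ⟨H, x, g, kk H.index h, ?_, ?_, ?_, ?_⟩
    · rw [eq_top_iff]
      intro q _
      induction q using QuotientAddGroup.induction_on with
      | H y =>
        obtain ⟨i, hi⟩ := k1 y
        rw [AddSubgroup.mem_zmultiples_iff]
        refine ⟨i, ?_⟩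
        rw [natCast_zsmul, ← QuotientAddGroup.mk_nsmul, QuotientAddGroup.eq]
        have : -(i • g) + y = y - i • g := by abel
        rw [this]; exact hi
    · rw [← kk_eq' _ h hh]; rfl
    · rw [← k2]
      congr 1
      have := AddSubgroup.card_mul_index H
      rw [← this]
      exact (Nat.mul_div_cancel _ (Nat.pos_of_ne_zero H.index_ne_zero_of_finite)).symm
    · rw [hAf] at k3
      ext y; exact k3 y
  · rintro ⟨H, x, g, k, hg, hk, hkv, rfl⟩
    have hidx : Nat.card (G ⧸ H) = H.index := rfl
    set d := Nat.card (G ⧸ H) with hd'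
    have hk' : k = kk d h := by
      rw [kk_eq' d h hh] at hk
      exact_mod_cast hk
    have hku := kk_upper d h
    rw [← hk'] at hku
    have hdpos : 0 < d := Nat.card_pos
    have hkd : k ≤ d := by
      by_contra hcon
      have : h * (d + 1) ≤ h * k := Nat.mul_le_mul_left _ (by omega)
      have h2 : h * (d + 1) = h * d + h := by ring
      have h3 : 2 * d ≤ h * d := Nat.mul_le_mul_right _ hh
      omega
    -- multiples of `g` are distinct modulo `H`
    have hord : addOrderOf (g : G ⧸ H) = d := by
      have h1 : Nat.card (AddSubgroup.zmultiples (g : G ⧸ H)) = addOrderOf (g : G ⧸ H) :=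
        Nat.card_zmultiples _
      rw [← h1, hg]
      exact AddSubgroup.card_top
    have hdist : ∀ i j : ℕ, i < d → j < d → i • g - j • g ∈ H → i = j := by
      intro i j hi hj hij
      have h1 : i • (g : G ⧸ H) = j • (g : G ⧸ H) := by
        rw [← QuotientAddGroup.mk_nsmul, ← QuotientAddGroup.mk_nsmul, QuotientAddGroup.eq]
        have : -(i • g) + j • g = -(i • g - j • g) := by abel
        rw [this]; exact H.neg_mem hij
      have h2 := (nsmul_inj_mod).mp h1
      rw [hord, Nat.mod_eq_of_lt hi, Nat.mod_eq_of_lt hj] at h2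
      exact h2
    constructor
    · -- cardinality
      rw [← hkv]
      let F : Fin k × H → {y : G | ∃ i < k, y - (x + i • g) ∈ H} := fun p =>
        ⟨x + (p.1 : ℕ) • g + (p.2 : G), ⟨p.1, p.1.2, by
          have : x + (p.1 : ℕ) • g + (p.2 : G) - (x + (p.1 : ℕ) • g) = (p.2 : G) := by abel
          rw [this]; exact p.2.2⟩⟩
      have hF : Function.Bijective F := by
        constructor
        · rintro ⟨i, m⟩ ⟨j, m'⟩ hij
          have h1 : x + (i : ℕ) • g + (m : G) = x + (j : ℕ) • g + (m' : G) :=
            congrArg Subtype.val hij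
          have h2 : (i : ℕ) • g - (j : ℕ) • g ∈ H := by
            have : (i : ℕ) • g - (j : ℕ) • g = (m' : G) - (m : G) := by
              have h3 : (i : ℕ) • g + (m : G) = (j : ℕ) • g + (m' : G) := by
                have := h1
                rw [add_assoc, add_assoc] at this
                exact add_left_cancel this
              rw [sub_eq_sub_iff_add_eq_add, h3, add_comm]
            rw [this]; exact H.sub_mem m'.2 m.2
          have h4 := hdist i j (by omega) (by omega) h2
          have h5 : i = j := Fin.ext h4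
          subst h5
          have h6 : (m : G) = (m' : G) := add_left_cancel h1
          rw [Subtype.ext h6]
        · rintro ⟨y, i, hi, hy⟩
          refine ⟨(⟨i, hi⟩, ⟨y - (x + i • g), hy⟩), ?_⟩
          apply Subtype.ext
          simp only [F]
          abel
      have h1 := Nat.card_congr (Equiv.ofBijective F hF)
      rw [Nat.card_prod, Nat.card_eq_fintype_card, Fintype.card_fin] at h1
      rw [h1]
      exact (Nat.card_coe_set_eq _).symm
    · intro hun
      have hy : h • x + (d - 1) • g ∈ hFold h {y | ∃ i < k, y - (x + i • g) ∈ H} := by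
        rw [hun]; trivial
      obtain ⟨f, hf, hsum⟩ := hy
      choose i hi hm using hf
      have hk1 : 1 ≤ k := by
        have := hi ⟨0, by omega⟩
        omega
      have hle : ∑ t, i t ≤ h * (k - 1) := by
        calc ∑ t, i t ≤ ∑ _t : Fin h, (k - 1) :=
              Finset.sum_le_sum (fun t _ => by have := hi t; omega)
          _ = h * (k - 1) := by simp
      have hlt : ∑ t, i t + 2 ≤ d := by
        have : h * k = h * (k - 1) + h := by
          obtain ⟨k', rfl⟩ : ∃ k', k = k' + 1 := ⟨k - 1, by omega⟩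
          simp; ring
        omega
      have hmem : (d - 1) • g - (∑ t, i t) • g ∈ H := by
        have h1 : ∑ t, (f t - (x + i t • g)) ∈ H := H.sum_mem (fun t _ => hm t)
        have h2 : ∑ t, (f t - (x + i t • g)) = (d - 1) • g - (∑ t, i t) • g := by
          rw [Finset.sum_sub_distrib, hsum, Finset.sum_add_distrib, Finset.sum_const,
            ← Finset.sum_nsmul_assoc]
          simp only [Finset.card_univ, Fintype.card_fin]
          abel
        rw [← h2]; exact h1
      have := hdist (d - 1) (∑ t, i t) (by omega) (by omega) hmem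
      omega

end Pool.Agent.SPN
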