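import Pool.Agent.SPN.D4
import Pool.Agent.SPN.G5
import Pool.Agent.SPN.G6
import Pool.Agent.SPN.H1
import Pool.Agent.SPN.H2
import Pool.Agent.SPN.H3
import Pool.Agent.SPN.H4

set_option autoImplicit false

namespace Pool.Agent.SPN

open Finset Pointwise Pool.Agent.MP_8507d5_co

universe u

variable {G : Type u} [AddCommGroup G] [Fintype G] [DecidableEq G]

omit [DecidableEq G] in
theorem gen_of_prime (hp : (Fintype.card G).Prime) {g : G} (hg : g ≠ 0) :
    AddSubgroup.zmultiples g = ⊤ := by
  have : Fact (Fintype.card G).Prime := ⟨hp⟩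
  exact zmultiples_eq_top_of_prime_card (p := Fintype.card G) (Nat.card_eq_fintype_card) hg

theorem no_proper_of_prime (hp : (Fintype.card G).Prime) (N : AddSubgroup G) (F : Finset G)
    (hF : ∀ x, x ∈ F ↔ x ∈ N) (h2 : 2 ≤ F.card) (hn : F.card < Fintype.card G) : False := by
  have h1 : F.card ∣ Fintype.card G := ⟨_, by rw [(card_quot N F hF).1]; ring⟩
  rcases (Nat.dvd_prime hp).mp h1 with h | h <;> omega

/-- An `AP` sumset in prime order. -/
theorem ap_of_double (hp : (Fintype.card G).Prime) (B : Finset G) (hB : 2 ≤ B.card)
    (h1 : (B + B).card + 1 ≤ 2 * B.card) (h2 : (B + B).card + 2 ≤ Fintype.card G) :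
    ∃ x g : G, AddSubgroup.zmultiples g = ⊤ ∧ ∀ y ∈ B, ∃ i : ℕ, i < B.card ∧ y = x + i • g := by
  rcases tight_structure B hB B ⟨hB, h2⟩ (by omega) with ⟨x, g, hg, h3⟩ | ⟨N, F, hF, h3, h4, _⟩
  · refine ⟨x, g, hg, ?_⟩
    intro y hy
    rw [h3, Finset.mem_image] at hy
    obtain ⟨i, hi, rfl⟩ := hy
    exact ⟨i, Finset.mem_range.mp hi, rfl⟩
  · exact (no_proper_of_prime hp N F hF h3 h4).elim

/-- `k ≤ 2`. -/
theorem prim_le_two {h : ℕ} {A : Finset G} (hE : Ext h A) (hT : Thick A 1) (hk : A.card ≤ 2) :
    Cont A := by
  classical
  have hh := hE.hh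
  have hcase : A.card = 0 ∨ A.card = 1 ∨ A.card = 2 := by omega
  rcases hcase with h0 | h0 | h0
  · -- `A = ∅`, the group is trivial
    have hc := hE.card
    rw [h0] at hc
    have hpos : 0 < Fintype.card G := Fintype.card_pos
    have h1 : Fintype.card G = 1 := by omega
    refine ⟨0, 0, ?_, ?_⟩
    · rw [eq_top_iff]
      intro x _
      have : Subsingleton G := Fintype.card_le_one_iff_subsingleton.mp (by omega)
      rw [Subsingleton.elim x 0]
      exact AddSubgroup.zero_mem _
    · intro a ha
      rw [Finset.card_eq_zero.mp h0] at ha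
      simp at ha
  · -- one element
    obtain ⟨x, hx⟩ := Finset.card_eq_one.mp h0
    have hprime : (Fintype.card G).Prime := by
      rcases hE.card with hc | hc
      · rw [h0, mul_one] at hc
        have := hE.adm.prime hh (by rw [hc])
        rwa [hc]
      · exact hE.adm.prime_of_small hh hc (by omega) (by omega)
    have : Nontrivial G := Fintype.one_lt_card_iff_nontrivial.mp hprime.one_lt
    obtain ⟨g, hg⟩ := exists_ne (0 : G)
    refine ⟨x, g, gen_of_prime hprime hg, ?_⟩
    intro a ha
    rw [hx, Finset.mem_singleton] at ha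
    exact ⟨0, by omega, by rw [ha]; simp⟩
  · obtain ⟨x, y, hxy, hA⟩ := Finset.card_eq_two.mp h0
    have hg : AddSubgroup.zmultiples (y - x) = ⊤ := by
      by_contra hne
      set N := AddSubgroup.zmultiples (y - x) with hN
      set F : Finset G := univ.filter (fun z => z ∈ N) with hFd
      have hF : ∀ z, z ∈ F ↔ z ∈ N := fun z => by simp [hFd]
      have hF2 : 2 ≤ F.card := by
        have h1 : ({0, y - x} : Finset G) ⊆ F := by
          intro z hz
          rw [Finset.mem_insert, Finset.mem_singleton] at hz
          rw [hF]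
          rcases hz with rfl | rfl
          · exact N.zero_mem
          · exact AddSubgroup.mem_zmultiples _
        have h2 := Finset.card_le_card h1
        rwa [Finset.card_pair (fun h => hxy (sub_eq_zero.mp h.symm).symm)] at h2
      have hFn : F.card < Fintype.card G := by
        rw [← Finset.card_univ]
        apply Finset.card_lt_card
        rw [Finset.ssubset_univ_iff]
        intro h1
        apply hne
        rw [eq_top_iff]; intro z _
        rw [← hF, h1]; exact Finset.mem_univ _
      have h1 := hT N F hF hF2 hFn
      have h2 : F + A ⊆ x +ᵥ F := by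
        intro z hz
        rw [Finset.mem_add] at hz
        obtain ⟨f, hf, a, ha, rfl⟩ := hz
        rw [Finset.mem_vadd_finset]
        refine ⟨f + (a - x), (hF _).mpr (N.add_mem ((hF f).mp hf) ?_), ?_⟩
        · rw [hA, Finset.mem_insert, Finset.mem_singleton] at ha
          rcases ha with rfl | rfl
          · simp [N.zero_mem]
          · exact AddSubgroup.mem_zmultiples _
        · simp only [vadd_eq_add]; abel
      have h3 := Finset.card_le_card h2
      rw [Finset.card_vadd_finset] at h3
      omega
    refine ⟨x, y - x, hg, ?_⟩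
    intro a ha
    rw [hA, Finset.mem_insert, Finset.mem_singleton] at ha
    rcases ha with rfl | rfl
    · exact ⟨0, by omega, by simp⟩
    · exact ⟨1, by omega, by simp⟩

/-- `k = 3`. -/
theorem prim_three {h : ℕ} {A : Finset G} (hE : Ext h A) (hT : Thick A 1) (hk : A.card = 3)
    (hnap : ¬ IsAP A) : Cont A := by
  have hh := hE.hh
  have hodd := hE.adm.odd hh
  have hT0 : Thick A 0 := hT.mono (by omega)
  rcases hE.card with hc | hc
  · rw [hk] at hc
    have h1 := hE.adm 3 ⟨h, by rw [hc]; ring⟩
    have h2 : h = 3 := by
      by_contra hne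
      rw [Nat.mod_eq_of_lt (by omega)] at h1
      omega
    subst h2
    exact small3_9 (by omega) hk hT
  · have hprime : (Fintype.card G).Prime := hE.adm.prime_of_small hh hc (by omega) (by omega)
    rw [hk] at hc
    have hcase : h = 3 ∨ h = 4 ∨ h = 5 ∨ h = 6 ∨ h = 7 ∨ h = 8 ∨ h = 9 ∨ 10 ≤ h := by omega
    rcases hcase with h0 | h0 | h0 | h0 | h0 | h0 | h0 | h0
    · exfalso; apply hodd; omega
    · exact small3_13 (by omega) hk
    · exfalso; apply hodd; omega
    · subst h0
      exact small3_19 (by omega) hk hE.ne
    · exfalso; apply hodd; omega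
    · exfalso
      have h2 : Fintype.card G = 25 := by omega
      rw [h2] at hprime
      exact absurd hprime (by norm_num)
    · exfalso; apply hodd; omega
    · have a2 := fold_card hE hT0 (by omega) hnap 2 (by omega) (by omega)
      have a3 := fold_card hE hT0 (by omega) hnap 3 (by omega) (by omega)
      have a6 := fold_card hE hT0 (by omega) hnap 6 (by omega) (by omega)
      have e2 : nf A 2 = A + A := by rw [show nf A 2 = nf A 1 + A from rfl, nf_one]
      rw [hk] at a2 a3 a6
      rcases Nat.lt_or_ge (nf A 3).card 10 with h3 | h3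
      · exact small3_rel hprime (by omega) hk (by rw [← e2]; omega) (by omega)
      · have e6 : nf A 3 + nf A 3 = nf A 6 := nf_add A 3 3
        obtain ⟨x, g, hg, h4⟩ := ap_of_double hprime (nf A 3) (by omega) (by rw [e6]; omega)
          (by rw [e6]; omega)
        have h310 : (nf A 3).card = 10 := by omega
        have hco : Nat.Coprime (Fintype.card G) 3 := by
          rw [Nat.coprime_comm, Nat.Prime.coprime_iff_not_dvd Nat.prime_three]
          omega
        obtain ⟨y, hy⟩ := fold_ap (A := A) (c := 3) (L := 10) hco (by omega) hg x (by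
          intro z hz
          obtain ⟨i, hi, h5⟩ := h4 z hz
          exact ⟨i, by omega, h5⟩) (by omega)
        refine ⟨y, g, hg, ?_⟩
        intro a ha
        obtain ⟨i, hi, h5⟩ := hy a ha
        exact ⟨i, by omega, h5⟩

/-- The case `κ₂(A) = |A|` or `κ₂(A) = |A| + 1`, `k ≥ 4`. -/
theorem prim_four {h : ℕ} {A : Finset G} (hE : Ext h A) (hT : Thick A 1) (hk : 4 ≤ A.card)
    (hnap : ¬ IsAP A) : Cont A := by
  have hh := hE.hh
  have hodd := hE.adm.odd hh
  have hT0 : Thick A 0 := hT.mono (by omega)
  have h3k : 3 * A.card ≤ Fintype.card G := by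
    have h1 : 3 * A.card ≤ h * A.card := Nat.mul_le_mul_right _ hh
    rcases hE.card with hc | hc <;> omega
  have hK := k2 hT0 (by omega) hnap
  have h2A := two_fold_le hE hT0 (by omega) hnap
  have halpha : (∃ X, Feas A 2 X ∧ (X + A).card = X.card + A.card) →
      (A + A).card + 4 ≤ 3 * A.card → Cont A := by
    intro hX h4
    obtain ⟨g, hg, hc⟩ := alphaPrim hE hT (by omega) hK hX
    exact two_main hg hc h3k hodd h2A h4
  rcases Nat.lt_or_ge A.card 5 with hk5 | hk5
  · -- k = 4
    have hk4 : A.card = 4 := by omega
    rcases hE.card with hc | hc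
    · rw [hk4] at hc
      exfalso; apply hodd; omega
    · have hprime : (Fintype.card G).Prime := hE.adm.prime_of_small hh hc (by omega) (by omega)
      rw [hk4] at hc
      have hcase : h = 3 ∨ h = 4 ∨ h = 5 ∨ h = 6 ∨ 7 ≤ h := by omega
      rcases hcase with h0 | h0 | h0 | h0 | h0
      · subst h0
        exact small4_13 (by omega) hk4 hE.ne
      · subst h0
        exact small4_17 (by omega) hk4 hE.ne
      · exfalso
        have h2 : Fintype.card G = 21 := by omega
        rw [h2] at hprime
        exact absurd hprime (by norm_num)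
      · exfalso
        have h2 : Fintype.card G = 25 := by omega
        rw [h2] at hprime
        exact absurd hprime (by norm_num)
      · rcases Nat.lt_or_ge (A + A).card 9 with h8 | h8
        · apply halpha
          · refine ⟨A, ⟨by omega, by omega⟩, ?_⟩
            have := hK A ⟨by omega, by omega⟩
            omega
          · omega
        · have a4 := fold_card hE hT0 (by omega) hnap 4 (by omega) (by omega)
          have e2 : nf A 2 = A + A := by rw [show nf A 2 = nf A 1 + A from rfl, nf_one]
          have e4 : (A + A) + (A + A) = nf A 4 := by rw [← e2]; exact nf_add A 2 2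
          rw [hk4] at a4
          obtain ⟨x, g, hg, h4⟩ := ap_of_double hprime (A + A) (by omega) (by rw [e4]; omega)
            (by rw [e4]; omega)
          obtain ⟨y, hy⟩ := fold_ap (A := A) (c := 2) (L := 9)
            (Nat.coprime_comm.mp (Nat.prime_two.coprime_iff_not_dvd.mpr hodd)) (by omega) hg x (by
              intro z hz
              rw [e2] at hz
              obtain ⟨i, hi, h5⟩ := h4 z hz
              exact ⟨i, by omega, h5⟩) (by omega)
          refine ⟨y, g, hg, ?_⟩
          intro a ha
          obtain ⟨i, hi, h5⟩ := hy a ha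
          exact ⟨i, by omega, h5⟩
  · by_cases hX : ∃ X, Feas A 2 X ∧ (X + A).card = X.card + A.card
    · exact halpha hX (by omega)
    · rcases alpha_or_beta hE hT0 (by omega) hnap with h1 | ⟨h1, h2, h3⟩
      · exact absurd h1 hX
      · subst h1
        obtain ⟨g, hg, hc⟩ := betaPrim hE hT (by omega) h2 h3 (by
          intro X hXf
          have h4 := hK X hXf
          by_contra hcon
          exact hX ⟨X, hXf, by omega⟩)
        refine three_fin hg hc h2 hodd ?_ h3 hE.ne
        by_contra hcon
        apply hodd
        omega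

/-- **Primitive case**: a thick extremal set lies in a progression of length `|A| + 2` with
generating difference. -/
theorem prim {h : ℕ} {A : Finset G} (hE : Ext h A) (hT : Thick A 1) : Cont A := by
  by_cases hap : IsAP A
  · exact hap.cont
  · rcases Nat.lt_or_ge A.card 3 with h1 | h1
    · exact prim_le_two hE hT (by omega)
    · rcases Nat.lt_or_ge A.card 4 with h2 | h2
      · exact prim_three hE hT (by omega) hap
      · exact prim_four hE hT h2 hap

end Pool.Agent.SPN
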