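import Pool.Agent.SPN.Arith
import Pool.Agent.SPN.G2

set_option autoImplicit false

/-! The types of extremal sets. -/

namespace Pool.Agent.SPN

open Finset Pointwise Pool.Agent.MP_8507d5_co

universe u

/-- `g` generates `G` modulo `L`. -/
def Gen {G : Type u} [AddCommGroup G] (L : AddSubgroup G) (g : G) : Prop :=
  ∀ y : G, ∃ i : ℕ, y - i • g ∈ L

/-- Preimage of a progression. -/
def TypeAP {G : Type u} [AddCommGroup G] (h : ℕ) (A : Set G) : Prop :=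
  ∃ (N : AddSubgroup G) (x g : G), Gen N g ∧
    ∀ y, y ∈ A ↔ ∃ i < kk N.index h, y - (x + i • g) ∈ N

/-- Type `TWO`: `t - 1` full cosets of `L`, a coset minus a `K`-coset, one `K`-coset. -/
def TypeTwo {G : Type u} [AddCommGroup G] (h : ℕ) (A : Set G) : Prop :=
  ∃ (K L : AddSubgroup G) (t : ℕ) (x g u v : G), K ≤ L ∧ 1 ≤ t ∧ Gen L g ∧ L.index = h * t ∧
    u - (x + (t - 1) • g) ∈ L ∧ v - (x + t • g) ∈ L ∧
    ∀ y, y ∈ A ↔ (∃ i < t - 1, y - (x + i • g) ∈ L) ∨ (y - u ∈ L ∧ y - u ∉ K) ∨ y - v ∈ K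

/-- The index sets of the sporadic sets. -/
def SporSet (h k : ℕ) (S : Set ℕ) : Prop :=
  (2 ≤ k ∧ S = {0} ∪ Set.Icc 2 k) ∨
  (h = 3 ∧ 4 ≤ k ∧ S = {0, 2} ∪ Set.Icc 4 (k + 1)) ∨
  (h = 3 ∧ 4 ≤ k ∧ S = {0, k + 1} ∪ Set.Icc 2 (k - 1)) ∨
  (h = 4 ∧ k = 3 ∧ S = {0, 1, 4})

/-- Sporadic type. -/
def TypeSpor {G : Type u} [AddCommGroup G] (h : ℕ) (A : Set G) : Prop :=
  ∃ (x g : G) (k : ℕ) (S : Set ℕ), Gen (⊥ : AddSubgroup G) g ∧ Nat.card G = h * k + 1 ∧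
    SporSet h k S ∧ ∀ y, y ∈ A ↔ ∃ s ∈ S, y = x + s • g

/-- **The classification.** -/
inductive Desc (h : ℕ) : (G : Type u) → [AddCommGroup G] → Set G → Prop
  | ap {G : Type u} [AddCommGroup G] (N : AddSubgroup G) (x g : G) (k : ℕ)
      (hg : AddSubgroup.zmultiples (g : G ⧸ N) = ⊤)
      (hk : (k : ℤ) = ((Nat.card (G ⧸ N) : ℤ) - 2) / (h : ℤ) + 1)
      (A : Set G) (hA : A = {y | ∃ i < k, y - (x + i • g) ∈ N}) : Desc h G A
  | two {G : Type u} [AddCommGroup G] (K L : AddSubgroup G) (hKL : K ≤ L) (x g u v : G) (t : ℕ)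
      (ht : 1 ≤ t) (hg : AddSubgroup.zmultiples (g : G ⧸ L) = ⊤) (hq : Nat.card (G ⧸ L) = h * t)
      (hu : u - (x + (t - 1) • g) ∈ L) (hv : v - (x + t • g) ∈ L)
      (A : Set G) (hA : A = {y | (∃ i < t - 1, y - (x + i • g) ∈ L) ∨
        (y - u ∈ L ∧ y - u ∉ K) ∨ y - v ∈ K}) : Desc h G A
  | spor {G : Type u} [AddCommGroup G] (x g : G) (k : ℕ) (S : Set ℕ)
      (hg : AddSubgroup.zmultiples g = ⊤) (hn : Nat.card G = h * k + 1)
      (hS : (2 ≤ k ∧ S = {0} ∪ Set.Icc 2 k) ∨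
        (h = 3 ∧ 4 ≤ k ∧ S = {0, 2} ∪ Set.Icc 4 (k + 1)) ∨
        (h = 3 ∧ 4 ≤ k ∧ S = {0, k + 1} ∪ Set.Icc 2 (k - 1)) ∨
        (h = 4 ∧ k = 3 ∧ S = {0, 1, 4}))
      (A : Set G) (hA : A = {y | ∃ s ∈ S, y = x + s • g}) : Desc h G A
  | step {G : Type u} [AddCommGroup G] (N : AddSubgroup G) (x d : G) (t : ℕ) (B : Set N)
      (ht : 1 ≤ t) (hd : AddSubgroup.zmultiples (d : G ⧸ N) = ⊤)
      (hq : Nat.card (G ⧸ N) = h * t + 1) (hB : Desc h N B)
      (A : Set G) (hA : A = {y | (∃ b ∈ B, y = x + (b : G)) ∨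
        ∃ j, 1 ≤ j ∧ j ≤ t ∧ y - (x + j • d) ∈ N}) : Desc h G A

section

variable {G : Type u} [AddCommGroup G]

theorem gen_of_zmultiples [Finite G] {L : AddSubgroup G} {g : G}
    (hg : AddSubgroup.zmultiples (g : G ⧸ L) = ⊤) : Gen L g := by
  intro y
  have h1 : (y : G ⧸ L) ∈ AddSubgroup.zmultiples (g : G ⧸ L) := by rw [hg]; trivial
  obtain ⟨i, hi⟩ := mem_multiples_iff_mem_zmultiples.mpr h1
  refine ⟨i, ?_⟩
  change i • (g : G ⧸ L) = (y : G ⧸ L) at hi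
  rw [← QuotientAddGroup.mk_nsmul, QuotientAddGroup.eq] at hi
  have : y - i • g = -(i • g) + y := by abel
  rw [this]; exact hi

theorem zmultiples_of_gen {L : AddSubgroup G} {g : G} (hg : Gen L g) :
    AddSubgroup.zmultiples (g : G ⧸ L) = ⊤ := by
  rw [eq_top_iff]
  intro q _
  induction q using QuotientAddGroup.induction_on with
  | H y =>
    obtain ⟨i, hi⟩ := hg y
    rw [AddSubgroup.mem_zmultiples_iff]
    refine ⟨i, ?_⟩
    rw [natCast_zsmul, ← QuotientAddGroup.mk_nsmul, QuotientAddGroup.eq]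
    have : -(i • g) + y = y - i • g := by abel
    rw [this]; exact hi

theorem gen_bot_of {g : G} [Finite G] (hg : AddSubgroup.zmultiples g = ⊤) :
    Gen (⊥ : AddSubgroup G) g := by
  intro y
  have h1 : y ∈ AddSubgroup.zmultiples g := by rw [hg]; trivial
  obtain ⟨i, hi⟩ := mem_multiples_iff_mem_zmultiples.mpr h1
  refine ⟨i, ?_⟩
  change i • g = y at hi
  rw [AddSubgroup.mem_bot, hi, sub_self]

theorem zmultiples_of_gen_bot {g : G} (hg : Gen (⊥ : AddSubgroup G) g) :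
    AddSubgroup.zmultiples g = ⊤ := by
  rw [eq_top_iff]
  intro y _
  obtain ⟨i, hi⟩ := hg y
  rw [AddSubgroup.mem_bot, sub_eq_zero] at hi
  rw [hi]
  exact AddSubgroup.nsmul_mem _ (AddSubgroup.mem_zmultiples g) i

/-- Multiples of a generator modulo `L`. -/
theorem gen_mod [Finite G] {L : AddSubgroup G} {g : G} (hg : Gen L g) (z : ℤ) :
    z • g ∈ L ↔ (L.index : ℤ) ∣ z := by
  have h0 : Nat.card (G ⧸ L) = L.index := rfl
  have hord : addOrderOf (g : G ⧸ L) = L.index := by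
    rw [← Nat.card_zmultiples, zmultiples_of_gen hg, AddSubgroup.card_top, h0]
  rw [← hord, addOrderOf_dvd_iff_zsmul_eq_zero, ← QuotientAddGroup.mk_zsmul,
    QuotientAddGroup.eq_zero_iff]

theorem gen_inj [Finite G] {L : AddSubgroup G} {g : G} (hg : Gen L g) {i j : ℕ}
    (hi : i < L.index) (hj : j < L.index) (hij : i • g - j • g ∈ L) : i = j := by
  have h1 : ((i : ℤ) - j) • g ∈ L := by
    rw [sub_zsmul, natCast_zsmul, natCast_zsmul, ← sub_eq_add_neg]; exact hij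
  rw [gen_mod hg] at h1
  obtain ⟨m, hm⟩ := h1
  have h2 : m = 0 := by
    by_contra hne
    rcases Int.lt_or_gt_of_ne hne with h3 | h3
    · have : (L.index : ℤ) * m ≤ (L.index : ℤ) * (-1) :=
        mul_le_mul_of_nonneg_left (by omega) (by omega)
      omega
    · have : (L.index : ℤ) * 1 ≤ (L.index : ℤ) * m :=
        mul_le_mul_of_nonneg_left (by omega) (by omega)
      omega
  rw [h2] at hm
  omega

end

end Pool.Agent.SPN
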