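import Pool.Agent.SPN.C3a
import Pool.Agent.SPN.E1
import Pool.Agent.SPN.Y0

set_option autoImplicit false

namespace Pool.Agent.SPN

open Finset Pointwise Pool.Agent.MP_8507d5_co

universe u

variable {G : Type u} [AddCommGroup G]

/-- The image of `A` in `G ⧸ N`. -/
def im (N : AddSubgroup G) [DecidableEq (G ⧸ N)] (A : Finset G) : Finset (G ⧸ N) :=
  A.image (fun a : G => (a : G ⧸ N))

theorem mem_im {N : AddSubgroup G} [DecidableEq (G ⧸ N)] {A : Finset G} {q : G ⧸ N} :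
    q ∈ im N A ↔ ∃ a ∈ A, (a : G ⧸ N) = q := by simp [im]

theorem mk_mem_im {N : AddSubgroup G} [DecidableEq (G ⧸ N)] {A : Finset G} {a : G} (ha : a ∈ A) :
    (a : G ⧸ N) ∈ im N A := mem_im.mpr ⟨a, ha, rfl⟩

end Pool.Agent.SPN
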