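import Pool.Agent.SPN.Q0

set_option autoImplicit false

namespace Pool.Agent.SPN

open Finset Pointwise Pool.Agent.MP_8507d5_co

universe u

variable {G : Type u} [AddCommGroup G] [Fintype G] [DecidableEq G]

/-- **Row Q1 (1).** `|N + A| = |A mod N| |N|`.
PROOF: `card_full` (file C3a) with `R := F + A`; the image of `F + A` in `G ⧸ N` is `im N A`. -/
theorem card_im (N : AddSubgroup G) [DecidableEq (G ⧸ N)] (F : Finset G)
    (hF : ∀ x, x ∈ F ↔ x ∈ N) (A : Finset G) : (F + A).card = (im N A).card * F.card := by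
  have h1 := card_full N F hF (F + A) (by
    intro a ha f hf
    obtain ⟨f0, hf0, x, hx, rfl⟩ := Finset.mem_add.1 ha
    have e : f0 + x + f = (f0 + f) + x := by abel
    rw [e]
    refine Finset.add_mem_add ?_ hx
    exact (hF _).2 (N.add_mem ((hF _).1 hf0) ((hF _).1 hf)))
  have h2 : (F + A).image (fun a : G => (a : G ⧸ N)) = im N A := by
    ext q
    rw [Finset.mem_image, mem_im]
    constructor
    · rintro ⟨a, ha, rfl⟩
      obtain ⟨f0, hf0, x, hx, rfl⟩ := Finset.mem_add.1 ha
      refine ⟨x, hx, ?_⟩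
      rw [QuotientAddGroup.eq]
      have e : -x + (f0 + x) = f0 := by abel
      rw [e]
      exact (hF _).1 hf0
    · rintro ⟨a, ha, rfl⟩
      refine ⟨0 + a, Finset.add_mem_add ((hF _).2 N.zero_mem) ha, ?_⟩
      rw [zero_add]
  rw [h1, h2]

omit [Fintype G] in
/-- **Row Q1 (2).** Lifting representations.
PROOF: `mem_nf`, `mem_im`, `choose`; `mk_eq_iff` and `map_sum` for `QuotientAddGroup.mk' N`. -/
theorem exists_lift {h : ℕ} (N : AddSubgroup G) [DecidableEq (G ⧸ N)] (A : Finset G) (g : G)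
    (hg : (g : G ⧸ N) ∈ nf (im N A) h) :
    ∃ a : Fin h → G, (∀ i, a i ∈ A) ∧ g - ∑ i, a i ∈ N := by
  obtain ⟨f, hf, hs⟩ := (mem_nf (im N A) h _).1 hg
  have h1 : ∀ i, ∃ a ∈ A, ((a : G) : G ⧸ N) = f i := fun i => mem_im.1 (hf i)
  choose a ha hfa using h1
  refine ⟨a, ha, ?_⟩
  have h2 : ((∑ i, a i : G) : G ⧸ N) = (g : G ⧸ N) := by
    have h3 := map_sum (QuotientAddGroup.mk' N) a Finset.univ
    refine h3.trans ?_
    rw [← hs]
    exact Finset.sum_congr rfl fun i _ => hfa i
  rw [QuotientAddGroup.eq] at h2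
  have e : g - ∑ i, a i = -(∑ i, a i) + g := by abel
  rw [e]
  exact h2

omit [Fintype G] in
/-- **Row Q1 (3).** Lifting a given representation.
PROOF: `mem_im`, `choose`. -/
theorem lift_fun {h : ℕ} (N : AddSubgroup G) [DecidableEq (G ⧸ N)] (A : Finset G)
    (f : Fin h → G ⧸ N) (hf : ∀ i, f i ∈ im N A) :
    ∃ a : Fin h → G, (∀ i, a i ∈ A) ∧ (∀ i, (a i : G ⧸ N) = f i) ∧
      ((∑ i, a i : G) : G ⧸ N) = ∑ i, f i := by
  have h1 : ∀ i, ∃ a ∈ A, ((a : G) : G ⧸ N) = f i := fun i => mem_im.1 (hf i)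
  choose a ha hfa using h1
  refine ⟨a, ha, hfa, ?_⟩
  have h3 := map_sum (QuotientAddGroup.mk' N) a Finset.univ
  refine h3.trans ?_
  exact Finset.sum_congr rfl fun i _ => hfa i

omit [Fintype G] in
/-- **Row Q1 (4).** Holes: for `T ⊆ A` with pairwise different classes modulo `N`,
`|A| + |T| |N| ≤ |N + A| + ∑ |fib t|`.
PROOF: induction on `T`, or directly: the sets `(t +ᵥ F) \ A`, `t ∈ T`, are pairwise disjoint, each
has `|F| - |fib t|` elements (`fib N A t = A ∩ (t +ᵥ F)`), they are disjoint from `A`, and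
`A ∪ ⋃ (t +ᵥ F) ⊆ F + A` (`0 ∈ F`, `T ⊆ A`). -/
theorem holes (N : AddSubgroup G) (F : Finset G) (hF : ∀ x, x ∈ F ↔ x ∈ N) (A T : Finset G)
    (hTA : T ⊆ A) (hT : ∀ s ∈ T, ∀ t ∈ T, s - t ∈ N → s = t) :
    A.card + T.card * F.card ≤ (F + A).card + ∑ t ∈ T, (fib N A t).card := by
  have hS : ∀ t : G, (F.image (fun f => f + t)).card = F.card := fun t =>
    Finset.card_image_of_injective F (add_left_injective t)
  have hmem : ∀ t x : G, x ∈ F.image (fun f => f + t) ↔ x - t ∈ N := by
    intro t x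
    rw [Finset.mem_image]
    constructor
    · rintro ⟨f, hf, rfl⟩
      rw [add_sub_cancel_right]
      exact (hF f).1 hf
    · intro h
      exact ⟨x - t, (hF _).2 h, sub_add_cancel x t⟩
  have hcard : ∀ t ∈ T, (F.image (fun f => f + t) \ A).card + (fib N A t).card = F.card := by
    intro t _
    have h1 : F.image (fun f => f + t) ∩ A = fib N A t := by
      ext x
      rw [Finset.mem_inter, hmem, mem_fib]
      exact And.comm
    rw [← h1, Finset.card_sdiff_add_card_inter, hS]
  have hdisj : (T : Set G).PairwiseDisjoint fun t => F.image (fun f => f + t) \ A := by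
    intro s hs t ht hst
    rw [Function.onFun, Finset.disjoint_left]
    intro x hx hx'
    rw [Finset.mem_sdiff, hmem] at hx hx'
    apply hst
    apply hT s hs t ht
    have e : s - t = (x - t) - (x - s) := by abel
    rw [e]
    exact N.sub_mem hx'.1 hx.1
  have hU : (T.biUnion fun t => F.image (fun f => f + t) \ A).card =
      ∑ t ∈ T, (F.image (fun f => f + t) \ A).card := Finset.card_biUnion hdisj
  have hAU : Disjoint A (T.biUnion fun t => F.image (fun f => f + t) \ A) := by
    rw [Finset.disjoint_left]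
    intro x hx hx'
    obtain ⟨t, _, ht⟩ := Finset.mem_biUnion.1 hx'
    exact (Finset.mem_sdiff.1 ht).2 hx
  have hsub : A ∪ (T.biUnion fun t => F.image (fun f => f + t) \ A) ⊆ F + A := by
    intro x hx
    rcases Finset.mem_union.1 hx with hx | hx
    · have h1 := Finset.add_mem_add ((hF 0).2 N.zero_mem) hx
      rwa [zero_add] at h1
    · obtain ⟨t, ht, hxt⟩ := Finset.mem_biUnion.1 hx
      obtain ⟨f, hf, rfl⟩ := Finset.mem_image.1 (Finset.mem_sdiff.1 hxt).1
      exact Finset.add_mem_add hf (hTA ht)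
  have h2 := Finset.card_le_card hsub
  rw [Finset.card_union_of_disjoint hAU, hU] at h2
  have h3 : ∑ t ∈ T, (F.image (fun f => f + t) \ A).card + ∑ t ∈ T, (fib N A t).card =
      T.card * F.card := by
    rw [← Finset.sum_add_distrib, Finset.sum_congr rfl hcard, Finset.sum_const, smul_eq_mul]
  omega

end Pool.Agent.SPN
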