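import Pool.Agent.SPN.Q0

set_option autoImplicit false

namespace Pool.Agent.SPN

open Finset Pointwise Pool.Agent.MP_8507d5_co

universe u

variable {G : Type u} [AddCommGroup G] [Fintype G] [DecidableEq G]

/-- preimages of finsets of `G ⧸ N` -/
theorem q2_pre (N : AddSubgroup G) [DecidableEq (G ⧸ N)] (F : Finset G)
    (hF : ∀ x, x ∈ F ↔ x ∈ N) (B : Finset (G ⧸ N)) :
    (univ.filter (fun x : G => (x : G ⧸ N) ∈ B)).card = B.card * F.card := by
  have h1 := card_full N F hF (univ.filter (fun x : G => (x : G ⧸ N) ∈ B)) (by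
    intro a ha f hf
    rw [mem_filter] at ha ⊢
    refine ⟨mem_univ _, ?_⟩
    have h0 : ((f : G) : G ⧸ N) = 0 := (QuotientAddGroup.eq_zero_iff f).2 ((hF f).1 hf)
    rw [QuotientAddGroup.mk_add, h0, add_zero]
    exact ha.2)
  rw [h1]
  congr 2
  ext q
  rw [mem_image]
  constructor
  · rintro ⟨x, hx, rfl⟩
    exact (mem_filter.1 hx).2
  · intro hq
    obtain ⟨x, rfl⟩ := QuotientAddGroup.mk_surjective q
    exact ⟨x, mem_filter.2 ⟨mem_univ _, hq⟩, rfl⟩

/-- **Row Q2 (1).** Preimages of subgroups of `G ⧸ N`.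
PROOF. `F'' := univ.filter (fun x : G => (x : G ⧸ N) ∈ F')`. For any finset `B` of `G ⧸ N` the
preimage `univ.filter (fun x => (x : G ⧸ N) ∈ B)` has `|B| |F|` elements (`card_full` of file C3a:
it is a union of full cosets and its image is `B` as `mk` is surjective). This gives the first
count, and `F'' + A` is the preimage of `F' + im N A` (if `mk x = f + mk a`, then `x - a ∈ F''`). -/
theorem comap_card (N : AddSubgroup G) [DecidableEq (G ⧸ N)] (F : Finset G)
    (hF : ∀ x, x ∈ F ↔ x ∈ N) (A : Finset G) (N' : AddSubgroup (G ⧸ N)) (F' : Finset (G ⧸ N))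
    (hF' : ∀ x, x ∈ F' ↔ x ∈ N') :
    ∃ F'' : Finset G, (∀ x, x ∈ F'' ↔ x ∈ N'.comap (QuotientAddGroup.mk' N)) ∧
      F''.card = F'.card * F.card ∧ (F'' + A).card = (F' + im N A).card * F.card := by
  refine ⟨univ.filter (fun x : G => (x : G ⧸ N) ∈ F'), ?_, q2_pre N F hF F', ?_⟩
  · intro x
    rw [mem_filter, hF', AddSubgroup.mem_comap]
    exact ⟨fun h => h.2, fun h => ⟨mem_univ _, h⟩⟩
  · rw [← q2_pre N F hF (F' + im N A)]
    congr 1
    ext x
    rw [mem_add, mem_filter, mem_add]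
    constructor
    · rintro ⟨y, hy, a, ha, rfl⟩
      refine ⟨mem_univ _, (y : G ⧸ N), (mem_filter.1 hy).2, (a : G ⧸ N), mk_mem_im ha, rfl⟩
    · rintro ⟨-, q, hq, r, hr, hqr⟩
      obtain ⟨a, ha, rfl⟩ := mem_im.1 hr
      refine ⟨x - a, mem_filter.2 ⟨mem_univ _, ?_⟩, a, ha, sub_add_cancel x a⟩
      have : ((x - a : G) : G ⧸ N) = q := by
        rw [QuotientAddGroup.mk_sub, ← hqr, add_sub_cancel_right]
      rw [this]
      exact hq

/-- **Row Q2 (2).** The image of `A` is thick if all larger proper subgroups are good.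
PROOF. Let `N'` (finset `F'`) be a proper nontrivial subgroup of `G ⧸ N`. `comap_card` for `N'`:
`|F''| = |F'| l`, `l := |F|`; it is proper as `|F'| < |G ⧸ N|`
(`|G| = |G ⧸ N| l`, `card_quot` in C3a), and `|F''| > l` as `|F'| ≥ 2`, `l ≥ 2`. `hmax` gives
`|F'| l + |A| + c ≤ |F' + im| l`. With `hA`: `(|F'| + |im|) l < |F'| l + |A| + l + c
≤ |F' + im| l + l = (|F' + im| + 1) l`, so `|F'| + |im| ≤ |F' + im|`. -/
theorem im_thick (N : AddSubgroup G) [Fintype (G ⧸ N)] [DecidableEq (G ⧸ N)] (F : Finset G)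
    (hF : ∀ x, x ∈ F ↔ x ∈ N) (h2 : 2 ≤ F.card) (A : Finset G) (c : ℕ)
    (hmax : ∀ (M : AddSubgroup G) (E : Finset G), (∀ x, x ∈ E ↔ x ∈ M) → F.card < E.card →
      E.card < Fintype.card G → E.card + A.card + c ≤ (E + A).card)
    (hA : (im N A).card * F.card < A.card + F.card + c) : Thick (im N A) 0 := by
  intro N' F' hF' h2' hlt
  obtain ⟨F'', hm, hc1, hc2⟩ := comap_card N F hF A N' F' hF'
  have hG := (card_quot N F hF).1
  rw [Nat.card_eq_fintype_card] at hG
  have h3 : F.card < F''.card := by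
    rw [hc1]
    calc F.card < 2 * F.card := by omega
      _ ≤ F'.card * F.card := Nat.mul_le_mul_right _ h2'
  have h4 : F''.card < Fintype.card G := by
    rw [hc1, hG]
    exact Nat.mul_lt_mul_of_pos_right hlt (by omega)
  have h5 := hmax (N'.comap (QuotientAddGroup.mk' N)) F'' hm h3 h4
  rw [hc1, hc2] at h5
  have h6 : (F'.card + (im N A).card) * F.card < ((F' + im N A).card + 1) * F.card := by
    rw [add_mul, add_mul, one_mul]
    omega
  have h7 : F'.card + (im N A).card < (F' + im N A).card + 1 := Nat.lt_of_mul_lt_mul_right h6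
  omega

end Pool.Agent.SPN
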