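import Pool.Agent.SPN.Q1
import Pool.Agent.SPN.Q2

set_option autoImplicit false

namespace Pool.Agent.SPN

open Finset Pointwise Pool.Agent.MP_8507d5_co

universe u

variable {G : Type u} [AddCommGroup G] [Fintype G] [DecidableEq G]

/-- **Row R1 (1).** The periodic case. PROOF. `l := |F|`, `k := |A|`, `n = h t l` (`card_quot`).
`hE.card`: `n = h k + 1` is impossible (`h ∣ 1`), so `k = t l`. `r := |im|`: `r l = |F + A| < (t + 1) l`
gives `r ≤ t`; `k ≤ |F + A| = r l` gives `r ≥ t`. So `|F + A| = k` and `A = F + A`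
(`Finset.eq_of_subset_of_card_le`). -/
theorem per_pre {h : ℕ} {A : Finset G} (hE : Ext h A) {N : AddSubgroup G}
    [DecidableEq (G ⧸ N)] {F : Finset G} (hF : ∀ x, x ∈ F ↔ x ∈ N) (h2 : 2 ≤ F.card)
    (hFA : (F + A).card < F.card + A.card) {t : ℕ} (hq : Nat.card (G ⧸ N) = h * t) :
    (∀ a ∈ A, ∀ f ∈ N, a + f ∈ A) ∧ (im N A).card = t ∧ A.card = t * F.card := by
  have hn := (card_quot N F hF).1
  rw [hq] at hn
  have hh := hE.hh
  have hk : A.card = t * F.card := by
    rcases hE.card with h1 | h1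
    · have h3 : h * A.card = h * (t * F.card) := by rw [← h1, hn]; ring
      exact Nat.eq_of_mul_eq_mul_left (by omega) h3
    · exfalso
      have h3 : h ∣ h * A.card + 1 := ⟨t * F.card, by rw [← h1, hn]; ring⟩
      have h4 : h ∣ 1 := (Nat.dvd_add_right (dvd_mul_right h A.card)).1 h3
      have h5 := Nat.le_of_dvd one_pos h4
      omega
  have hr := card_im N F hF A
  have h0 : (0 : G) ∈ F := (hF 0).2 N.zero_mem
  have hsub : A ⊆ F + A := by
    intro a ha
    rw [Finset.mem_add]
    exact ⟨0, h0, a, ha, zero_add a⟩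
  have hle := Finset.card_le_card hsub
  have h6 : (im N A).card < t + 1 := by
    have h7 : (im N A).card * F.card < (t + 1) * F.card := by
      rw [← hr, Nat.add_mul, one_mul, ← hk]
      omega
    exact lt_of_mul_lt_mul_right h7 (Nat.zero_le _)
  have h8 : t ≤ (im N A).card := by
    have h7 : t * F.card ≤ (im N A).card * F.card := by
      rw [← hr, ← hk]
      exact hle
    exact le_of_mul_le_mul_right h7 (by omega)
  have h9 : (im N A).card = t := by omega
  have h10 : A = F + A := by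
    refine Finset.eq_of_subset_of_card_le hsub ?_
    rw [hr, h9, hk]
  refine ⟨?_, h9, hk⟩
  intro a ha f hf
  rw [h10, Finset.mem_add]
  exact ⟨f, (hF f).2 hf, a, ha, add_comm f a⟩

/-- **Row R1 (2).** The image is extremal. PROOF. `Adm.dvd` (`|G ⧸ N|` divides `|G|`, `card_quot`),
`|G ⧸ N| = h t = h |im|` (`per_pre`). If `nf (im N A) h = univ`, then for every `g` `exists_lift` gives
`a` with `g - ∑ a ∈ N` and `absorb` (file C3a, `A` is periodic) gives `g ∈ nf A h`; contradiction. -/
theorem per_ext {h : ℕ} {A : Finset G} (hE : Ext h A) {N : AddSubgroup G} [Fintype (G ⧸ N)]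
    [DecidableEq (G ⧸ N)] {F : Finset G} (hF : ∀ x, x ∈ F ↔ x ∈ N) (h2 : 2 ≤ F.card)
    (hFA : (F + A).card < F.card + A.card) {t : ℕ} (hq : Nat.card (G ⧸ N) = h * t) :
    Ext h (im N A) := by
  obtain ⟨hper, him, -⟩ := per_pre hE hF h2 hFA hq
  have hn := (card_quot N F hF).1
  have hh := hE.hh
  refine ⟨hh, ?_, ?_, ?_⟩
  · refine hE.adm.dvd ⟨F.card, ?_⟩
    rw [← Nat.card_eq_fintype_card (α := G ⧸ N)]
    exact hn
  · left
    rw [← Nat.card_eq_fintype_card, hq, him]
  · intro hun
    apply hE.ne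
    rw [Finset.eq_univ_iff_forall]
    intro g
    obtain ⟨a, ha, hs⟩ := exists_lift N A g (by rw [hun]; exact Finset.mem_univ _)
    exact absorb A N a ha ⟨0, by omega⟩ (fun f hf => hper _ (ha _) f hf) g hs

end Pool.Agent.SPN
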