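import Pool.Agent.SPN.Y0

set_option autoImplicit false

namespace Pool.Agent.SPN

open Pool.Agent.MP_8507d5_co

universe u

variable {G : Type u} [AddCommGroup G] [Finite G]

omit [Finite G] in
theorem r2_gen {N : AddSubgroup G} {N' : AddSubgroup (G ⧸ N)} {g : G}
    (hg : Gen N' (g : G ⧸ N)) : Gen (N'.comap (QuotientAddGroup.mk' N)) g := by
  intro y
  obtain ⟨i, hi⟩ := hg (y : G ⧸ N)
  exact ⟨i, hi⟩

omit [Finite G] in
theorem r2_index {N : AddSubgroup G} (N' : AddSubgroup (G ⧸ N)) :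
    (N'.comap (QuotientAddGroup.mk' N)).index = N'.index :=
  AddSubgroup.index_comap_of_surjective _ (QuotientAddGroup.mk'_surjective N)

/-- **Row R2 (1).** Pulling back along `G → G ⧸ N`. PROOF. `TypeAP` for `B`: `N', x', g'`; take lifts
`x, g` (`QuotientAddGroup.mk'_surjective`) and `N'.comap (mk' N)`;
`AddSubgroup.index_comap_of_surjective`. (See the end of `quot_case` in Main.lean.) -/
theorem pull_ap {h : ℕ} (N : AddSubgroup G) {A : Set G} {B : Set (G ⧸ N)}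
    (hA : ∀ y : G, y ∈ A ↔ (y : G ⧸ N) ∈ B) (hB : TypeAP h B) : TypeAP h A := by
  obtain ⟨N', x', g', hg, hB⟩ := hB
  obtain ⟨x, rfl⟩ := QuotientAddGroup.mk'_surjective N x'
  obtain ⟨g, rfl⟩ := QuotientAddGroup.mk'_surjective N g'
  refine ⟨N'.comap (QuotientAddGroup.mk' N), x, g, r2_gen hg, fun y => ?_⟩
  rw [hA, hB, r2_index]
  exact Iff.rfl

/-- **Row R2 (2).** PROOF: same with `K', L'` (`AddSubgroup.comap_mono`), lifts of `x, g, u, v`. -/
theorem pull_two {h : ℕ} (N : AddSubgroup G) {A : Set G} {B : Set (G ⧸ N)}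
    (hA : ∀ y : G, y ∈ A ↔ (y : G ⧸ N) ∈ B) (hB : TypeTwo h B) : TypeTwo h A := by
  obtain ⟨K', L', t, x', g', u', v', hKL, ht, hg, hi, hu, hv, hB⟩ := hB
  obtain ⟨x, rfl⟩ := QuotientAddGroup.mk'_surjective N x'
  obtain ⟨g, rfl⟩ := QuotientAddGroup.mk'_surjective N g'
  obtain ⟨u, rfl⟩ := QuotientAddGroup.mk'_surjective N u'
  obtain ⟨v, rfl⟩ := QuotientAddGroup.mk'_surjective N v'
  refine ⟨K'.comap (QuotientAddGroup.mk' N), L'.comap (QuotientAddGroup.mk' N), t, x, g, u, v,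
    AddSubgroup.comap_mono hKL, ht, r2_gen hg, by rw [r2_index]; exact hi, hu, hv, fun y => ?_⟩
  rw [hA, hB]
  exact Iff.rfl

/-- **Row R2 (3).** PROOF: `zmultiples_of_gen`; `k := kk N.index h`; `Nat.card (G ⧸ N) = N.index` is
`rfl`; the integer formula is `kk_eq'` in Pool/Agent/Results/MP_8507d5_co/MainCase.lean:
`((d : ℤ) - 2) / h + 1 = (d + (h - 2)) / h`, i.e. `Int.add_ediv_of_dvd_right`, `Int.natCast_ediv`. -/
theorem TypeAP.desc {h : ℕ} (hh : 2 ≤ h) {A : Set G} (hA : TypeAP h A) : Desc h G A := by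
  obtain ⟨N, x, g, hg, hA⟩ := hA
  refine Desc.ap N x g (kk N.index h) (zmultiples_of_gen hg) ?_ A (Set.ext fun y => hA y)
  have h1 : Nat.card (G ⧸ N) = N.index := rfl
  rw [h1]
  have h2 : ((kk N.index h : ℕ) : ℤ) = ((N.index : ℤ) + (h - 2)) / h := by
    unfold kk
    have h4 : N.index + h - 2 = N.index + (h - 2) := by omega
    rw [h4, Int.natCast_ediv, Nat.cast_add, Nat.cast_sub hh]
    rfl
  rw [h2]
  have h3 : ((N.index : ℤ) + (h - 2)) = ((N.index : ℤ) - 2) + h := by ring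
  rw [h3, Int.add_ediv_of_dvd_right (dvd_refl _), Int.ediv_self (by omega)]

/-- **Row R2 (4).** -/
theorem TypeTwo.desc {h : ℕ} {A : Set G} (hA : TypeTwo h A) : Desc h G A := by
  obtain ⟨K, L, t, x, g, u, v, hKL, ht, hg, hi, hu, hv, hA⟩ := hA
  exact Desc.two K L hKL x g u v t ht (zmultiples_of_gen hg) hi hu hv A (Set.ext fun y => hA y)

/-- **Row R2 (5).** PROOF: `zmultiples_of_gen_bot`, `Desc.spor`. -/
theorem TypeSpor.desc {h : ℕ} {A : Set G} (hA : TypeSpor h A) : Desc h G A := by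
  obtain ⟨x, g, k, S, hg, hn, hS, hA⟩ := hA
  exact Desc.spor x g k S (zmultiples_of_gen_bot hg) hn hS A (Set.ext fun y => hA y)

end Pool.Agent.SPN
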