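import Pool.Agent.SPN.U1

set_option autoImplicit false

namespace Pool.Agent.SPN

open Finset Pointwise Pool.Agent.MP_8507d5_co

universe u

variable {Q : Type u} [AddCommGroup Q] [Fintype Q] [DecidableEq Q]

omit [Fintype Q] [DecidableEq Q] in
theorem u2_hu {P : Finset Q} {c : ℕ} (h0 : (0 : Q) ∈ P) (hc : 2 ≤ c)
    (hZ : ∀ f : Fin c → Q, (∀ i, f i ∈ P) → ∑ i, f i = 0 → ∀ i, f i = 0) :
    ∀ a ∈ P, ∀ b ∈ P, a + b = 0 → a = 0 := by
  intro a ha b hb hab
  obtain ⟨m, rfl⟩ : ∃ m, c = m + 1 + 1 := ⟨c - 2, by omega⟩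
  have h1 := hZ (Fin.cons a (Fin.cons b (fun _ => 0))) (by
    intro i
    refine Fin.cases ?_ (fun j => ?_) i
    · simpa using ha
    · refine Fin.cases ?_ (fun k => ?_) j
      · simpa using hb
      · simpa using h0) (by
    rw [Fin.sum_univ_succ, Fin.sum_univ_succ]
    simp [hab]) 0
  simpa using h1

/-- **Row U2.** The image of a set of type `TWO` (normalised at the small coset).
PROOF. `c := h - 1 ≥ 2`. The `t - 1` elements `δ - p`, `p ∈ P \ {0, δ}`, are outside `nf P c` (`hD`),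
so `|nf P c| + (t - 1) ≤ h t`, i.e. `|nf P c| + c ≤ c |P| + 1`. `double_eq` gives
`|P + P| + 1 = 2 |P|`. Apply `crit_ap`: `t = 1` or `2 t + 3 ≤ h t` (if `t ≥ 2`: clear for `h ≥ 4`;
for `h = 3` it needs `t ≥ 3`, and `t = 2` is excluded by `hodd`); `hu` from `hZ` with the function
`(a, b, 0, …, 0)` on `Fin c`. We get `g` with `P = {i • g : i ≤ t}`; `δ = s • g`, `1 ≤ s ≤ t`
(`δ ≠ 0`). If `s ≥ 2`: `p := 1 • g ∈ P` is not `0`, not `δ` (`idx_inj`, `t < |Q|`), and
`δ - p = (s - 1) • g ∈ P = nf P 1 ⊆ nf P c` (`nf_mono`, `nf_one`), against `hD`. So `s = 1`,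
`δ = g`. -/
theorem two_ap {h t : ℕ} {P : Finset Q} {δ : Q} (hh : 3 ≤ h) (hodd : ¬ 2 ∣ Fintype.card Q)
    (hq : Fintype.card Q = h * t) (ht : 1 ≤ t) (hP : P.card = t + 1) (h0 : (0 : Q) ∈ P)
    (hδ : δ ∈ P) (hδ0 : δ ≠ 0) (hT : Thick P 0)
    (hZ : ∀ f : Fin (h - 1) → Q, (∀ i, f i ∈ P) → ∑ i, f i = 0 → ∀ i, f i = 0)
    (hD : ∀ p ∈ P, p ≠ 0 → p ≠ δ → δ - p ∉ nf P (h - 1)) :
    AddSubgroup.zmultiples δ = ⊤ ∧ ∀ y, y ∈ P ↔ ∃ i : ℕ, i ≤ t ∧ y = i • δ := by
  have hc1 : (nf P (h - 1)).card + (t - 1) ≤ h * t := by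
    have e1 : ((P \ {0, δ}).image (fun p => δ - p)).card = t - 1 := by
      rw [Finset.card_image_of_injective _ (fun a b hab => sub_right_injective hab),
        Finset.card_sdiff_of_subset, Finset.card_pair hδ0.symm, hP]
      · omega
      · intro x hx
        rcases Finset.mem_insert.mp hx with h1 | h1
        · rw [h1]; exact h0
        · rw [Finset.mem_singleton.mp h1]; exact hδ
    have e2 : Disjoint (nf P (h - 1)) ((P \ {0, δ}).image (fun p => δ - p)) := by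
      rw [Finset.disjoint_right]
      intro x hx
      obtain ⟨p, hp, rfl⟩ := Finset.mem_image.mp hx
      rw [Finset.mem_sdiff, Finset.mem_insert, Finset.mem_singleton, not_or] at hp
      exact hD p hp.1 hp.2.1 hp.2.2
    rw [← e1, ← Finset.card_union_of_disjoint e2, ← hq]
    exact Finset.card_le_univ _
  have hmul : (h - 1) * (t + 1) + 1 + t = h * t + h := by
    obtain ⟨m, rfl⟩ : ∃ m, h = m + 1 := ⟨h - 1, by omega⟩
    rw [Nat.add_sub_cancel]
    ring
  have h2 : (P + P).card + 1 = 2 * P.card :=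
    double_eq h0 (by omega : 2 ≤ h - 1) hZ (by rw [hP]; omega)
  have hlarge : t < h * t ∧ 3 ≤ h * t := ⟨by nlinarith, by nlinarith⟩
  have hbig : t = 1 ∨ 2 * t + 3 ≤ Fintype.card Q := by
    by_cases h1 : t = 1
    · exact Or.inl h1
    · right
      rw [hq]
      rcases Nat.lt_or_ge h 4 with h4 | h4
      · have h3 : h = 3 := by omega
        subst h3
        rcases Nat.lt_or_ge t 3 with h5 | h5
        · exfalso
          have h6 : t = 2 := by omega
          rw [hq, h6] at hodd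
          exact hodd (by norm_num)
        · omega
      · have h7 : 4 * t ≤ h * t := Nat.mul_le_mul_right t h4
        omega
  obtain ⟨g, hg, hPg⟩ := crit_ap hP ht hbig h0 hT h2 (u2_hu h0 (by omega : 2 ≤ h - 1) hZ)
  obtain ⟨s, hs, hs2⟩ := (hPg δ).mp hδ
  have hs0 : s ≠ 0 := by
    rintro rfl
    rw [zero_nsmul] at hs2
    exact hδ0 hs2
  have hs1 : s = 1 := by
    by_contra hs1
    have h1 : (1 : ℕ) • g ∈ P := (hPg _).mpr ⟨1, ht, rfl⟩
    have h3 : (1 : ℕ) • g ≠ 0 := by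
      intro h4
      have h5 := idx_inj hg (x := 0) (i := 1) (j := 0) (by omega) (by omega)
        (by rw [h4, zero_nsmul])
      omega
    have h6 : (1 : ℕ) • g ≠ δ := by
      intro h4
      have h5 := idx_inj hg (x := 0) (i := 1) (j := s) (by omega) (by omega)
        (by rw [h4, hs2])
      omega
    refine hD _ h1 h3 h6 ?_
    have h7 : δ - (1 : ℕ) • g ∈ P := by
      refine (hPg _).mpr ⟨s - 1, by omega, ?_⟩
      have h8 : s • g = (s - 1) • g + (1 : ℕ) • g := by rw [← add_nsmul]; congr 1; omega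
      rw [hs2, h8, add_sub_cancel_right]
    have h9 := nf_mono P h0 (show 1 ≤ h - 1 by omega)
    rw [nf_one] at h9
    exact h9 h7
  rw [hs1, one_nsmul] at hs2
  rw [hs2]
  exact ⟨hg, hPg⟩

/-- **Row U2 (2).** The image of a set of type `STEP` (normalised at the special coset).
PROOF. `|nf P h| ≤ |Q| = h t + 1`, so `|nf P h| + h ≤ h |P| + 1`; `double_eq` with `c = h`; `crit_ap`:
`t = 1` or `2 t + 3 ≤ h t + 1` (clear for `t ≥ 2, h ≥ 3`); `hu` from `hZ`. -/
theorem step_ap {h t : ℕ} {P : Finset Q} (hh : 3 ≤ h) (hq : Fintype.card Q = h * t + 1)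
    (ht : 1 ≤ t) (hP : P.card = t + 1) (h0 : (0 : Q) ∈ P) (hT : Thick P 0)
    (hZ : ∀ f : Fin h → Q, (∀ i, f i ∈ P) → ∑ i, f i = 0 → ∀ i, f i = 0) :
    ∃ g : Q, AddSubgroup.zmultiples g = ⊤ ∧ ∀ y, y ∈ P ↔ ∃ i : ℕ, i ≤ t ∧ y = i • g := by
  have h1 : (nf P h).card ≤ h * t + 1 := by
    rw [← hq]; exact Finset.card_le_univ _
  have h2 : (P + P).card + 1 = 2 * P.card := by
    refine double_eq h0 (by omega : 2 ≤ h) hZ ?_
    rw [hP]
    have h3 : h * (t + 1) = h * t + h := by ring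
    omega
  have hbig : t = 1 ∨ 2 * t + 3 ≤ Fintype.card Q := by
    by_cases h3 : t = 1
    · exact Or.inl h3
    · right
      rw [hq]
      have h4 : 2 ≤ t := by omega
      nlinarith
  exact crit_ap hP ht hbig h0 hT h2 (u2_hu h0 (by omega : 2 ≤ h) hZ)

end Pool.Agent.SPN
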