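import Pool.Agent.SPN.Q1
import Pool.Agent.SPN.Q2
import Pool.Agent.SPN.U2

set_option autoImplicit false

/-! Type `STEP`: the situation. -/

namespace Pool.Agent.SPN

open Finset Pointwise Pool.Agent.MP_8507d5_co

universe u

variable {G : Type u} [AddCommGroup G] [Fintype G] [DecidableEq G]

/-- `|G ⧸ N| = h t + 1`, `|N + A| < |N| + |A|`, `g₀ ∉ hA`. -/
structure StepPre (h : ℕ) (A : Finset G) (N : AddSubgroup G) (F : Finset G) (t : ℕ) (g₀ : G) :
    Prop where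
  hE : Ext h A
  hF : ∀ x, x ∈ F ↔ x ∈ N
  h2 : 2 ≤ F.card
  hFA : (F + A).card < F.card + A.card
  hq : Nat.card (G ⧸ N) = h * t + 1
  ht : 1 ≤ t
  hg₀ : g₀ ∉ nf A h

/-- The normalised situation: `0 ∈ A`, and all representations of `g₀` modulo `N` are in `N`. -/
structure StepSetup (h : ℕ) (A : Finset G) (N : AddSubgroup G) (F : Finset G) (t : ℕ) (g₀ : G) :
    Prop extends StepPre h A N F t g₀ where
  h0 : (0 : G) ∈ A
  hgN : g₀ ∈ N
  hall : ∀ b : Fin h → G, (∀ i, b i ∈ A) → g₀ - ∑ i, b i ∈ N → ∀ i, b i ∈ N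

end Pool.Agent.SPN
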