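import Pool.Agent.SPN.S0

set_option autoImplicit false

namespace Pool.Agent.SPN

open Finset Pointwise Pool.Agent.MP_8507d5_co

universe u

variable {G : Type u} [AddCommGroup G] [Fintype G] [DecidableEq G]

/-- **Row S1 (1).** PROOF. `r := |im|`, `l := |F|`, `k := |A|`, `n := |G| = (h t + 1) l`
(`card_quot`), `|F + A| = r l` (`card_im`), `k ≤ |F + A|` (`A ⊆ F + A`). `r l < l + k` and `h k ≤ n`
(`hE.card`): `h (r - 1) l < (h t + 1) l`, so `h (r - 1) ≤ h t`, `r ≤ t + 1`. If `r ≤ t`: `k ≤ t l`,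
`n - 1 ≤ h k ≤ h t l`, but `n - 1 = h t l + l - 1 > h t l`. So `r = t + 1` and `t l < k`.
`span_of_card` in `G ⧸ N`: `(h t + 1) / h = t < t + 1`. -/
theorem StepPre.span {h : ℕ} {A : Finset G} {N : AddSubgroup G} {F : Finset G} {t : ℕ} {g₀ : G}
    [Fintype (G ⧸ N)] [DecidableEq (G ⧸ N)] (hS : StepPre h A N F t g₀) :
    (im N A).card = t + 1 ∧ t * F.card < A.card ∧ nf (im N A) h = univ := by
  have hh := hS.hE.hh
  have h2 := hS.h2
  have hn := (card_quot N F hS.hF).1
  rw [hS.hq] at hn
  have him := card_im N F hS.hF A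
  have h0F : (0 : G) ∈ F := (hS.hF 0).2 N.zero_mem
  have hAF : A.card ≤ (F + A).card := by
    refine Finset.card_le_card fun a ha => ?_
    rw [Finset.mem_add]
    exact ⟨0, h0F, a, ha, zero_add a⟩
  have hFA := hS.hFA
  rw [him] at hAF hFA
  have hk : Fintype.card G = h * A.card ∨ Fintype.card G = h * A.card + 1 := hS.hE.card
  rw [hn] at hk
  have hr1 : (im N A).card ≤ t + 1 := by
    by_contra hcon
    have h3 : t + 2 ≤ (im N A).card := by omega
    have h4 : (t + 2) * F.card ≤ (im N A).card * F.card := Nat.mul_le_mul_right _ h3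
    have h5 : (t + 1) * F.card < A.card := by nlinarith
    have h6 : h * ((t + 1) * F.card) < h * A.card := Nat.mul_lt_mul_of_pos_left h5 (by omega)
    have h7 : h * A.card ≤ (h * t + 1) * F.card := by
      rcases hk with hk | hk <;> omega
    have h8 : 3 * F.card ≤ h * F.card := Nat.mul_le_mul_right _ hh
    nlinarith
  have hr2 : t + 1 ≤ (im N A).card := by
    by_contra hcon
    have h3 : (im N A).card ≤ t := by omega
    have h4 : (im N A).card * F.card ≤ t * F.card := Nat.mul_le_mul_right _ h3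
    have h5 : h * A.card ≤ h * (t * F.card) := Nat.mul_le_mul_left _ (hAF.trans h4)
    have h6 : (h * t + 1) * F.card = h * (t * F.card) + F.card := by ring
    rcases hk with hk | hk <;> omega
  have hr : (im N A).card = t + 1 := le_antisymm hr1 hr2
  refine ⟨hr, ?_, ?_⟩
  · rw [hr] at hFA
    nlinarith
  · have hc : Fintype.card (G ⧸ N) = h * t + 1 := by
      rw [← Nat.card_eq_fintype_card]
      exact hS.hq
    refine span_of_card hh (fun d hd => hS.hE.adm d (hd.trans ?_)) _ ?_
    · rw [hc, hn]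
      exact Dvd.intro _ rfl
    · rw [hc, hr, Nat.mul_add_div (by omega), Nat.div_eq_of_lt (by omega)]
      omega

theorem s1_two {h : ℕ} {A : Finset G} {N : AddSubgroup G} {F : Finset G} {t : ℕ} {g₀ : G}
    (hS : StepPre h A N F t g₀) {x y : G} (hx : x ∈ A) (hy : y ∈ A)
    (hc : (fib N A x).card + (fib N A y).card ≤ F.card) : x - y ∈ N := by
  by_contra hxy
  have hne : x ≠ y := by
    rintro rfl
    rw [sub_self] at hxy
    exact hxy N.zero_mem
  have h1 := holes N F hS.hF A {x, y} (by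
    intro z hz
    rw [Finset.mem_insert, Finset.mem_singleton] at hz
    rcases hz with rfl | rfl
    · exact hx
    · exact hy) (by
    intro a ha b hb hab
    rw [Finset.mem_insert, Finset.mem_singleton] at ha hb
    rcases ha with rfl | rfl <;> rcases hb with rfl | rfl
    · rfl
    · exact absurd hab hxy
    · exact absurd (by rw [← neg_sub]; exact N.neg_mem hab) hxy
    · rfl)
  rw [Finset.card_pair hne, Finset.sum_pair hne] at h1
  have h2 := hS.hFA
  omega

theorem s1_rep {h : ℕ} {A : Finset G} {N : AddSubgroup G} {F : Finset G} {t : ℕ} {g₀ : G}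
    (hS : StepPre h A N F t g₀) {b : Fin h → G} (hb : ∀ i, b i ∈ A) (hs : g₀ - ∑ i, b i ∈ N)
    (i j : Fin h) : b i - b j ∈ N ∧ 2 * (fib N A (b i)).card ≤ F.card := by
  have key : ∀ i j, b i - b j ∈ N := by
    intro i j
    by_cases hij : i = j
    · rw [hij, sub_self]
      exact N.zero_mem
    · exact s1_two hS (hb i) (hb j) (claimR hS.hF hS.hg₀ b hb hs i j hij)
  refine ⟨key i j, ?_⟩
  have hh := hS.hE.hh
  obtain ⟨k, hk⟩ : ∃ k : Fin h, i ≠ k := by
    by_cases h0 : i.1 = 0
    · refine ⟨⟨1, by omega⟩, fun h1 => ?_⟩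
      have := congrArg Fin.val h1
      simp only [h0] at this
      omega
    · refine ⟨⟨0, by omega⟩, fun h1 => h0 ?_⟩
      rw [h1]
  have h1 := claimR hS.hF hS.hg₀ b hb hs i k hk
  rw [← fib_congr (key i k)] at h1
  omega

/-- **Row S1 (2).** All representations of `g₀` modulo `N` are constant, with the same constant.
PROOF. `l := |F|`. If a representation `b` has `b i ≢ b j`: `claimR` (file E1) gives
`|fib (b i)| + |fib (b j)| ≤ l` and `holes` with `T = {b i, b j}` gives
`|A| + 2 l ≤ |F + A| + l < 2 l + |A|`, contradiction. There is a representation `b` (`StepPre.span`,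
`exists_lift`, `classical`); `b₀ := b 0`. `claimR` for two indices: `2 |fib b₀| ≤ l` (`fib_congr`). If
another representation is constant `≡ a'` with `a' ≢ b₀`, then `2 |fib a'| ≤ l` and `holes` with
`T = {b₀, a'}`: `|A| + 2 l ≤ |F + A| + l`, the same contradiction. `g₀ ≡ h • b₀`. -/
theorem step_center {h : ℕ} {A : Finset G} {N : AddSubgroup G} {F : Finset G} {t : ℕ} {g₀ : G}
    (hS : StepPre h A N F t g₀) :
    ∃ b₀ ∈ A, g₀ - h • b₀ ∈ N ∧ ∀ b : Fin h → G, (∀ i, b i ∈ A) → g₀ - ∑ i, b i ∈ N →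
      ∀ i, b i - b₀ ∈ N := by
  classical
  have : Fintype (G ⧸ N) := Fintype.ofFinite _
  have hh := hS.hE.hh
  obtain ⟨b, hb, hs⟩ := exists_lift N A g₀ (by rw [hS.span.2.2]; exact Finset.mem_univ _)
  set z : Fin h := ⟨0, by omega⟩ with hz
  refine ⟨b z, hb z, ?_, ?_⟩
  · have h1 : g₀ - h • b z = (g₀ - ∑ i, b i) + ∑ i, (b i - b z) := by
      rw [Finset.sum_sub_distrib, Finset.sum_const, Finset.card_univ, Fintype.card_fin]
      abel
    rw [h1]
    exact N.add_mem hs (N.sum_mem fun i _ => (s1_rep hS hb hs i z).1)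
  · intro b' hb' hs' i
    have h1 := (s1_rep hS hb hs z z).2
    have h2 := (s1_rep hS hb' hs' i i).2
    exact s1_two hS (hb' i) (hb z) (by omega)

/-- **Row S1 (3).** Normalisation. PROOF: `step_center`, translate by `-b₀`: `A' := (-b₀) +ᵥ A`,
`g₀' := g₀ - h • b₀ ∈ N`. `Ext.translate`, `|F + A'| = |F + A|` (see `Thick.translate`), `nf_translate`;
a representation `b'` of `g₀'` by `A'` is `b' i = b i - b₀` for a representation `b` of `g₀`. -/
theorem step_setup {h : ℕ} {A : Finset G} {N : AddSubgroup G} {F : Finset G} {t : ℕ} {g₀ : G}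
    (hS : StepPre h A N F t g₀) :
    ∃ b₀ : G, StepSetup h ((-b₀) +ᵥ A) N F t (g₀ - h • b₀) := by
  obtain ⟨b₀, hb₀, hgN, hall⟩ := step_center hS
  refine ⟨b₀, ⟨⟨hS.hE.translate _, hS.hF, hS.h2, ?_, hS.hq, hS.ht, ?_⟩, ?_, hgN, ?_⟩⟩
  · have h3 : (F + ((-b₀) +ᵥ A)).card = (F + A).card := by
      rw [add_comm F, vadd_add_assoc, Finset.card_vadd_finset, add_comm A]
    rw [h3, Finset.card_vadd_finset]
    exact hS.hFA
  · intro hcon
    rw [nf_translate, Finset.mem_vadd_finset] at hcon
    obtain ⟨y, hy, hyg⟩ := hcon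
    apply hS.hg₀
    have h1 : y = g₀ := by
      rw [vadd_eq_add, smul_neg] at hyg
      have h2 : y = (-(h • b₀) + y) + h • b₀ := by abel
      rw [h2, hyg]
      abel
    rw [← h1]
    exact hy
  · rw [Finset.mem_vadd_finset]
    exact ⟨b₀, hb₀, by rw [vadd_eq_add]; abel⟩
  · intro b hb hs i
    have hb' : ∀ i, b i + b₀ ∈ A := by
      intro i
      obtain ⟨a, ha, hab⟩ := Finset.mem_vadd_finset.1 (hb i)
      rw [← hab, vadd_eq_add]
      have h1 : -b₀ + a + b₀ = a := by abel
      rw [h1]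
      exact ha
    have h1 := hall (fun i => b i + b₀) hb' (by
      rw [Finset.sum_add_distrib, Finset.sum_const, Finset.card_univ, Fintype.card_fin]
      have h2 : g₀ - (∑ i, b i + h • b₀) = g₀ - h • b₀ - ∑ i, b i := by abel
      rw [h2]
      exact hs) i
    rwa [add_sub_cancel_right] at h1

end Pool.Agent.SPN
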