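import Pool.Agent.SPN.S1

set_option autoImplicit false

namespace Pool.Agent.SPN

open Finset Pointwise Pool.Agent.MP_8507d5_co

universe u

variable {G : Type u} [AddCommGroup G] [Fintype G] [DecidableEq G]

/-- **Row S2 (1).** The image is a progression starting at `0`.
PROOF. `classical`, `Fintype (G ⧸ N)`. `P := im N A`, `|P| = t + 1` (`StepPre.span`), `0 ∈ P`.
`Thick P 0`: `im_thick` with `c = 0` (`|P| l = (t + 1) l < |A| + l`). If `f : Fin h → G ⧸ N` has values in
`P` and sum `0`: lift by `lift_fun` to `b`, `∑ b ∈ N`, `g₀ - ∑ b ∈ N`, so by `hall` all `b i ∈ N`,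
`f i = 0`. `step_ap` gives a generator `g` of `G ⧸ N`, `g = mk d` for some `d : G`, and
`y ∈ P ↔ y = i • g, i ≤ t`. Translate with `mk_eq_iff`, `gen_of_zmultiples`. -/
theorem step_image {h : ℕ} {A : Finset G} {N : AddSubgroup G} {F : Finset G} {t : ℕ} {g₀ : G}
    (hS : StepSetup h A N F t g₀)
    (hmax : ∀ (M : AddSubgroup G) (E : Finset G), (∀ x, x ∈ E ↔ x ∈ M) → F.card < E.card →
      E.card < Fintype.card G → E.card + A.card ≤ (E + A).card) :
    ∃ d : G, Gen N d ∧ ∀ y : G, (∃ a ∈ A, y - a ∈ N) ↔ ∃ i : ℕ, i ≤ t ∧ y - i • d ∈ N := by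
  classical
  have _ft : Fintype (G ⧸ N) := Fintype.ofFinite _
  obtain ⟨hP, hlt, hspan⟩ := hS.toStepPre.span
  have h0 : (0 : G ⧸ N) ∈ im N A := mk_mem_im hS.h0
  have hT : Thick (im N A) 0 := by
    refine im_thick N F hS.hF hS.h2 A 0 ?_ ?_
    · intro M E hE h1 h2
      exact hmax M E hE h1 h2
    · rw [hP, add_mul, one_mul]
      omega
  have hZ : ∀ f : Fin h → G ⧸ N, (∀ i, f i ∈ im N A) → ∑ i, f i = 0 → ∀ i, f i = 0 := by
    intro f hf hsum i
    obtain ⟨a, ha, hfa, hs⟩ := lift_fun N A f hf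
    rw [hsum] at hs
    have h1 : ∑ i, a i ∈ N := (QuotientAddGroup.eq_zero_iff _).mp hs
    have h2 := hS.hall a ha (N.sub_mem hS.hgN h1) i
    rw [← hfa i]
    exact (QuotientAddGroup.eq_zero_iff _).mpr h2
  have hq : Fintype.card (G ⧸ N) = h * t + 1 := by
    rw [← Nat.card_eq_fintype_card]; exact hS.hq
  obtain ⟨g, hg, hPg⟩ := step_ap hS.hE.hh hq hS.ht hP h0 hT hZ
  obtain ⟨d, rfl⟩ := QuotientAddGroup.mk_surjective g
  refine ⟨d, gen_of_zmultiples hg, fun y => ?_⟩
  have h1 : (∃ a ∈ A, y - a ∈ N) ↔ (y : G ⧸ N) ∈ im N A := by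
    rw [mem_im]
    constructor
    · rintro ⟨a, ha, h2⟩
      exact ⟨a, ha, ((mk_eq_iff N y a).mpr h2).symm⟩
    · rintro ⟨a, ha, h2⟩
      exact ⟨a, ha, (mk_eq_iff N y a).mp h2.symm⟩
  rw [h1, hPg]
  constructor
  · rintro ⟨i, hi, h2⟩
    refine ⟨i, hi, (mk_eq_iff N y (i • d)).mp ?_⟩
    rw [QuotientAddGroup.mk_nsmul]
    exact h2
  · rintro ⟨i, hi, h2⟩
    refine ⟨i, hi, ?_⟩
    have h3 := (mk_eq_iff N y (i • d)).mpr h2
    rw [QuotientAddGroup.mk_nsmul] at h3
    exact h3

/-- **Row S2 (2).** The fibres. PROOF. `l := |F|`, `k := |A|`, `s := |fib 0|`. `fib_le_div` (`a₀ = 0`,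
`Adm F.card h` by `Adm.dvd`): `s ≤ l / h`, so `h s ≤ l`. `|F + A| = (t + 1) l`. `holes` with `T = {0}`:
`k ≤ t l + s`. `n = h t l + l`, `n ≤ h k + 1` so `l ≤ h s + 1`; with `Adm.cases` for `l` this gives
`s = l / h`. For `a ∈ A \ N`: `holes` with `T = {0, a}`: `k + 2 l ≤ (t + 1) l + s + |fib a|`. If
`|fib a| ≤ l - 1` then `k ≤ t l + s - 1`, `h k ≤ h t l + h s - h ≤ h t l + l - h = n - h`, against
`n ≤ h k + 1`, `h ≥ 3`. So `|fib a| = l` (`fib_card_le`). -/
theorem step_fibres {h : ℕ} {A : Finset G} {N : AddSubgroup G} {F : Finset G} {t : ℕ} {g₀ : G}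
    (hS : StepSetup h A N F t g₀) :
    (fib N A 0).card = F.card / h ∧ ∀ a ∈ A, a ∉ N → (fib N A a).card = F.card := by
  classical
  have _ft : Fintype (G ⧸ N) := Fintype.ofFinite _
  obtain ⟨hP, hlt, hspan⟩ := hS.toStepPre.span
  obtain ⟨hn, hN⟩ := card_quot N F hS.hF
  have hh := hS.hE.hh
  have hdvd : F.card ∣ Fintype.card G := ⟨Nat.card (G ⧸ N), by rw [hn, mul_comm]⟩
  have hadm : Adm F.card h := hS.hE.adm.dvd hdvd
  have hs1 : (fib N A 0).card ≤ F.card / h :=
    fib_le_div hS.hF hh hadm hS.hg₀ (by rw [smul_zero, sub_zero]; exact hS.hgN)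
  have hFA : (F + A).card = t * F.card + F.card := by
    rw [card_im N F hS.hF A, hP]; ring
  have hn1 : Fintype.card G = h * (t * F.card) + F.card := by
    rw [hn, hS.hq]; ring
  have hk1 : A.card ≤ t * F.card + (fib N A 0).card := by
    have h1 := holes N F hS.hF A {0} (by
      intro x hx
      rw [Finset.mem_singleton] at hx
      rw [hx]; exact hS.h0) (by
      intro a ha b hb _
      rw [Finset.mem_singleton] at ha hb
      rw [ha, hb])
    rw [Finset.card_singleton, Finset.sum_singleton, hFA] at h1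
    omega
  have hcard : Fintype.card G ≤ h * A.card + 1 := by
    rcases hS.hE.card with h1 | h1 <;> omega
  have hk2 : h * A.card ≤ h * (t * F.card) + h * (fib N A 0).card := by
    rw [← mul_add]; exact Nat.mul_le_mul_left h hk1
  have hs3 : h * (fib N A 0).card ≤ F.card :=
    (Nat.mul_le_mul_left h hs1).trans (Nat.mul_div_le _ _)
  refine ⟨?_, fun a ha haN => ?_⟩
  · by_contra hne
    have h1 : (fib N A 0).card + 1 ≤ F.card / h := by omega
    have h2 : h * ((fib N A 0).card + 1) ≤ F.card :=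
      (Nat.mul_le_mul_left h h1).trans (Nat.mul_div_le _ _)
    rw [mul_add, mul_one] at h2
    omega
  · have h0a : (0 : G) ≠ a := by
      rintro rfl
      exact haN N.zero_mem
    have h1 := holes N F hS.hF A {0, a} (by
      intro x hx
      rw [Finset.mem_insert, Finset.mem_singleton] at hx
      rcases hx with rfl | rfl
      · exact hS.h0
      · exact ha) (by
      intro x hx y hy hxy
      rw [Finset.mem_insert, Finset.mem_singleton] at hx hy
      rcases hx with rfl | rfl
      · rcases hy with rfl | rfl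
        · rfl
        · exfalso
          apply haN
          have := N.neg_mem hxy
          simpa using this
      · rcases hy with rfl | rfl
        · exfalso
          apply haN
          simpa using hxy
        · rfl)
    rw [Finset.card_pair h0a, Finset.sum_pair h0a, hFA] at h1
    have h2 := fib_card_le hS.hF A a
    by_contra hne
    have h3 : A.card + 1 ≤ t * F.card + (fib N A 0).card := by omega
    have h4 := Nat.mul_le_mul_left h h3
    rw [mul_add, mul_add, mul_one] at h4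
    omega

/-- **Row S2 (3).** The fibre over `0` is extremal in `N`.
PROOF. `card_fibN`, `Fintype.card N = F.card` (`Nat.subtype_card`, `card_quot`), `Adm.dvd`,
`Adm.cases` and `step_fibres` for the cardinality, `fibN_ne` (`g = g₀`, `a₀ = 0`) for `ne`. -/
theorem step_ext {h : ℕ} {A : Finset G} {N : AddSubgroup G} {F : Finset G} {t : ℕ} {g₀ : G}
    [Fintype N] (hS : StepSetup h A N F t g₀) : Ext h (fibN N A 0) := by
  obtain ⟨hn, hN⟩ := card_quot N F hS.hF
  have hNF : Fintype.card N = F.card := by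
    rw [← Nat.card_eq_fintype_card]; exact hN
  have hdvd : F.card ∣ Fintype.card G := ⟨Nat.card (G ⧸ N), by rw [hn, mul_comm]⟩
  refine ⟨hS.hE.hh, ?_, ?_, ?_⟩
  · rw [hNF]; exact hS.hE.adm.dvd hdvd
  · rw [card_fibN, (step_fibres hS).1, hNF]
    exact hS.hE.adm.cases hdvd
  · exact fibN_ne hS.hg₀ (by rw [smul_zero, sub_zero]; exact hS.hgN)

end Pool.Agent.SPN
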