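import Pool.Agent.SPN.S2

set_option autoImplicit false

namespace Pool.Agent.SPN

open Finset Pointwise Pool.Agent.MP_8507d5_co

universe u

variable {G : Type u} [AddCommGroup G] [Fintype G] [DecidableEq G]

/-- **Row S3.** Assembly of `STEP`.
PROOF. `step_setup` gives `b₀`; `A' := (-b₀) +ᵥ A`; `hmax` for `A'` as in `Thick.translate`.
`step_image` gives `d`. `classical`, `Fintype N`. `B := (fibN N A' 0 : Set N)`; `step_ext` and `ih`
(`Fintype.card N = F.card < Fintype.card G`) give `Desc h N B`. Apply `Desc.step N b₀ d t B`: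
`zmultiples_of_gen`, `hS.hq`. The set equality: `y ∈ A ↔ y - b₀ ∈ A'`. If `y ∈ A`, `y - b₀ ≡ i • d`
(`i ≤ t`): `i = 0`: `y - b₀ ∈ N`, first case; `i ≥ 1`: second case. Conversely: first case:
`mem_fibN`; second case: `y - b₀ ≡ j • d`, `1 ≤ j ≤ t`: there is `a ∈ A'` with `y - b₀ - a ∈ N`
(`step_image`), `a ∉ N` (otherwise `j • d ∈ N`, against `gen_mod`, `0 < j < h t + 1 = N.index`), so
the fibre is full (`step_fibres`) and `fib_full` gives `y - b₀ ∈ A'`. -/
theorem step_desc {h : ℕ} {A : Finset G} {N : AddSubgroup G} {F : Finset G} {t : ℕ} {g₀ : G}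
    (hS : StepPre h A N F t g₀) (hFn : F.card < Fintype.card G)
    (hmax : ∀ (M : AddSubgroup G) (E : Finset G), (∀ x, x ∈ E ↔ x ∈ M) → F.card < E.card →
      E.card < Fintype.card G → E.card + A.card ≤ (E + A).card)
    (ih : ∀ (K : Type u) [AddCommGroup K] [Fintype K] [DecidableEq K],
      Fintype.card K < Fintype.card G → ∀ B : Finset K, Ext h B → Desc h K (B : Set K)) :
    Desc h G (A : Set G) := by
  classical
  obtain ⟨b₀, hS'⟩ := step_setup hS
  obtain ⟨A', hA'd⟩ : ∃ A' : Finset G, A' = (-b₀) +ᵥ A := ⟨_, rfl⟩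
  rw [← hA'd] at hS'
  have hmem : ∀ y : G, y ∈ A ↔ y - b₀ ∈ A' := by
    intro y
    rw [hA'd, Finset.mem_vadd_finset]
    constructor
    · intro hy
      exact ⟨y, hy, by rw [vadd_eq_add]; abel⟩
    · rintro ⟨a, ha, hay⟩
      rw [vadd_eq_add] at hay
      have : y = a := by
        have h1 : y - b₀ + b₀ = -b₀ + a + b₀ := by rw [hay]
        rw [sub_add_cancel] at h1
        rw [h1]; abel
      rw [this]; exact ha
  have hmax' : ∀ (M : AddSubgroup G) (E : Finset G), (∀ x, x ∈ E ↔ x ∈ M) → F.card < E.card →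
      E.card < Fintype.card G → E.card + A'.card ≤ (E + A').card := by
    intro M E hE h1 h2
    have h3 := hmax M E hE h1 h2
    have h4 : (E + A').card = (E + A).card := by
      rw [hA'd, add_comm E, vadd_add_assoc, Finset.card_vadd_finset, add_comm A]
    have h5 : A'.card = A.card := by rw [hA'd, Finset.card_vadd_finset]
    rw [h4, h5]
    exact h3
  obtain ⟨d, hd, him⟩ := step_image hS' hmax'
  have : Fintype N := Fintype.ofFinite _
  have hcN : Fintype.card N = F.card := by
    rw [← Nat.card_eq_fintype_card]; exact (card_quot N F hS.hF).2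
  have hdesc : Desc h N ((fibN N A' 0 : Finset N) : Set N) :=
    ih N (by rw [hcN]; exact hFn) (fibN N A' 0) (step_ext hS')
  have hidx : N.index = h * t + 1 := hS.hq
  refine Desc.step N b₀ d t ((fibN N A' 0 : Finset N) : Set N) hS.ht (zmultiples_of_gen hd) hS.hq
    hdesc (A : Set G) ?_
  ext y
  simp only [Finset.mem_coe, Set.mem_setOf_eq]
  rw [hmem y]
  constructor
  · intro hy
    obtain ⟨i, hit, hiN⟩ := (him (y - b₀)).mp ⟨y - b₀, hy, by rw [sub_self]; exact N.zero_mem⟩
    rcases Nat.eq_zero_or_pos i with h0 | h0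
    · left
      rw [h0, zero_smul, sub_zero] at hiN
      refine ⟨⟨y - b₀, hiN⟩, ?_, ?_⟩
      · rw [mem_fibN]
        simpa using hy
      · simp
    · right
      refine ⟨i, h0, hit, ?_⟩
      have : y - (b₀ + i • d) = y - b₀ - i • d := by abel
      rw [this]; exact hiN
  · rintro (⟨b, hb, hyb⟩ | ⟨j, hj1, hjt, hjN⟩)
    · rw [mem_fibN, zero_add] at hb
      rw [hyb, add_sub_cancel_left]
      exact hb
    · have hj2 : y - b₀ - j • d ∈ N := by
        have : y - (b₀ + j • d) = y - b₀ - j • d := by abel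
        rw [← this]; exact hjN
      obtain ⟨a, ha, haN⟩ := (him (y - b₀)).mpr ⟨j, hjt, hj2⟩
      have haN' : a ∉ N := by
        intro hcon
        have h1 : j • d ∈ N := by
          have : j • d = (y - b₀ - a) + a - (y - b₀ - j • d) := by abel
          rw [this]
          exact N.sub_mem (N.add_mem haN hcon) hj2
        have h2 : (j : ℤ) • d ∈ N := by rw [natCast_zsmul]; exact h1
        rw [gen_mod hd, hidx] at h2
        have h3 : h * t + 1 ∣ j := Int.natCast_dvd_natCast.mp h2
        have h4 := Nat.le_of_dvd hj1 h3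
        have h5 : 3 ≤ h := hS.hE.hh
        have h6 : 3 * t ≤ h * t := Nat.mul_le_mul_right t h5
        omega
      have h3 := fib_full hS.hF A' a (le_of_eq ((step_fibres hS').2 a ha haN').symm) (y - b₀ - a) haN
      have h4 : a + (y - b₀ - a) = y - b₀ := by abel
      rw [h4] at h3
      exact h3

end Pool.Agent.SPN
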