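import Mathlib

set_option autoImplicit false

/-! Pure integer data of a set made of three arcs in `ℤ/n`, `n = 3k + 1`. -/

namespace Pool.Agent.SPN

/-- Three arcs `[l i, r i]` in cyclic order in `ℤ/n`, no sum of three elements is `≡ c`, and the
relations at the left and right end points. -/
structure Dat (n k c : ℤ) (l r : Fin 3 → ℤ) : Prop where
  a0 : l 0 ≤ r 0
  g0 : r 0 + 2 ≤ l 1
  a1 : l 1 ≤ r 1
  g1 : r 1 + 2 ≤ l 2
  a2 : l 2 ≤ r 2
  g2 : r 2 + 2 ≤ l 0 + n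
  hn : n = 3 * k + 1
  hk : (r 0 - l 0) + (r 1 - l 1) + (r 2 - l 2) + 3 = k
  k6 : 6 ≤ k
  odd : n % 2 = 1
  I : ∀ (i j t : Fin 3) (m : ℤ),
    ¬ (l i + l j + l t ≤ c + m * n ∧ c + m * n ≤ r i + r j + r t)
  II : ∀ i : Fin 3, ∃ (j t : Fin 3) (m : ℤ), l i + l j + l t = c + 1 + m * n
  III : ∀ i : Fin 3, ∃ (j t : Fin 3) (m : ℤ), r i + r j + r t = c - 1 + m * n

/-- The three arcs, or their dilate by `3`, lie in an interval of length `k + 2`. -/
def Concl (n k : ℤ) (l r : Fin 3 → ℤ) : Prop :=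
  ∃ z₀ : ℤ, (∀ i : Fin 3, ∃ m : ℤ, z₀ ≤ l i + m * n ∧ r i + m * n ≤ z₀ + k + 1) ∨
    (∀ i : Fin 3, ∃ m : ℤ, z₀ ≤ 3 * l i + m * n ∧ 3 * r i + m * n ≤ z₀ + k + 1)

/-- A multiple of `n` in `(-2n, 3n)`. -/
theorem mul_cases {v m n : ℤ} (hn : 0 < n) (h : v = m * n) (h1 : -2 * n < v) (h2 : v < 3 * n) :
    v = -n ∨ v = 0 ∨ v = n ∨ v = 2 * n := by
  have h3 : -2 < m := by
    by_contra hcon
    push Not at hcon
    have : m * n ≤ -2 * n := mul_le_mul_of_nonneg_right hcon hn.le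
    omega
  have h4 : m < 3 := by
    by_contra hcon
    push Not at hcon
    have : 3 * n ≤ m * n := mul_le_mul_of_nonneg_right hcon hn.le
    omega
  have h5 : m = -1 ∨ m = 0 ∨ m = 1 ∨ m = 2 := by omega
  rcases h5 with rfl | rfl | rfl | rfl
  · left; rw [h]; ring
  · right; left; rw [h]; ring
  · right; right; left; rw [h]; ring
  · right; right; right; exact h

/-- A multiple of `n` in `(-n, n)` is zero. -/
theorem small_mul {v m n : ℤ} (h : v = m * n) (h1 : -n < v) (h2 : v < n) : v = 0 := by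
  have hn : 0 < n := by omega
  rcases mul_cases hn h (by omega) (by omega) with h | h | h | h <;> omega

/-- **Row T0 (1).** Changing `c` by a multiple of `n`. PROOF: instantiate at shifted `m`. -/
theorem Dat.shift {n k c : ℤ} {l r : Fin 3 → ℤ} (h : Dat n k c l r) (m₀ : ℤ) :
    Dat n k (c + m₀ * n) l r := by
  refine ⟨h.a0, h.g0, h.a1, h.g1, h.a2, h.g2, h.hn, h.hk, h.k6, h.odd, ?_, ?_, ?_⟩
  · intro i j t m
    have h1 := h.I i j t (m + m₀)
    have e : c + m₀ * n + m * n = c + (m + m₀) * n := by ring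
    rw [e]; exact h1
  · intro i
    obtain ⟨j, t, m, hm⟩ := h.II i
    exact ⟨j, t, m - m₀, by rw [hm]; ring⟩
  · intro i
    obtain ⟨j, t, m, hm⟩ := h.III i
    exact ⟨j, t, m - m₀, by rw [hm]; ring⟩

/-- Rotation of the cyclic order. -/
theorem Dat.rot {n k c : ℤ} {l r : Fin 3 → ℤ} (h : Dat n k c l r) :
    Dat n k c ![l 1, l 2, l 0 + n] ![r 1, r 2, r 0 + n] := by
  have hg : ∀ i : Fin 3, ∃ (j : Fin 3) (m : ℤ),
      (![l 1, l 2, l 0 + n] : Fin 3 → ℤ) i = l j + m * n ∧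
      (![r 1, r 2, r 0 + n] : Fin 3 → ℤ) i = r j + m * n := by
    intro i
    fin_cases i
    · exact ⟨1, 0, by simp, by simp⟩
    · exact ⟨2, 0, by simp, by simp⟩
    · exact ⟨0, 1, by simp, by simp⟩
  have hg' : ∀ j : Fin 3, ∃ (i : Fin 3) (m : ℤ),
      (![l 1, l 2, l 0 + n] : Fin 3 → ℤ) i = l j + m * n ∧
      (![r 1, r 2, r 0 + n] : Fin 3 → ℤ) i = r j + m * n := by
    intro i
    fin_cases i
    · exact ⟨2, 1, by simp, by simp⟩
    · exact ⟨0, 0, by simp, by simp⟩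
    · exact ⟨1, 0, by simp, by simp⟩
  have a0 := h.a0
  have a1 := h.a1
  have a2 := h.a2
  have g0 := h.g0
  have g1 := h.g1
  have g2 := h.g2
  have hk := h.hk
  refine ⟨?_, ?_, ?_, ?_, ?_, ?_, h.hn, ?_, h.k6, h.odd, ?_, ?_, ?_⟩
  · simpa using a1
  · simpa using g1
  · simpa using a2
  · simp; omega
  · simpa using a0
  · simp; omega
  · simp; omega
  · intro i j t m
    obtain ⟨i', mi, e1, f1⟩ := hg i
    obtain ⟨j', mj, e2, f2⟩ := hg j
    obtain ⟨t', mt, e3, f3⟩ := hg t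
    rw [e1, e2, e3, f1, f2, f3]
    have h1 := h.I i' j' t' (m - mi - mj - mt)
    have e : c + (m - mi - mj - mt) * n = c + m * n - mi * n - mj * n - mt * n := by ring
    rw [e] at h1
    intro ⟨h2, h3⟩
    apply h1
    constructor <;> linarith
  · intro i
    obtain ⟨i', mi, e1, f1⟩ := hg i
    obtain ⟨j', t', m, hm⟩ := h.II i'
    obtain ⟨j, mj, e2, f2⟩ := hg' j'
    obtain ⟨t, mt, e3, f3⟩ := hg' t'
    refine ⟨j, t, m + mi + mj + mt, ?_⟩
    rw [e1, e2, e3]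
    have e : c + 1 + (m + mi + mj + mt) * n = c + 1 + m * n + mi * n + mj * n + mt * n := by ring
    rw [e, ← hm]; ring
  · intro i
    obtain ⟨i', mi, e1, f1⟩ := hg i
    obtain ⟨j', t', m, hm⟩ := h.III i'
    obtain ⟨j, mj, e2, f2⟩ := hg' j'
    obtain ⟨t, mt, e3, f3⟩ := hg' t'
    refine ⟨j, t, m + mi + mj + mt, ?_⟩
    rw [f1, f2, f3]
    have e : c - 1 + (m + mi + mj + mt) * n = c - 1 + m * n + mi * n + mj * n + mt * n := by ring
    rw [e, ← hm]; ring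

/-- Reflection. -/
theorem Dat.refl {n k c : ℤ} {l r : Fin 3 → ℤ} (h : Dat n k c l r) :
    Dat n k (-c) ![-r 2, -r 1, -r 0] ![-l 2, -l 1, -l 0] := by
  have hg : ∀ i : Fin 3, ∃ j : Fin 3,
      (![-r 2, -r 1, -r 0] : Fin 3 → ℤ) i = - r j ∧
      (![-l 2, -l 1, -l 0] : Fin 3 → ℤ) i = - l j := by
    intro i
    fin_cases i
    · exact ⟨2, by simp, by simp⟩
    · exact ⟨1, by simp, by simp⟩
    · exact ⟨0, by simp, by simp⟩
  have hg' : ∀ j : Fin 3, ∃ i : Fin 3,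
      (![-r 2, -r 1, -r 0] : Fin 3 → ℤ) i = - r j ∧
      (![-l 2, -l 1, -l 0] : Fin 3 → ℤ) i = - l j := by
    intro i
    fin_cases i
    · exact ⟨2, by simp, by simp⟩
    · exact ⟨1, by simp, by simp⟩
    · exact ⟨0, by simp, by simp⟩
  have a0 := h.a0
  have a1 := h.a1
  have a2 := h.a2
  have g0 := h.g0
  have g1 := h.g1
  have g2 := h.g2
  have hk := h.hk
  refine ⟨?_, ?_, ?_, ?_, ?_, ?_, h.hn, ?_, h.k6, h.odd, ?_, ?_, ?_⟩
  · simp; omega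
  · simp; omega
  · simp; omega
  · simp; omega
  · simp; omega
  · simp; omega
  · simp; omega
  · intro i j t m
    obtain ⟨i', e1, f1⟩ := hg i
    obtain ⟨j', e2, f2⟩ := hg j
    obtain ⟨t', e3, f3⟩ := hg t
    rw [e1, e2, e3, f1, f2, f3]
    have h1 := h.I i' j' t' (-m)
    intro ⟨h2, h3⟩
    apply h1
    constructor <;> linarith
  · intro i
    obtain ⟨i', e1, f1⟩ := hg i
    obtain ⟨j', t', m, hm⟩ := h.III i'
    obtain ⟨j, e2, f2⟩ := hg' j'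
    obtain ⟨t, e3, f3⟩ := hg' t'
    refine ⟨j, t, -m, ?_⟩
    rw [e1, e2, e3]
    linarith
  · intro i
    obtain ⟨i', e1, f1⟩ := hg i
    obtain ⟨j', t', m, hm⟩ := h.II i'
    obtain ⟨j, e2, f2⟩ := hg' j'
    obtain ⟨t, e3, f3⟩ := hg' t'
    refine ⟨j, t, -m, ?_⟩
    rw [f1, f2, f3]
    linarith

theorem Concl.of_rot {n k : ℤ} {l r : Fin 3 → ℤ}
    (h : Concl n k ![l 1, l 2, l 0 + n] ![r 1, r 2, r 0 + n]) : Concl n k l r := by
  obtain ⟨z₀, h | h⟩ := h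
  · refine ⟨z₀, Or.inl ?_⟩
    obtain ⟨m0, h0⟩ := h 0
    obtain ⟨m1, h1⟩ := h 1
    obtain ⟨m2, h2⟩ := h 2
    simp at h0 h1 h2
    intro i
    fin_cases i
    · refine ⟨m2 + 1, ?_, ?_⟩
      · simp; linarith [h2.1]
      · simp; linarith [h2.2]
    · exact ⟨m0, h0.1, h0.2⟩
    · exact ⟨m1, h1.1, h1.2⟩
  · refine ⟨z₀, Or.inr ?_⟩
    obtain ⟨m0, h0⟩ := h 0
    obtain ⟨m1, h1⟩ := h 1
    obtain ⟨m2, h2⟩ := h 2
    simp at h0 h1 h2
    intro i
    fin_cases i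
    · refine ⟨m2 + 3, ?_, ?_⟩
      · simp; linarith [h2.1]
      · simp; linarith [h2.2]
    · exact ⟨m0, h0.1, h0.2⟩
    · exact ⟨m1, h1.1, h1.2⟩

theorem Concl.of_refl {n k : ℤ} {l r : Fin 3 → ℤ}
    (h : Concl n k ![-r 2, -r 1, -r 0] ![-l 2, -l 1, -l 0]) : Concl n k l r := by
  obtain ⟨z₀, h | h⟩ := h
  · refine ⟨-z₀ - k - 1, Or.inl ?_⟩
    obtain ⟨m0, h0⟩ := h 0
    obtain ⟨m1, h1⟩ := h 1
    obtain ⟨m2, h2⟩ := h 2
    simp at h0 h1 h2
    intro i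
    fin_cases i
    · exact ⟨-m2, by simp; linarith [h2.2], by simp; linarith [h2.1]⟩
    · exact ⟨-m1, by simp; linarith [h1.2], by simp; linarith [h1.1]⟩
    · exact ⟨-m0, by simp; linarith [h0.2], by simp; linarith [h0.1]⟩
  · refine ⟨-z₀ - k - 1, Or.inr ?_⟩
    obtain ⟨m0, h0⟩ := h 0
    obtain ⟨m1, h1⟩ := h 1
    obtain ⟨m2, h2⟩ := h 2
    simp at h0 h1 h2
    intro i
    fin_cases i
    · exact ⟨-m2, by simp; linarith [h2.2], by simp; linarith [h2.1]⟩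
    · exact ⟨-m1, by simp; linarith [h1.2], by simp; linarith [h1.1]⟩
    · exact ⟨-m0, by simp; linarith [h0.2], by simp; linarith [h0.1]⟩

theorem Dat.right {n k c : ℤ} {l r : Fin 3 → ℤ} (h : Dat n k c l r) (i : Fin 3) : ∃ m : ℤ,
    r i + r 0 + r 0 = c - 1 + m * n ∨ r i + r 0 + r 1 = c - 1 + m * n ∨
    r i + r 0 + r 2 = c - 1 + m * n ∨ r i + r 1 + r 1 = c - 1 + m * n ∨
    r i + r 1 + r 2 = c - 1 + m * n ∨ r i + r 2 + r 2 = c - 1 + m * n := by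
  obtain ⟨j, t, m, hm⟩ := h.III i
  refine ⟨m, ?_⟩
  fin_cases j <;> fin_cases t <;> simp only [Fin.zero_eta, Fin.mk_one, Fin.reduceFinMk] at hm
  · exact Or.inl hm
  · exact Or.inr (Or.inl hm)
  · exact Or.inr (Or.inr (Or.inl hm))
  · exact Or.inr (Or.inl (by linarith))
  · exact Or.inr (Or.inr (Or.inr (Or.inl hm)))
  · exact Or.inr (Or.inr (Or.inr (Or.inr (Or.inl hm))))
  · exact Or.inr (Or.inr (Or.inl (by linarith)))
  · exact Or.inr (Or.inr (Or.inr (Or.inr (Or.inl (by linarith)))))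
  · exact Or.inr (Or.inr (Or.inr (Or.inr (Or.inr hm))))

theorem Dat.left {n k c : ℤ} {l r : Fin 3 → ℤ} (h : Dat n k c l r) (i : Fin 3) : ∃ m : ℤ,
    l i + l 0 + l 0 = c + 1 + m * n ∨ l i + l 0 + l 1 = c + 1 + m * n ∨
    l i + l 0 + l 2 = c + 1 + m * n ∨ l i + l 1 + l 1 = c + 1 + m * n ∨
    l i + l 1 + l 2 = c + 1 + m * n ∨ l i + l 2 + l 2 = c + 1 + m * n := by
  obtain ⟨j, t, m, hm⟩ := h.II i
  refine ⟨m, ?_⟩
  fin_cases j <;> fin_cases t <;> simp only [Fin.zero_eta, Fin.mk_one, Fin.reduceFinMk] at hm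
  · exact Or.inl hm
  · exact Or.inr (Or.inl hm)
  · exact Or.inr (Or.inr (Or.inl hm))
  · exact Or.inr (Or.inl (by linarith))
  · exact Or.inr (Or.inr (Or.inr (Or.inl hm)))
  · exact Or.inr (Or.inr (Or.inr (Or.inr (Or.inl hm))))
  · exact Or.inr (Or.inr (Or.inl (by linarith)))
  · exact Or.inr (Or.inr (Or.inr (Or.inr (Or.inl (by linarith)))))
  · exact Or.inr (Or.inr (Or.inr (Or.inr (Or.inr hm))))

theorem mul_cases' {X C m n : ℤ} (hn : 0 < n) (h : X = C + m * n) (h1 : -2 * n < X - C)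
    (h2 : X - C < 3 * n) : X - C = -n ∨ X - C = 0 ∨ X - C = n ∨ X - C = 2 * n :=
  mul_cases hn (by linarith) h1 h2

end Pool.Agent.SPN
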