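import Pool.Agent.SPN.T0

set_option autoImplicit false

namespace Pool.Agent.SPN

/-- Type T1 is impossible (left version). -/
theorem T1_excl {n k c : ℤ} {l r : Fin 3 → ℤ} (h : Dat n k c l r)
    (hT : l 0 + l 1 + l 2 = c + 1) : False := by
  have a0 := h.a0
  have a1 := h.a1
  have a2 := h.a2
  have g0 := h.g0
  have g1 := h.g1
  have g2 := h.g2
  have hk := h.hk
  have hn := h.hn
  have k6 := h.k6
  have f1 := h.I 0 1 1 0
  have f2 := h.I 0 0 2 0
  have f3 := h.I 1 2 2 1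
  have e0 := h.I 0 0 0 (-1)
  have e1 := h.I 1 1 1 0
  have e2 := h.I 2 2 2 1
  simp only [zero_mul, add_zero, one_mul, neg_mul] at f1 f2 f3 e0 e1 e2
  generalize l 0 = l0 at *
  generalize l 1 = l1 at *
  generalize l 2 = l2 at *
  generalize r 0 = r0 at *
  generalize r 1 = r1 at *
  generalize r 2 = r2 at *
  have F1 : l2 - l1 ≥ (r0 - l0) + 2 * (r1 - l1) + 2 := by omega
  have F2 : l1 - l0 ≥ 2 * (r0 - l0) + (r2 - l2) + 2 := by omega
  have F3 : l0 + n - l2 ≥ (r1 - l1) + 2 * (r2 - l2) + 2 := by omega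
  have E0 : l1 - l0 ≤ l0 + n - l2 := by omega
  have E1 : l2 - l1 ≤ l1 - l0 := by omega
  have E2 : l0 + n - l2 ≤ l2 - l1 := by omega
  have E3 : l1 - l0 = l2 - l1 := by omega
  have E4 : l0 + n - l2 = l2 - l1 := by omega
  have E5 : n = 3 * (l2 - l1) := by omega
  omega

/-- Type T1 is impossible (left version, modulo `n`). -/
theorem T1_left {n k c : ℤ} {l r : Fin 3 → ℤ} (h : Dat n k c l r) (m : ℤ) :
    l 0 + l 1 + l 2 ≠ c + 1 + m * n := by
  intro hT
  exact T1_excl (h.shift m) (by linarith)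

/-- Type T1 is impossible (right version, modulo `n`). -/
theorem T1_right {n k c : ℤ} {l r : Fin 3 → ℤ} (h : Dat n k c l r) (m : ℤ) :
    r 0 + r 1 + r 2 ≠ c - 1 + m * n := by
  intro hT
  apply T1_left h.refl (-m)
  simp
  linarith

end Pool.Agent.SPN
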