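import Pool.Agent.SPN.T2

set_option autoImplicit false

namespace Pool.Agent.SPN

/-- Type T2b, second sign (arithmetic form). -/
theorem Tbm_arith {n k d a0 a1 a2 m0 m2 : ℤ} (ha0 : 0 ≤ a0) (ha1 : 0 ≤ a1) (ha2 : 0 ≤ a2)
    (hd0 : a0 + 2 ≤ d) (hd1 : a1 + 2 ≤ d) (hd2 : a2 + 2 + 2 * d ≤ n)
    (hn : n = 3 * k + 1) (hk : a0 + a1 + a2 + 3 = k) (k6 : 6 ≤ k) (odd : n % 2 = 1)
    (Fa : 2 * d + 2 * a1 + a2 + 2 ≤ n) (Fb : 2 * d + a0 + 2 * a2 + 2 ≤ n)
    (Fc : d ≥ 2 * a0 + a1 + 2) (Fd : 3 * d ≥ n ∨ 3 * d + a1 + 2 * a2 + 2 ≤ n)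
    (Fe : 4 * d ≥ n ∨ 4 * d + 3 * a2 + 2 ≤ n)
    (h0 : -2 * d + 3 * a0 + 2 = m0 * n ∨ -d + 2 * a0 + a1 + 2 = m0 * n ∨
      2 * a0 + a2 + 2 = m0 * n ∨ a0 + 2 * a1 + 2 = m0 * n ∨
      d + a0 + a1 + a2 + 2 = m0 * n ∨ 2 * d + a0 + 2 * a2 + 2 = m0 * n)
    (h2 : 2 * a0 + a2 + 2 = m2 * n ∨ d + a0 + a1 + a2 + 2 = m2 * n ∨
      2 * d + a0 + 2 * a2 + 2 = m2 * n ∨ 2 * d + 2 * a1 + a2 + 2 = m2 * n ∨
      3 * d + a1 + 2 * a2 + 2 = m2 * n ∨ 4 * d + 3 * a2 + 2 = m2 * n) :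
    (d = k + 1 ∧ a2 ≤ a1 ∧ a1 ≤ a0 ∧ a0 ≤ a2 + 2) ∨ (a0 = 0 ∧ a1 = 0 ∧ d = 2) := by
  have npos : 0 < n := by omega
  rcases Fd with Fd | Fd
  · left
    clear h0 h2
    omega
  · right
    have q0 : d = 2 * a0 + a1 + 2 := by
      clear h2
      rcases h0 with h0 | h0 | h0 | h0 | h0 | h0 <;>
        rcases mul_cases npos h0 (by omega) (by omega) with e | e | e | e <;> omega
    have q2 : 4 * d + 3 * a2 + 2 = n ∨ 3 * d + a1 + 2 * a2 + 2 = n := by
      clear h0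
      rcases h2 with h0 | h0 | h0 | h0 | h0 | h0 <;>
        rcases mul_cases npos h0 (by omega) (by omega) with e | e | e | e <;> omega
    clear h0 h2
    rcases q2 with q2 | q2
    · omega
    · rcases Fe with Fe | Fe
      · omega
      · omega

/-- Type T2b, second sign. -/
theorem Tbm {n k c : ℤ} {l r : Fin 3 → ℤ} (h : Dat n k c l r)
    (hd : l 1 - l 0 = l 2 - l 1) (hT : 3 * l 1 - (l 2 - l 1) = c + 1) : Concl n k l r := by
  have ha0 := h.a0
  have ha1 := h.a1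
  have ha2 := h.a2
  have g0 := h.g0
  have g1 := h.g1
  have g2 := h.g2
  have hk := h.hk
  have hn := h.hn
  have k6 := h.k6
  have odd := h.odd
  obtain ⟨d, hd1⟩ : ∃ d, d = l 2 - l 1 := ⟨_, rfl⟩
  obtain ⟨a0, ea0⟩ : ∃ d, d = r 0 - l 0 := ⟨_, rfl⟩
  obtain ⟨a1, ea1⟩ : ∃ d, d = r 1 - l 1 := ⟨_, rfl⟩
  obtain ⟨a2, ea2⟩ : ∃ d, d = r 2 - l 2 := ⟨_, rfl⟩
  have el0 : l 0 = l 1 - d := by omega
  have el2 : l 2 = l 1 + d := by omega
  have ec : c = 3 * l 1 - d - 1 := by omega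
  have er0 : r 0 = l 1 - d + a0 := by omega
  have er1 : r 1 = l 1 + a1 := by omega
  have er2 : r 2 = l 1 + d + a2 := by omega
  have b0 : 0 ≤ a0 := by omega
  have b1 : 0 ≤ a1 := by omega
  have b2 : 0 ≤ a2 := by omega
  have c0 : a0 + 2 ≤ d := by omega
  have c1 : a1 + 2 ≤ d := by omega
  have c2 : a2 + 2 + 2 * d ≤ n := by omega
  have hk' : a0 + a1 + a2 + 3 = k := by omega
  have Fa : 2 * d + 2 * a1 + a2 + 2 ≤ n := by
    have f := h.I 1 1 2 1
    simp only [one_mul] at f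
    rw [er1, er2, el2, ec] at f
    omega
  have Fb : 2 * d + a0 + 2 * a2 + 2 ≤ n := by
    have f := h.I 0 2 2 1
    simp only [one_mul] at f
    rw [er0, er2, el0, el2, ec] at f
    omega
  have Fc : d ≥ 2 * a0 + a1 + 2 := by
    have f := h.I 0 0 1 0
    simp only [zero_mul, add_zero] at f
    rw [er0, er1, el0, ec] at f
    omega
  have Fd : 3 * d ≥ n ∨ 3 * d + a1 + 2 * a2 + 2 ≤ n := by
    have f := h.I 1 2 2 1
    simp only [one_mul] at f
    rw [er1, er2, el2, ec] at f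
    omega
  have Fe : 4 * d ≥ n ∨ 4 * d + 3 * a2 + 2 ≤ n := by
    have f := h.I 2 2 2 1
    simp only [one_mul] at f
    rw [er2, el2, ec] at f
    omega
  obtain ⟨m0, h0⟩ := h.right 0
  obtain ⟨m2, h2⟩ := h.right 2
  rw [er0, er1, er2, ec] at h0 h2
  have key := Tbm_arith (n := n) (k := k) (d := d) (a0 := a0) (a1 := a1) (a2 := a2) (m0 := m0)
    (m2 := m2) b0 b1 b2 c0 c1 c2 hn hk' k6 odd Fa Fb Fc Fd Fe (by
      clear h2
      rcases h0 with h0 | h0 | h0 | h0 | h0 | h0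
      · left; linarith
      · right; left; linarith
      · right; right; left; linarith
      · right; right; right; left; linarith
      · right; right; right; right; left; linarith
      · right; right; right; right; right; linarith) (by
      clear h0
      rcases h2 with h0 | h0 | h0 | h0 | h0 | h0
      · left; linarith
      · right; left; linarith
      · right; right; left; linarith
      · right; right; right; left; linarith
      · right; right; right; right; left; linarith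
      · right; right; right; right; right; linarith)
  clear h0 h2
  rcases key with ⟨k1, k2, k3, k4⟩ | ⟨k1, k2, k3⟩
  · refine ⟨3 * l 1 - 2, Or.inr ?_⟩
    intro i
    fin_cases i
    · refine ⟨1, ?_, ?_⟩ <;> simp only [Fin.zero_eta, one_mul] <;> omega
    · refine ⟨0, ?_, ?_⟩ <;> simp only [Fin.mk_one, zero_mul, add_zero] <;> omega
    · refine ⟨-1, ?_, ?_⟩ <;> simp only [Fin.reduceFinMk, neg_mul, one_mul] <;> omega
  · refine ⟨l 0, Or.inl ?_⟩
    intro i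
    fin_cases i
    · refine ⟨0, ?_, ?_⟩ <;> simp only [Fin.zero_eta, zero_mul, add_zero] <;> omega
    · refine ⟨0, ?_, ?_⟩ <;> simp only [Fin.mk_one, zero_mul, add_zero] <;> omega
    · refine ⟨0, ?_, ?_⟩ <;> simp only [Fin.reduceFinMk, zero_mul, add_zero] <;> omega

end Pool.Agent.SPN
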