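import Pool.Agent.SPN.T3

set_option autoImplicit false

namespace Pool.Agent.SPN

/-- Type T2a on both sides, special arcs `0` (right) and `2` (left). -/
theorem Taa_arith2 {n k a0 a1 a2 p1 p2 m m' mg : ℤ} (ha0 : 0 ≤ a0) (ha1 : 0 ≤ a1) (ha2 : 0 ≤ a2)
    (h1 : 2 ≤ p1) (h2 : p1 + a1 + 2 ≤ p2) (h3 : p2 + a2 + 2 + a0 ≤ n)
    (hn : n = 3 * k + 1) (hk : a0 + a1 + a2 + 3 = k) (k6 : 6 ≤ k)
    (hg : 3 * p2 - 2 = mg * n)
    (ha : -2 * a0 + p1 - 2 = m * n ∨ 2 * p1 - a0 - 2 = m * n)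
    (hb : 2 * (p2 + a2) + (p1 + a1) = m' * n ∨ 2 * (p1 + a1) + (p2 + a2) = m' * n)
    (I221 : ¬ (2 * p2 + p1 ≤ 1 + n ∧ 1 + n ≤ 2 * (p2 + a2) + (p1 + a1)))
    (I001 : ¬ (-2 * a0 + p1 ≤ 1 ∧ 1 ≤ p1 + a1)) : a0 = 0 ∧ a2 = 0 ∧ p2 = k + 1 := by
  have npos : 0 < n := by omega
  have hp2 : p2 = k + 1 := by
    clear ha hb I221 I001
    rcases mul_cases npos hg (by omega) (by omega) with e | e | e | e <;> omega
  subst hp2
  have ha' : p1 = 2 * a0 + 2 ∨ 2 * p1 = a0 + 2 ∨ 2 * p1 = a0 + 2 + n := by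
    clear hb I221 I001
    rcases ha with ha | ha
    · rcases mul_cases npos ha (by omega) (by omega) with e | e | e | e <;> omega
    · rcases mul_cases npos ha (by omega) (by omega) with e | e | e | e <;> omega
  have hb' : 2 * (k + 1 + a2) + (p1 + a1) = n ∨ 2 * (k + 1 + a2) + (p1 + a1) = 2 * n ∨
      2 * (p1 + a1) + (k + 1 + a2) = n ∨ 2 * (p1 + a1) + (k + 1 + a2) = 2 * n := by
    clear ha I221 I001 ha'
    rcases hb with ha | ha
    · rcases mul_cases npos ha (by omega) (by omega) with e | e | e | e <;> omega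
    · rcases mul_cases npos ha (by omega) (by omega) with e | e | e | e <;> omega
  clear ha hb hg
  rcases ha' with ha' | ha' | ha' <;> rcases hb' with hb' | hb' | hb' | hb' <;> omega

/-- Type T2a on both sides, special arcs `0` (right) and `1` (left). -/
theorem Taa_arith1 {n k a0 a1 a2 p1 p2 m m' mg : ℤ} (ha0 : 0 ≤ a0) (ha1 : 0 ≤ a1) (ha2 : 0 ≤ a2)
    (h1 : 2 ≤ p1) (h2 : p1 + a1 + 2 ≤ p2) (h3 : p2 + a2 + 2 + a0 ≤ n)
    (hn : n = 3 * k + 1) (hk : a0 + a1 + a2 + 3 = k) (k6 : 6 ≤ k)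
    (hg : 3 * p1 - 2 = mg * n)
    (ha : -2 * a0 + p2 - 2 = m * n ∨ 2 * p2 - a0 - 2 = m * n)
    (hb : 2 * (p1 + a1) + (p2 + a2) = m' * n ∨ 2 * (p2 + a2) + (p1 + a1) = m' * n) : False := by
  have npos : 0 < n := by omega
  have hp2 : p1 = k + 1 := by
    clear ha hb
    rcases mul_cases npos hg (by omega) (by omega) with e | e | e | e <;> omega
  subst hp2
  have ha' : p2 = 2 * a0 + 2 ∨ 2 * p2 = a0 + 2 ∨ 2 * p2 = a0 + 2 + n := by
    clear hb
    rcases ha with ha | ha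
    · rcases mul_cases npos ha (by omega) (by omega) with e | e | e | e <;> omega
    · rcases mul_cases npos ha (by omega) (by omega) with e | e | e | e <;> omega
  have hb' : 2 * (k + 1 + a1) + (p2 + a2) = n ∨ 2 * (k + 1 + a1) + (p2 + a2) = 2 * n ∨
      2 * (p2 + a2) + (k + 1 + a1) = n ∨ 2 * (p2 + a2) + (k + 1 + a1) = 2 * n := by
    clear ha ha'
    rcases hb with ha | ha
    · rcases mul_cases npos ha (by omega) (by omega) with e | e | e | e <;> omega
    · rcases mul_cases npos ha (by omega) (by omega) with e | e | e | e <;> omega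
  clear ha hb hg
  rcases ha' with ha' | ha' | ha' <;> rcases hb' with hb' | hb' | hb' | hb' <;> omega

/-- The special arcs on both sides are different. -/
theorem Taa_arith0 {n k a0 a1 a2 m : ℤ} (ha0 : 0 ≤ a0) (ha1 : 0 ≤ a1) (ha2 : 0 ≤ a2)
    (hn : n = 3 * k + 1) (hk : a0 + a1 + a2 + 3 = k) (k6 : 6 ≤ k)
    (hg : -3 * a0 - 2 = m * n) : False := by
  have npos : 0 < n := by omega
  rcases mul_cases npos hg (by omega) (by omega) with e | e | e | e <;> omega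

end Pool.Agent.SPN
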