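import Pool.Agent.SPN.T4

set_option autoImplicit false

namespace Pool.Agent.SPN

theorem Dat.diff_bd {n k c : ℤ} {l r : Fin 3 → ℤ} (h : Dat n k c l r) {i j : Fin 3}
    (hij : i ≠ j) : l i - l j ≠ 0 ∧ -n < l i - l j ∧ l i - l j < n := by
  have a0 := h.a0
  have a1 := h.a1
  have a2 := h.a2
  have g0 := h.g0
  have g1 := h.g1
  have g2 := h.g2
  fin_cases i <;> fin_cases j <;>
    simp only [Fin.zero_eta, Fin.mk_one, Fin.reduceFinMk, ne_eq, not_true_eq_false] at hij ⊢ <;>
    first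
    | exact absurd rfl hij
    | (refine ⟨?_, ?_, ?_⟩ <;> omega)

theorem Dat.diff_ne {n k c : ℤ} {l r : Fin 3 → ℤ} (h : Dat n k c l r) {i j : Fin 3}
    (hij : i ≠ j) (m : ℤ) : l i - l j ≠ m * n := by
  intro h1
  obtain ⟨h2, h3, h4⟩ := h.diff_bd hij
  exact h2 (small_mul h1 h3 h4)

theorem Dat.two_ne {n k c : ℤ} {l r : Fin 3 → ℤ} (h : Dat n k c l r) {i j : Fin 3}
    (hij : i ≠ j) (m : ℤ) : 2 * (l i - l j) ≠ m * n := by
  intro h1
  obtain ⟨h2, h3, h4⟩ := h.diff_bd hij
  have odd := h.odd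
  have npos : 0 < n := by omega
  rcases mul_cases npos h1 (by omega) (by omega) with e | e | e | e <;> omega

theorem Dat.three_ne {n k c : ℤ} {l r : Fin 3 → ℤ} (h : Dat n k c l r) {i j : Fin 3}
    (hij : i ≠ j) (m : ℤ) : 3 * (l i - l j) ≠ m * n := by
  intro h1
  obtain ⟨h2, h3, h4⟩ := h.diff_bd hij
  have hn := h.hn
  have k6 := h.k6
  have npos : 0 < n := by omega
  -- work with `3 (l i - l j)` or its negative, in `[0, 3n)`
  rcases le_or_gt 0 (l i - l j) with h5 | h5
  · rcases mul_cases npos h1 (by omega) (by omega) with e | e | e | e <;> omega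
  · rcases mul_cases npos (show 3 * (l j - l i) = (-m) * n by linarith) (by omega) (by omega) with
      e | e | e | e <;> omega

/-- Classification of the left relations. -/
theorem Dat.left_type {n k c : ℤ} {l r : Fin 3 → ℤ} (h : Dat n k c l r) :
    ∃ α β γ : Fin 3, α ≠ β ∧ β ≠ γ ∧ α ≠ γ ∧ (∃ m : ℤ, 2 * l α + l β = c + 1 + m * n) ∧
      ((∃ m : ℤ, 3 * l γ = c + 1 + m * n) ∨ (∃ m : ℤ, 2 * l β + l γ = c + 1 + m * n)) := by
  have tri : ∀ i j t : Fin 3, i ≠ j → j ≠ t → i ≠ t → ∀ m : ℤ,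
      l i + l j + l t ≠ c + 1 + m * n := by
    intro i j t hij hjt hit m hm
    apply T1_left h m
    fin_cases i <;> fin_cases j <;> fin_cases t <;>
      simp only [Fin.zero_eta, Fin.mk_one, Fin.reduceFinMk, ne_eq, not_true_eq_false] at hij hjt hit hm <;>
      first
      | exact absurd rfl hij
      | exact absurd rfl hjt
      | exact absurd rfl hit
      | linarith
  have third : ∀ i j : Fin 3, i ≠ j → ∃ t : Fin 3, t ≠ i ∧ t ≠ j ∧ ∀ s : Fin 3, s = i ∨ s = j ∨ s = t := by
    decide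
  by_cases hex : ∃ i j : Fin 3, i ≠ j ∧ ∃ m : ℤ, 2 * l i + l j = c + 1 + m * n
  · obtain ⟨i, j, hij, m, hm⟩ := hex
    obtain ⟨t, hti, htj, hall⟩ := third i j hij
    obtain ⟨u, v, m', hm'⟩ := h.II t
    rcases hall u with hu | hu | hu <;> rcases hall v with hv | hv | hv <;>
      subst hu <;> subst hv
    · -- t i i
      exfalso
      apply h.diff_ne htj (m' - m)
      linarith
    · exact absurd hm' (tri t u v hti hij htj m')
    · -- t i t
      exact ⟨v, u, j, hti, hij, htj, ⟨m', by linarith⟩, Or.inr ⟨m, hm⟩⟩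
    · exact absurd hm' (tri t u v htj (Ne.symm hij) hti m')
    · -- t j j
      exact ⟨i, v, t, hij, Ne.symm htj, Ne.symm hti, ⟨m, hm⟩, Or.inr ⟨m', by linarith⟩⟩
    · -- t j t
      exfalso
      apply h.two_ne hti (m' - m)
      linarith
    · exact ⟨u, v, j, hti, hij, htj, ⟨m', by linarith⟩, Or.inr ⟨m, hm⟩⟩
    · exfalso
      apply h.two_ne hti (m' - m)
      linarith
    · exact ⟨i, j, v, hij, Ne.symm htj, Ne.symm hti, ⟨m, hm⟩, Or.inl ⟨m', by linarith⟩⟩
  · exfalso
    push Not at hex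
    have diag : ∀ i : Fin 3, ∃ m : ℤ, 3 * l i = c + 1 + m * n := by
      intro i
      obtain ⟨u, v, m', hm'⟩ := h.II i
      by_cases hu : u = i
      · subst hu
        by_cases hv : v = u
        · subst hv; exact ⟨m', by linarith⟩
        · exact absurd (by linarith : 2 * l u + l v = c + 1 + m' * n) (hex u v (Ne.symm hv) m')
      · by_cases hv : v = i
        · subst hv
          exact absurd (by linarith : 2 * l v + l u = c + 1 + m' * n) (hex v u (Ne.symm hu) m')
        · by_cases huv : u = v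
          · subst huv
            exact absurd (by linarith : 2 * l u + l i = c + 1 + m' * n) (hex u i hu m')
          · exact absurd hm' (tri i u v (Ne.symm hu) huv (Ne.symm hv) m')
    obtain ⟨m0, h0⟩ := diag 0
    obtain ⟨m1, h1⟩ := diag 1
    exact h.three_ne (show (0 : Fin 3) ≠ 1 by decide) (m0 - m1) (by linarith)

end Pool.Agent.SPN
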