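import Pool.Agent.SPN.T5

set_option autoImplicit false

namespace Pool.Agent.SPN

theorem T2b_mid {n k c : ℤ} {l r : Fin 3 → ℤ} (h : Dat n k c l r)
    (hrel : ((∃ m : ℤ, 2 * l 1 + l 2 = c + 1 + m * n) ∧ ∃ m : ℤ, 2 * l 2 + l 0 = c + 1 + m * n) ∨
      ((∃ m : ℤ, 2 * l 1 + l 0 = c + 1 + m * n) ∧ ∃ m : ℤ, 2 * l 0 + l 2 = c + 1 + m * n)) :
    Concl n k l r := by
  have a0 := h.a0
  have a1 := h.a1
  have a2 := h.a2
  have g0 := h.g0
  have g1 := h.g1
  have g2 := h.g2
  rcases hrel with ⟨⟨m, hm⟩, m', hm'⟩ | ⟨⟨m, hm⟩, m', hm'⟩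
  · exfalso
    have h1 : l 1 - l 0 - (l 2 - l 1) = 0 :=
      small_mul (m := m - m') (n := n) (by linarith) (by omega) (by omega)
    exact Tbp_excl (h.shift m) (by omega) (by linarith)
  · have h1 : l 1 - l 0 - (l 2 - l 1) = 0 :=
      small_mul (m := m - m') (n := n) (by linarith) (by omega) (by omega)
    exact Tbm (h.shift m) (by omega) (by linarith)

theorem T2b_concl {n k c : ℤ} {l r : Fin 3 → ℤ} (h : Dat n k c l r) {α β γ : Fin 3}
    (h12 : α ≠ β) (h23 : β ≠ γ) (h13 : α ≠ γ) (h1 : ∃ m : ℤ, 2 * l α + l β = c + 1 + m * n)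
    (h2 : ∃ m : ℤ, 2 * l β + l γ = c + 1 + m * n) : Concl n k l r := by
  obtain ⟨m, hm⟩ := h1
  obtain ⟨m', hm'⟩ := h2
  fin_cases α
  · -- α = 0: rotate twice
    apply Concl.of_rot
    apply Concl.of_rot
    apply T2b_mid h.rot.rot
    fin_cases β
    · exact absurd rfl h12
    · -- β = 1, γ = 2
      have hγ : γ = 2 := by
        fin_cases γ
        · exact absurd rfl h13
        · exact absurd rfl h23
        · rfl
      subst hγ
      left
      simp only [Fin.zero_eta, Fin.mk_one] at hm hm'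
      refine ⟨⟨m + 3, ?_⟩, m' + 2, ?_⟩
      · simp; linarith
      · simp; linarith
    · have hγ : γ = 1 := by
        fin_cases γ
        · exact absurd rfl h13
        · rfl
        · exact absurd rfl h23
      subst hγ
      right
      simp only [Fin.zero_eta, Fin.reduceFinMk] at hm hm'
      refine ⟨⟨m + 2, ?_⟩, m' + 1, ?_⟩
      · simp; linarith
      · simp; linarith
  · apply T2b_mid h
    fin_cases β
    · right
      have hγ : γ = 2 := by
        fin_cases γ
        · exact absurd rfl h23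
        · exact absurd rfl h13
        · rfl
      subst hγ
      exact ⟨⟨m, hm⟩, m', hm'⟩
    · exact absurd rfl h12
    · left
      have hγ : γ = 0 := by
        fin_cases γ
        · rfl
        · exact absurd rfl h13
        · exact absurd rfl h23
      subst hγ
      exact ⟨⟨m, hm⟩, m', hm'⟩
  · -- α = 2: rotate once
    apply Concl.of_rot
    apply T2b_mid h.rot
    fin_cases β
    · have hγ : γ = 1 := by
        fin_cases γ
        · exact absurd rfl h23
        · rfl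
        · exact absurd rfl h13
      subst hγ
      left
      simp only [Fin.zero_eta, Fin.reduceFinMk] at hm hm'
      refine ⟨⟨m + 1, ?_⟩, m' + 2, ?_⟩
      · simp; linarith
      · simp; linarith
    · have hγ : γ = 0 := by
        fin_cases γ
        · rfl
        · exact absurd rfl h23
        · exact absurd rfl h13
      subst hγ
      right
      simp only [Fin.mk_one, Fin.reduceFinMk] at hm hm'
      refine ⟨⟨m, ?_⟩, m' + 1, ?_⟩
      · simp; linarith
      · simp; linarith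
    · exact absurd rfl h12

/-- Mirror image of `left_type`. -/
theorem Dat.right_type {n k c : ℤ} {l r : Fin 3 → ℤ} (h : Dat n k c l r) :
    ∃ α β γ : Fin 3, α ≠ β ∧ β ≠ γ ∧ α ≠ γ ∧ (∃ m : ℤ, 2 * r α + r β = c - 1 + m * n) ∧
      ((∃ m : ℤ, 3 * r γ = c - 1 + m * n) ∨ (∃ m : ℤ, 2 * r β + r γ = c - 1 + m * n)) := by
  obtain ⟨α, β, γ, h12, h23, h13, ⟨m, hm⟩, h4⟩ := h.refl.left_type
  have hinv : ∀ i j : Fin 3, i ≠ j → Fin.rev i ≠ Fin.rev j := by decide
  have hval : ∀ i : Fin 3, (![-r 2, -r 1, -r 0] : Fin 3 → ℤ) i = - r (Fin.rev i) := by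
    intro i; fin_cases i <;> rfl
  rw [hval, hval] at hm
  refine ⟨Fin.rev α, Fin.rev β, Fin.rev γ, hinv _ _ h12, hinv _ _ h23, hinv _ _ h13,
    ⟨-m, by linarith⟩, ?_⟩
  rcases h4 with ⟨m', hm'⟩ | ⟨m', hm'⟩
  · left
    rw [hval] at hm'
    exact ⟨-m', by linarith⟩
  · right
    rw [hval, hval] at hm'
    exact ⟨-m', by linarith⟩

theorem T2b_right_concl {n k c : ℤ} {l r : Fin 3 → ℤ} (h : Dat n k c l r) {α β γ : Fin 3}
    (h12 : α ≠ β) (h23 : β ≠ γ) (h13 : α ≠ γ) (h1 : ∃ m : ℤ, 2 * r α + r β = c - 1 + m * n)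
    (h2 : ∃ m : ℤ, 2 * r β + r γ = c - 1 + m * n) : Concl n k l r := by
  obtain ⟨m, hm⟩ := h1
  obtain ⟨m', hm'⟩ := h2
  apply Concl.of_refl
  have hinv : ∀ i j : Fin 3, i ≠ j → Fin.rev i ≠ Fin.rev j := by decide
  have hval : ∀ i : Fin 3, (![-r 2, -r 1, -r 0] : Fin 3 → ℤ) (Fin.rev i) = - r i := by
    intro i; fin_cases i <;> rfl
  apply T2b_concl h.refl (hinv _ _ h12) (hinv _ _ h23) (hinv _ _ h13)
  · refine ⟨-m, ?_⟩
    rw [hval, hval]; linarith
  · refine ⟨-m', ?_⟩
    rw [hval, hval]; linarith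

end Pool.Agent.SPN
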