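import Pool.Agent.SPN.B1
import Pool.Agent.SPN.F0

set_option autoImplicit false

namespace Pool.Agent.SPN

open Finset Pointwise Pool.Agent.MP_8507d5_co

universe u

variable {Q : Type u} [AddCommGroup Q] [Fintype Q] [DecidableEq Q]

omit [Fintype Q] in
/-- **Row U1 (1).** Growth of the sumsets of a set in which `0` has only the trivial representation.
PROOF: this is the induction step inside `unique_fold` (Pool/Agent/MP_8507d5_co/Folds.lean), copy it:
`kemperman_scherk (nf P j) P`. -/
theorem unique_grow {P : Finset Q} {h : ℕ} (h0 : (0 : Q) ∈ P)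
    (hZ : ∀ f : Fin h → Q, (∀ i, f i ∈ P) → ∑ i, f i = 0 → ∀ i, f i = 0) {j : ℕ} (hj : j + 1 ≤ h) :
    (nf P j).card + P.card ≤ (nf P (j + 1)).card + 1 := by
  have h2 := kemperman_scherk (nf P j) P (nf_mono P h0 (Nat.zero_le j) (by simp [nf])) h0 (by
    intro x hx p hp hxp
    obtain ⟨f, hf, rfl⟩ := (mem_nf P j x).mp hx
    let F : Fin h → Q := fun i =>
      if hi : (i : ℕ) < j then f ⟨i, hi⟩ else if (i : ℕ) = j then p else 0
    have hFP : ∀ i, F i ∈ P := by
      intro i
      simp only [F]
      split_ifs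
      · exact hf _
      · exact hp
      · exact h0
    have hFsum : ∑ i, F i = (∑ i, f i) + p := by
      have e1 : ∑ i, F i = ∑ i ∈ Finset.range h,
          (if hi : i < j then f ⟨i, hi⟩ else if i = j then p else 0) := by
        rw [Finset.sum_range]
      rw [e1]
      have e2 : Finset.range (j + 1) ⊆ Finset.range h := by
        intro x hx; rw [Finset.mem_range] at hx ⊢; omega
      rw [← Finset.sum_subset e2]
      · rw [Finset.sum_range_succ]
        congr 1
        · rw [Finset.sum_range]
          apply Finset.sum_congr rfl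
          intro i _
          rw [dif_pos i.2]
        · rw [dif_neg (lt_irrefl j), if_pos rfl]
      · intro x _ hx
        rw [Finset.mem_range, not_lt] at hx
        rw [dif_neg (by omega), if_neg (by omega)]
    have hall := hZ F hFP (by rw [hFsum]; exact hxp)
    have hp0 : p = 0 := by
      have := hall ⟨j, by omega⟩
      simpa [F] using this
    refine ⟨?_, hp0⟩
    rw [hp0, add_zero] at hxp
    exact hxp)
  rw [nf]
  exact h2

omit [Fintype Q] in
/-- **Row U1 (2).** If `0` has only the trivial representation as a sum of `c ≥ 2` elements of `P`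
and `|cP| ≤ c (|P| - 1) + 1` then `|2P| = 2 |P| - 1`.
PROOF: `unique_fold` gives `2 |P| + 1 ≤ |nf P 2| + 2`; `unique_grow` and induction give
`|nf P 2| + (c - 2) |P| ≤ |nf P c| + (c - 2)`. `nf P 2 = P + P` (`nf_one`). -/
theorem double_eq {P : Finset Q} {c : ℕ} (h0 : (0 : Q) ∈ P) (hc : 2 ≤ c)
    (hZ : ∀ f : Fin c → Q, (∀ i, f i ∈ P) → ∑ i, f i = 0 → ∀ i, f i = 0)
    (hcard : (nf P c).card + c ≤ c * P.card + 1) : (P + P).card + 1 = 2 * P.card := by
  have h1 := unique_fold P c h0 hZ 2 hc
  have e2 : nf P 2 = P + P := by rw [show nf P 2 = nf P 1 + P from rfl, nf_one]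
  have key : ∀ j, j + 2 ≤ c → (nf P 2).card + j * P.card ≤ (nf P (j + 2)).card + j := by
    intro j
    induction j with
    | zero => intro _; simp
    | succ j ih =>
      intro hj
      have h3 := ih (by omega)
      have h4 := unique_grow h0 hZ (j := j + 2) (by omega)
      have h5 : (j + 1) * P.card = j * P.card + P.card := by ring
      have h6 : j + 1 + 2 = j + 2 + 1 := by omega
      rw [h5, h6]
      omega
  obtain ⟨j, rfl⟩ : ∃ j, c = j + 2 := ⟨c - 2, by omega⟩
  have h3 := key j le_rfl
  have h5 : (j + 2) * P.card = j * P.card + 2 * P.card := by ring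
  rw [h5] at hcard
  rw [e2] at h1 h3
  omega

omit [Fintype Q] in
theorem u1_pair {M : Finset Q} (hM : M.card = 2) (h0 : (0 : Q) ∈ M) :
    ∃ g : Q, g ≠ 0 ∧ M = {0, g} := by
  obtain ⟨u, v, huv, hA'⟩ := Finset.card_eq_two.mp hM
  rw [hA'] at h0
  rw [Finset.mem_insert, Finset.mem_singleton] at h0
  rcases h0 with h | h
  · subst h; exact ⟨v, Ne.symm huv, hA'⟩
  · subst h; exact ⟨u, huv, by rw [hA', Finset.pair_comm]⟩

/-- **Row U1 (3).** Critical thick sets in which `0` is uniquely represented are progressions starting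
at `0`. (`hu`: `0` has only the representation `0 + 0` in `P + P`.)
PROOF. `t = 1`: `P = {0, δ}` (`eq_pair_of_card` in C1), `δ ≠ 0`. Let `N := zmultiples δ`,
`F := univ.filter (· ∈ N)`. If `N ≠ ⊤` then `|F| < |Q|` and `2 ≤ |F|`, `F + P = F`, but `hT` gives
`|F| + 2 ≤ |F + P|`, contradiction. So `g := δ` works.
`t ≥ 2` with `2 t + 3 ≤ |Q|`: `tight_structure P _ P ⟨_, _⟩ _` (`|P + P| = 2t + 1`). Its second
alternative contradicts `hT`. So `P = {x + i • g : i < t + 1}`, `g` a generator. `0 = x + i₀ • g`.
If `0 < i₀ < t` then `x + (i₀+1) • g = g` and `x + (i₀ - 1) • g = -g` are in `P` and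
`g + (-g) = 0`, so `g = 0` by `hu`, impossible (`g` generates and `|Q| ≥ 2`). If `i₀ = 0`: `x = 0`,
done. If `i₀ = t`: `x = - t • g`, `P = {i • (-g) : i ≤ t}`, use `-g` (`gen_neg`). -/
theorem crit_ap {t : ℕ} {P : Finset Q} (hP : P.card = t + 1) (ht : 1 ≤ t)
    (hbig : t = 1 ∨ 2 * t + 3 ≤ Fintype.card Q) (h0 : (0 : Q) ∈ P) (hT : Thick P 0)
    (h2 : (P + P).card + 1 = 2 * P.card) (hu : ∀ a ∈ P, ∀ b ∈ P, a + b = 0 → a = 0) :
    ∃ g : Q, AddSubgroup.zmultiples g = ⊤ ∧ ∀ y, y ∈ P ↔ ∃ i : ℕ, i ≤ t ∧ y = i • g := by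
  classical
  rcases hbig with rfl | hbig
  · obtain ⟨d, hd0, hPd⟩ := u1_pair (hP : P.card = 2) h0
    have htop : AddSubgroup.zmultiples d = ⊤ := by
      by_contra hN
      have hF : ∀ x, x ∈ Finset.univ.filter (· ∈ AddSubgroup.zmultiples d) ↔
          x ∈ AddSubgroup.zmultiples d := fun x => by simp
      have hd : d ∈ AddSubgroup.zmultiples d := AddSubgroup.mem_zmultiples d
      have h2F : 2 ≤ (Finset.univ.filter (· ∈ AddSubgroup.zmultiples d)).card := by
        have hsub : ({0, d} : Finset Q) ⊆ Finset.univ.filter (· ∈ AddSubgroup.zmultiples d) := by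
          intro x hx
          rw [hF]
          rcases Finset.mem_insert.1 hx with h | h
          · rw [h]; exact AddSubgroup.zero_mem _
          · rw [Finset.mem_singleton.1 h]; exact hd
        have h3 := Finset.card_le_card hsub
        rwa [Finset.card_pair (Ne.symm hd0)] at h3
      have hlt : (Finset.univ.filter (· ∈ AddSubgroup.zmultiples d)).card < Fintype.card Q := by
        rw [← Finset.card_univ]
        refine Finset.card_lt_card (Finset.ssubset_univ_iff.mpr ?_)
        intro h3
        apply hN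
        rw [AddSubgroup.eq_top_iff']
        intro x
        rw [← hF, h3]
        exact Finset.mem_univ x
      have h3 := hT _ _ hF h2F hlt
      have h4 : Finset.univ.filter (· ∈ AddSubgroup.zmultiples d) + P ⊆
          Finset.univ.filter (· ∈ AddSubgroup.zmultiples d) := by
        intro y hy
        obtain ⟨a, ha, b, hb, rfl⟩ := Finset.mem_add.1 hy
        rw [hF] at ha ⊢
        refine AddSubgroup.add_mem _ ha ?_
        rw [hPd] at hb
        rcases Finset.mem_insert.1 hb with h | h
        · rw [h]; exact AddSubgroup.zero_mem _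
        · rw [Finset.mem_singleton.1 h]; exact hd
      have h5 := Finset.card_le_card h4
      omega
    refine ⟨d, htop, fun y => ?_⟩
    rw [hPd, Finset.mem_insert, Finset.mem_singleton]
    constructor
    · rintro (h | h)
      · exact ⟨0, by omega, by rw [h, zero_nsmul]⟩
      · exact ⟨1, le_rfl, by rw [h, one_nsmul]⟩
    · rintro ⟨i, hi, h⟩
      rcases (by omega : i = 0 ∨ i = 1) with h3 | h3
      · left; rw [h, h3, zero_nsmul]
      · right; rw [h, h3, one_nsmul]
  · rcases tight_structure P (by omega) P ⟨by omega, by omega⟩ (by omega) with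
      ⟨x, g, hg, hPg⟩ | ⟨N, F, hF, h3, h4, h5⟩
    · rw [hP] at hPg
      have hmem : ∀ y, y ∈ P ↔ ∃ i : ℕ, i < t + 1 ∧ x + i • g = y := by
        intro y
        conv_lhs => rw [hPg]
        rw [Finset.mem_image]
        constructor
        · rintro ⟨i, hi, h⟩; exact ⟨i, Finset.mem_range.1 hi, h⟩
        · rintro ⟨i, hi, h⟩; exact ⟨i, Finset.mem_range.2 hi, h⟩
      obtain ⟨i0, hi0, hx⟩ := (hmem 0).1 h0
      have hx' : x = -(i0 • g) := eq_neg_of_add_eq_zero_left hx
      rcases (by omega : i0 = 0 ∨ (0 < i0 ∧ i0 < t) ∨ i0 = t) with h3 | h3 | h3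
      · have hx0 : x = 0 := by rw [hx', h3, zero_nsmul, neg_zero]
        refine ⟨g, hg, fun y => ?_⟩
        rw [hmem]
        constructor
        · rintro ⟨i, hi, h⟩; exact ⟨i, by omega, by rw [← h, hx0, zero_add]⟩
        · rintro ⟨i, hi, h⟩; exact ⟨i, by omega, by rw [h, hx0, zero_add]⟩
      · exfalso
        obtain ⟨k, rfl⟩ : ∃ k, i0 = k + 1 := ⟨i0 - 1, by omega⟩
        have h4 : g ∈ P := (hmem g).2 ⟨k + 1 + 1, by omega, by
          rw [hx', add_nsmul (g) (k + 1) 1, one_nsmul]; abel⟩
        have h5 : -g ∈ P := (hmem (-g)).2 ⟨k, by omega, by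
          rw [hx', add_nsmul (g) k 1, one_nsmul]; abel⟩
        have h6 : g = 0 := hu g h4 (-g) h5 (add_neg_cancel g)
        have h7 : P ⊆ {x} := by
          intro y hy
          obtain ⟨i, -, h⟩ := (hmem y).1 hy
          rw [Finset.mem_singleton, ← h, h6, nsmul_zero, add_zero]
        have h8 := Finset.card_le_card h7
        rw [Finset.card_singleton] at h8
        omega
      · refine ⟨-g, gen_neg hg, fun y => ?_⟩
        rw [hmem]
        constructor
        · rintro ⟨i, hi, h⟩
          refine ⟨t - i, by omega, ?_⟩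
          have h4 : t • g = (t - i) • g + i • g := by rw [← add_nsmul]; congr 1; omega
          rw [← h, hx', h3, h4, neg_nsmul]; abel
        · rintro ⟨i, hi, h⟩
          refine ⟨t - i, by omega, ?_⟩
          have h4 : t • g = (t - i) • g + i • g := by rw [← add_nsmul]; congr 1; omega
          rw [h, hx', h3, h4, neg_nsmul]; abel
    · exfalso
      have := hT N F hF h3 h4
      omega

end Pool.Agent.SPN
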