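import Pool.Agent.SPN.Q1
import Pool.Agent.SPN.Q2
import Pool.Agent.SPN.U2

set_option autoImplicit false

/-! Type `TWO`: the situation, normalised at the small coset (`0 ∈ A`). -/

namespace Pool.Agent.SPN

open Finset Pointwise Pool.Agent.MP_8507d5_co

universe u

variable {G : Type u} [AddCommGroup G] [Fintype G] [DecidableEq G]

/-- The situation before normalisation. `l = |N|`, `|G ⧸ N| = h t`, `|A| = t l`, `|N + A| = l + |A|`,
`g₀ ∉ hA`. -/
structure TwoPre (h : ℕ) (A : Finset G) (N : AddSubgroup G) (F : Finset G) (t : ℕ) (g₀ : G) :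
    Prop where
  hE : Ext h A
  hF : ∀ x, x ∈ F ↔ x ∈ N
  h2 : 2 ≤ F.card
  hFA : (F + A).card = F.card + A.card
  hq : Nat.card (G ⧸ N) = h * t
  ht : 1 ≤ t
  hk : A.card = t * F.card
  hg₀ : g₀ ∉ nf A h

/-- The normalised situation: `0 ∈ A` and `δ ∈ A` are in the only two cosets which are not full. -/
structure TwoSetup (h : ℕ) (A : Finset G) (N : AddSubgroup G) (F : Finset G) (t : ℕ) (δ g₀ : G) :
    Prop extends TwoPre h A N F t g₀ where
  h0 : (0 : G) ∈ A
  hδA : δ ∈ A
  hδN : δ ∉ N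
  hgδ : g₀ - δ ∈ N
  hsum : (fib N A 0).card + (fib N A δ).card = F.card
  hlt : 2 * (fib N A 0).card < F.card
  hfull : ∀ b ∈ A, b ∉ N → b - δ ∉ N → (fib N A b).card = F.card

end Pool.Agent.SPN
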