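import Pool.Agent.SPN.W0

set_option autoImplicit false

namespace Pool.Agent.SPN

open Finset Pointwise Pool.Agent.MP_8507d5_co

universe u

variable {G : Type u} [AddCommGroup G] [Fintype G] [DecidableEq G]

omit [AddCommGroup G] [DecidableEq G] in
open Classical in
theorem w1_max (Pr : Finset G → Prop) (h : ∃ F, Pr F) :
    ∃ F, Pr F ∧ ∀ E, Pr E → E.card ≤ F.card := by
  obtain ⟨F₀, hF₀⟩ := h
  obtain ⟨F, hF, hmax⟩ := Finset.exists_max_image
    ((Finset.univ : Finset (Finset G)).filter (fun F => Pr F)) Finset.card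
    ⟨F₀, Finset.mem_filter.2 ⟨Finset.mem_univ _, hF₀⟩⟩
  exact ⟨F, (Finset.mem_filter.1 hF).2,
    fun E hE => hmax E (Finset.mem_filter.2 ⟨Finset.mem_univ _, hE⟩)⟩

/-- **Row W1 (1).** Choice of `N`. PROOF: `¬ Thick A 1` gives a proper nontrivial subgroup with
`|N + A| ≤ |N| + |A|`, hence `=` by `hT`. Choose one with `|N|` maximal (e.g. `Nat.findGreatest`, or
strong induction on `|G| - |F|`, or `Set.Finite`/`Finset.exists_max_image` over the finsets
`F : Finset G`, `univ.powerset`, with the property). For a larger proper `M`: `hT` gives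
`|M| + |A| ≤ |M + A|` and equality is excluded by maximality. -/
theorem exists_crit {A : Finset G} (hT : Thick A 0) (hT1 : ¬ Thick A 1) :
    ∃ (N : AddSubgroup G) (F : Finset G), (∀ x, x ∈ F ↔ x ∈ N) ∧ 2 ≤ F.card ∧
      F.card < Fintype.card G ∧ (F + A).card = F.card + A.card ∧
      ∀ (M : AddSubgroup G) (E : Finset G), (∀ x, x ∈ E ↔ x ∈ M) → F.card < E.card →
        E.card < Fintype.card G → E.card + A.card + 1 ≤ (E + A).card := by
  have h1 : ∃ F : Finset G, (∃ N : AddSubgroup G, ∀ x, x ∈ F ↔ x ∈ N) ∧ 2 ≤ F.card ∧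
      F.card < Fintype.card G ∧ (F + A).card = F.card + A.card := by
    unfold Thick at hT1
    push Not at hT1
    obtain ⟨N, F, hF, h2, h3, h4⟩ := hT1
    have h5 := hT N F hF h2 h3
    exact ⟨F, ⟨N, hF⟩, h2, h3, by omega⟩
  obtain ⟨F, ⟨⟨N, hF⟩, h2, h3, h4⟩, hmax⟩ := w1_max _ h1
  refine ⟨N, F, hF, h2, h3, h4, fun M E hE h5 h6 => ?_⟩
  have h7 := hT M E hE (by omega) h6
  by_contra h8
  have h9 := hmax E ⟨⟨M, hE⟩, by omega, h6, by omega⟩
  omega

/-- **Row W1 (2).** Choice of `N` in the other case. PROOF: as above, `|N|` maximal among the proper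
nontrivial subgroups with `|N + A| < |N| + |A|`. -/
theorem exists_less {A : Finset G} (hT : ¬ Thick A 0) :
    ∃ (N : AddSubgroup G) (F : Finset G), (∀ x, x ∈ F ↔ x ∈ N) ∧ 2 ≤ F.card ∧
      F.card < Fintype.card G ∧ (F + A).card < F.card + A.card ∧
      ∀ (M : AddSubgroup G) (E : Finset G), (∀ x, x ∈ E ↔ x ∈ M) → F.card < E.card →
        E.card < Fintype.card G → E.card + A.card ≤ (E + A).card := by
  have h1 : ∃ F : Finset G, (∃ N : AddSubgroup G, ∀ x, x ∈ F ↔ x ∈ N) ∧ 2 ≤ F.card ∧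
      F.card < Fintype.card G ∧ (F + A).card < F.card + A.card := by
    unfold Thick at hT
    push Not at hT
    obtain ⟨N, F, hF, h2, h3, h4⟩ := hT
    exact ⟨F, ⟨N, hF⟩, h2, h3, by omega⟩
  obtain ⟨F, ⟨⟨N, hF⟩, h2, h3, h4⟩, hmax⟩ := w1_max _ h1
  refine ⟨N, F, hF, h2, h3, h4, fun M E hE h5 h6 => ?_⟩
  by_contra h8
  have h9 := hmax E ⟨⟨M, hE⟩, by omega, h6, by omega⟩
  omega

/-- **Row W1 (3).** Arithmetic of type `TWO`. PROOF: `classical`; `card_im`: `|im| l = l + |A|`, so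
`|A| = (|im| - 1) l`, `t := |im| - 1`. `|G| = q l`, `q := |G ⧸ N|` (`card_quot`).
`hE.card`: `|G| = h |A|` or `h |A| + 1`; the second is impossible (`l ∣ |G|`, `l ∣ |A|`, so `l ∣ 1`).
So `q l = h t l`, `q = h t`; `t ≥ 1` since `q ≥ 1`. -/
theorem two_pre {h : ℕ} {A : Finset G} (hE : Ext h A) {N : AddSubgroup G} {F : Finset G}
    (hF : ∀ x, x ∈ F ↔ x ∈ N) (h2 : 2 ≤ F.card) (hFA : (F + A).card = F.card + A.card) :
    ∃ (t : ℕ) (g₀ : G), TwoPre h A N F t g₀ := by
  classical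
  have h1 := card_im N F hF A
  have h3 := (card_quot N F hF).1
  have hh := hE.hh
  have hG : 0 < Fintype.card G := Fintype.card_pos
  generalize hm : (im N A).card = m at h1
  generalize hq : Nat.card (G ⧸ N) = q at h3
  have hm1 : 1 ≤ m := by
    rcases Nat.eq_zero_or_pos m with h0 | h0
    · rw [h0, zero_mul] at h1
      omega
    · exact h0
  obtain ⟨t, rfl⟩ : ∃ t, m = t + 1 := ⟨m - 1, by omega⟩
  have hk : A.card = t * F.card := by
    rw [hFA, add_mul, one_mul] at h1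
    omega
  have hqt : q = h * t := by
    rcases hE.card with h4 | h4
    · rw [h3, hk, ← mul_assoc] at h4
      exact Nat.eq_of_mul_eq_mul_right (by omega) h4
    · exfalso
      rw [h3, hk, ← mul_assoc] at h4
      have h5 : F.card ∣ h * t * F.card + 1 := ⟨q, by rw [← h4]; ring⟩
      have h6 : F.card ∣ 1 := (Nat.dvd_add_right (Dvd.intro_left _ rfl)).mp h5
      have := Nat.le_of_dvd one_pos h6
      omega
  have ht : 1 ≤ t := by
    rcases Nat.eq_zero_or_pos t with h0 | h0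
    · rw [h0, mul_zero] at hqt
      rw [hqt, zero_mul] at h3
      omega
    · exact h0
  obtain ⟨g₀, hg₀⟩ : ∃ g, g ∉ nf A h := by
    by_contra hcon
    push Not at hcon
    exact hE.ne (Finset.eq_univ_iff_forall.mpr hcon)
  exact ⟨t, g₀, hE, hF, h2, hFA, hq.trans hqt, ht, hk, hg₀⟩

/-- **Row W1 (4).** The image has `t + 1` elements and spans. PROOF: `card_im`; `span_of_card` in
`G ⧸ N` (`Adm.dvd`: `|G ⧸ N|` divides `|G|`): `|G ⧸ N| / h = t < t + 1`. -/
theorem TwoPre.span {h : ℕ} {A : Finset G} {N : AddSubgroup G} {F : Finset G} {t : ℕ} {g₀ : G}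
    [Fintype (G ⧸ N)] [DecidableEq (G ⧸ N)] (hS : TwoPre h A N F t g₀) :
    (im N A).card = t + 1 ∧ nf (im N A) h = univ := by
  have h1 := card_im N F hS.hF A
  have h2 := hS.h2
  have h3 : (im N A).card = t + 1 := by
    refine Nat.eq_of_mul_eq_mul_right (show 0 < F.card by omega) ?_
    rw [← h1, hS.hFA, hS.hk]
    ring
  have h4 := (card_quot N F hS.hF).1
  have h5 := hS.hq
  rw [Nat.card_eq_fintype_card] at h4 h5
  have hh := hS.hE.hh
  refine ⟨h3, span_of_card hh (hS.hE.adm.dvd ⟨F.card, h4⟩) (im N A) ?_⟩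
  rw [h3, h5, Nat.mul_div_cancel_left _ (by omega)]
  exact Nat.lt_succ_self t

end Pool.Agent.SPN
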