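import Pool.Agent.SPN.W1

set_option autoImplicit false

namespace Pool.Agent.SPN

open Finset Pointwise Pool.Agent.MP_8507d5_co

universe u

variable {G : Type u} [AddCommGroup G] [Fintype G] [DecidableEq G]

theorem w2_odd {h : ℕ} {A : Finset G} {N : AddSubgroup G} {F : Finset G} {t : ℕ} {g₀ : G}
    (hS : TwoPre h A N F t g₀) : ¬ 2 ∣ F.card := by
  have h1 := (card_quot N F hS.hF).1
  exact (hS.hE.adm.dvd ⟨Nat.card (G ⧸ N), by rw [h1, mul_comm]⟩).odd hS.hE.hh

theorem w2_two {h : ℕ} {A : Finset G} {N : AddSubgroup G} {F : Finset G} {t : ℕ} {g₀ : G}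
    (hS : TwoPre h A N F t g₀) {u v : G} (hu : u ∈ A) (hv : v ∈ A) (huv : u - v ∉ N) :
    F.card ≤ (fib N A u).card + (fib N A v).card := by
  have hne : u ≠ v := by
    rintro rfl
    exact huv (by rw [sub_self]; exact N.zero_mem)
  have h1 := holes N F hS.hF A {u, v} (by
      intro x hx
      rw [Finset.mem_insert, Finset.mem_singleton] at hx
      rcases hx with rfl | rfl
      · exact hu
      · exact hv) (by
      intro x hx y hy hxy
      rw [Finset.mem_insert, Finset.mem_singleton] at hx hy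
      rcases hx with rfl | rfl <;> rcases hy with rfl | rfl
      · rfl
      · exact absurd hxy huv
      · exact absurd (by rw [← neg_sub]; exact N.neg_mem hxy) huv
      · rfl)
  rw [Finset.card_pair hne, Finset.sum_pair hne, hS.hFA] at h1
  omega

theorem w2_three {h : ℕ} {A : Finset G} {N : AddSubgroup G} {F : Finset G} {t : ℕ} {g₀ : G}
    (hS : TwoPre h A N F t g₀) {u v y : G} (hu : u ∈ A) (hv : v ∈ A) (hy : y ∈ A)
    (huv : u - v ∉ N) (hyu : y - u ∉ N) (hyv : y - v ∉ N) :
    2 * F.card ≤ (fib N A u).card + (fib N A v).card + (fib N A y).card := by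
  have hself : ∀ x z : G, x - z ∉ N → x ≠ z := by
    rintro x z hxz rfl
    exact hxz (by rw [sub_self]; exact N.zero_mem)
  have hsym : ∀ x z : G, x - z ∉ N → z - x ∉ N := by
    intro x z hxz hzx
    exact hxz (by rw [← neg_sub]; exact N.neg_mem hzx)
  have hn1 : y ∉ ({u, v} : Finset G) := by
    rw [Finset.mem_insert, Finset.mem_singleton, not_or]
    exact ⟨hself y u hyu, hself y v hyv⟩
  have h1 := holes N F hS.hF A (insert y {u, v}) (by
      intro x hx
      rw [Finset.mem_insert, Finset.mem_insert, Finset.mem_singleton] at hx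
      rcases hx with rfl | rfl | rfl
      · exact hy
      · exact hu
      · exact hv) (by
      intro x hx z hz hxz
      rw [Finset.mem_insert, Finset.mem_insert, Finset.mem_singleton] at hx hz
      rcases hx with rfl | rfl | rfl <;> rcases hz with rfl | rfl | rfl
      · rfl
      · exact absurd hxz hyu
      · exact absurd hxz hyv
      · exact absurd hxz (hsym _ _ hyu)
      · rfl
      · exact absurd hxz huv
      · exact absurd hxz (hsym _ _ hyv)
      · exact absurd hxz (hsym _ _ huv)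
      · rfl)
  rw [Finset.card_insert_of_notMem hn1, Finset.card_pair (hself u v huv),
    Finset.sum_insert hn1, Finset.sum_pair (hself u v huv), hS.hFA] at h1
  omega

theorem w2_core {h : ℕ} {A : Finset G} {N : AddSubgroup G} {F : Finset G} {t : ℕ} {g₀ : G}
    (hS : TwoPre h A N F t g₀) (b : Fin h → G) (hb : ∀ i, b i ∈ A) (hs : g₀ - ∑ i, b i ∈ N)
    (i j : Fin h) (hij : b i - b j ∉ N) (hlt : 2 * (fib N A (b i)).card < F.card) :
    ∃ a ∈ A, ∃ c ∈ A, a - c ∉ N ∧ g₀ - ((h - 1) • a + c) ∈ N ∧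
      (fib N A a).card + (fib N A c).card = F.card ∧ 2 * (fib N A a).card < F.card ∧
      ∀ y ∈ A, y - a ∉ N → y - c ∉ N → (fib N A y).card = F.card := by
  have hne : ∀ k m : Fin h, b k - b m ∉ N → k ≠ m := by
    rintro k m hkm rfl
    exact hkm (by rw [sub_self]; exact N.zero_mem)
  have hc := claimR hS.hF hS.hg₀ b hb hs i j (hne i j hij)
  have h2 := w2_two hS (hb i) (hb j) hij
  have hsum : (fib N A (b i)).card + (fib N A (b j)).card = F.card := by omega
  have hfull : ∀ y ∈ A, y - b i ∉ N → y - b j ∉ N → (fib N A y).card = F.card := by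
    intro y hy h3 h4
    have h5 := w2_three hS (hb i) (hb j) hy hij h3 h4
    have h6 := fib_card_le hS.hF A y
    omega
  have hmod : ∀ m, m ≠ j → b m - b i ∈ N := by
    intro m hm
    by_contra h3
    by_cases h4 : b m - b j ∈ N
    · have h5 := claimR hS.hF hS.hg₀ b hb hs m j hm
      rw [fib_congr h4] at h5
      omega
    · have h5 := hfull (b m) (hb m) h3 h4
      have h6 := claimR hS.hF hS.hg₀ b hb hs m i (hne m i h3)
      have h7 : 0 < (fib N A (b i)).card := Finset.card_pos.2 ⟨b i, self_mem_fib (hb i)⟩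
      omega
  refine ⟨b i, hb i, b j, hb j, hij, ?_, hsum, hlt, hfull⟩
  have h3 : ∑ m ∈ Finset.univ.erase j, (b m - b i) ∈ N :=
    N.sum_mem fun m hm => hmod m (Finset.ne_of_mem_erase hm)
  rw [Finset.sum_sub_distrib, Finset.sum_const, Finset.card_erase_of_mem (Finset.mem_univ j),
    Finset.card_univ, Fintype.card_fin] at h3
  have h4 := Finset.add_sum_erase Finset.univ b (Finset.mem_univ j)
  have h5 : g₀ - ((h - 1) • b i + b j) = (g₀ - ∑ m, b m) +
      (∑ m ∈ Finset.univ.erase j, b m - (h - 1) • b i) := by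
    rw [← h4]
    abel
  rw [h5]
  exact N.add_mem hs h3

/-- **Row W2 (1).** A representation of `g₀` modulo `N` which is not constant modulo `N`.
PROOF. `l := |F|` is odd (`l ∣ |G|`, `Adm.odd`). `claimR` (file E1) for `i, j`:
`|fib (b i)| + |fib (b j)| ≤ l`. `holes` with `T = {b i, b j}` (two elements): `|A| + 2 l ≤ (l + |A|) +
|fib (b i)| + |fib (b j)|`, so the sum is exactly `l`. For `y ∈ A` not congruent to `b i` or `b j`:
`holes` with `T = {b i, b j, y}` gives `|fib y| ≥ l`, so `= l` (`fib_card_le`). Every `b m` is congruent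
to `b i` or `b j`: otherwise `|fib (b m)| = l`, but `claimR` for `m, i` gives
`|fib (b m)| + |fib (b i)| ≤ l` with `|fib (b i)| ≥ 1` (`self_mem_fib`).
By symmetry let `|fib (b i)| ≤ |fib (b j)|`; `l` odd: `2 |fib (b i)| < l < 2 |fib (b j)|`. No `m ≠ j` has
`b m ≡ b j` (`claimR` for `m, j`, `fib_congr`). So `b m ≡ b i` for all `m ≠ j` and
`∑ b ≡ (h - 1) • b i + b j`. Take `a := b i`, `c := b j`. -/
theorem two_rep_of {h : ℕ} {A : Finset G} {N : AddSubgroup G} {F : Finset G} {t : ℕ} {g₀ : G}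
    (hS : TwoPre h A N F t g₀) (b : Fin h → G) (hb : ∀ i, b i ∈ A) (hs : g₀ - ∑ i, b i ∈ N)
    (i j : Fin h) (hij : b i - b j ∉ N) :
    ∃ a ∈ A, ∃ c ∈ A, a - c ∉ N ∧ g₀ - ((h - 1) • a + c) ∈ N ∧
      (fib N A a).card + (fib N A c).card = F.card ∧ 2 * (fib N A a).card < F.card ∧
      ∀ y ∈ A, y - a ∉ N → y - c ∉ N → (fib N A y).card = F.card := by
  have hodd := w2_odd hS
  have hne : i ≠ j := by
    rintro rfl
    exact hij (by rw [sub_self]; exact N.zero_mem)
  have hc := claimR hS.hF hS.hg₀ b hb hs i j hne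
  have h2 := w2_two hS (hb i) (hb j) hij
  by_cases h3 : 2 * (fib N A (b i)).card < F.card
  · exact w2_core hS b hb hs i j hij h3
  · have hji : b j - b i ∉ N := by
      intro h4
      exact hij (by rw [← neg_sub]; exact N.neg_mem h4)
    have h5 : 2 * (fib N A (b i)).card ≠ F.card := by
      intro h6
      exact hodd ⟨_, h6.symm⟩
    exact w2_core hS b hb hs j i hji (by omega)

/-- **Row W2 (2).** It is impossible that all representations of `g₀` are constant modulo `N`.
PROOF. `classical`. By `TwoPre.span` and `exists_lift` there is a representation `b`; with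
`a := b 0`, `b i ≡ a`, `g₀ ≡ h • a`, and `claimR` for two indices gives `2 |fib a| ≤ l`
(`fib_congr`). If another representation `b'` is constant `≡ a'` with `a' ≢ a` then also
`2 |fib a'| ≤ l`, and `holes` with `T = {a, a'}` gives `|fib a| + |fib a'| ≥ l`; so `2 |fib a| = l`,
against `l` odd. So in all representations of `g₀` all terms are `≡ a`. Let
`P := (-(a : G ⧸ N)) +ᵥ im N A`, `|P| = t + 1`, `0 ∈ P`. If `f : Fin h → G ⧸ N` has values in `P` and sum
`0`, then `i ↦ a + f i` lifts (`lift_fun`) to a representation of `g₀`, so `f i = 0`. `unique_fold` (with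
`j = h`) gives `h (t + 1) + 1 ≤ |nf P h| + h ≤ h t + h`, contradiction. -/
theorem two_const {h : ℕ} {A : Finset G} {N : AddSubgroup G} {F : Finset G} {t : ℕ} {g₀ : G}
    (hS : TwoPre h A N F t g₀)
    (hall : ∀ b : Fin h → G, (∀ i, b i ∈ A) → g₀ - ∑ i, b i ∈ N → ∀ i j, b i - b j ∈ N) :
    False := by
  classical
  have : Fintype (G ⧸ N) := Fintype.ofFinite _
  have hodd := w2_odd hS
  have hh := hS.hE.hh
  obtain ⟨him, hspan⟩ := hS.span
  obtain ⟨b, hb, hs⟩ := exists_lift (h := h) N A g₀ (by rw [hspan]; exact Finset.mem_univ _)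
  obtain ⟨i0, hi0⟩ : ∃ i0 : Fin h, i0.val = 0 := ⟨⟨0, by omega⟩, rfl⟩
  obtain ⟨i1, hi1⟩ : ∃ i1 : Fin h, i1.val = 1 := ⟨⟨1, by omega⟩, rfl⟩
  have h01 : i0 ≠ i1 := by
    intro h1
    rw [h1] at hi0
    omega
  have hsmall : ∀ b' : Fin h → G, (∀ i, b' i ∈ A) → g₀ - ∑ i, b' i ∈ N →
      2 * (fib N A (b' i0)).card ≤ F.card := by
    intro b' hb' hs'
    have h1 := claimR hS.hF hS.hg₀ b' hb' hs' i0 i1 h01
    rw [fib_congr (hall b' hb' hs' i1 i0)] at h1
    omega
  have hconst : ∀ b' : Fin h → G, (∀ i, b' i ∈ A) → g₀ - ∑ i, b' i ∈ N → ∀ i, b' i - b i0 ∈ N := by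
    intro b' hb' hs' i
    have h1 : b' i0 - b i0 ∈ N := by
      by_contra h2
      have h3 := hsmall b hb hs
      have h4 := hsmall b' hb' hs'
      have h5 := w2_two hS (hb' i0) (hb i0) h2
      exact hodd ⟨(fib N A (b i0)).card, by omega⟩
    have h2 := N.add_mem (hall b' hb' hs' i i0) h1
    have h3 : b' i - b' i0 + (b' i0 - b i0) = b' i - b i0 := by abel
    rwa [h3] at h2
  have hmk : ∀ b' : Fin h → G, ((∑ i, b' i : G) : G ⧸ N) = ∑ i, (b' i : G ⧸ N) := fun b' =>
    map_sum (QuotientAddGroup.mk' N) b' Finset.univ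
  have hg : (g₀ : G ⧸ N) = h • (b i0 : G ⧸ N) := by
    rw [(mk_eq_iff N _ _).2 hs, hmk]
    have h1 : ∀ i ∈ (Finset.univ : Finset (Fin h)), (b i : G ⧸ N) = (b i0 : G ⧸ N) := fun i _ =>
      (mk_eq_iff N _ _).2 (hall b hb hs i i0)
    rw [Finset.sum_congr rfl h1, Finset.sum_const, Finset.card_univ, Fintype.card_fin]
  have h1 := unique_fold ((-(b i0 : G ⧸ N)) +ᵥ im N A) h (by
      rw [Finset.mem_vadd_finset]
      exact ⟨(b i0 : G ⧸ N), mk_mem_im (hb i0), by rw [vadd_eq_add, neg_add_cancel]⟩) (by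
      intro f hf hsum
      have h2 : ∀ i, (b i0 : G ⧸ N) + f i ∈ im N A := by
        intro i
        obtain ⟨x, hx, hxf⟩ := Finset.mem_vadd_finset.1 (hf i)
        rw [← hxf, vadd_eq_add, add_neg_cancel_left]
        exact hx
      obtain ⟨b', hb', hbf, hbs⟩ := lift_fun N A (fun i => (b i0 : G ⧸ N) + f i) h2
      have h3 : g₀ - ∑ i, b' i ∈ N := by
        rw [← mk_eq_iff, hbs, Finset.sum_add_distrib, hsum, add_zero, Finset.sum_const,
          Finset.card_univ, Fintype.card_fin, hg]
      intro i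
      have h4 := (mk_eq_iff N _ _).2 (hconst b' hb' h3 i)
      rw [hbf i] at h4
      exact add_eq_left.1 h4) h le_rfl
  rw [Finset.card_vadd_finset, him] at h1
  have h2 : (nf ((-(b i0 : G ⧸ N)) +ᵥ im N A) h).card ≤ h * t := by
    rw [← hS.hq, Nat.card_eq_fintype_card, ← Finset.card_univ]
    exact Finset.card_le_card (Finset.subset_univ _)
  have h3 : h * (t + 1) = h * t + h := by ring
  omega

end Pool.Agent.SPN
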