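import Pool.Agent.SPN.W2

set_option autoImplicit false

namespace Pool.Agent.SPN

open Finset Pointwise Pool.Agent.MP_8507d5_co

universe u

variable {G : Type u} [AddCommGroup G] [Fintype G] [DecidableEq G]

omit [Fintype G] in
theorem w3_fib {A : Finset G} {N : AddSubgroup G} (a y : G) :
    (fib N ((-a) +ᵥ A) (y - a)).card = (fib N A y).card := by
  have h1 : fib N ((-a) +ᵥ A) (y - a) = (-a) +ᵥ fib N A y := by
    ext z
    rw [mem_fib, Finset.mem_vadd_finset, Finset.mem_vadd_finset]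
    constructor
    · rintro ⟨⟨w, hw, rfl⟩, h2⟩
      refine ⟨w, mem_fib.2 ⟨hw, ?_⟩, rfl⟩
      have h3 : w - y = ((-a) +ᵥ w) - (y - a) := by
        rw [vadd_eq_add]
        abel
      rw [h3]
      exact h2
    · rintro ⟨w, hw, rfl⟩
      obtain ⟨hw1, hw2⟩ := mem_fib.1 hw
      refine ⟨⟨w, hw1, rfl⟩, ?_⟩
      have h3 : ((-a) +ᵥ w) - (y - a) = w - y := by
        rw [vadd_eq_add]
        abel
      rw [h3]
      exact hw2
  rw [h1, Finset.card_vadd_finset]

theorem w3_aux {m : ℕ} {A : Finset G} {N : AddSubgroup G} {F : Finset G} {t : ℕ} {δ g₀ : G}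
    (hS : TwoSetup (m + 1) A N F t δ g₀) (b : Fin m → G) (hb : ∀ i, b i ∈ A) {y : G} (hy : y ∈ A)
    (hsum : g₀ - (∑ i, b i + y) ∈ N) (i : Fin m) : (fib N A (b i)).card + (fib N A y).card ≤ F.card := by
  have h1 := claimR (h := m + 1) hS.hF hS.hg₀ (Fin.snoc (α := fun _ => G) b y) (fun j => by
    refine Fin.lastCases ?_ (fun j => ?_) j
    · rw [Fin.snoc_last]
      exact hy
    · rw [Fin.snoc_castSucc]
      exact hb j) (by
    rw [Fin.sum_univ_castSucc]
    simp only [Fin.snoc_castSucc, Fin.snoc_last]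
    exact hsum) i.castSucc (Fin.last m) (Fin.castSucc_lt_last i).ne
  rw [Fin.snoc_castSucc, Fin.snoc_last] at h1
  exact h1

omit [Fintype G] [DecidableEq G] in
theorem w3_pos {A : Finset G} {N : AddSubgroup G} {a : G} (ha : a ∈ A) : 0 < (fib N A a).card :=
  Finset.card_pos.2 ⟨a, self_mem_fib ha⟩

theorem w3_unique {m : ℕ} {A : Finset G} {N : AddSubgroup G} {F : Finset G} {t : ℕ} {δ g₀ : G}
    [DecidableEq (G ⧸ N)] (hS : TwoSetup (m + 1) A N F t δ g₀) (f : Fin m → G ⧸ N)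
    (hf : ∀ i, f i ∈ im N A) (hsum : ∑ i, f i = 0) : ∀ i, f i = 0 := by
  obtain ⟨b, hb, hbf, hbs⟩ := lift_fun N A f hf
  have hsN : ∑ i, b i ∈ N := by
    rw [← QuotientAddGroup.eq_zero_iff, hbs, hsum]
  intro i
  have h1 := w3_aux hS b hb hS.hδA (by
    have h2 : g₀ - (∑ i, b i + δ) = (g₀ - δ) - ∑ i, b i := by abel
    rw [h2]
    exact N.sub_mem hS.hgδ hsN) i
  have h2 := hS.hsum
  have h3 := hS.hlt
  have h4 := w3_pos (N := N) hS.hδA
  rw [← hbf i, QuotientAddGroup.eq_zero_iff]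
  by_contra h5
  by_cases h6 : b i - δ ∈ N
  · rw [fib_congr h6] at h1
    omega
  · rw [hS.hfull (b i) (hb i) h5 h6] at h1
    omega

theorem w3_excl {m : ℕ} {A : Finset G} {N : AddSubgroup G} {F : Finset G} {t : ℕ} {δ g₀ : G}
    [DecidableEq (G ⧸ N)] (hS : TwoSetup (m + 1) A N F t δ g₀) (hm : 0 < m) (p : G ⧸ N) (hp : p ∈ im N A)
    (hp0 : p ≠ 0) (hpδ : p ≠ (δ : G ⧸ N)) : (δ : G ⧸ N) - p ∉ nf (im N A) m := by
  intro hcon
  obtain ⟨y, hy, rfl⟩ := mem_im.1 hp
  obtain ⟨b, hb, hbs⟩ := exists_lift N A (δ - y) hcon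
  have h1 := w3_aux hS b hb hy (by
    have h2 : g₀ - (∑ i, b i + y) = (g₀ - δ) + (δ - y - ∑ i, b i) := by abel
    rw [h2]
    exact N.add_mem hS.hgδ hbs) ⟨0, hm⟩
  have h2 : y ∉ N := fun h => hp0 ((QuotientAddGroup.eq_zero_iff y).2 h)
  have h3 : y - δ ∉ N := by
    intro h
    apply hpδ
    rw [QuotientAddGroup.eq]
    have h4 : -y + δ = -(y - δ) := by abel
    rw [h4]
    exact N.neg_mem h
  rw [hS.hfull y hy h2 h3] at h1
  have h4 := w3_pos (N := N) (hb ⟨0, hm⟩)
  omega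

/-- **Row W3 (1).** Normalisation. PROOF: by `two_const` some representation of `g₀` is not constant
modulo `N`, so `two_rep_of` gives `a, c`. Translate by `-a`: `A' := (-a) +ᵥ A`, `δ := c - a`,
`g₀' := g₀ - h • a`. `Ext.translate`; `|F + A'| = |F + A|` (see `Thick.translate`), `|A'| = |A|`,
`nf_translate` for `g₀' ∉ nf A' h`; `fib N A' (y - a)` is the translate by `-a` of `fib N A y`, so the
cardinalities agree; `h • a = (h - 1) • a + a`. -/
theorem two_setup {h : ℕ} {A : Finset G} {N : AddSubgroup G} {F : Finset G} {t : ℕ} {g₀ : G}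
    (hS : TwoPre h A N F t g₀) :
    ∃ a δ : G, TwoSetup h ((-a) +ᵥ A) N F t δ (g₀ - h • a) := by
  by_cases hall : ∀ b : Fin h → G, (∀ i, b i ∈ A) → g₀ - ∑ i, b i ∈ N → ∀ i j, b i - b j ∈ N
  · exact (two_const hS hall).elim
  · push Not at hall
    obtain ⟨b, hb, hs, i, j, hij⟩ := hall
    obtain ⟨a, ha, c, hc, hac, hg, hsum, hlt, hfull⟩ := two_rep_of hS b hb hs i j hij
    have hh := hS.hE.hh
    have hza : (0 : G) = a - a := (sub_self a).symm
    refine ⟨a, c - a, ⟨⟨hS.hE.translate (-a), hS.hF, hS.h2, ?_, hS.hq, hS.ht, ?_, ?_⟩, ?_, ?_, ?_, ?_, ?_, ?_, ?_⟩⟩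
    · have h3 : (F + ((-a) +ᵥ A)).card = (F + A).card := by
        rw [add_comm F, vadd_add_assoc, Finset.card_vadd_finset, add_comm A]
      rw [h3, Finset.card_vadd_finset]
      exact hS.hFA
    · rw [Finset.card_vadd_finset]
      exact hS.hk
    · intro h1
      rw [nf_translate, Finset.mem_vadd_finset] at h1
      obtain ⟨y, hy, h2⟩ := h1
      have h3 : y = g₀ := by
        rw [vadd_eq_add, smul_neg] at h2
        have h4 : y = (-(h • a) + y) + h • a := by abel
        rw [h4, h2]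
        abel
      rw [h3] at hy
      exact hS.hg₀ hy
    · rw [Finset.mem_vadd_finset]
      exact ⟨a, ha, by rw [vadd_eq_add, neg_add_cancel]⟩
    · rw [Finset.mem_vadd_finset]
      exact ⟨c, hc, by rw [vadd_eq_add]; abel⟩
    · intro h1
      apply hac
      have h2 : a - c = -(c - a) := by abel
      rw [h2]
      exact N.neg_mem h1
    · have h1 : h • a = (h - 1) • a + a := by
        rw [← succ_nsmul]
        congr 1
        omega
      have h2 : g₀ - h • a - (c - a) = g₀ - ((h - 1) • a + c) := by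
        rw [h1]
        abel
      rw [h2]
      exact hg
    · rw [hza, w3_fib, w3_fib]
      exact hsum
    · rw [hza, w3_fib]
      exact hlt
    · intro y hy h1 h2
      obtain ⟨w, hw, rfl⟩ := Finset.mem_vadd_finset.1 hy
      have h3 : (-a) +ᵥ w = w - a := by
        rw [vadd_eq_add]
        abel
      rw [h3] at h1 h2 ⊢
      rw [w3_fib]
      refine hfull w hw h1 fun h4 => h2 ?_
      have h5 : w - a - (c - a) = w - c := by abel
      rw [h5]
      exact h4

/-- **Row W3 (2).** In the normalised situation `0` has only the trivial representation as a sum of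
`h - 1` elements of the image.
PROOF. `l` odd, so `2 |fib 0| < l < 2 |fib δ|`. Let `f` be a representation of `0`, lifted by `lift_fun`
to `b : Fin (h-1) → G`, `b i ∈ A`, `∑ b ∈ N`. Adding `δ` as an `h`-th term (use
`Fin.snoc` and `h = (h - 1) + 1`; or state an auxiliary lemma for `Fin (m+1)`) we get a
representation of `g₀` modulo `N` (`hgδ`). `claimR` for `i` and the last index:
`|fib (b i)| + |fib δ| ≤ l`, so `|fib (b i)| < l / 2` is not full and, by `hfull`, `b i ∈ N` or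
`b i ≡ δ`; `b i ≡ δ` would give `2 |fib δ| ≤ l`. So `b i ∈ N`, i.e. `f i = 0`. -/
theorem two_unique {h : ℕ} {A : Finset G} {N : AddSubgroup G} {F : Finset G} {t : ℕ} {δ g₀ : G}
    [DecidableEq (G ⧸ N)] (hS : TwoSetup h A N F t δ g₀) (f : Fin (h - 1) → G ⧸ N)
    (hf : ∀ i, f i ∈ im N A) (hsum : ∑ i, f i = 0) : ∀ i, f i = 0 := by
  have hh := hS.hE.hh
  obtain ⟨m, rfl⟩ : ∃ m, h = m + 1 := ⟨h - 1, by omega⟩
  exact w3_unique hS f hf hsum

/-- **Row W3 (3).** PROOF. Let `p = mk y`, `y ∈ A`, `y ∉ N`, `y ≢ δ`, so `|fib y| = l`. If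
`δ - p ∈ nf (im N A) (h - 1)`, lift (`exists_lift` with `g := δ - y`) to `b : Fin (h-1) → G`, add `y` as
`h`-th term: a representation of `g₀` modulo `N`; `claimR` for index `0` and the last one:
`|fib (b 0)| + l ≤ l`, against `self_mem_fib` (`h - 1 ≥ 2`, so there is an index `0`). -/
theorem two_excl {h : ℕ} {A : Finset G} {N : AddSubgroup G} {F : Finset G} {t : ℕ} {δ g₀ : G}
    [DecidableEq (G ⧸ N)] (hS : TwoSetup h A N F t δ g₀) (p : G ⧸ N) (hp : p ∈ im N A)
    (hp0 : p ≠ 0) (hpδ : p ≠ (δ : G ⧸ N)) : (δ : G ⧸ N) - p ∉ nf (im N A) (h - 1) := by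
  have hh := hS.hE.hh
  obtain ⟨m, rfl⟩ : ∃ m, h = m + 1 := ⟨h - 1, by omega⟩
  exact w3_excl hS (by omega) p hp hp0 hpδ

end Pool.Agent.SPN
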