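import Pool.Agent.SPN.W0
import Pool.Agent.SPN.B1

set_option autoImplicit false

namespace Pool.Agent.SPN

open Finset Pointwise Pool.Agent.MP_8507d5_co

universe u

variable {G : Type u} [AddCommGroup G] [Fintype G] [DecidableEq G]

/-- **Row W4 (1).** A finite set closed under addition which contains `0` is a subgroup.
PROOF: for `a ∈ B` the map `x ↦ a + x` maps `B` injectively to `B`, hence onto, so `-a ∈ B`. -/
theorem subgroup_of_add {B : Finset G} (h0 : (0 : G) ∈ B) (hB : (B + B).card ≤ B.card) :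
    ∃ K : AddSubgroup G, ∀ x, x ∈ K ↔ x ∈ B := by
  have hsub : B ⊆ B + B := by
    intro x hx
    rw [Finset.mem_add]
    exact ⟨0, h0, x, hx, zero_add x⟩
  have heq : B = B + B := Finset.eq_of_subset_of_card_le hsub hB
  have hadd : ∀ a b, a ∈ B → b ∈ B → a + b ∈ B := by
    intro a b ha hb
    rw [heq]
    exact Finset.add_mem_add ha hb
  have hneg : ∀ a, a ∈ B → -a ∈ B := by
    intro a ha
    have h1 : B.image (fun x => a + x) ⊆ B := by
      intro y hy
      rw [Finset.mem_image] at hy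
      obtain ⟨x, hx, rfl⟩ := hy
      exact hadd a x ha hx
    have h2 : (B.image (fun x => a + x)).card = B.card :=
      Finset.card_image_of_injective _ (add_right_injective a)
    have h3 := Finset.eq_of_subset_of_card_le h1 (by omega)
    have h4 : (0 : G) ∈ B.image (fun x => a + x) := by
      rw [h3]
      exact h0
    rw [Finset.mem_image] at h4
    obtain ⟨x, hx, hx0⟩ := h4
    rw [neg_eq_of_add_eq_zero_right hx0]
    exact hx
  exact ⟨{ carrier := {x | x ∈ B}
           add_mem' := fun {a b} ha hb => hadd a b ha hb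
           zero_mem' := h0
           neg_mem' := fun {a} ha => hneg a ha }, fun x => Iff.rfl⟩

omit [Fintype G] in
theorem w4_nf_sub {B A : Finset G} (h : B ⊆ A) (j : ℕ) : nf B j ⊆ nf A j := by
  induction j with
  | zero => exact Finset.Subset.refl _
  | succ j ih => exact Finset.add_subset_add ih h

omit [Fintype G] in
theorem w4_nf_mem {B : Finset G} {N : AddSubgroup G} (h : ∀ x ∈ B, x ∈ N) (j : ℕ) :
    ∀ x ∈ nf B j, x ∈ N := by
  induction j with
  | zero =>
    intro x hx
    have h1 : x ∈ ({0} : Finset G) := hx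
    rw [Finset.mem_singleton] at h1
    rw [h1]
    exact N.zero_mem
  | succ j ih =>
    intro x hx
    have h1 : x ∈ nf B j + B := hx
    rw [Finset.mem_add] at h1
    obtain ⟨a, ha, b, hb, rfl⟩ := h1
    exact N.add_mem (ih a ha) (h b hb)

/-- **Row W4 (2).** The two fibres which are not full.
PROOF. `B := fib N A 0 ⊆ N`, `0 ∈ B`; `C := nf B (h - 1) ⊆ N` (induction). The sets `fib N A δ` and
`{g₀ - b : b ∈ C}` are contained in the coset `δ + N` (`hgδ`) and disjoint: `g₀ - b = y ∈ A`,
`b ∈ nf B (h - 1) ⊆ nf A (h - 1)` would give `g₀ = b + y ∈ nf A h` (`nf` step, `h = (h-1) + 1`).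
So `|fib δ| + |C| ≤ l` and `|C| ≤ |B|` (`hsum`). As `B ⊆ B + B = nf B 2`, `|B + B| ≤ |C|`
(`nf_card_mono`, `h - 1 ≥ 2`), `subgroup_of_add` gives `K = B`. `B ⊆ C` (`nf_mono`, `nf_one`) and
`|C| ≤ |B|`: `C = B = K`. Counting: `|fib δ| + |K| = l`, so `δ + N` is the disjoint union of `fib N A δ`
and `g₀ - K`: for `y - δ ∈ N`: `y ∈ A ↔ g₀ - y ∉ K ↔ y - g₀ ∉ K`. -/
theorem two_fibre {h : ℕ} {A : Finset G} {N : AddSubgroup G} {F : Finset G} {t : ℕ} {δ g₀ : G}
    (hS : TwoSetup h A N F t δ g₀) :
    ∃ K : AddSubgroup G, K ≤ N ∧ (∀ y ∈ N, (y ∈ A ↔ y ∈ K)) ∧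
      ∀ y, y - δ ∈ N → (y ∈ A ↔ y - g₀ ∉ K) := by
  have h3 := hS.hE.hh
  have hF := hS.hF
  set B := fib N A 0 with hBdef
  set D := fib N A δ with hDdef
  have hB0 : (0 : G) ∈ B := by
    rw [hBdef, mem_fib, sub_zero]
    exact ⟨hS.h0, N.zero_mem⟩
  have hBN : ∀ x ∈ B, x ∈ N := by
    intro x hx
    rw [hBdef, mem_fib, sub_zero] at hx
    exact hx.2
  have hBA : B ⊆ A := by
    intro x hx
    rw [hBdef, mem_fib] at hx
    exact hx.1
  set C := nf B (h - 1) with hCdef
  have hCN : ∀ x ∈ C, x ∈ N := w4_nf_mem hBN (h - 1)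
  have hCA : C ⊆ nf A (h - 1) := w4_nf_sub hBA (h - 1)
  set E := C.image (fun b => g₀ - b) with hEdef
  have hEc : E.card = C.card :=
    Finset.card_image_of_injective _ (fun a b hab => by simpa using hab)
  have hDs : D ⊆ δ +ᵥ F := fib_subset_vadd hF A δ
  have hEs : E ⊆ δ +ᵥ F := by
    intro y hy
    rw [hEdef, Finset.mem_image] at hy
    obtain ⟨b, hb, rfl⟩ := hy
    rw [Finset.mem_vadd_finset]
    refine ⟨g₀ - δ - b, (hF _).mpr (N.sub_mem hS.hgδ (hCN b hb)), ?_⟩
    rw [vadd_eq_add]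
    abel
  have hdis : Disjoint D E := by
    rw [Finset.disjoint_left]
    intro y hy hy2
    rw [hDdef, mem_fib] at hy
    rw [hEdef, Finset.mem_image] at hy2
    obtain ⟨b, hb, rfl⟩ := hy2
    apply hS.hg₀
    have e : h = (h - 1) + 1 := by omega
    rw [e, nf, Finset.mem_add]
    exact ⟨b, hCA hb, g₀ - b, hy.1, by abel⟩
  have hun : (D ∪ E).card = D.card + E.card := Finset.card_union_of_disjoint hdis
  have hle : (D ∪ E).card ≤ F.card := by
    have h1 := Finset.card_le_card (Finset.union_subset hDs hEs)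
    rwa [Finset.card_vadd_finset] at h1
  have hsum : B.card + D.card = F.card := hS.hsum
  have hCB : C.card ≤ B.card := by omega
  have hBne : B.Nonempty := ⟨0, hB0⟩
  have h2 : (B + B).card ≤ B.card := by
    have h4 := nf_card_mono hBne (show 2 ≤ h - 1 by omega)
    have e2 : nf B 2 = B + B := by rw [show nf B 2 = nf B 1 + B from rfl, nf_one]
    rw [e2] at h4
    exact h4.trans hCB
  obtain ⟨K, hK⟩ := subgroup_of_add hB0 h2
  have hBC : B ⊆ C := by
    have h4 := nf_mono B hB0 (show 1 ≤ h - 1 by omega)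
    rwa [nf_one] at h4
  have hBC' : B = C := Finset.eq_of_subset_of_card_le hBC hCB
  have hall : D ∪ E = δ +ᵥ F := by
    apply Finset.eq_of_subset_of_card_le (Finset.union_subset hDs hEs)
    rw [Finset.card_vadd_finset, hun, hEc, ← hBC']
    omega
  refine ⟨K, fun x hx => hBN x ((hK x).1 hx), fun y hy => ?_, fun y hy => ?_⟩
  · rw [hK, hBdef, mem_fib, sub_zero]
    exact ⟨fun h4 => ⟨h4, hy⟩, fun h4 => h4.1⟩
  · constructor
    · intro hyA hyK
      have h4 : g₀ - y ∈ C := by
        rw [← hBC', ← hK]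
        have h5 := K.neg_mem hyK
        rwa [neg_sub] at h5
      have h6 : y ∈ E := by
        rw [hEdef, Finset.mem_image]
        exact ⟨g₀ - y, h4, by abel⟩
      have h7 : y ∈ D := by
        rw [hDdef, mem_fib]
        exact ⟨hyA, hy⟩
      exact Finset.disjoint_left.1 hdis h7 h6
    · intro hyK
      have h4 : y ∈ δ +ᵥ F := by
        rw [Finset.mem_vadd_finset]
        refine ⟨y - δ, (hF _).mpr hy, ?_⟩
        rw [vadd_eq_add]
        abel
      rw [← hall, Finset.mem_union] at h4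
      rcases h4 with h4 | h4
      · rw [hDdef, mem_fib] at h4
        exact h4.1
      · exfalso
        apply hyK
        rw [hEdef, Finset.mem_image] at h4
        obtain ⟨b, hb, rfl⟩ := h4
        rw [← hBC', ← hK] at hb
        have h5 := K.neg_mem hb
        have e : g₀ - b - g₀ = -b := by abel
        rw [e]
        exact h5

end Pool.Agent.SPN
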