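import Pool.Agent.SPN.W3
import Pool.Agent.SPN.W4

set_option autoImplicit false

namespace Pool.Agent.SPN

open Finset Pointwise Pool.Agent.MP_8507d5_co

universe u

variable {G : Type u} [AddCommGroup G] [Fintype G] [DecidableEq G]

/-- **Row W5 (1).** Translates. PROOF: replace `x, u, v` by `c + x, c + u, c + v`. -/
theorem TypeTwo.translate {h : ℕ} {A : Finset G} (c : G) (hA : TypeTwo h (A : Set G)) :
    TypeTwo h ((c +ᵥ A : Finset G) : Set G) := by
  obtain ⟨K, L, t, x, g, u, v, hKL, ht, hg, hi, hu, hv, hy⟩ := hA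
  refine ⟨K, L, t, c + x, g, c + u, c + v, hKL, ht, hg, hi, ?_, ?_, ?_⟩
  · have : c + u - (c + x + (t - 1) • g) = u - (x + (t - 1) • g) := by abel
    rw [this]; exact hu
  · have : c + v - (c + x + t • g) = v - (x + t • g) := by abel
    rw [this]; exact hv
  · intro y
    have h1 : y ∈ ((c +ᵥ A : Finset G) : Set G) ↔ y - c ∈ (A : Set G) := by
      rw [Finset.mem_coe, Finset.mem_coe, Finset.mem_vadd_finset]
      constructor
      · rintro ⟨z, hz, rfl⟩
        simpa using hz
      · intro hz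
        exact ⟨y - c, hz, by simp⟩
    rw [h1, hy (y - c)]
    have e1 : ∀ i : ℕ, y - c - (x + i • g) = y - (c + x + i • g) := fun i => by abel
    have e2 : y - c - u = y - (c + u) := by abel
    have e3 : y - c - v = y - (c + v) := by abel
    simp only [e1, e2, e3]

/-- **Row W5 (2).** Assembly.
PROOF. `classical`, `Fintype (G ⧸ N)`. Apply `two_ap` in `Q := G ⧸ N` to `P := im N A` and
`(δ : G ⧸ N)`: `hodd` (`|Q| ∣ |G|`, `Adm.odd`), `|Q| = h t`, `|P| = t + 1` (`TwoPre.span`), `0 ∈ P`, `δ ∈ P`,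
`δ ≠ 0` (`hδN`), `Thick P 0` by `im_thick` with `c = 1` (`hmax`; `|im| l = |A| + l`), `two_unique`,
`two_excl`. So `zmultiples (δ : G ⧸ N) = ⊤` and `y ∈ im ↔ y = i • δ`, `i ≤ t`.
`two_fibre` gives `K`. Then `TypeTwo` holds with `K`, `L := N`, `t`, `x := t • δ`, `g := -δ`, `u := g₀`,
`v := 0`: `Gen N (-δ)` (`gen_of_zmultiples`, `AddSubgroup.zmultiples_neg`); `N.index = h t`;
`u - (x + (t-1) • g) = g₀ - δ ∈ N`; `v - (x + t • g) = 0`. For `y ∈ A`: `y ≡ i • δ`, `i ≤ t`: `i = 0`:
`y ∈ N`, `y ∈ K` (third case). `i = 1`: `y - δ ∈ N`, so `y - g₀ ∈ N` and `y - g₀ ∉ K` (second case).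
`i ≥ 2`: first case with index `t - i < t - 1`: `x + (t - i) • g = i • δ`. Conversely: the third and
second cases are clear from `two_fibre`; first case: `y ≡ i • δ` with `i = t - i'`, `2 ≤ i ≤ t`:
there is `b ∈ A` with `b ≡ i • δ` (as `i • δ ∈ im`), `b ∉ N` and `b - δ ∉ N` (`gen_mod`/`gen_inj`:
`0 < i, i - 1 < h t`), so `|fib b| = l`, and `fib_full` gives `y ∈ A`. -/
theorem two_type {h : ℕ} {A : Finset G} {N : AddSubgroup G} {F : Finset G} {t : ℕ} {δ g₀ : G}
    (hS : TwoSetup h A N F t δ g₀)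
    (hmax : ∀ (M : AddSubgroup G) (E : Finset G), (∀ x, x ∈ E ↔ x ∈ M) → F.card < E.card →
      E.card < Fintype.card G → E.card + A.card + 1 ≤ (E + A).card) :
    TypeTwo h (A : Set G) := by
  classical
  have iQ : Fintype (G ⧸ N) := Fintype.ofFinite _
  obtain ⟨hcard, hspan⟩ := hS.toTwoPre.span
  have hqF : Fintype.card (G ⧸ N) = h * t := by
    rw [← Nat.card_eq_fintype_card]; exact hS.hq
  have hh := hS.hE.hh
  have hodd : ¬ 2 ∣ Fintype.card (G ⧸ N) := by
    intro h2
    apply hS.hE.adm.odd hh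
    refine h2.trans ?_
    rw [(card_quot N F hS.hF).1, ← Nat.card_eq_fintype_card]
    exact Dvd.intro _ rfl
  have hmk : ∀ (y : G) (j : ℕ), ((y : G ⧸ N) = j • (δ : G ⧸ N)) ↔ y - j • δ ∈ N := by
    intro y j
    rw [← QuotientAddGroup.mk_nsmul, eq_comm, QuotientAddGroup.eq]
    have : -(j • δ) + y = y - j • δ := by abel
    rw [this]
  have hδ0 : (δ : G ⧸ N) ≠ 0 := by
    intro h1
    exact hS.hδN ((QuotientAddGroup.eq_zero_iff δ).mp h1)
  have hTh : Thick (im N A) 0 := by
    refine im_thick N F hS.hF hS.h2 A 1 hmax ?_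
    rw [hcard, hS.hk]
    have : (t + 1) * F.card = t * F.card + F.card := by ring
    omega
  obtain ⟨hgen, hP⟩ := two_ap hh hodd hqF hS.ht hcard (mk_mem_im hS.h0) (mk_mem_im hS.hδA) hδ0
    hTh (fun f hf hs => two_unique hS f hf hs) (fun p hp h0 hd => two_excl hS p hp h0 hd)
  obtain ⟨K, hKN, hK0, hKδ⟩ := two_fibre hS
  have hGenδ : Gen N δ := gen_of_zmultiples hgen
  have hGenN : Gen N (-δ) := by
    apply gen_of_zmultiples
    rw [QuotientAddGroup.mk_neg, AddSubgroup.zmultiples_neg]
    exact hgen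
  have hidx : N.index = h * t := hS.hq
  have ht := hS.ht
  have htt : t < h * t := by
    have : 3 * t ≤ h * t := Nat.mul_le_mul_right _ hh
    omega
  have hred : ∀ i j : ℕ, i + j = t → t • δ + i • (-δ) = j • δ := by
    intro i j hij
    rw [← hij, add_nsmul, smul_neg]
    abel
  refine ⟨K, N, t, t • δ, -δ, g₀, 0, hKN, ht, hGenN, hidx, ?_, ?_, ?_⟩
  · rw [hred (t - 1) 1 (by omega), one_nsmul]
    exact hS.hgδ
  · rw [hred t 0 (by omega), zero_nsmul, sub_zero]
    exact N.zero_mem
  · intro y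
    rw [Finset.mem_coe, sub_zero]
    constructor
    · intro hy
      obtain ⟨i, hi, hyi⟩ := (hP _).mp (mk_mem_im hy)
      rw [hmk] at hyi
      rcases Nat.lt_or_ge i 2 with h2 | h2
      · rcases Nat.eq_zero_or_pos i with h0 | h0
        · subst h0
          rw [zero_nsmul, sub_zero] at hyi
          exact Or.inr (Or.inr ((hK0 y hyi).mp hy))
        · obtain rfl : i = 1 := by omega
          rw [one_nsmul] at hyi
          refine Or.inr (Or.inl ⟨?_, (hKδ y hyi).mp hy⟩)
          have : y - g₀ = (y - δ) - (g₀ - δ) := by abel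
          rw [this]
          exact N.sub_mem hyi hS.hgδ
      · refine Or.inl ⟨t - i, by omega, ?_⟩
        rw [hred (t - i) i (by omega)]
        exact hyi
    · rintro (⟨i, hi, hyi⟩ | ⟨h1, h2⟩ | h1)
      · rw [hred i (t - i) (by omega)] at hyi
        obtain ⟨j, hj⟩ : ∃ j, j = t - i := ⟨_, rfl⟩
        rw [← hj] at hyi
        obtain ⟨b, hb, hbj⟩ := mem_im.mp ((hP (j • (δ : G ⧸ N))).mpr ⟨j, by omega, rfl⟩)
        rw [hmk] at hbj
        have hbN : b ∉ N := by
          intro hbN
          have h3 : j • δ - 0 • δ ∈ N := by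
            have : j • δ - 0 • δ = b - (b - j • δ) := by rw [zero_nsmul]; abel
            rw [this]
            exact N.sub_mem hbN hbj
          have := gen_inj hGenδ (by omega) (by omega) h3
          omega
        have hbδ : b - δ ∉ N := by
          intro hbN
          have h3 : j • δ - 1 • δ ∈ N := by
            have : j • δ - 1 • δ = (b - δ) - (b - j • δ) := by rw [one_nsmul]; abel
            rw [this]
            exact N.sub_mem hbN hbj
          have := gen_inj hGenδ (by omega) (by omega) h3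
          omega
        have h4 := fib_full hS.hF A b (hS.hfull b hb hbN hbδ).ge (y - b) (by
          have : y - b = (y - j • δ) - (b - j • δ) := by abel
          rw [this]
          exact N.sub_mem hyi hbj)
        have h5 : b + (y - b) = y := by abel
        rwa [h5] at h4
      · refine (hKδ y ?_).mpr h2
        have : y - δ = (y - g₀) + (g₀ - δ) := by abel
        rw [this]
        exact N.add_mem h1 hS.hgδ
      · exact (hK0 y (hKN h1)).mpr h1

/-- **Row W5 (3).** Assembly. PROOF: `exists_crit`, `two_pre`, `two_setup`, `two_type` for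
`(-a) +ᵥ A` (`hmax` for the translate as in `Thick.translate`), `TypeTwo.translate` with `c = a`
(`vadd_vadd`). -/
theorem two_main_type {h : ℕ} {A : Finset G} (hE : Ext h A) (hT : Thick A 0) (hT1 : ¬ Thick A 1) :
    TypeTwo h (A : Set G) := by
  obtain ⟨N, F, hF, h2, _, hFA, hmax⟩ := exists_crit hT hT1
  obtain ⟨t, g₀, hpre⟩ := two_pre hE hF h2 hFA
  obtain ⟨a, δ, hset⟩ := two_setup hpre
  have h1 := two_type hset (by
    intro M E hM h3 h4
    have h5 := hmax M E hM h3 h4
    have h6 : (E + ((-a) +ᵥ A)).card = (E + A).card := by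
      rw [add_comm E, vadd_add_assoc, Finset.card_vadd_finset, add_comm A]
    rw [h6, Finset.card_vadd_finset]
    exact h5)
  have h7 := h1.translate a
  rw [vadd_vadd, add_neg_cancel, zero_vadd] at h7
  exact h7

end Pool.Agent.SPN
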