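import Pool.Agent.SPN.P1
import Pool.Agent.SPN.F1c
import Pool.Agent.SPN.F4

set_option autoImplicit false

/-! The final step: a thick extremal set in a progression of length `|A| + 2`. -/

namespace Pool.Agent.SPN

open Finset Pointwise Pool.Agent.MP_8507d5_co

universe u

variable {G : Type u} [AddCommGroup G] [Fintype G] [DecidableEq G]

theorem diff_gen {A : Finset G} (hT : Thick A 1) {x y : G} (hxy : x ≠ y) (hA : A = {x, y}) :
    AddSubgroup.zmultiples (y - x) = ⊤ := by
  classical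
  by_contra hne
  set N := AddSubgroup.zmultiples (y - x) with hN
  set F : Finset G := univ.filter (fun z => z ∈ N) with hFd
  have hF : ∀ z, z ∈ F ↔ z ∈ N := fun z => by simp [hFd]
  have hF2 : 2 ≤ F.card := by
    have h1 : ({0, y - x} : Finset G) ⊆ F := by
      intro z hz
      rw [Finset.mem_insert, Finset.mem_singleton] at hz
      rw [hF]
      rcases hz with rfl | rfl
      · exact N.zero_mem
      · exact AddSubgroup.mem_zmultiples _
    have h2 := Finset.card_le_card h1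
    rwa [Finset.card_pair (fun h => hxy (sub_eq_zero.mp h.symm).symm)] at h2
  have hFn : F.card < Fintype.card G := by
    rw [← Finset.card_univ]
    apply Finset.card_lt_card
    rw [Finset.ssubset_univ_iff]
    intro h1
    apply hne
    rw [eq_top_iff]; intro z _
    rw [← hF, h1]; exact Finset.mem_univ _
  have h1 := hT N F hF hF2 hFn
  have h2 : F + A ⊆ x +ᵥ F := by
    intro z hz
    rw [Finset.mem_add] at hz
    obtain ⟨f, hf, a, ha, rfl⟩ := hz
    rw [Finset.mem_vadd_finset]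
    refine ⟨f + (a - x), (hF _).mpr (N.add_mem ((hF f).mp hf) ?_), ?_⟩
    · rw [hA, Finset.mem_insert, Finset.mem_singleton] at ha
      rcases ha with rfl | rfl
      · simp [N.zero_mem]
      · exact AddSubgroup.mem_zmultiples _
    · simp only [vadd_eq_add]; abel
  have h3 := Finset.card_le_card h2
  rw [Finset.card_vadd_finset] at h3
  omega

theorem small_ap {A : Finset G} (hT : Thick A 1) (hc : Cont A) (hk : A.card ≤ 2) : IsAP A := by
  obtain ⟨x₀, g, hg, _⟩ := hc
  have hcase : A.card = 0 ∨ A.card = 1 ∨ A.card = 2 := by omega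
  rcases hcase with h0 | h0 | h0
  · have h1 := Finset.card_eq_zero.mp h0
    refine ⟨0, g, hg, ?_⟩
    rw [h0, Finset.range_zero, Finset.image_empty, h1]
  · obtain ⟨x, hx⟩ := Finset.card_eq_one.mp h0
    refine ⟨x, g, hg, ?_⟩
    rw [h0, Finset.range_one, Finset.image_singleton, zero_nsmul, add_zero, hx]
  · obtain ⟨x, y, hxy, hA⟩ := Finset.card_eq_two.mp h0
    have hgen := diff_gen hT hxy hA
    refine Img.isAP (x := x) (k := 2) hgen h0 ?_
    intro z
    rw [hA, Finset.mem_insert, Finset.mem_singleton]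
    constructor
    · rintro (rfl | rfl)
      · exact ⟨0, by omega, by simp⟩
      · exact ⟨1, by omega, by simp⟩
    · rintro ⟨s, hs, rfl⟩
      have h3 : s = 0 ∨ s = 1 := by omega
      rcases h3 with rfl | rfl
      · left; simp
      · right; simp

/-- `{0} ∪ [2, k]`. -/
theorem two_or_spor {h : ℕ} {A : Finset G} (hE : Ext h A) {x g : G}
    (hg : AddSubgroup.zmultiples g = ⊤) (hk : 2 ≤ A.card)
    (hA : Img A x g (fun s => s = 0 ∨ (2 ≤ s ∧ s ≤ A.card))) :
    TypeAP h (A : Set G) ∨ TypeTwo h (A : Set G) ∨ TypeSpor h (A : Set G) := by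
  right
  rcases hE.card with hc | hc
  · left; exact Img.two hg hc (by omega) hA
  · right
    refine Img.spor hg hc hA (S := {0} ∪ Set.Icc 2 A.card) (Or.inl ⟨hk, rfl⟩) ?_
    intro s
    rw [Set.mem_union, Set.mem_singleton_iff, Set.mem_Icc]

theorem final_four_pt {h : ℕ} {A : Finset G} (hE : Ext h A) (hT : Thick A 1) {x g : G}
    (hg : AddSubgroup.zmultiples g = ⊤) (hk : A.card = 3)
    (hA : Img A x g (fun s => s = 0 ∨ s = 1 ∨ s = 4)) :
    TypeAP h (A : Set G) ∨ TypeTwo h (A : Set G) ∨ TypeSpor h (A : Set G) := by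
  have hh := hE.hh
  have hodd := hE.adm.odd hh
  rcases hE.card with hc | hc
  · exfalso
    rw [hk] at hc
    have h3 : 3 % h = 0 ∨ 3 % h = 1 := hE.adm 3 ⟨h, by rw [hc]; ring⟩
    have h4 : h = 3 := by
      rcases Nat.lt_or_ge 3 h with h5 | h5
      · rw [Nat.mod_eq_of_lt h5] at h3; omega
      · omega
    subst h4
    have h9 : Fintype.card G = 9 := by omega
    have m1 : x + 1 • g ∈ A := hA.mem (Or.inr (Or.inl rfl))
    have m4 : x + 4 • g ∈ A := hA.mem (Or.inr (Or.inr rfl))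
    refine thick_nine h9 hk hT hg m1 ?_
    have : x + 1 • g + 3 • g = x + 4 • g := by
      rw [add_assoc, ← add_nsmul]
    rw [this]; exact m4
  · have hcase : h = 3 ∨ h = 4 ∨ h = 5 ∨ 6 ≤ h := by omega
    rcases hcase with h0 | h0 | h0 | h0
    · exfalso; rw [hk, h0] at hc; apply hodd; omega
    · right; right
      subst h0
      refine Img.spor hg (by rw [hk] at hc; exact hc) hA (S := {0, 1, 4})
        (Or.inr (Or.inr (Or.inr ⟨rfl, rfl, rfl⟩))) ?_
      intro s
      rw [Set.mem_insert_iff, Set.mem_insert_iff, Set.mem_singleton_iff]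
    · exfalso; rw [hk, h0] at hc; apply hodd; omega
    · exfalso
      apply hE.ne
      refine span_of_rep hg (P := fun s => s = 0 ∨ s = 1 ∨ s = 4) (fun s hs => hA.mem hs) ?_
      intro r hr
      left
      apply four_pt h0
      rw [hk] at hc; omega

theorem final_three {h : ℕ} {A : Finset G} (hE : Ext h A) (hT : Thick A 1) {x g : G} {i j : ℕ}
    (hg : AddSubgroup.zmultiples g = ⊤) (hk : A.card = 3) (hap : ¬ IsAP A)
    (hij : i < j) (hj : j ≤ 4)
    (hA : Img A x g (fun s => s ≤ 4 ∧ s ≠ i ∧ s ≠ j)) :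
    TypeAP h (A : Set G) ∨ TypeTwo h (A : Set G) ∨ TypeSpor h (A : Set G) := by
  have hodd := hE.adm.odd hE.hh
  have hcase : (i = 0 ∧ j = 1) ∨ (i = 0 ∧ j = 2) ∨ (i = 0 ∧ j = 3) ∨ (i = 0 ∧ j = 4) ∨
      (i = 1 ∧ j = 2) ∨ (i = 1 ∧ j = 3) ∨ (i = 1 ∧ j = 4) ∨ (i = 2 ∧ j = 3) ∨ (i = 2 ∧ j = 4) ∨
      (i = 3 ∧ j = 4) := by omega
  rcases hcase with ⟨rfl, rfl⟩ | ⟨rfl, rfl⟩ | ⟨rfl, rfl⟩ | ⟨rfl, rfl⟩ | ⟨rfl, rfl⟩ | ⟨rfl, rfl⟩ |
    ⟨rfl, rfl⟩ | ⟨rfl, rfl⟩ | ⟨rfl, rfl⟩ | ⟨rfl, rfl⟩
  · exact absurd (Img.isAP hg hk (hA.shift 2 (P' := fun s => s < 3) (fun s hs => by omega) (fun s hs => by omega))) hap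
  · refine two_or_spor hE hg (by omega) (hA.shift 1 (fun s hs => ?_) (fun s hs => ?_))
    · omega
    · omega
  · refine two_or_spor hE (gen_neg hg) (by omega) (hA.refl 4 (fun s hs => ?_) (fun s hs => ?_))
    · omega
    · omega
  · exact absurd (Img.isAP hg hk (hA.shift 1 (P' := fun s => s < 3) (fun s hs => by omega) (fun s hs => by omega))) hap
  · refine final_four_pt hE hT (gen_neg hg) hk (hA.refl 4 (fun s hs => ?_) (fun s hs => ?_))
    · omega
    · omega
  · -- `{0, 2, 4}`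
    exfalso
    apply hap
    have hco : Nat.Coprime (Fintype.card G) 2 :=
      Nat.coprime_comm.mp (Nat.prime_two.coprime_iff_not_dvd.mpr hodd)
    have hg2 : AddSubgroup.zmultiples (2 • g) = ⊤ := by
      rw [eq_top_iff]
      intro y _
      obtain ⟨z, hz⟩ := (smul_bij hco).2 y
      simp only at hz
      obtain ⟨i, _, hi⟩ := exists_idx hg 0 z
      rw [← hz, hi, zero_add, ← mul_nsmul', mul_comm, mul_nsmul']
      exact AddSubgroup.nsmul_mem _ (AddSubgroup.mem_zmultiples _) i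
    refine Img.isAP (x := x) hg2 hk ?_
    intro y
    rw [hA y]
    constructor
    · rintro ⟨s, hs, rfl⟩

      refine ⟨s / 2, by omega, ?_⟩
      rw [← mul_nsmul']
      congr 2; omega
    · rintro ⟨s, hs, rfl⟩

      refine ⟨s * 2, by omega, ?_⟩
      rw [← mul_nsmul']
  · refine two_or_spor hE hg (by omega) (hA.congr (fun s => ?_))
    omega
  · refine final_four_pt hE hT hg hk (hA.congr (fun s => ?_))
    omega
  · refine two_or_spor hE (gen_neg hg) (by omega) (hA.refl 3 (fun s hs => ?_) (fun s hs => ?_))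
    · omega
    · omega
  · exact absurd (Img.isAP hg hk (hA.congr (P' := fun s => s < 3) (fun s => by omega))) hap

theorem final_one {h : ℕ} {A : Finset G} (hE : Ext h A) {x g : G} {j : ℕ}
    (hg : AddSubgroup.zmultiples g = ⊤) (hk : 4 ≤ A.card) (hj : 1 ≤ j) (hjk : j + 1 ≤ A.card)
    (hA : Img A x g (fun s => s ≤ A.card ∧ s ≠ j)) :
    TypeAP h (A : Set G) ∨ TypeTwo h (A : Set G) ∨ TypeSpor h (A : Set G) := by
  have hh := hE.hh
  have hcase : j = 1 ∨ j + 1 = A.card ∨ (2 ≤ j ∧ j + 2 ≤ A.card) := by omega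
  rcases hcase with h1 | h1 | h1
  · subst h1
    refine two_or_spor hE hg (by omega) (hA.congr (fun s => ?_))
    omega
  · refine two_or_spor hE (gen_neg hg) (by omega)
      (hA.refl A.card (fun s hs => ?_) (fun s hs => ?_))
    · omega
    · omega
  · exfalso
    apply hE.ne
    refine span_of_rep hg (P := fun s => s ≤ A.card ∧ s ≠ j) (fun s hs => hA.mem hs) ?_
    intro r hr
    left
    apply one_hole h1.1 h1.2 (by omega)
    rcases hE.card with hc | hc <;> omega

theorem final_four {h : ℕ} {A : Finset G} (hE : Ext h A) {x g : G} {i j : ℕ}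
    (hg : AddSubgroup.zmultiples g = ⊤) (hk : 4 ≤ A.card) (hap : ¬ IsAP A)
    (hij : i < j) (hj : j ≤ A.card + 1)
    (hA : Img A x g (fun s => s ≤ A.card + 1 ∧ s ≠ i ∧ s ≠ j)) :
    TypeAP h (A : Set G) ∨ TypeTwo h (A : Set G) ∨ TypeSpor h (A : Set G) := by
  have hh := hE.hh
  set k := A.card with hkd
  have hcase : (i = k ∧ j = k + 1) ∨ (i = 0 ∧ j = 1) ∨ (i = 0 ∧ j = k + 1) ∨
      (i = 0 ∧ 2 ≤ j ∧ j ≤ k) ∨ (j = k + 1 ∧ 1 ≤ i ∧ i + 1 ≤ k) ∨ (1 ≤ i ∧ j ≤ k) := by omega
  rcases hcase with ⟨h1, h2⟩ | ⟨h1, h2⟩ | ⟨h1, h2⟩ | ⟨h1, h2, h3⟩ | ⟨h1, h2, h3⟩ | ⟨h1, h2⟩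
  · exact absurd (Img.isAP hg hkd.symm (hA.congr (P' := fun s => s < k) (fun s => by omega))) hap
  · exact absurd (Img.isAP hg hkd.symm (hA.shift 2 (P' := fun s => s < k) (fun s hs => by omega) (fun s hs => by omega))) hap
  · exact absurd (Img.isAP hg hkd.symm (hA.shift 1 (P' := fun s => s < k) (fun s hs => by omega) (fun s hs => by omega))) hap
  · refine final_one (j := j - 1) hE hg (by omega) (by omega) (by omega)
      (hA.shift 1 (fun s hs => ?_) (fun s hs => ?_))
    · omega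
    · omega
  · refine final_one (j := i) hE hg (by omega) (by omega) (by omega) (hA.congr (fun s => ?_))
    omega
  · by_cases hex : h = 3 ∧ Fintype.card G = 3 * k + 1 ∧
        ((i = 1 ∧ j = 3) ∨ (i = 1 ∧ j = k) ∨ (i + 2 = k ∧ j = k))
    · obtain ⟨h3, hn, hx⟩ := hex
      subst h3
      right; right
      rcases hx with ⟨h4, h5⟩ | ⟨h4, h5⟩ | ⟨h4, h5⟩
      · refine Img.spor hg hn hA (S := {0, 2} ∪ Set.Icc 4 (k + 1))
          (Or.inr (Or.inl ⟨rfl, hk, rfl⟩)) ?_
        intro s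
        simp only [Set.mem_union, Set.mem_insert_iff, Set.mem_singleton_iff, Set.mem_Icc]
        omega
      · refine Img.spor hg hn hA (S := {0, k + 1} ∪ Set.Icc 2 (k - 1))
          (Or.inr (Or.inr (Or.inl ⟨rfl, hk, rfl⟩))) ?_
        intro s
        simp only [Set.mem_union, Set.mem_insert_iff, Set.mem_singleton_iff, Set.mem_Icc]
        omega
      · refine Img.spor (gen_neg hg) hn (hA.refl (k + 1)
          (P' := fun s => s ≤ k + 1 ∧ s ≠ 1 ∧ s ≠ 3) (fun s hs => ?_) (fun s hs => ?_))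
          (S := {0, 2} ∪ Set.Icc 4 (k + 1)) (Or.inr (Or.inl ⟨rfl, hk, rfl⟩)) ?_
        · omega
        · omega
        · intro s
          simp only [Set.mem_union, Set.mem_insert_iff, Set.mem_singleton_iff, Set.mem_Icc]
          omega
    · exfalso
      apply hE.ne
      exact span_of_rep hg (P := fun s => s ≤ k + 1 ∧ s ≠ i ∧ s ≠ j) (fun s hs => hA.mem hs)
        (interior hh hk hE.card h1 hij h2 hex)

theorem final {h : ℕ} {A : Finset G} (hE : Ext h A) (hT : Thick A 1) (hc : Cont A) :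
    TypeAP h (A : Set G) ∨ TypeTwo h (A : Set G) ∨ TypeSpor h (A : Set G) := by
  by_cases hap : IsAP A
  · exact Or.inl (hap.type hE)
  · rcases Nat.lt_or_ge A.card 3 with hk | hk
    · exact absurd (small_ap hT hc (by omega)) hap
    · have hn : A.card + 2 ≤ Fintype.card G := by
        have h1 : 3 * A.card ≤ h * A.card := Nat.mul_le_mul_right _ hE.hh
        rcases hE.card with h2 | h2 <;> omega
      obtain ⟨x, g, i, j, hg, hij, hj, hA⟩ := cont_holes hc hn
      rcases Nat.lt_or_ge A.card 4 with hk4 | hk4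
      · have hk3 : A.card = 3 := by omega
        rw [hk3] at hj hA
        exact final_three hE hT hg hk3 hap hij hj hA
      · exact final_four hE hg hk4 hap hij hj hA

end Pool.Agent.SPN
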