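import Pool.Agent.SPN.X0
import Pool.Agent.SPN.W5
import Pool.Agent.SPN.S3
import Pool.Agent.SPN.R1
import Pool.Agent.SPN.R2

set_option autoImplicit false

/-! Assembly: the case where all divisors of `|G|` are `0` or `1` modulo `h`. -/

namespace Pool.Agent.SPN

open Finset Pointwise Pool.Agent.MP_8507d5_co

universe u

theorem thick_main {G : Type u} [AddCommGroup G] [Fintype G] [DecidableEq G] {h : ℕ}
    {A : Finset G} (hE : Ext h A) (hT : Thick A 0) :
    TypeAP h (A : Set G) ∨ TypeTwo h (A : Set G) ∨ TypeSpor h (A : Set G) := by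
  by_cases hT1 : Thick A 1
  · exact final hE hT1 (prim hE hT1)
  · exact Or.inr (Or.inl (two_main_type hE hT hT1))

/-- The periodic case. -/
theorem per_type {G : Type u} [AddCommGroup G] [Fintype G] [DecidableEq G] {h : ℕ}
    {A : Finset G} (hE : Ext h A) {N : AddSubgroup G} {F : Finset G} (hF : ∀ x, x ∈ F ↔ x ∈ N)
    (h2 : 2 ≤ F.card) (hFA : (F + A).card < F.card + A.card)
    (hmax : ∀ (M : AddSubgroup G) (E : Finset G), (∀ x, x ∈ E ↔ x ∈ M) → F.card < E.card →
      E.card < Fintype.card G → E.card + A.card ≤ (E + A).card)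
    {t : ℕ} (hq : Nat.card (G ⧸ N) = h * t) :
    TypeAP h (A : Set G) ∨ TypeTwo h (A : Set G) := by
  classical
  have : Fintype (G ⧸ N) := Fintype.ofFinite _
  obtain ⟨hper, him, hcard⟩ := per_pre hE hF h2 hFA hq
  have hext : Ext h (im N A) := per_ext hE hF h2 hFA hq
  have hthick : Thick (im N A) 0 := by
    refine im_thick N F hF h2 A 0 ?_ ?_
    · intro M E hM h3 h4
      have := hmax M E hM h3 h4
      omega
    · rw [him, ← hcard]; omega
  have hmem : ∀ y : G, y ∈ (A : Set G) ↔ (y : G ⧸ N) ∈ ((im N A : Finset (G ⧸ N)) : Set (G ⧸ N)) := by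
    intro y
    rw [Finset.mem_coe, Finset.mem_coe]
    constructor
    · exact mk_mem_im
    · intro hy
      obtain ⟨a, ha, hay⟩ := mem_im.mp hy
      have h3 : y - a ∈ N := (mk_eq_iff N y a).mp hay.symm
      have h4 := hper a ha _ h3
      rwa [add_sub_cancel] at h4
  rcases thick_main hext hthick with h1 | h1 | h1
  · exact Or.inl (pull_ap N hmem h1)
  · exact Or.inr (pull_two N hmem h1)
  · exfalso
    obtain ⟨_, _, k, _, _, h3, _, _⟩ := h1
    rw [hq] at h3
    have hh := hE.hh
    have h4 : h ∣ 1 := (Nat.dvd_add_right (Dvd.intro k rfl)).mp (h3 ▸ Dvd.intro t rfl)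
    have := Nat.le_of_dvd one_pos h4
    omega

theorem adm_main (h : ℕ) : ∀ (n : ℕ) (G : Type u) [AddCommGroup G] [Fintype G] [DecidableEq G],
    Fintype.card G = n → ∀ A : Finset G, Ext h A → Desc h G (A : Set G) := by
  intro n
  induction n using Nat.strong_induction_on with
  | _ n ih =>
    intro G _ _ _ hn A hE
    have hh := hE.hh
    have hfin : Finite G := inferInstance
    by_cases hT : Thick A 0
    · rcases thick_main hE hT with h1 | h1 | h1
      · exact h1.desc (by omega)
      · exact h1.desc
      · exact h1.desc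
    · obtain ⟨N, F, hF, h2, hFn, hFA, hmax⟩ := exists_less hT
      have hq : Nat.card (G ⧸ N) ∣ Fintype.card G := ⟨F.card, (card_quot N F hF).1⟩
      rcases hE.adm.cases hq with h3 | h3
      · rcases per_type hE hF h2 hFA hmax h3 with h1 | h1
        · exact h1.desc (by omega)
        · exact h1.desc
      · have hg : ∃ g, g ∉ nf A h := by
          by_contra hcon
          push Not at hcon
          exact hE.ne (Finset.eq_univ_iff_forall.mpr hcon)
        obtain ⟨g₀, hg₀⟩ := hg
        have ht : 1 ≤ Nat.card (G ⧸ N) / h := by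
          rcases Nat.eq_zero_or_pos (Nat.card (G ⧸ N) / h) with h4 | h4
          · exfalso
            rw [h4, mul_zero, zero_add] at h3
            have h5 := (card_quot N F hF).1
            rw [h3, one_mul] at h5
            omega
          · exact h4
        exact step_desc (t := Nat.card (G ⧸ N) / h) ⟨hE, hF, h2, hFA, h3, ht, hg₀⟩ hFn hmax
          (fun K _ _ _ hK B hB => ih _ (by rw [← hn]; exact hK) K rfl B hB)

end Pool.Agent.SPN
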