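import Pool.Agent.SPN.Z0

set_option autoImplicit false

namespace Pool.Agent.SPN

open Pool.Agent.MP_8507d5_co

universe u

variable {G : Type u} [AddCommGroup G] [Finite G]

/-- **Row Z2 (0).** Reduction to integers: if no sum of `h` elements of `S` is `≡ m` modulo `n`.
PROOF. `z := h • x + m • g`. If `∑ f = z`, choose `e i ∈ S` with `f i = x + e i • g`; `sum_idx` with
`L = ⊥` (`index ⊥ = Nat.card G`, `AddSubgroup.index_bot`): `n ∣ m - ∑ e`. -/
theorem miss_of_idx {h : ℕ} (x g : G) (hg : Gen (⊥ : AddSubgroup G) g) (S : Set ℕ) (m : ℕ)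
    (hm : ∀ e : Fin h → ℕ, (∀ i, e i ∈ S) → ¬ (Nat.card G : ℤ) ∣ (m : ℤ) - ((∑ i, e i : ℕ) : ℤ)) :
    Miss h {y | ∃ s ∈ S, y = x + s • g} := by
  refine ⟨h • x + m • g, fun f hf hsum => ?_⟩
  choose e he hfe using hf
  have h1 := sum_idx (L := ⊥) (x := x) hg (f := f) (e := e)
    (fun i => by rw [hfe i, sub_self]; exact AddSubgroup.zero_mem _) (m := m)
    (by rw [hsum, sub_self]; exact AddSubgroup.zero_mem _)
  rw [AddSubgroup.index_bot] at h1
  exact hm e he h1

/-- **Row Z2 (1).** Sporadic sets. PROOF: `miss_of_idx` with `n = h k + 1`.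
* `S = {0} ∪ [2, k]`, `m := 1`: `0 ≤ ∑ e ≤ h k`, so `n ∣ 1 - ∑ e` (`|1 - ∑ e| < n`) gives `∑ e = 1`; but
  every `e i` is `0` or `≥ 2`.
* `h = 3`, `S = {0, 2} ∪ [4, k+1]`, `m := 3`: `∑ e ≤ 3 k + 3 = n + 2 < n + 3`, so `∑ e = 3`
  (`e 0 + e 1 + e 2`, `Fin.sum_univ_three`): impossible with `e i ∈ {0, 2} ∪ [4, ∞)`.
* `h = 3`, `S = {0, k + 1} ∪ [2, k - 1]`, `m := 1`: `∑ e ≤ 3 k + 3`, so `∑ e = 1` (impossible) or
  `∑ e = n + 1 = 3 k + 2`: two of them are `k + 1` and the third is `k`, or less: impossible since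
  `e i ≤ k - 1` or `e i = k + 1` (`omega` after splitting).
* `h = 4`, `k = 3`, `n = 13`, `S = {0, 1, 4}`, `m := 11`: `∑ e ≤ 16 < 24`, so `∑ e = 11`; the 81 cases
  (`Fin.sum_univ_four`; `omega` or `rcases`) are impossible. -/
theorem miss_spor {h : ℕ} (hh : 3 ≤ h) (x g : G) (k : ℕ) (S : Set ℕ)
    (hg : Gen (⊥ : AddSubgroup G) g) (hn : Nat.card G = h * k + 1) (hS : SporSet h k S) :
    Miss h {y | ∃ s ∈ S, y = x + s • g} := by
  rcases hS with ⟨hk, rfl⟩ | ⟨rfl, hk, rfl⟩ | ⟨rfl, hk, rfl⟩ | ⟨rfl, rfl, rfl⟩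
  · refine miss_of_idx x g hg _ 1 fun e he hd => ?_
    have he' : ∀ i, e i = 0 ∨ (2 ≤ e i ∧ e i ≤ k) := by
      intro i
      have h1 := he i
      simp only [Set.mem_union, Set.mem_singleton_iff, Set.mem_Icc] at h1
      exact h1
    have h2 : ∑ i, e i ≤ h * k := by
      calc ∑ i, e i ≤ ∑ _i : Fin h, k := Finset.sum_le_sum fun i _ => by
            have := he' i
            omega
        _ = h * k := by rw [Finset.sum_const, Finset.card_univ, Fintype.card_fin, smul_eq_mul]
    rw [hn] at hd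
    have h3 : (1 : ℤ) ≤ ((h * k : ℕ) : ℤ) := by
      have : 1 ≤ h * k := Nat.one_le_iff_ne_zero.2 (Nat.mul_ne_zero (by omega) (by omega))
      exact_mod_cast this
    have h4 : ((∑ i, e i : ℕ) : ℤ) ≤ ((h * k : ℕ) : ℤ) := by exact_mod_cast h2
    have h0 : (0 : ℤ) ≤ ((∑ i, e i : ℕ) : ℤ) := Int.natCast_nonneg _
    have h5 : ((1 : ℕ) : ℤ) - ((∑ i, e i : ℕ) : ℤ) = 0 := by
      apply Int.eq_zero_of_abs_lt_dvd hd
      rw [abs_lt]
      push_cast at h3 h4 h0 ⊢
      constructor
      · linarith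
      · linarith
    have h6 : ∑ i, e i = 1 := by
      have : ((∑ i, e i : ℕ) : ℤ) = ((1 : ℕ) : ℤ) := by linarith
      exact_mod_cast this
    have h7 : ∑ i, e i = 0 := by
      refine Finset.sum_eq_zero fun i _ => ?_
      have h8 : e i ≤ ∑ i, e i := Finset.single_le_sum (fun j _ => Nat.zero_le _) (Finset.mem_univ i)
      have := he' i
      omega
    omega
  · refine miss_of_idx x g hg _ 3 fun e he hd => ?_
    have he' : ∀ i, e i = 0 ∨ e i = 2 ∨ (4 ≤ e i ∧ e i ≤ k + 1) := by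
      intro i
      have h1 := he i
      simp only [Set.mem_union, Set.mem_insert_iff, Set.mem_singleton_iff, Set.mem_Icc] at h1
      tauto
    rw [hn, Fin.sum_univ_three] at hd
    have a0 := he' 0
    have a1 := he' 1
    have a2 := he' 2
    generalize e 0 = s0 at *
    generalize e 1 = s1 at *
    generalize e 2 = s2 at *
    have h5 : ((3 : ℕ) : ℤ) - ((s0 + s1 + s2 : ℕ) : ℤ) = 0 := by
      apply Int.eq_zero_of_abs_lt_dvd hd
      rw [abs_lt]
      push_cast
      constructor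
      · omega
      · omega
    push_cast at h5
    omega
  · refine miss_of_idx x g hg _ 1 fun e he hd => ?_
    have he' : ∀ i, e i = 0 ∨ e i = k + 1 ∨ (2 ≤ e i ∧ e i ≤ k - 1) := by
      intro i
      have h1 := he i
      simp only [Set.mem_union, Set.mem_insert_iff, Set.mem_singleton_iff, Set.mem_Icc] at h1
      tauto
    rw [hn, Fin.sum_univ_three] at hd
    have a0 := he' 0
    have a1 := he' 1
    have a2 := he' 2
    generalize e 0 = s0 at *
    generalize e 1 = s1 at *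
    generalize e 2 = s2 at *
    by_cases hs : s0 + s1 + s2 ≤ 3 * k + 1
    · have h5 : ((1 : ℕ) : ℤ) - ((s0 + s1 + s2 : ℕ) : ℤ) = 0 := by
        apply Int.eq_zero_of_abs_lt_dvd hd
        rw [abs_lt]
        push_cast
        constructor
        · omega
        · omega
      push_cast at h5
      omega
    · have h5 : ((1 : ℕ) : ℤ) - ((s0 + s1 + s2 : ℕ) : ℤ) + ((3 * k + 1 : ℕ) : ℤ) = 0 := by
        apply Int.eq_zero_of_abs_lt_dvd (dvd_add hd (dvd_refl _))
        rw [abs_lt]
        push_cast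
        constructor
        · omega
        · omega
      push_cast at h5
      omega
  · refine miss_of_idx x g hg _ 11 fun e he hd => ?_
    have he' : ∀ i, e i = 0 ∨ e i = 1 ∨ e i = 4 := by
      intro i
      have h1 := he i
      simp only [Set.mem_insert_iff, Set.mem_singleton_iff] at h1
      exact h1
    rw [hn, Fin.sum_univ_four] at hd
    have a0 := he' 0
    have a1 := he' 1
    have a2 := he' 2
    have a3 := he' 3
    generalize e 0 = s0 at *
    generalize e 1 = s1 at *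
    generalize e 2 = s2 at *
    generalize e 3 = s3 at *
    have h5 : ((11 : ℕ) : ℤ) - ((s0 + s1 + s2 + s3 : ℕ) : ℤ) = 0 := by
      apply Int.eq_zero_of_abs_lt_dvd hd
      rw [abs_lt]
      push_cast
      constructor
      · omega
      · omega
    push_cast at h5
    omega

end Pool.Agent.SPN
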