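import Pool.Agent.SPN.Z1
import Pool.Agent.SPN.Z2

set_option autoImplicit false

namespace Pool.Agent.SPN

open Pool.Agent.MP_8507d5_co

universe u

/-- **Row Z3 (1).** Type `STEP`. PROOF. Let `z₀ : N` be missed by `B`; `z := h • x + z₀`. Suppose
`∑ f = z`. For every `i` choose `e i ≤ t` with `f i - (x + e i • d) ∈ N` and
(`e i = 0 → ∃ b ∈ B, f i = x + b`): first clause `e i = 0`, second clause `e i = j ≥ 1`.
`z - (h • x + 0 • d) ∈ N`, so `sum_idx` (`m = 0`) gives `h t + 1 ∣ -∑ e`, and `0 ≤ ∑ e ≤ h t`, so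
`∑ e = 0`, all `e i = 0`, `f i = x + b i` with `b i ∈ B`. So `∑ b = z₀`, contradiction. -/
theorem miss_step {G : Type u} [AddCommGroup G] [Finite G] {h : ℕ} (N : AddSubgroup G) (x d : G)
    (t : ℕ) (B : Set N) (hd : Gen N d) (hq : N.index = h * t + 1) (hB : Miss h B) :
    Miss h {y | (∃ b ∈ B, y = x + (b : G)) ∨ ∃ j, 1 ≤ j ∧ j ≤ t ∧ y - (x + j • d) ∈ N} := by
  obtain ⟨z₀, hz⟩ := hB
  refine ⟨h • x + (z₀ : G), fun f hf hsum => ?_⟩
  have hex : ∀ i, ∃ e : ℕ, e ≤ t ∧ f i - (x + e • d) ∈ N ∧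
      (e = 0 → ∃ b ∈ B, f i = x + (b : G)) := by
    intro i
    rcases hf i with ⟨b, hb, hb2⟩ | ⟨j, h1, h2, h3⟩
    · refine ⟨0, Nat.zero_le _, ?_, fun _ => ⟨b, hb, hb2⟩⟩
      rw [hb2, zero_smul, add_zero, add_sub_cancel_left]
      exact b.2
    · exact ⟨j, h2, h3, fun h0 => by omega⟩
  choose e he1 he2 he3 using hex
  have hd' := sum_idx hd he2 (m := 0) (by
    rw [hsum, zero_smul, add_zero, add_sub_cancel_left]
    exact z₀.2)
  have hle : ∑ i, e i ≤ h * t := by
    have := Finset.sum_le_card_nsmul (Finset.univ : Finset (Fin h)) e t (fun i _ => he1 i)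
    rwa [Finset.card_univ, Fintype.card_fin, smul_eq_mul] at this
  have hse : ∑ i, e i = 0 := by
    rw [hq] at hd'
    generalize h * t = P at *
    generalize ∑ i, e i = E at *
    by_contra hne
    have h1 : ((P + 1 : ℕ) : ℤ) ∣ (E : ℤ) := by
      rw [← Int.dvd_neg]
      simpa using hd'
    have h2 := Int.le_of_dvd (by omega) h1
    push_cast at h2
    omega
  rw [Finset.sum_eq_zero_iff] at hse
  choose b hb1 hb2 using fun i => he3 i (hse i (Finset.mem_univ i))
  apply hz b hb1
  apply Subtype.ext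
  have h1 : ∑ i, f i = h • x + ∑ i, ((b i : N) : G) := by
    rw [Finset.sum_congr rfl (fun i _ => hb2 i), Finset.sum_add_distrib, Finset.sum_const,
      Finset.card_univ, Fintype.card_fin]
  rw [hsum] at h1
  have h2 := add_left_cancel h1
  rw [h2]
  push_cast
  rfl

/-- **Row Z3 (2).** PROOF: induction on `Desc` (e.g. `induction hA with` after generalizing the
finiteness: prove `Finite G → Miss h A`; or use `Desc.rec`), with `miss_ap`, `miss_two`,
`miss_spor`, `miss_step`; `Nat.card (G ⧸ N) = N.index` is `rfl`; `gen_of_zmultiples`,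
`gen_bot_of`. -/
theorem Desc.miss {G : Type u} [AddCommGroup G] {h : ℕ} (hh : 3 ≤ h) {A : Set G}
    (hA : Desc h G A) (hfin : Finite G) : Miss h A := by
  induction hA with
  | ap N x g k hg hk A hA =>
    subst hA
    exact miss_ap (by omega) N x g k (gen_of_zmultiples hg) hk
  | two K L hKL x g u v t ht hg hq hu hv A hA =>
    subst hA
    exact miss_two (by omega) K L hKL x g u v t ht (gen_of_zmultiples hg) hq hu hv
  | spor x g k S hg hn hS A hA =>
    subst hA
    exact miss_spor hh x g k S (gen_bot_of hg) hn hS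
  | step N x d t B ht hd hq hB A hA ih =>
    subst hA
    exact miss_step N x d t B (gen_of_zmultiples hd) hq (ih inferInstance)

end Pool.Agent.SPN
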