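import Pool.Agent.SPN.M0
import Pool.Agent.SPN.X1
import Pool.Agent.SPN.Z3

set_option autoImplicit false

/-! The full theorem. -/

namespace Pool.Agent.SPN

open Finset Pointwise Pool.Agent.MP_8507d5_co

universe u

theorem miss_iff {G : Type u} [AddCommGroup G] (h : ℕ) (A : Set G) :
    Miss h A ↔ hFold h A ≠ Set.univ := by
  constructor
  · rintro ⟨z, hz⟩ hun
    have h1 : z ∈ hFold h A := by rw [hun]; trivial
    obtain ⟨f, hf, hs⟩ := h1
    exact hz f hf hs
  · intro hne
    by_contra hcon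
    apply hne
    rw [Set.eq_univ_iff_forall]
    intro z
    by_contra hz
    apply hcon
    refine ⟨z, fun f hf hs => hz ⟨f, hf, hs⟩⟩

theorem ap_case {G : Type u} [AddCommGroup G] [Finite G] (h : ℕ) (hh : 3 ≤ h)
    (hd : ∃ d, d ∣ Nat.card G ∧ ¬ d ≡ 0 [MOD h] ∧ ¬ d ≡ 1 [MOD h]) (A : Set G)
    (hA : A.ncard = v₁ (Nat.card G) h) :
    hFold h A ≠ Set.univ ↔
      ∃ (N : AddSubgroup G) (x g : G) (k : ℕ), AddSubgroup.zmultiples (g : G ⧸ N) = ⊤ ∧
        (k : ℤ) = ((Nat.card (G ⧸ N) : ℤ) - 2) / (h : ℤ) + 1 ∧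
        A = {y | ∃ i < k, y - (x + i • g) ∈ N} := by
  constructor
  · intro hne
    obtain ⟨N, x, g, k, h1, h2, _, h3⟩ := (main_case h (by omega) hd A).mp ⟨hA, hne⟩
    exact ⟨N, x, g, k, h1, h2, h3⟩
  · rintro ⟨N, x, g, k, h1, h2, rfl⟩
    rw [← miss_iff]
    exact miss_ap (by omega) N x g k (gen_of_zmultiples h1) h2

theorem full {G : Type u} [AddCommGroup G] [Finite G] (h : ℕ) (hh : 3 ≤ h) (A : Set G)
    (hA : A.ncard = v₁ (Nat.card G) h) : hFold h A ≠ Set.univ ↔ Desc h G A := by
  classical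
  constructor
  · intro hne
    by_cases hd : ∃ d, d ∣ Nat.card G ∧ ¬ d ≡ 0 [MOD h] ∧ ¬ d ≡ 1 [MOD h]
    · obtain ⟨N, x, g, k, h1, h2, h3⟩ := (ap_case h hh hd A hA).mp hne
      exact Desc.ap N x g k h1 h2 A h3
    · have : Fintype G := Fintype.ofFinite G
      have hadm : Adm (Fintype.card G) h := by
        intro d hdn
        by_contra hcon
        push Not at hcon
        refine hd ⟨d, by rw [Nat.card_eq_fintype_card]; exact hdn, fun h0 => hcon.1 ?_,
          fun h1 => hcon.2 ?_⟩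
        · rw [Nat.ModEq, Nat.zero_mod] at h0; exact h0
        · rw [Nat.ModEq, Nat.mod_eq_of_lt (show 1 < h by omega)] at h1; exact h1
      have hAf : (A.toFinset : Set G) = A := Set.coe_toFinset A
      have hc : A.toFinset.card = Fintype.card G / h := by
        rw [← vv_adm hh hadm, ← v₁_eq _ h (by omega), ← Nat.card_eq_fintype_card, ← hA,
          Set.ncard_eq_toFinset_card']
      have hE : Ext h A.toFinset := by
        refine ⟨hh, hadm, ?_, ?_⟩
        · rw [hc]; exact hadm.cases (dvd_refl _)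
        · intro hcon
          apply hne
          have h1 := (nf_univ_iff h A.toFinset).mp hcon
          rwa [hAf] at h1
      have h1 := adm_main h _ G rfl A.toFinset hE
      rwa [hAf] at h1
  · intro hD
    rw [← miss_iff]
    exact hD.miss hh inferInstance

end Pool.Agent.SPN
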