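import Pool.Agent.SPN.Y0

set_option autoImplicit false

/-! Converse: the sets of the classification do not span. -/

namespace Pool.Agent.SPN

open Pool.Agent.MP_8507d5_co

universe u

/-- Some element is not a sum of `h` elements of `A`. -/
def Miss {G : Type u} [AddCommGroup G] (h : ℕ) (A : Set G) : Prop :=
  ∃ z : G, ∀ f : Fin h → G, (∀ i, f i ∈ A) → ∑ i, f i ≠ z

variable {G : Type u} [AddCommGroup G]

/-- Sums of indices. -/
theorem sum_idx [Finite G] {L : AddSubgroup G} {g x : G} (hg : Gen L g) {h : ℕ} {f : Fin h → G}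
    {e : Fin h → ℕ} (he : ∀ i, f i - (x + e i • g) ∈ L) {m : ℕ}
    (hs : ∑ i, f i - (h • x + m • g) ∈ L) : (L.index : ℤ) ∣ (m : ℤ) - ((∑ i, e i : ℕ) : ℤ) := by
  rw [← gen_mod hg, sub_zsmul, natCast_zsmul, natCast_zsmul]
  have h1 : ∑ i, (f i - (x + e i • g)) ∈ L := AddSubgroup.sum_mem _ (fun i _ => he i)
  have h2 : ∑ i, (f i - (x + e i • g)) = ∑ i, f i - (h • x + (∑ i, e i) • g) := by
    rw [Finset.sum_sub_distrib, Finset.sum_add_distrib, Finset.sum_const, Finset.card_univ,
      Fintype.card_fin, Finset.sum_smul]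
  rw [h2] at h1
  have h3 := L.sub_mem h1 hs
  have h4 : ∑ i, f i - (h • x + (∑ i, e i) • g) - (∑ i, f i - (h • x + m • g)) =
      m • g - (∑ i, e i) • g := by abel
  rw [h4] at h3
  rw [← sub_eq_add_neg]
  exact h3

end Pool.Agent.SPN
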