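import Pool.Agent.SPN.Z0

set_option autoImplicit false

namespace Pool.Agent.SPN

open Pool.Agent.MP_8507d5_co

universe u

variable {G : Type u} [AddCommGroup G] [Finite G]

/-- **Row Z1 (1).** Progressions. PROOF. `q := N.index`. The hypothesis gives `k = 0` or
`h (k - 1) + 2 ≤ q` (as `k - 1 = (q - 2) / h`, floor division; `q ≥ 1`). If `k = 0` the set is empty
and `h ≥ 1`: any `z` works (use the index `0` of `Fin h`). Otherwise `z := h • x + (h (k-1) + 1) • g`.
If `∑ f = z`, choose `e i < k` with `f i - (x + e i • g) ∈ N`; `sum_idx` gives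
`q ∣ h (k-1) + 1 - ∑ e`, but `0 ≤ ∑ e ≤ h (k - 1)` (`Finset.sum_le_card_nsmul`), so
`1 ≤ h (k-1) + 1 - ∑ e ≤ h (k-1) + 1 < q`, contradiction. -/
theorem miss_ap {h : ℕ} (hh : 2 ≤ h) (N : AddSubgroup G) (x g : G) (k : ℕ) (hg : Gen N g)
    (hk : (k : ℤ) = ((N.index : ℤ) - 2) / (h : ℤ) + 1) :
    Miss h {y | ∃ i < k, y - (x + i • g) ∈ N} := by
  rcases Nat.eq_zero_or_pos k with hk0 | hk0
  · refine ⟨0, fun f hf => ?_⟩
    obtain ⟨i, hi, _⟩ := hf ⟨0, by omega⟩
    omega
  · have hq : (h : ℤ) * ((k : ℤ) - 1) + 2 ≤ (N.index : ℤ) := by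
      have h1 : (k : ℤ) - 1 = ((N.index : ℤ) - 2) / (h : ℤ) := by omega
      rw [h1]
      have h2 := Int.mul_ediv_self_le (x := (N.index : ℤ) - 2) (k := (h : ℤ)) (by omega)
      linarith
    refine ⟨h • x + (h * (k - 1) + 1) • g, fun f hf hsum => ?_⟩
    choose e he1 he2 using hf
    have hd := sum_idx hg he2 (m := h * (k - 1) + 1) (by rw [hsum, sub_self]; exact N.zero_mem)
    have hle : ∑ i, e i ≤ h * (k - 1) := by
      have := Finset.sum_le_card_nsmul (Finset.univ : Finset (Fin h)) e (k - 1)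
        (fun i _ => by have := he1 i; omega)
      rwa [Finset.card_univ, Fintype.card_fin, smul_eq_mul] at this
    have hk1 : ((h * (k - 1) : ℕ) : ℤ) = (h : ℤ) * ((k : ℤ) - 1) := by
      push_cast [Nat.cast_sub hk0]
      ring
    generalize ∑ i, e i = E at *
    generalize h * (k - 1) = P at *
    have h3 := Int.le_of_dvd (by push_cast; omega) hd
    push_cast at h3 hk1
    omega

/-- **Row Z1 (2).** Type `TWO`. PROOF. `z := (h - 1) • v + u`. Suppose `∑ f = z`, `f i ∈ A`. For every `i`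
choose `e i ≤ t` with `f i - (x + e i • g) ∈ L` and (`e i = t → f i - v ∈ K`) and
(`e i = t - 1 → f i - u ∉ K`, for which in the case `t - 1` we are in the second clause):
first clause: `e i = i' < t - 1`; second: `e i = t - 1`; third: `e i = t` (`K ≤ L`).
`z - (h • x + (h t - 1) • g) ∈ L` (from `hu, hv`; `h t - 1 = (h - 1) t + (t - 1)`). `sum_idx`:
`h t ∣ (h t - 1) - ∑ e`, and `0 ≤ ∑ e ≤ h t`, so `∑ e = h t - 1`. Hence `∑ (t - e i) = 1`: exactly one
index `j` has `e j = t - 1` and all the others `e i = t` (`Finset.sum_eq_one_iff` or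
`Finset.exists_ne_zero_of_sum_ne_zero` and `Finset.add_sum_erase`). Then
`z - ∑_{i ≠ j} f i = f j`, `f j - u = (h - 1) • v - ∑_{i ≠ j} f i = -∑_{i ≠ j} (f i - v) ∈ K`,
contradiction. -/
theorem miss_two {h : ℕ} (hh : 2 ≤ h) (K L : AddSubgroup G) (hKL : K ≤ L) (x g u v : G) (t : ℕ)
    (ht : 1 ≤ t) (hg : Gen L g) (hq : L.index = h * t) (hu : u - (x + (t - 1) • g) ∈ L)
    (hv : v - (x + t • g) ∈ L) :
    Miss h {y | (∃ i < t - 1, y - (x + i • g) ∈ L) ∨ (y - u ∈ L ∧ y - u ∉ K) ∨ y - v ∈ K} := by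
  obtain ⟨h', rfl⟩ : ∃ h', h = h' + 1 := ⟨h - 1, by omega⟩
  obtain ⟨t', rfl⟩ : ∃ t', t = t' + 1 := ⟨t - 1, by omega⟩
  simp only [Nat.add_sub_cancel] at hu ⊢
  refine ⟨h' • v + u, fun f hf hsum => ?_⟩
  have hex : ∀ i, ∃ e : ℕ, e ≤ t' + 1 ∧ f i - (x + e • g) ∈ L ∧ (e = t' + 1 → f i - v ∈ K) ∧
      (e = t' → f i - u ∉ K) := by
    intro i
    rcases hf i with ⟨j, hj, hj2⟩ | ⟨h1, h2⟩ | h1
    · exact ⟨j, by omega, hj2, fun h => by omega, fun h => by omega⟩
    · refine ⟨t', by omega, ?_, fun h => by omega, fun _ => h2⟩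
      have := L.add_mem h1 hu
      have e1 : f i - u + (u - (x + t' • g)) = f i - (x + t' • g) := by abel
      rwa [e1] at this
    · refine ⟨t' + 1, le_rfl, ?_, fun _ => h1, fun h => by omega⟩
      have := L.add_mem (hKL h1) hv
      have e1 : f i - v + (v - (x + (t' + 1) • g)) = f i - (x + (t' + 1) • g) := by abel
      rwa [e1] at this
  choose e he1 he2 he3 he4 using hex
  have hd := sum_idx hg he2 (m := h' * (t' + 1) + t') (by
    rw [hsum]
    have := L.add_mem (L.nsmul_mem hv h') hu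
    have e1 : h' • (v - (x + (t' + 1) • g)) + (u - (x + t' • g)) =
        h' • v + u - ((h' + 1) • x + (h' * (t' + 1) + t') • g) := by
      rw [add_nsmul x h' 1, add_nsmul g (h' * (t' + 1)) t', mul_nsmul', nsmul_sub, nsmul_add,
        one_nsmul]
      abel
    rwa [e1] at this)
  have hle : ∑ i, e i ≤ (h' + 1) * (t' + 1) := by
    have := Finset.sum_le_card_nsmul (Finset.univ : Finset (Fin (h' + 1))) e (t' + 1)
      (fun i _ => he1 i)
    rwa [Finset.card_univ, Fintype.card_fin, smul_eq_mul] at this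
  have hexp : (h' + 1) * (t' + 1) = h' * (t' + 1) + t' + 1 := by ring
  have hpos : 1 ≤ h' * (t' + 1) := Nat.one_le_iff_ne_zero.2 (by
    intro h0
    rcases Nat.mul_eq_zero.1 h0 with h1 | h1 <;> omega)
  have hse : ∑ i, e i = h' * (t' + 1) + t' := by
    rw [hq, hexp] at hd
    generalize h' * (t' + 1) = P at *
    generalize ∑ i, e i = E at *
    obtain ⟨c, hc⟩ := hd
    push_cast at hc
    have hc0 : c = 0 := by
      by_contra hne
      rcases Int.lt_or_gt_of_ne hne with h3 | h3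
      · have : ((P : ℤ) + t' + 1) * c ≤ ((P : ℤ) + t' + 1) * (-1) :=
          mul_le_mul_of_nonneg_left (by omega) (by omega)
        omega
      · have : ((P : ℤ) + t' + 1) * 1 ≤ ((P : ℤ) + t' + 1) * c :=
          mul_le_mul_of_nonneg_left (by omega) (by omega)
        omega
    rw [hc0] at hc
    omega
  have hs1 : ∑ i, (t' + 1 - e i) = 1 := by
    have h1 : ∑ i, (t' + 1 - e i) + ∑ i, e i = (h' + 1) * (t' + 1) := by
      rw [← Finset.sum_add_distrib]
      rw [Finset.sum_congr rfl (fun i _ => Nat.sub_add_cancel (he1 i)), Finset.sum_const,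
        Finset.card_univ, Fintype.card_fin, smul_eq_mul]
    omega
  obtain ⟨j, -, hj⟩ := Finset.exists_ne_zero_of_sum_ne_zero (s := Finset.univ)
    (f := fun i => t' + 1 - e i) (by rw [hs1]; exact one_ne_zero)
  have hj2 := Finset.add_sum_erase Finset.univ (fun i => t' + 1 - e i) (Finset.mem_univ j)
  rw [hs1] at hj2
  have hj3 : ∑ i ∈ Finset.univ.erase j, (t' + 1 - e i) = 0 := by omega
  rw [Finset.sum_eq_zero_iff] at hj3
  have hj4 : e j = t' := by
    have := he1 j
    have h0 : ∑ i ∈ Finset.univ.erase j, (t' + 1 - e i) = 0 := Finset.sum_eq_zero hj3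
    omega
  apply he4 j hj4
  have hK : ∑ i ∈ Finset.univ.erase j, (f i - v) ∈ K := by
    refine K.sum_mem (fun i hi => he3 i ?_)
    have := hj3 i hi
    have := he1 i
    omega
  rw [Finset.sum_sub_distrib, Finset.sum_const, Finset.card_erase_of_mem (Finset.mem_univ j),
    Finset.card_univ, Fintype.card_fin, Nat.add_sub_cancel] at hK
  have hf1 := Finset.add_sum_erase Finset.univ f (Finset.mem_univ j)
  rw [hsum] at hf1
  have hf2 : f j - u = -(∑ i ∈ Finset.univ.erase j, f i - h' • v) := by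
    have : ∑ i ∈ Finset.univ.erase j, f i = h' • v + u - f j := by rw [← hf1]; abel
    rw [this]; abel
  rw [hf2]
  exact K.neg_mem hK

end Pool.Agent.SPN
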